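import Mathlib

open Matrix Polynomial

namespace Pool.Agent.Helper324

/-- A complex function on a complex vector space whose restriction to each affine line
is a polynomial. -/
def LP {V : Type*} [AddCommGroup V] [Module ℂ V] (f : V → ℂ) : Prop :=
  ∀ x y : V, ∃ p : ℂ[X], ∀ t : ℂ, f (x + t • y) = p.eval t

section
variable {V W : Type*} [AddCommGroup V] [Module ℂ V] [AddCommGroup W] [Module ℂ W]

theorem LP.const (c : ℂ) : LP (fun _ : V => c) := fun _ _ => ⟨C c, by simp⟩

theorem LP.add {f g : V → ℂ} (hf : LP f) (hg : LP g) : LP (fun x => f x + g x) := by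
  intro x y
  obtain ⟨p, hp⟩ := hf x y
  obtain ⟨q, hq⟩ := hg x y
  exact ⟨p + q, by intro t; simp [hp, hq]⟩

theorem LP.mul {f g : V → ℂ} (hf : LP f) (hg : LP g) : LP (fun x => f x * g x) := by
  intro x y
  obtain ⟨p, hp⟩ := hf x y
  obtain ⟨q, hq⟩ := hg x y
  exact ⟨p * q, by intro t; simp [hp, hq]⟩

theorem LP.neg {f : V → ℂ} (hf : LP f) : LP (fun x => - f x) := by
  intro x y
  obtain ⟨p, hp⟩ := hf x y
  exact ⟨-p, by intro t; simp [hp]⟩

theorem LP.sub {f g : V → ℂ} (hf : LP f) (hg : LP g) : LP (fun x => f x - g x) := by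
  intro x y
  obtain ⟨p, hp⟩ := hf x y
  obtain ⟨q, hq⟩ := hg x y
  exact ⟨p - q, by intro t; simp [hp, hq]⟩

theorem LP.pow {f : V → ℂ} (hf : LP f) (k : ℕ) : LP (fun x => f x ^ k) := by
  intro x y
  obtain ⟨p, hp⟩ := hf x y
  exact ⟨p ^ k, by intro t; simp [hp]⟩

theorem LP.sum {ι : Type*} (s : Finset ι) {f : ι → V → ℂ} (hf : ∀ i ∈ s, LP (f i)) :
    LP (fun x => ∑ i ∈ s, f i x) := by
  classical
  induction s using Finset.induction_on with
  | empty => simpa using LP.const (V := V) 0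
  | insert a s ha ih =>
    have h1 := hf a (Finset.mem_insert_self a s)
    have h2 := ih (fun i hi => hf i (Finset.mem_insert_of_mem hi))
    simpa [Finset.sum_insert ha] using h1.add h2

theorem LP.prod {ι : Type*} (s : Finset ι) {f : ι → V → ℂ} (hf : ∀ i ∈ s, LP (f i)) :
    LP (fun x => ∏ i ∈ s, f i x) := by
  classical
  induction s using Finset.induction_on with
  | empty => simpa using LP.const (V := V) 1
  | insert a s ha ih =>
    have h1 := hf a (Finset.mem_insert_self a s)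
    have h2 := ih (fun i hi => hf i (Finset.mem_insert_of_mem hi))
    simpa [Finset.prod_insert ha] using h1.mul h2

theorem LP.linear (f : V →ₗ[ℂ] ℂ) : LP (fun x => f x) := by
  intro x y
  exact ⟨C (f x) + C (f y) * X, by intro t; simp only [map_add, map_smul, smul_eq_mul, Polynomial.eval_add, Polynomial.eval_mul, Polynomial.eval_C, Polynomial.eval_X]; ring⟩

theorem LP.comp {f : W → ℂ} (hf : LP f) (L : V →ₗ[ℂ] W) : LP (fun x => f (L x)) := by
  intro x y
  obtain ⟨p, hp⟩ := hf (L x) (L y)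
  exact ⟨p, by intro t; simp [← hp]⟩

theorem LP.domain {f g : V → ℂ} (hf : LP f) (hg : LP g) (h1 : ∃ x, f x ≠ 0)
    (h2 : ∃ x, g x ≠ 0) : ∃ x, f x ≠ 0 ∧ g x ≠ 0 := by
  obtain ⟨x0, hx0⟩ := h1
  obtain ⟨x1, hx1⟩ := h2
  obtain ⟨p, hp⟩ := hf x0 (x1 - x0)
  obtain ⟨q, hq⟩ := hg x0 (x1 - x0)
  have hp0 : p ≠ 0 := by
    rintro rfl
    apply hx0
    have := hp 0
    simpa using this
  have hq0 : q ≠ 0 := by
    rintro rfl
    apply hx1
    have := hq 1
    simpa using this
  obtain ⟨t, ht⟩ := Polynomial.exists_eval_ne_zero_of_natDegree_lt_card (p * q)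
    (mul_ne_zero hp0 hq0) (by
      rw [Cardinal.mk_complex]
      exact (Cardinal.natCast_lt_aleph0).trans Cardinal.aleph0_lt_continuum)
  refine ⟨x0 + t • (x1 - x0), ?_, ?_⟩
  · rw [hp]
    intro h
    apply ht
    simp [h]
  · rw [hq]
    intro h
    apply ht
    simp [h]

theorem LP.identity {f g : V → ℂ} (hf : LP f) (hg : LP g) (h1 : ∃ x, g x ≠ 0)
    (h2 : ∀ x, g x ≠ 0 → f x = 0) : ∀ x, f x = 0 := by
  by_contra hcon
  push Not at hcon
  obtain ⟨x, hx1, hx2⟩ := LP.domain hf hg hcon h1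
  exact hx1 (h2 x hx2)

theorem LP.mul_eq_zero {f g : V → ℂ} (hf : LP f) (hg : LP g)
    (h : ∀ x, f x * g x = 0) : (∀ x, f x = 0) ∨ (∀ x, g x = 0) := by
  by_contra hcon
  push Not at hcon
  obtain ⟨x, hx1, hx2⟩ := LP.domain hf hg hcon.1 hcon.2
  exact mul_ne_zero hx1 hx2 (h x)

theorem LP.exists_forall_ne {ι : Type*} (s : Finset ι) {f : ι → V → ℂ}
    (hf : ∀ i ∈ s, LP (f i)) (h : ∀ i ∈ s, ∃ x, f i x ≠ 0) : ∃ x, ∀ i ∈ s, f i x ≠ 0 := by
  classical
  induction s using Finset.induction_on with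
  | empty => exact ⟨0, by simp⟩
  | insert a s ha ih =>
    have h1 := hf a (Finset.mem_insert_self a s)
    have h2 := ih (fun i hi => hf i (Finset.mem_insert_of_mem hi))
      (fun i hi => h i (Finset.mem_insert_of_mem hi))
    obtain ⟨y, hy⟩ := h2
    have h3 : LP (fun x => ∏ i ∈ s, f i x) :=
      LP.prod s (fun i hi => hf i (Finset.mem_insert_of_mem hi))
    obtain ⟨x, hx1, hx2⟩ := LP.domain h1 h3 (h a (Finset.mem_insert_self a s))
      ⟨y, Finset.prod_ne_zero_iff.mpr hy⟩
    refine ⟨x, ?_⟩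
    intro i hi
    rcases Finset.mem_insert.mp hi with rfl | hi
    · exact hx1
    · exact Finset.prod_ne_zero_iff.mp hx2 i hi

/-- matrix valued version -/
def LPM {k l : Type*} (f : V → Matrix k l ℂ) : Prop := ∀ i j, LP (fun x => f x i j)

variable {k l m : Type*}

theorem LPM.const (A : Matrix k l ℂ) : LPM (fun _ : V => A) := fun i j => LP.const (A i j)

theorem LPM.add {f g : V → Matrix k l ℂ} (hf : LPM f) (hg : LPM g) :
    LPM (fun x => f x + g x) := fun i j => (hf i j).add (hg i j)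

theorem LPM.sub {f g : V → Matrix k l ℂ} (hf : LPM f) (hg : LPM g) :
    LPM (fun x => f x - g x) := fun i j => (hf i j).sub (hg i j)

theorem LPM.neg {f : V → Matrix k l ℂ} (hf : LPM f) :
    LPM (fun x => - f x) := fun i j => (hf i j).neg

theorem LPM.transpose {f : V → Matrix k l ℂ} (hf : LPM f) :
    LPM (fun x => (f x)ᵀ) := fun i j => hf j i

theorem LPM.mul [Fintype l] {f : V → Matrix k l ℂ} {g : V → Matrix l m ℂ}
    (hf : LPM f) (hg : LPM g) : LPM (fun x => f x * g x) := by
  intro i j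
  simp only [Matrix.mul_apply]
  exact LP.sum _ (fun a _ => (hf i a).mul (hg a j))

theorem LPM.smul {f : V → Matrix k l ℂ} {c : V → ℂ} (hc : LP c) (hf : LPM f) :
    LPM (fun x => c x • f x) := by
  intro i j
  simp only [Matrix.smul_apply, smul_eq_mul]
  exact hc.mul (hf i j)

theorem LPM.pow [Fintype k] [DecidableEq k] {f : V → Matrix k k ℂ} (hf : LPM f) (r : ℕ) :
    LPM (fun x => f x ^ r) := by
  induction r with
  | zero => simpa using LPM.const (V := V) (1 : Matrix k k ℂ)
  | succ r ih => simpa [pow_succ] using ih.mul hf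

theorem LPM.linear (L : V →ₗ[ℂ] Matrix k l ℂ) : LPM (fun x => L x) := by
  intro i j
  have := LP.linear (Matrix.entryLinearMap ℂ ℂ i j ∘ₗ L)
  simpa using this

theorem LPM.sum {ι : Type*} (s : Finset ι) {f : ι → V → Matrix k l ℂ}
    (hf : ∀ i ∈ s, LPM (f i)) : LPM (fun x => ∑ i ∈ s, f i x) := by
  intro i j
  simp only [Matrix.sum_apply]
  exact LP.sum _ (fun a ha => hf a ha i j)

theorem LPM.trace [Fintype k] {f : V → Matrix k k ℂ} (hf : LPM f) :
    LP (fun x => (f x).trace) := by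
  simp only [Matrix.trace, Matrix.diag]
  exact LP.sum _ (fun a _ => hf a a)

theorem LPM.det [Fintype k] [DecidableEq k] {f : V → Matrix k k ℂ} (hf : LPM f) :
    LP (fun x => (f x).det) := by
  simp only [Matrix.det_apply']
  exact LP.sum _ (fun a _ => (LP.const _).mul (LP.prod _ (fun i _ => hf _ _)))

theorem LPM.charpoly_coeff [Fintype k] [DecidableEq k] {f : V → Matrix k k ℂ} (hf : LPM f)
    (r : ℕ) : LP (fun x => (f x).charpoly.coeff r) := by
  intro x y
  choose p hp using fun i j => hf i j x y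
  refine ⟨(Matrix.of p).charpoly.coeff r, ?_⟩
  intro t
  have h1 : f (x + t • y) = (Matrix.of p).map (Polynomial.evalRingHom t) := by
    ext i j
    simp [hp]
  show (f (x + t • y)).charpoly.coeff r = _
  rw [h1, Matrix.charpoly_map, Polynomial.coeff_map]
  simp

/-- evaluation of a polynomial with LP coefficients and bounded degree -/
theorem LPM.aeval [Fintype k] [DecidableEq k] {f : V → Matrix k k ℂ} (hf : LPM f)
    {q : V → ℂ[X]} (N : ℕ) (hq : ∀ r, LP (fun x => (q x).coeff r))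
    (hN : ∀ x, (q x).natDegree < N) : LPM (fun x => Polynomial.aeval (f x) (q x)) := by
  have : (fun x => Polynomial.aeval (f x) (q x)) =
      fun x => ∑ i ∈ Finset.range N, (q x).coeff i • f x ^ i := by
    funext x
    rw [Polynomial.aeval_eq_sum_range' (hN x)]
  rw [this]
  exact LPM.sum _ (fun i _ => LPM.smul (hq i) (hf.pow i))

end

end Pool.Agent.Helper324
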