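import Mathlib
import Pool.Agent.Helper324.LP

open Matrix Polynomial

namespace Pool.Agent.Helper324

variable {n : ℕ}

/-- Hankel determinant of the power traces. -/
noncomputable def hankel (C : Matrix (Fin n) (Fin n) ℂ) : ℂ :=
  (Matrix.of fun i j : Fin n => (C ^ ((i : ℕ) + (j : ℕ))).trace).det

theorem roots_toFinset_eq {A B : Matrix (Fin n) (Fin n) ℂ}
    (h : spectrum ℂ A = spectrum ℂ B) :
    A.charpoly.roots.toFinset = B.charpoly.roots.toFinset := by
  ext r
  have h1 : r ∈ spectrum ℂ A ↔ r ∈ spectrum ℂ B := by rw [h]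
  rw [Matrix.mem_spectrum_iff_isRoot_charpoly, Matrix.mem_spectrum_iff_isRoot_charpoly] at h1
  rw [Multiset.mem_toFinset, Multiset.mem_toFinset,
    Polynomial.mem_roots (Matrix.charpoly_monic A).ne_zero,
    Polynomial.mem_roots (Matrix.charpoly_monic B).ne_zero]
  exact h1

theorem charpoly_eq_prod (A : Matrix (Fin n) (Fin n) ℂ) :
    A.charpoly = (A.charpoly.roots.map (fun a => X - C a)).prod :=
  (IsAlgClosed.splits A.charpoly).eq_prod_roots_of_monic (Matrix.charpoly_monic A)

theorem card_roots (A : Matrix (Fin n) (Fin n) ℂ) :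
    Multiset.card A.charpoly.roots = n := by
  have h := (IsAlgClosed.splits A.charpoly).natDegree_eq_card_roots
  rw [← h, Matrix.charpoly_natDegree_eq_dim]
  simp

theorem card_toFinset_of_hankel {A : Matrix (Fin n) (Fin n) ℂ} (h : hankel A ≠ 0) :
    A.charpoly.roots.toFinset.card = n := by
  classical
  by_contra hne
  have hle : A.charpoly.roots.toFinset.card ≤ n := by
    calc A.charpoly.roots.toFinset.card ≤ Multiset.card A.charpoly.roots :=
          Multiset.toFinset_card_le _
      _ = n := card_roots A
  have hlt : A.charpoly.roots.toFinset.card < n := lt_of_le_of_ne hle hne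
  set s := A.charpoly.roots.toFinset with hs
  set p : ℂ[X] := ∏ a ∈ s, (X - C a) with hp
  have hpdeg : p.natDegree = s.card := by
    rw [hp, Polynomial.natDegree_prod_of_monic _ _ (fun a _ => monic_X_sub_C a)]
    simp
  have hpmonic : p.Monic := monic_prod_of_monic _ _ (fun a _ => monic_X_sub_C a)
  have hdvd : A.charpoly ∣ p ^ n := by
    rw [charpoly_eq_prod A]
    have : ∀ m : Multiset ℂ, (∀ a ∈ m, a ∈ s) →
        (m.map (fun a => X - C a)).prod ∣ p ^ (Multiset.card m) := by
      intro m
      induction m using Multiset.induction_on with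
      | empty => intro _; simp
      | cons a m ih =>
        intro hm
        rw [Multiset.map_cons, Multiset.prod_cons, Multiset.card_cons, pow_succ, mul_comm]
        apply mul_dvd_mul
        · exact ih (fun b hb => hm b (Multiset.mem_cons_of_mem hb))
        · exact Finset.dvd_prod_of_mem _ (hm a (Multiset.mem_cons_self a m))
    have h2 := this A.charpoly.roots (fun a ha => Multiset.mem_toFinset.mpr ha)
    rwa [card_roots] at h2
  have hnil : IsNilpotent (aeval A p) := by
    refine ⟨n, ?_⟩
    rw [← map_pow]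
    obtain ⟨q, hq⟩ := hdvd
    rw [hq, map_mul, Matrix.aeval_self_charpoly, zero_mul]
  have htr : ∀ i : ℕ, (A ^ i * aeval A p).trace = 0 := by
    intro i
    have hcomm : Commute (A ^ i) (aeval A p) := by
      have h1 : A ^ i = aeval A (X ^ i : ℂ[X]) := by simp
      rw [h1]
      exact (Commute.all (X ^ i : ℂ[X]) p).map (aeval A)
    have h2 : IsNilpotent (A ^ i * aeval A p) := hcomm.isNilpotent_mul_left hnil
    exact (Matrix.isNilpotent_trace_of_isNilpotent h2).eq_zero
  apply h
  rw [hankel, ← Matrix.exists_mulVec_eq_zero_iff]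
  refine ⟨fun j => p.coeff j, ?_, ?_⟩
  · intro h0
    have h1 := congrFun h0 ⟨s.card, hlt⟩
    simp only [Pi.zero_apply] at h1
    rw [← hpdeg, Polynomial.coeff_natDegree, hpmonic.leadingCoeff] at h1
    exact one_ne_zero h1
  · funext i
    have h1 := htr i
    rw [Polynomial.aeval_eq_sum_range' (n := n) (by rw [hpdeg]; exact hlt)] at h1
    rw [Finset.mul_sum, Matrix.trace_sum, Finset.sum_range] at h1
    simp only [Matrix.mulVec, dotProduct, Matrix.of_apply, Pi.zero_apply]
    rw [← h1]
    apply Finset.sum_congr rfl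
    intro j _
    rw [mul_smul_comm, Matrix.trace_smul, ← pow_add, smul_eq_mul, mul_comm]

theorem charpoly_eq_of_hankel {A B : Matrix (Fin n) (Fin n) ℂ} (h : hankel A ≠ 0)
    (hAB : spectrum ℂ A = spectrum ℂ B) : A.charpoly = B.charpoly := by
  have h1 := card_toFinset_of_hankel h
  have h2 := roots_toFinset_eq hAB
  have h3 : B.charpoly.roots.toFinset.card = n := by rw [← h2]; exact h1
  have hA : A.charpoly.roots.Nodup := by
    rw [← Multiset.toFinset_card_eq_card_iff_nodup, h1, card_roots]
  have hB : B.charpoly.roots.Nodup := by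
    rw [← Multiset.toFinset_card_eq_card_iff_nodup, h3, card_roots]
  have h4 : A.charpoly.roots = B.charpoly.roots := by
    have := congrArg Finset.val h2
    rw [Multiset.toFinset_val, Multiset.toFinset_val, Multiset.dedup_eq_self.mpr hA,
      Multiset.dedup_eq_self.mpr hB] at this
    exact this
  rw [charpoly_eq_prod A, charpoly_eq_prod B, h4]

theorem trace_sq_eq {A B : Matrix (Fin n) (Fin n) ℂ} (h : A.charpoly = B.charpoly) :
    (A * A).trace = (B * B).trace := by
  have key : ∀ (M : Matrix (Fin n) (Fin n) ℂ) (r : ℂ),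
      (M * M).charpoly.eval (r * r) =
        M.charpoly.eval r * ((-1) ^ n * M.charpoly.eval (-r)) := by
    intro M r
    rw [Matrix.eval_charpoly, Matrix.eval_charpoly, Matrix.eval_charpoly]
    have h1 : (Matrix.scalar (Fin n)) (r * r) - M * M =
        ((Matrix.scalar (Fin n)) r - M) * (-((Matrix.scalar (Fin n)) (-r) - M)) := by
      have hc : (Matrix.scalar (Fin n)) r * M = M * (Matrix.scalar (Fin n)) r :=
        (Matrix.scalar_commute r (fun r' => mul_comm r r') M)
      rw [map_neg, map_mul, sub_mul, mul_neg, mul_neg, mul_sub, mul_sub, mul_neg, mul_neg, hc]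
      abel
    rw [h1, Matrix.det_mul, Matrix.det_neg]
    simp
  have h2 : (A * A).charpoly = (B * B).charpoly := by
    apply Polynomial.funext
    intro r
    obtain ⟨z, hz⟩ := IsAlgClosed.exists_pow_nat_eq r (n := 2) (by norm_num)
    have hz' : r = z * z := by rw [← hz]; ring
    rw [hz', key, key, h]
  rcases Nat.eq_zero_or_pos n with rfl | hn
  · simp
  · have : Nonempty (Fin n) := ⟨⟨0, hn⟩⟩
    rw [Matrix.trace_eq_neg_charpoly_nextCoeff, Matrix.trace_eq_neg_charpoly_nextCoeff, h2]

theorem LPM.hankel {V : Type*} [AddCommGroup V] [Module ℂ V]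
    {f : V → Matrix (Fin n) (Fin n) ℂ} (hf : LPM f) :
    LP (fun x => Pool.Agent.Helper324.hankel (f x)) := by
  unfold Pool.Agent.Helper324.hankel
  exact LPM.det (f := fun x => Matrix.of fun i j : Fin n => ((f x) ^ ((i : ℕ) + (j : ℕ))).trace)
    (fun i j => LPM.trace (hf.pow _))

theorem exists_good (n : ℕ) : ∃ T S : Matrix (Fin n) (Fin n) ℂ,
    hankel (T * S - S * T) ≠ 0 := by
  let T : Matrix (Fin n) (Fin n) ℂ := Matrix.of fun i j =>
    if (j : ℕ) = (i : ℕ) + 1 then (((i : ℕ) + 1 : ℕ) : ℂ) * (n - 1 - (i : ℕ)) else 0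
  let S : Matrix (Fin n) (Fin n) ℂ := Matrix.of fun i j =>
    if (i : ℕ) = (j : ℕ) + 1 then 1 else 0
  refine ⟨T, S, ?_⟩
  have hC : T * S - S * T = Matrix.diagonal (fun i : Fin n => ((n : ℂ) - 1 - 2 * (i : ℕ))) := by
    ext i j
    rw [Matrix.sub_apply, Matrix.mul_apply, Matrix.mul_apply, Matrix.diagonal_apply]
    have h1 : ∑ k, T i k * S k j =
        if i = j then (((i : ℕ) + 1 : ℕ) : ℂ) * (n - 1 - (i : ℕ)) else 0 := by
      by_cases hi : (i : ℕ) + 1 < n
      · rw [Finset.sum_eq_single (⟨(i : ℕ) + 1, hi⟩ : Fin n)]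
        · simp only [T, S, Matrix.of_apply, if_true, add_left_inj]
          by_cases hij : i = j
          · simp [hij]
          · have : ¬ ((i : ℕ) = (j : ℕ)) := fun h => hij (Fin.ext h)
            simp [hij, this]
        · intro k _ hk
          have : ¬ ((k : ℕ) = (i : ℕ) + 1) := fun h => hk (Fin.ext h)
          simp [T, this]
        · simp
      · have hz : ∀ k : Fin n, T i k = 0 := by
          intro k
          have : ¬ ((k : ℕ) = (i : ℕ) + 1) := fun h => hi (h ▸ k.isLt)
          simp [T, this]
        have hi2 : (i : ℕ) + 1 = n := by have := i.isLt; omega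
        have hi3 : (n : ℂ) = (i : ℕ) + 1 := by exact_mod_cast hi2.symm
        simp only [hz, zero_mul, Finset.sum_const_zero]
        rw [hi3]
        by_cases hij : i = j <;> simp [hij]
    have h2 : ∑ k, S i k * T k j =
        if i = j then ((i : ℕ) : ℂ) * (n - (i : ℕ)) else 0 := by
      by_cases hi : 0 < (i : ℕ)
      · have hi' : (i : ℕ) - 1 < n := by have := i.isLt; omega
        rw [Finset.sum_eq_single (⟨(i : ℕ) - 1, hi'⟩ : Fin n)]
        · simp only [T, S, Matrix.of_apply]
          have e1 : (i : ℕ) = ((i : ℕ) - 1) + 1 := by omega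
          rw [if_pos e1]
          by_cases hij : i = j
          · rw [if_pos (by rw [← hij]; exact e1), if_pos hij]
            have e2 : (((i : ℕ) - 1 : ℕ) : ℂ) = (i : ℕ) - 1 := by
              rw [Nat.cast_sub (by omega)]; simp
            rw [← e1, e2]
            ring
          · have : ¬ ((j : ℕ) = ((i : ℕ) - 1) + 1) := by
              intro h
              apply hij
              apply Fin.ext
              omega
            rw [if_neg this, if_neg hij]
            simp
        · intro k _ hk
          have : ¬ ((i : ℕ) = (k : ℕ) + 1) := fun h => hk (Fin.ext (by simp; omega))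
          simp [S, this]
        · simp
      · have hz : ∀ k : Fin n, S i k = 0 := by
          intro k
          have : ¬ ((i : ℕ) = (k : ℕ) + 1) := by omega
          simp [S, this]
        have hi0 : (i : ℕ) = 0 := by omega
        simp [hz, hi0]
    rw [h1, h2]
    by_cases hij : i = j
    · simp only [hij, if_true]
      push_cast
      ring
    · simp [hij]
  rw [hC]
  set d : Fin n → ℂ := fun i => ((n : ℂ) - 1 - 2 * (i : ℕ)) with hd
  have hmat : (Matrix.of fun i j : Fin n => ((Matrix.diagonal d) ^ ((i : ℕ) + (j : ℕ))).trace) =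
      (Matrix.vandermonde d)ᵀ * Matrix.vandermonde d := by
    ext i j
    rw [Matrix.mul_apply, Matrix.of_apply, Matrix.diagonal_pow, Matrix.trace_diagonal]
    apply Finset.sum_congr rfl
    intro k _
    simp [Matrix.vandermonde, pow_add]
  rw [hankel, hmat, Matrix.det_mul, Matrix.det_transpose]
  apply mul_self_ne_zero.mpr
  rw [Matrix.det_vandermonde_ne_zero_iff]
  intro i j hij
  simp only [hd] at hij
  have : ((i : ℕ) : ℂ) = (j : ℕ) := by linear_combination (-1/2 : ℂ) * hij
  exact Fin.ext (by exact_mod_cast this)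

end Pool.Agent.Helper324
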