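import Mathlib
import Pool.Agent.Helper324.Gram

open Matrix Polynomial Module

namespace Pool.Agent.Helper324

variable {n : ℕ}

theorem LP.bilin {V : Type*} [AddCommGroup V] [Module ℂ V] (β : V →ₗ[ℂ] V →ₗ[ℂ] ℂ) :
    LP (fun x => β x x) := by
  intro x y
  refine ⟨C (β x x) + C (β x y + β y x) * X + C (β y y) * X ^ 2, ?_⟩
  intro t
  simp only [map_add, map_smul, LinearMap.add_apply, LinearMap.smul_apply, smul_eq_mul,
    Polynomial.eval_add, Polynomial.eval_mul, Polynomial.eval_C, Polynomial.eval_X,
    Polynomial.eval_pow]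
  ring

theorem LP.functional_u (f : Module.End ℂ (Matrix (Fin n) (Fin n) ℂ) →ₗ[ℂ] ℂ) :
    LP (fun x => f (u x)) := by
  have h := LP.bilin (uu.compr₂ f)
  exact h

/-- `φ` preserves the spectrum of commutators -/
def Pres (φ : Matrix (Fin n) (Fin n) ℂ → Matrix (Fin n) (Fin n) ℂ) : Prop :=
  ∀ T S, spectrum ℂ (φ T * φ S - φ S * φ T) = spectrum ℂ (T * S - S * T)

variable {φ : Matrix (Fin n) (Fin n) ℂ → Matrix (Fin n) (Fin n) ℂ}

theorem FF_of_good (hφ : Pres φ) {T S : Matrix (Fin n) (Fin n) ℂ}
    (h : hankel (T * S - S * T) ≠ 0) : FF (φ T) (φ S) = FF T S :=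
  (trace_sq_eq (charpoly_eq_of_hankel h (hφ T S).symm)).symm

theorem LPM.comm_left (S : Matrix (Fin n) (Fin n) ℂ) :
    LPM (fun T : Matrix (Fin n) (Fin n) ℂ => T * S - S * T) :=
  ((LPM.linear LinearMap.id).mul (LPM.const S)).sub ((LPM.const S).mul (LPM.linear LinearMap.id))

theorem LPM.comm_right (T : Matrix (Fin n) (Fin n) ℂ) :
    LPM (fun S : Matrix (Fin n) (Fin n) ℂ => T * S - S * T) :=
  ((LPM.const T).mul (LPM.linear LinearMap.id)).sub ((LPM.linear LinearMap.id).mul (LPM.const T))

theorem exists_family (hφ : Pres φ) (k : ℕ) (hk : k ≤ finrank ℂ (WW n)) :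
    ∃ b : Fin k → Matrix (Fin n) (Fin n) ℂ, LinearIndependent ℂ (fun i => u (b i)) ∧
      (∀ i j, FF (φ (b i)) (φ (b j)) = FF (b i) (b j)) ∧
      (∀ i, ∃ T, hankel (T * b i - b i * T) ≠ 0) := by
  induction k with
  | zero =>
    exact ⟨Fin.elim0, linearIndependent_empty_type, fun i => i.elim0, fun i => i.elim0⟩
  | succ k ih =>
    obtain ⟨b, hb1, hb2, hb3⟩ := ih (by omega)
    have hx : ∃ x : Matrix (Fin n) (Fin n) ℂ, u x ∉ Submodule.span ℂ (Set.range fun i => u (b i)) := by
      by_contra hcon
      push Not at hcon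
      have hle : WW n ≤ Submodule.span ℂ (Set.range fun i => u (b i)) := by
        rw [WW, Submodule.span_le]
        rintro _ ⟨x, rfl⟩
        exact hcon x
      have h1 := Submodule.finrank_mono hle
      rw [finrank_span_eq_card hb1, Fintype.card_fin] at h1
      omega
    obtain ⟨x, hx⟩ := hx
    obtain ⟨f, hf1, hf2⟩ := Submodule.exists_le_ker_of_notMem hx
    obtain ⟨T0, S0, h0⟩ := exists_good n
    let g : Option (Option (Fin k)) → Matrix (Fin n) (Fin n) ℂ → ℂ := fun o T =>
      match o with
      | none => f (u T)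
      | some none => hankel (T0 * T - T * T0)
      | some (some i) => hankel (T * b i - b i * T)
    have hg : ∃ T, ∀ o ∈ Finset.univ, g o T ≠ 0 := by
      apply LP.exists_forall_ne
      · intro o _
        match o with
        | none => exact LP.functional_u f
        | some none => exact (LPM.comm_right T0).hankel
        | some (some i) => exact (LPM.comm_left (b i)).hankel
      · intro o _
        match o with
        | none => exact ⟨x, hf1⟩
        | some none => exact ⟨S0, h0⟩
        | some (some i) => exact hb3 i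
    obtain ⟨T, hT⟩ := hg
    have hT1 : f (u T) ≠ 0 := hT none (Finset.mem_univ _)
    have hT2 : hankel (T0 * T - T * T0) ≠ 0 := hT (some none) (Finset.mem_univ _)
    have hT3 : ∀ i, hankel (T * b i - b i * T) ≠ 0 :=
      fun i => hT (some (some i)) (Finset.mem_univ _)
    refine ⟨Fin.cons T b, ?_, ?_, ?_⟩
    · have h1 : (fun i => u ((Fin.cons T b : Fin (k + 1) → Matrix (Fin n) (Fin n) ℂ) i)) =
          Fin.cons (u T) (fun i => u (b i)) := by
        funext i
        refine Fin.cases ?_ (fun j => ?_) i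
        · simp
        · simp
      rw [h1, linearIndependent_finCons]
      refine ⟨hb1, fun hmem => hT1 ?_⟩
      exact LinearMap.mem_ker.mp (hf2 hmem)
    · intro i j
      refine Fin.cases ?_ (fun i => ?_) i
      · refine Fin.cases ?_ (fun j => ?_) j
        · simp [FF_self]
        · simpa using FF_of_good hφ (hT3 j)
      · refine Fin.cases ?_ (fun j => ?_) j
        · have h5 := FF_of_good hφ (hT3 i)
          simp only [Fin.cons_succ, Fin.cons_zero]
          rw [FF_comm, h5, FF_comm]
        · simpa using hb2 i j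
    · intro i
      refine Fin.cases ?_ (fun i => ?_) i
      · exact ⟨T0, by simpa using hT2⟩
      · simpa using hb3 i

theorem exists_lift (hn : n ≠ 0) (hφ : Pres φ) :
    ∃ (L : Module.End ℂ (Matrix (Fin n) (Fin n) ℂ) →ₗ[ℂ]
        Module.End ℂ (Matrix (Fin n) (Fin n) ℂ))
      (h : Matrix (Fin n) (Fin n) ℂ → ℂ), LP h ∧ (∃ x, h x ≠ 0) ∧
      (∀ x, h x ≠ 0 → L (u x) = u (φ x)) ∧ (∀ N ∈ WW n, L N = 0 → N = 0) := by
  obtain ⟨b, hb1, hb2, hb3⟩ := exists_family hφ (finrank ℂ (WW n)) le_rfl
  have hspan : Submodule.span ℂ (Set.range fun i => u (b i)) = WW n := by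
    apply Submodule.eq_of_le_of_finrank_eq
    · rw [Submodule.span_le]
      rintro _ ⟨i, rfl⟩
      exact u_mem_WW _
    · rw [finrank_span_eq_card hb1, Fintype.card_fin]
  -- key: a combination killed by all `ev (b j)` is zero
  have key : ∀ c : Fin (finrank ℂ (WW n)) → ℂ,
      (∀ j, ∑ i, c i * FF (b i) (b j) = 0) → ∀ i, c i = 0 := by
    intro c hc
    have h1 : ∀ S, ev S (∑ i, c i • u (b i)) = 0 := by
      have h2 : ∀ M ∈ WW n, ∑ i, c i * ev (b i) M = 0 := by
        intro M hM
        rw [← hspan] at hM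
        refine Submodule.span_induction (p := fun M _ => ∑ i, c i * ev (b i) M = 0)
          ?_ ?_ ?_ ?_ hM
        · rintro _ ⟨j, rfl⟩
          simp only [ev_u]
          rw [← hc j]
          exact Finset.sum_congr rfl (fun i _ => by rw [FF_comm])
        · simp
        · intro M M' _ _ h h'
          simp only [map_add, mul_add, Finset.sum_add_distrib, h, h', add_zero]
        · intro a M _ h
          simp only [map_smul, smul_eq_mul]
          rw [← mul_zero a, ← h, Finset.mul_sum]
          exact Finset.sum_congr rfl (fun i _ => by ring)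
      intro S
      rw [map_sum]
      have h3 := h2 (u S) (u_mem_WW S)
      rw [← h3]
      refine Finset.sum_congr rfl (fun i _ => ?_)
      rw [map_smul, ev_u, ev_u, FF_comm, smul_eq_mul]
    have h4 : ∑ i, c i • u (b i) = 0 := by
      apply nondeg hn _ h1
      exact Submodule.sum_mem _ (fun i _ => Submodule.smul_mem _ _ (u_mem_WW _))
    exact (Fintype.linearIndependent_iff.mp hb1) c h4
  have hb4 : LinearIndependent ℂ (fun i => u (φ (b i))) := by
    rw [Fintype.linearIndependent_iff]
    intro c hc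
    apply key c
    intro j
    have h1 : ev (φ (b j)) (∑ i, c i • u (φ (b i))) = 0 := by rw [hc, map_zero]
    rw [map_sum] at h1
    rw [← h1]
    refine Finset.sum_congr rfl (fun i _ => ?_)
    rw [map_smul, ev_u, smul_eq_mul, hb2]
  have hspan' : Submodule.span ℂ (Set.range fun i => u (φ (b i))) = WW n := by
    apply Submodule.eq_of_le_of_finrank_eq
    · rw [Submodule.span_le]
      rintro _ ⟨i, rfl⟩
      exact u_mem_WW _
    · rw [finrank_span_eq_card hb4, Fintype.card_fin]
  obtain ⟨L, hL⟩ := LinearMap.exists_extend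
    ((Basis.span hb1).constr ℂ (fun i => u (φ (b i))))
  have hLb : ∀ i, L (u (b i)) = u (φ (b i)) := by
    intro i
    have h1 := congrArg (fun g => g ((Basis.span hb1) i)) hL
    simp only [LinearMap.comp_apply, Basis.constr_basis, Submodule.subtype_apply] at h1
    rw [← h1]
    congr 1
    rw [Basis.span_apply]
  refine ⟨L, fun T => ∏ i, hankel (T * b i - b i * T), ?_, ?_, ?_, ?_⟩
  · exact LP.prod _ (fun i _ => (LPM.comm_left (b i)).hankel)
  · obtain ⟨T, hT⟩ := LP.exists_forall_ne Finset.univ
      (f := fun i T => hankel (T * b i - b i * T))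
      (fun i _ => (LPM.comm_left (b i)).hankel) (fun i _ => hb3 i)
    exact ⟨T, Finset.prod_ne_zero_iff.mpr hT⟩
  · intro T hT
    rw [Finset.prod_ne_zero_iff] at hT
    have h1 : ∀ i, FF (φ T) (φ (b i)) = FF T (b i) :=
      fun i => FF_of_good hφ (hT i (Finset.mem_univ _))
    have h2 : u T ∈ Submodule.span ℂ (Set.range fun i => u (b i)) := by
      rw [hspan]; exact u_mem_WW _
    have h3 : u (φ T) ∈ Submodule.span ℂ (Set.range fun i => u (φ (b i))) := by
      rw [hspan']; exact u_mem_WW _
    obtain ⟨c, hc⟩ := (Submodule.mem_span_range_iff_exists_fun ℂ).mp h2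
    obtain ⟨d, hd⟩ := (Submodule.mem_span_range_iff_exists_fun ℂ).mp h3
    have hcd : ∀ i, d i - c i = 0 := by
      apply key
      intro j
      have e1 := congrArg (ev (b j)) hc
      have e2 := congrArg (ev (φ (b j))) hd
      rw [map_sum, ev_u] at e1 e2
      simp only [map_smul, ev_u, smul_eq_mul] at e1 e2
      simp only [hb2] at e2
      simp only [sub_mul, Finset.sum_sub_distrib]
      rw [e1, e2, h1, sub_self]
    rw [← hc, ← hd, map_sum]
    refine Finset.sum_congr rfl (fun i _ => ?_)
    rw [map_smul, hLb, sub_eq_zero.mp (hcd i)]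
  · intro N hN hLN
    rw [← hspan] at hN
    obtain ⟨c, hc⟩ := (Submodule.mem_span_range_iff_exists_fun ℂ).mp hN
    rw [← hc, map_sum] at hLN
    simp only [map_smul, hLb] at hLN
    have h1 := (Fintype.linearIndependent_iff.mp hb4) c hLN
    rw [← hc]
    simp [h1]

end Pool.Agent.Helper324
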