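import Mathlib
import Pool.Agent.Helper324.Lift

open Matrix Polynomial Module

namespace Pool.Agent.Helper324

/-- coefficients of a pencil of rank one forms -/
theorem pencil {ι : Type*} (a b : ι → ℂ) (m : ι → ι → ℂ)
    (h : ∀ t : ℂ, ∀ p q r s,
      (a p * a q + 2 * t * m p q + t ^ 2 * (b p * b q)) *
        (a r * a s + 2 * t * m r s + t ^ 2 * (b r * b s)) =
      (a p * a s + 2 * t * m p s + t ^ 2 * (b p * b s)) *
        (a r * a q + 2 * t * m r q + t ^ 2 * (b r * b q))) (p q r s : ι) :
    (a p * a q * m r s + m p q * (a r * a s) = a p * a s * m r q + m p s * (a r * a q)) ∧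
    (a p * a q * (b r * b s) + 4 * m p q * m r s + b p * b q * (a r * a s) =
      a p * a s * (b r * b q) + 4 * m p s * m r q + b p * b s * (a r * a q)) ∧
    (m p q * (b r * b s) + b p * b q * m r s = m p s * (b r * b q) + b p * b s * m r q) := by
  have h1 := h 1 p q r s
  have h2 := h (-1) p q r s
  have h3 := h 2 p q r s
  refine ⟨?_, ?_, ?_⟩
  · linear_combination (1/2 : ℂ) * h1 - (1/6 : ℂ) * h2 - (1/12 : ℂ) * h3
  · linear_combination (1/2 : ℂ) * h1 + (1/2 : ℂ) * h2
  · linear_combination (-1/4 : ℂ) * h1 - (1/12 : ℂ) * h2 + (1/12 : ℂ) * h3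

/-- the candidate square root -/
theorem pencil_root {ι : Type*} (a b : ι → ℂ) (m : ι → ι → ℂ) (hm : ∀ p q, m p q = m q p)
    (o : ι) (ho : a o ≠ 0)
    (h : ∀ t : ℂ, ∀ p q r s,
      (a p * a q + 2 * t * m p q + t ^ 2 * (b p * b q)) *
        (a r * a s + 2 * t * m r s + t ^ 2 * (b r * b s)) =
      (a p * a s + 2 * t * m p s + t ^ 2 * (b p * b s)) *
        (a r * a q + 2 * t * m r q + t ^ 2 * (b r * b q)))
    (z : ι → ℂ) (hz : ∀ r, z r = (2 * m r o - m o o * a r / a o) / a o) :
    (∀ r s, m r s = (a r * z s + a s * z r) / 2) ∧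
    ((∀ r, b r = b o / a o * a r) ∨ (∀ r, z r = b r) ∨ (∀ r, z r = - b r)) := by
  have hE := pencil a b m h
  have h1 : ∀ r s, m r s = (a r * z s + a s * z r) / 2 := by
    intro r s
    have e1 := (hE o o r s).1
    rw [hz, hz]
    have e2 := hm o s
    field_simp
    rw [e2] at e1
    linear_combination 2 * e1
  refine ⟨h1, ?_⟩
  have h2 : ∀ r s, (b r - b o / a o * a r) * (b s - b o / a o * a s) =
      (z r - z o / a o * a r) * (z s - z o / a o * a s) := by
    intro r s
    have e1 := (hE o o r s).2.1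
    rw [h1 o o, h1 r s, h1 o s, h1 r o] at e1
    field_simp
    linear_combination e1
  by_cases hb : ∀ r, b r - b o / a o * a r = 0
  · left
    intro r
    linear_combination hb r
  right
  push Not at hb
  obtain ⟨r, hr⟩ := hb
  -- sign
  have h3 : (∀ s, b s - b o / a o * a s = z s - z o / a o * a s) ∨
      (∀ s, b s - b o / a o * a s = -(z s - z o / a o * a s)) := by
    have e1 := h2 r r
    have e2 : (b r - b o / a o * a r) = (z r - z o / a o * a r) ∨
        (b r - b o / a o * a r) = -(z r - z o / a o * a r) := by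
      rw [← mul_self_eq_mul_self_iff]
      exact e1
    rcases e2 with e2 | e2
    · left
      intro s
      have e3 := h2 r s
      rw [← e2] at e3
      exact mul_left_cancel₀ hr e3
    · right
      intro s
      have e3 := h2 r s
      apply mul_left_cancel₀ hr
      rw [e3, e2]
      ring
  -- general fact: z = b' + κ a with b' = ± b forces κ = 0
  have h4 : ∀ (b' : ι → ℂ) (κ : ℂ), (∀ s s', b' s * b' s' = b s * b s') →
      (∀ s, z s = b' s + κ * a s) → b' r - b' o / a o * a r ≠ 0 → κ = 0 := by
    intro b' κ hbb hκ hne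
    have e1 := (hE o o r r).2.2
    rw [h1 o o, h1 r r, h1 o r, h1 r o] at e1
    simp only [hκ, ← hbb] at e1
    have e2 : κ * ((a o * b' r - b' o * a r) * (a o * b' r - b' o * a r)) = 0 := by
      linear_combination e1
    rcases mul_eq_zero.mp e2 with e3 | e3
    · exact e3
    · exfalso
      apply hne
      have e4 : a o * b' r - b' o * a r = 0 := by
        rcases mul_eq_zero.mp e3 with e5 | e5 <;> exact e5
      field_simp
      linear_combination e4
  rcases h3 with h3 | h3
  · left
    have hk := h4 b (z o / a o - b o / a o) (fun _ _ => rfl)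
      (fun s => by linear_combination -h3 s) hr
    intro s
    have := h3 s
    rw [sub_eq_zero] at hk
    rw [hk] at this
    linear_combination -this
  · right
    have hk := h4 (fun s => - b s) (z o / a o + b o / a o) (fun _ _ => by ring)
      (fun s => by linear_combination h3 s) (by
        intro h0
        apply hr
        linear_combination -h0)
    intro s
    have := h3 s
    linear_combination this + hk * a s

theorem sqrt_lemma {V ι : Type*} [AddCommGroup V] [Module ℂ V]
    (Λ : V →ₗ[ℂ] V →ₗ[ℂ] (ι → ι → ℂ)) (hsymm : ∀ x y, Λ x y = Λ y x)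
    (hrank : ∀ x, ∃ w : ι → ℂ, ∀ p q, Λ x x p q = w p * w q)
    (hinj : ∀ (e x : V) (c : ℂ), Λ x x = (c * c) • Λ e e → ∃ s, (s = c ∨ s = -c) ∧ Λ e (x - s • e) = 0) :
    ∃ ψ : V →ₗ[ℂ] (ι → ℂ), ∀ x p q, Λ x x p q = ψ x p * ψ x q := by
  by_cases hall : ∀ e, Λ e e = 0
  · exact ⟨0, fun x p q => by simp [hall x]⟩
  push Not at hall
  obtain ⟨e, he⟩ := hall
  obtain ⟨a, ha⟩ := hrank e
  have ho : ∃ o, a o ≠ 0 := by
    by_contra hcon
    push Not at hcon
    apply he
    funext p q
    rw [ha, hcon p]
    simp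
  obtain ⟨o, ho⟩ := ho
  let ψ : V →ₗ[ℂ] (ι → ℂ) :=
    { toFun := fun x r => (2 * Λ e x r o - Λ e x o o * a r / a o) / a o
      map_add' := by
        intro x y
        funext r
        simp only [map_add, Pi.add_apply]
        ring
      map_smul' := by
        intro c x
        funext r
        simp only [map_smul, Pi.smul_apply, smul_eq_mul, RingHom.id_apply]
        ring }
  have hψ : ∀ x r, ψ x r = (2 * Λ e x r o - Λ e x o o * a r / a o) / a o := fun _ _ => rfl
  have hψe : ∀ r, ψ e r = a r := by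
    intro r
    rw [hψ, ha, ha]
    field_simp
    ring
  refine ⟨ψ, ?_⟩
  intro x
  obtain ⟨b, hb⟩ := hrank x
  have hexp : ∀ t : ℂ, ∀ p q, Λ (e + t • x) (e + t • x) p q =
      a p * a q + 2 * t * Λ e x p q + t ^ 2 * (b p * b q) := by
    intro t p q
    rw [← ha, ← hb]
    simp only [map_add, map_smul, LinearMap.add_apply, LinearMap.smul_apply, Pi.add_apply,
      Pi.smul_apply, smul_eq_mul]
    rw [hsymm x e]
    ring
  have hsym2 : ∀ p q, Λ e x p q = Λ e x q p := by
    intro p q
    obtain ⟨w, hw⟩ := hrank (e + (1 : ℂ) • x)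
    have e1 := hexp 1 p q
    have e2 := hexp 1 q p
    rw [hw] at e1 e2
    linear_combination (1/2 : ℂ) * e2 - (1/2 : ℂ) * e1
  have hmain := pencil_root a b (fun p q => Λ e x p q) hsym2 o ho (by
    intro t p q r s
    obtain ⟨w, hw⟩ := hrank (e + t • x)
    rw [← hexp, ← hexp, ← hexp, ← hexp, hw, hw, hw, hw]
    ring) (fun r => ψ x r) (fun r => hψ x r)
  obtain ⟨-, hdep | hpos | hneg⟩ := hmain
  · have h1 : Λ x x = (b o / a o * (b o / a o)) • Λ e e := by
      funext p q
      rw [hb, hdep p, hdep q, Pi.smul_apply, Pi.smul_apply, ha, smul_eq_mul]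
      ring
    obtain ⟨s, hs, hs0⟩ := hinj e x (b o / a o) h1
    have h2 : ∀ r, ψ x r = s * a r := by
      intro r
      have h3 : ψ (x - s • e) r = 0 := by
        rw [hψ, hs0]
        simp
      rw [map_sub, map_smul, Pi.sub_apply, Pi.smul_apply, smul_eq_mul, hψe] at h3
      linear_combination h3
    intro p q
    rw [hb, h2, h2, hdep p, hdep q]
    rcases hs with rfl | rfl <;> ring
  · intro p q
    have e1 := hpos p
    have e2 := hpos q
    rw [hb, e1, e2]
  · intro p q
    have e1 := hneg p
    have e2 := hneg q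
    rw [hb, e1, e2]
    ring

/-- a symmetric matrix with vanishing 2x2 minors is a square -/
theorem exists_root_of_minors {ι : Type*} (N : ι → ι → ℂ) (hs : ∀ p q, N p q = N q p)
    (hm : ∀ p q r s, N p q * N r s = N p s * N r q) :
    ∃ w : ι → ℂ, ∀ p q, N p q = w p * w q := by
  by_cases h : ∀ p, N p p = 0
  · refine ⟨0, fun p q => ?_⟩
    have h1 := hm p q q p
    rw [h p, zero_mul, hs q p] at h1
    have h2 : N p q = 0 := by
      rcases mul_eq_zero.mp h1 with h3 | h3 <;> exact h3
    simp [h2]
  · push Not at h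
    obtain ⟨o, ho⟩ := h
    obtain ⟨c, hc⟩ := IsAlgClosed.exists_pow_nat_eq (N o o) (n := 2) (by norm_num)
    have hc0 : c ≠ 0 := by
      rintro rfl
      apply ho
      rw [← hc]
      norm_num
    refine ⟨fun p => N o p / c, fun p q => ?_⟩
    have h1 := hm p q o o
    have h2 := hs p o
    field_simp
    rw [hc]
    rw [h1, h2]

end Pool.Agent.Helper324
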