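import Mathlib
import Pool.Agent.Helper324.Scalar

open Matrix Polynomial Module

namespace Pool.Agent.Helper324

variable {n : ℕ}

theorem functional_eq (f : Matrix (Fin n) (Fin n) ℂ →ₗ[ℂ] ℂ) (A : Matrix (Fin n) (Fin n) ℂ) :
    f A = ∑ i, ∑ j, A i j * f (Matrix.single i j 1) := by
  conv_lhs => rw [Matrix.matrix_eq_sum_single A]
  simp only [map_sum]
  refine Finset.sum_congr rfl (fun i _ => Finset.sum_congr rfl (fun j _ => ?_))
  rw [← smul_eq_mul, ← map_smul, Matrix.smul_single, smul_eq_mul, mul_one]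

theorem LPM.functional {V : Type*} [AddCommGroup V] [Module ℂ V]
    {N : V → Matrix (Fin n) (Fin n) ℂ} (hN : LPM N)
    (f : Matrix (Fin n) (Fin n) ℂ →ₗ[ℂ] ℂ) : LP (fun x => f (N x)) := by
  have h : (fun x => f (N x)) = fun x => ∑ i, ∑ j, N x i j * f (Matrix.single i j 1) := by
    funext x
    exact functional_eq f (N x)
  rw [h]
  exact LP.sum _ (fun i _ => LP.sum _ (fun j _ => (hN i j).mul (LP.const _)))

/-- irreducibility of the variety of rank one nilpotents -/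
theorem nilp_dom (f h : Matrix (Fin n) (Fin n) ℂ →ₗ[ℂ] ℂ)
    (H : ∀ x g : Fin n → ℂ, g ⬝ᵥ x = 0 → f (vecMulVec x g) * h (vecMulVec x g) = 0) :
    (∀ x g : Fin n → ℂ, g ⬝ᵥ x = 0 → f (vecMulVec x g) = 0) ∨
    (∀ x g : Fin n → ℂ, g ⬝ᵥ x = 0 → h (vecMulVec x g) = 0) := by
  let N : (Fin n → ℂ) × Matrix (Fin n) (Fin n) ℂ → Matrix (Fin n) (Fin n) ℂ :=
    fun z => vecMulVec z.1 ((z.2 - z.2ᵀ) *ᵥ z.1)
  let Lf := LinearMap.fst ℂ (Fin n → ℂ) (Matrix (Fin n) (Fin n) ℂ)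
  let Ls := LinearMap.snd ℂ (Fin n → ℂ) (Matrix (Fin n) (Fin n) ℂ)
  have hx : ∀ i, LP (fun z : (Fin n → ℂ) × Matrix (Fin n) (Fin n) ℂ => z.1 i) :=
    fun i => (LP.coord i).comp Lf
  have hG : LPM (fun z : (Fin n → ℂ) × Matrix (Fin n) (Fin n) ℂ => z.2) := LPM.linear Ls
  have hN : LPM N := by
    intro i j
    have : (fun z => N z i j) = fun z : (Fin n → ℂ) × Matrix (Fin n) (Fin n) ℂ =>
        z.1 i * ∑ k, (z.2 - z.2ᵀ) j k * z.1 k := rfl
    rw [this]
    exact (hx i).mul (LP.sum _ (fun k _ => ((hG.sub hG.transpose) j k).mul (hx k)))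
  have hnil : ∀ z : (Fin n → ℂ) × Matrix (Fin n) (Fin n) ℂ,
      ((z.2 - z.2ᵀ) *ᵥ z.1) ⬝ᵥ z.1 = 0 := by
    intro z
    have h1 : (z.2ᵀ *ᵥ z.1) ⬝ᵥ z.1 = (z.2 *ᵥ z.1) ⬝ᵥ z.1 := by
      rw [Matrix.mulVec_transpose, ← Matrix.dotProduct_mulVec, dotProduct_comm]
    rw [Matrix.sub_mulVec, sub_dotProduct, h1, sub_self]
  have hall : ∀ x g : Fin n → ℂ, g ⬝ᵥ x = 0 → x ≠ 0 → ∃ z, N z = vecMulVec x g := by
    intro x g hxg hx0
    obtain ⟨i, hi⟩ := Function.ne_iff.mp hx0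
    rw [Pi.zero_apply] at hi
    refine ⟨(x, vecMulVec g (Pi.single i (x i)⁻¹)), ?_⟩
    have h1 : (Pi.single i (x i)⁻¹ : Fin n → ℂ) ⬝ᵥ x = 1 := by
      rw [single_dotProduct]
      exact inv_mul_cancel₀ hi
    have h2 : (vecMulVec g (Pi.single i (x i)⁻¹) - (vecMulVec g (Pi.single i (x i)⁻¹))ᵀ) *ᵥ x
        = g := by
      rw [Matrix.sub_mulVec, Matrix.transpose_vecMulVec, Matrix.vecMulVec_mulVec,
        Matrix.vecMulVec_mulVec, h1, hxg]
      simp
    show vecMulVec x _ = vecMulVec x g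
    rw [h2]
  rcases LP.mul_eq_zero (hN.functional f) (hN.functional h) (fun z => H _ _ (hnil z)) with h1 | h1
  · left
    intro x g hxg
    by_cases hx0 : x = 0
    · rw [hx0]; simp
    · obtain ⟨z, hz⟩ := hall x g hxg hx0
      rw [← hz]
      exact h1 z
  · right
    intro x g hxg
    by_cases hx0 : x = 0
    · rw [hx0]; simp
    · obtain ⟨z, hz⟩ := hall x g hxg hx0
      rw [← hz]
      exact h1 z

/-- rank one nilpotents span the traceless matrices -/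
theorem vanish_of_nilp (f : Matrix (Fin n) (Fin n) ℂ →ₗ[ℂ] ℂ)
    (H : ∀ x g : Fin n → ℂ, g ⬝ᵥ x = 0 → f (vecMulVec x g) = 0)
    (X : Matrix (Fin n) (Fin n) ℂ) (hX : X.trace = 0) : f X = 0 := by
  have hoff : ∀ i j, i ≠ j → f (Matrix.single i j 1) = 0 := by
    intro i j hij
    have h1 := H (Pi.single i 1) (Pi.single j 1) (by simp [hij])
    rwa [← Matrix.single_eq_single_vecMulVec_single] at h1
  have hdiag : ∀ i j, f (Matrix.single i i 1) = f (Matrix.single j j 1) := by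
    intro i j
    by_cases hij : i = j
    · rw [hij]
    have hji : j ≠ i := fun h => hij h.symm
    have h1 := H (Pi.single i 1 + Pi.single j 1) (Pi.single i 1 - Pi.single j 1)
      (by simp [hij, hji])
    have h2 : vecMulVec (Pi.single i 1 + Pi.single j 1 : Fin n → ℂ)
        (Pi.single i 1 - Pi.single j 1) = Matrix.single i i 1 - Matrix.single i j 1 +
          (Matrix.single j i 1 - Matrix.single j j 1) := by
      rw [Matrix.add_vecMulVec, Matrix.vecMulVec_sub, Matrix.vecMulVec_sub]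
      simp only [Matrix.single_eq_single_vecMulVec_single]
    rw [h2, map_add, map_sub, map_sub, hoff i j hij, hoff j i hji] at h1
    linear_combination h1
  rw [functional_eq]
  have h1 : ∀ i, ∑ j, X i j * f (Matrix.single i j 1) = X i i * f (Matrix.single i i 1) := by
    intro i
    apply Finset.sum_eq_single i
    · intro j _ hji
      rw [hoff i j (fun h => hji h.symm), mul_zero]
    · simp
  simp only [h1]
  rcases Nat.eq_zero_or_pos n with rfl | hn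
  · simp
  · have h2 : ∀ i, X i i * f (Matrix.single i i 1) =
        X i i * f (Matrix.single (⟨0, hn⟩ : Fin n) ⟨0, hn⟩ 1) := fun i => by
      rw [hdiag i ⟨0, hn⟩]
    simp only [h2, ← Finset.sum_mul]
    have h3 : ∑ i, X i i = 0 := hX
    rw [h3, zero_mul]

theorem exists_Psi (hn : n ≠ 0) (ψ : Matrix (Fin n) (Fin n) ℂ →ₗ[ℂ] Matrix (Fin n) (Fin n) ℂ)
    (h1 : ψ 1 = 0) (htr : ∀ x, (ψ x).trace = 0) (hF : ∀ X Y, FF (ψ X) (ψ Y) = FF X Y) :
    ∃ Ψ : Matrix (Fin n) (Fin n) ℂ ≃ₗ[ℂ] Matrix (Fin n) (Fin n) ℂ,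
      Ψ 1 = 1 ∧ (∀ X, (Ψ X).trace = X.trace) ∧ (∀ X Y, FF (Ψ X) (Ψ Y) = FF X Y) ∧
      (∀ X, tl (Ψ X) = ψ X) := by
  have hn' : (n : ℂ) ≠ 0 := by exact_mod_cast hn
  let Ψ0 : Matrix (Fin n) (Fin n) ℂ →ₗ[ℂ] Matrix (Fin n) (Fin n) ℂ :=
    ψ + ((n : ℂ)⁻¹ • Matrix.traceLinearMap (Fin n) ℂ ℂ).smulRight 1
  have hΨ0 : ∀ X, Ψ0 X = ψ X + ((n : ℂ)⁻¹ * X.trace) • (1 : Matrix (Fin n) (Fin n) ℂ) := by
    intro X
    simp [Ψ0, LinearMap.smulRight_apply]
  have htr0 : ∀ X, (Ψ0 X).trace = X.trace := by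
    intro X
    rw [hΨ0, Matrix.trace_add, htr, Matrix.trace_smul, Matrix.trace_one, Fintype.card_fin,
      smul_eq_mul]
    field_simp
    ring
  have htl0 : ∀ X, tl (Ψ0 X) = ψ X := by
    intro X
    rw [hΨ0, map_add, map_smul, tl_one hn, tl_of_trace (htr X)]
    simp
  have hinj : Function.Injective Ψ0 := by
    rw [injective_iff_map_eq_zero]
    intro X hX
    have e1 : X.trace = 0 := by rw [← htr0, hX]; simp
    have e2 : ψ X = 0 := by rw [← htl0, hX, map_zero]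
    have e3 := scalar_of_FF_eq (T := X) (T' := 0) (by
      intro x g _
      rw [← hF, e2]
      simp [FF])
    apply scalar_traceless hn _ e1
    rcases e3 with e3 | e3
    · simpa using e3
    · simpa using e3
  refine ⟨LinearEquiv.ofInjectiveEndo Ψ0 hinj, ?_, ?_, ?_, ?_⟩
  · rw [LinearEquiv.coe_ofInjectiveEndo, hΨ0, h1, Matrix.trace_one, Fintype.card_fin,
      inv_mul_cancel₀ hn']
    simp
  · intro X
    rw [LinearEquiv.coe_ofInjectiveEndo]
    exact htr0 X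
  · intro X Y
    rw [LinearEquiv.coe_ofInjectiveEndo, ← FF_tl_left, ← FF_tl_right, htl0, htl0]
    exact hF X Y
  · intro X
    rw [LinearEquiv.coe_ofInjectiveEndo]
    exact htl0 X

end Pool.Agent.Helper324
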