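import Mathlib
import Pool.Agent.Helper324.Struct

open Matrix Polynomial Module

namespace Pool.Agent.Helper324

variable {n : ℕ}

/-- adjoint of the inverse with respect to the trace form -/
noncomputable def rho (Ψ : Matrix (Fin n) (Fin n) ℂ ≃ₗ[ℂ] Matrix (Fin n) (Fin n) ℂ) :
    Matrix (Fin n) (Fin n) ℂ →ₗ[ℂ] Matrix (Fin n) (Fin n) ℂ where
  toFun N := Matrix.of fun i j => (N * Ψ.symm (Matrix.single j i 1)).trace
  map_add' N N' := by ext i j; simp [add_mul]
  map_smul' c N := by ext i j; simp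

theorem trace_rho_mul (Ψ : Matrix (Fin n) (Fin n) ℂ ≃ₗ[ℂ] Matrix (Fin n) (Fin n) ℂ)
    (N S : Matrix (Fin n) (Fin n) ℂ) : (rho Ψ N * S).trace = (N * Ψ.symm S).trace := by
  have h : (Matrix.traceLinearMap (Fin n) ℂ ℂ) ∘ₗ (LinearMap.mulLeft ℂ (rho Ψ N)) =
      (Matrix.traceLinearMap (Fin n) ℂ ℂ) ∘ₗ (LinearMap.mulLeft ℂ N) ∘ₗ
        Ψ.symm.toLinearMap := by
    apply (Matrix.stdBasis ℂ (Fin n) (Fin n)).ext
    rintro ⟨i, j⟩
    rw [Matrix.stdBasis_eq_single]
    simp only [LinearMap.comp_apply, LinearMap.mulLeft_apply, Matrix.traceLinearMap_apply]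
    rw [Matrix.trace_mul_single]
    simp [rho]
  have := congrArg (fun f => f S) h
  simpa using this

theorem exists_eps (hn : n ≠ 0)
    (Ψ : Matrix (Fin n) (Fin n) ℂ ≃ₗ[ℂ] Matrix (Fin n) (Fin n) ℂ)
    (h1 : Ψ 1 = 1) (htr : ∀ X, (Ψ X).trace = X.trace)
    (hF : ∀ X Y, FF (Ψ X) (Ψ Y) = FF X Y) :
    ∃ ε : ℂ, (ε = 1 ∨ ε = -1) ∧
      ∀ X Y, X.trace = 0 → (Ψ X * Ψ Y).trace = ε * (X * Y).trace := by
  have hsymm1 : Ψ.symm 1 = 1 := by rw [LinearEquiv.symm_apply_eq, h1]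
  have hN : ∀ x g : Fin n → ℂ, g ⬝ᵥ x = 0 →
      rho Ψ (vecMulVec x g) = Ψ (vecMulVec x g) ∨
      rho Ψ (vecMulVec x g) = - Ψ (vecMulVec x g) := by
    intro x g hxg
    set N := vecMulVec x g with hNdef
    have hNtr : N.trace = 0 := by rw [hNdef, trace_vecMulVec, dotProduct_comm, hxg]
    have e1 : ∀ y k : Fin n → ℂ, k ⬝ᵥ y = 0 →
        (k ⬝ᵥ (Ψ N) *ᵥ y) ^ 2 = (k ⬝ᵥ (rho Ψ N) *ᵥ y) ^ 2 := by
      intro y k hyk
      have e2 : FF (Ψ N) (vecMulVec y k) = FF N (Ψ.symm (vecMulVec y k)) := by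
        conv_lhs => rw [← LinearEquiv.apply_symm_apply Ψ (vecMulVec y k)]
        rw [hF]
      rw [FF_rank1 _ hyk, FF_comm, hNdef, FF_rank1 _ hxg, ← hNdef] at e2
      have e3 : g ⬝ᵥ (Ψ.symm (vecMulVec y k)) *ᵥ x = (N * Ψ.symm (vecMulVec y k)).trace := by
        rw [hNdef, Matrix.trace_mul_comm, mul_vecMulVec, trace_vecMulVec, dotProduct_comm]
      have e4 : k ⬝ᵥ (rho Ψ N) *ᵥ y = (rho Ψ N * vecMulVec y k).trace := by
        rw [mul_vecMulVec, trace_vecMulVec, dotProduct_comm]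
      rw [e4, trace_rho_mul, ← e3]
      linear_combination (1/2 : ℂ) * e2
    have e5 := scalar_or_scalar (rho Ψ N - Ψ N) (rho Ψ N + Ψ N) (by
      intro y k hyk
      have := e1 y k hyk
      rw [Matrix.sub_mulVec, Matrix.add_mulVec, dotProduct_sub, dotProduct_add]
      linear_combination -this)
    have e6 : (rho Ψ N).trace = 0 := by
      have := trace_rho_mul Ψ N 1
      rw [mul_one, hsymm1, mul_one, hNtr] at this
      exact this
    have e7 : (Ψ N).trace = 0 := by rw [htr, hNtr]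
    rcases e5 with e5 | e5
    · left
      have := scalar_traceless hn e5 (by rw [Matrix.trace_sub, e6, e7, sub_zero])
      exact sub_eq_zero.mp this
    · right
      have := scalar_traceless hn e5 (by rw [Matrix.trace_add, e6, e7, add_zero])
      exact eq_neg_of_add_eq_zero_left this
  -- linear functionals
  let fm : Fin n × Fin n → Matrix (Fin n) (Fin n) ℂ →ₗ[ℂ] ℂ := fun p =>
    Matrix.entryLinearMap ℂ ℂ p.1 p.2 ∘ₗ (rho Ψ - Ψ.toLinearMap)
  let fp : Fin n × Fin n → Matrix (Fin n) (Fin n) ℂ →ₗ[ℂ] ℂ := fun p =>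
    Matrix.entryLinearMap ℂ ℂ p.1 p.2 ∘ₗ (rho Ψ + Ψ.toLinearMap)
  have hfm : ∀ p X, fm p X = rho Ψ X p.1 p.2 - Ψ X p.1 p.2 := fun p X => rfl
  have hfp : ∀ p X, fp p X = rho Ψ X p.1 p.2 + Ψ X p.1 p.2 := fun p X => rfl
  have hdom : ∀ p q, (∀ x g : Fin n → ℂ, g ⬝ᵥ x = 0 → fm p (vecMulVec x g) = 0) ∨
      (∀ x g : Fin n → ℂ, g ⬝ᵥ x = 0 → fp q (vecMulVec x g) = 0) := by
    intro p q
    apply nilp_dom
    intro x g hxg
    rcases hN x g hxg with h | h
    · rw [hfm, h]; simp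
    · rw [hfp, h]; simp
  by_cases hall : ∀ p, (∀ x g : Fin n → ℂ, g ⬝ᵥ x = 0 → fm p (vecMulVec x g) = 0)
  · refine ⟨1, Or.inl rfl, ?_⟩
    intro X Y hX
    have e1 : rho Ψ X = Ψ X := by
      ext i j
      have := vanish_of_nilp (fm (i, j)) (hall (i, j)) X hX
      rw [hfm] at this
      exact sub_eq_zero.mp this
    rw [← e1, trace_rho_mul, LinearEquiv.symm_apply_apply, one_mul]
  · push Not at hall
    obtain ⟨p, x, g, hxg, hp⟩ := hall
    refine ⟨-1, Or.inr rfl, ?_⟩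
    intro X Y hX
    have e1 : Ψ X = - rho Ψ X := by
      ext i j
      rcases hdom p (i, j) with h | h
      · exact absurd (h x g hxg) hp
      · have := vanish_of_nilp (fp (i, j)) h X hX
        rw [hfp] at this
        rw [Matrix.neg_apply]
        exact eq_neg_of_add_eq_zero_right this
    rw [e1, neg_mul, Matrix.trace_neg, trace_rho_mul, LinearEquiv.symm_apply_apply]
    ring

/-- algebraic curvature tensors with vanishing sectional curvature vanish -/
theorem curv_zero {V : Type*} [AddCommGroup V] (D : V → V → V → V → ℂ)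
    (hadd1 : ∀ X X' Y Z W, D (X + X') Y Z W = D X Y Z W + D X' Y Z W)
    (hanti1 : ∀ X Y Z W, D Y X Z W = - D X Y Z W)
    (hpair : ∀ X Y Z W, D Z W X Y = D X Y Z W)
    (hbianchi : ∀ X Y Z W, D X Y Z W + D X Z W Y + D X W Y Z = 0)
    (hsec : ∀ X Y, D X Y X Y = 0) (X Y Z W : V) : D X Y Z W = 0 := by
  have hanti2 : ∀ X Y Z W, D X Y W Z = - D X Y Z W := by
    intro X Y Z W
    rw [hpair W Z X Y, hanti1, hpair]
  have hadd2 : ∀ X Y Y' Z W, D X (Y + Y') Z W = D X Y Z W + D X Y' Z W := by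
    intro X Y Y' Z W
    rw [hanti1, hadd1, hanti1 Y X, hanti1 Y' X]
    ring
  have hadd3 : ∀ X Y Z Z' W, D X Y (Z + Z') W = D X Y Z W + D X Y Z' W := by
    intro X Y Z Z' W
    rw [hpair, hadd1, hpair X Y Z, hpair X Y Z']
  have hadd4 : ∀ X Y Z W W', D X Y Z (W + W') = D X Y Z W + D X Y Z W' := by
    intro X Y Z W W'
    rw [hpair, hadd2, hpair X Y Z, hpair X Y Z]
  have h1 : ∀ X Y Z, D X Y Z Y = 0 := by
    intro X Y Z
    have h := hsec (X + Z) Y
    rw [hadd1, hadd3, hadd3, hsec, hsec, hpair X Y Z Y] at h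
    linear_combination (1/2 : ℂ) * h
  have h2 : ∀ X Y Z W, D X Y Z W = - D X W Z Y := by
    intro X Y Z W
    have h := h1 X (Y + W) Z
    rw [hadd2, hadd4, hadd4, h1, h1] at h
    linear_combination h
  have h3 := hbianchi X Y Z W
  have h4 : D X W Y Z = D X Y Z W := by
    rw [h2 X Y Z W, hanti2 X W Z Y]
  have h5 : D X Z W Y = D X Y Z W := by
    rw [h2 X Z W Y, hanti2 X Y Z W]
    ring
  rw [h4, h5] at h3
  linear_combination (1/3 : ℂ) * h3

/-- trace form of two commutators -/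
def RR (X Y Z W : Matrix (Fin n) (Fin n) ℂ) : ℂ := ((X * Y - Y * X) * (Z * W - W * Z)).trace

theorem RR_bianchi (X Y Z W : Matrix (Fin n) (Fin n) ℂ) :
    RR X Y Z W + RR X Z W Y + RR X W Y Z = 0 := by
  have hc : ∀ A B C D : Matrix (Fin n) (Fin n) ℂ, (A * B * C * D).trace = (B * C * D * A).trace := by
    intro A B C D
    rw [show A * B * C * D = A * (B * C * D) by noncomm_ring, Matrix.trace_mul_comm]
  have hx : ∀ A B C D : Matrix (Fin n) (Fin n) ℂ, RR A B C D =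
      (A * B * C * D).trace - (A * B * D * C).trace - (A * C * D * B).trace
        + (A * D * C * B).trace := by
    intro A B C D
    unfold RR
    rw [show (A * B - B * A) * (C * D - D * C) = A * B * C * D - A * B * D * C
      - B * A * C * D + B * A * D * C by noncomm_ring, Matrix.trace_add, Matrix.trace_sub,
      Matrix.trace_sub, hc B A C D, hc B A D C]
  rw [hx, hx, hx]
  ring

theorem RR_pres (Ψ : Matrix (Fin n) (Fin n) ℂ →ₗ[ℂ] Matrix (Fin n) (Fin n) ℂ)
    (hF : ∀ X Y, FF (Ψ X) (Ψ Y) = FF X Y) (X Y Z W : Matrix (Fin n) (Fin n) ℂ) :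
    RR (Ψ X) (Ψ Y) (Ψ Z) (Ψ W) = RR X Y Z W := by
  have h := curv_zero (fun X Y Z W => RR (Ψ X) (Ψ Y) (Ψ Z) (Ψ W) - RR X Y Z W)
    (by
      intro X X' Y Z W
      have e : ∀ X X' Y Z W : Matrix (Fin n) (Fin n) ℂ,
          RR (X + X') Y Z W = RR X Y Z W + RR X' Y Z W := by
        intro X X' Y Z W
        unfold RR
        rw [← Matrix.trace_add]
        congr 1
        noncomm_ring
      simp only [map_add, e]
      ring)
    (by
      intro X Y Z W
      have e : ∀ X Y Z W : Matrix (Fin n) (Fin n) ℂ, RR Y X Z W = - RR X Y Z W := by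
        intro X Y Z W
        unfold RR
        rw [← Matrix.trace_neg]
        congr 1
        noncomm_ring
      simp only [e (Ψ X) (Ψ Y), e X Y]
      ring)
    (by
      intro X Y Z W
      have e : ∀ X Y Z W : Matrix (Fin n) (Fin n) ℂ, RR Z W X Y = RR X Y Z W := by
        intro X Y Z W
        unfold RR
        rw [Matrix.trace_mul_comm]
      simp only [e (Ψ X) (Ψ Y), e X Y])
    (by
      intro X Y Z W
      have e1 := RR_bianchi X Y Z W
      have e2 := RR_bianchi (Ψ X) (Ψ Y) (Ψ Z) (Ψ W)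
      linear_combination e2 - e1)
    (by
      intro X Y
      exact sub_eq_zero.mpr (hF X Y)) X Y Z W
  exact sub_eq_zero.mp h

end Pool.Agent.Helper324
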