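import Mathlib
import Pool.Agent.Helper324.Isom

open Matrix Polynomial Module

namespace Pool.Agent.Helper324

variable {n : ℕ}

theorem trace_comm_zero (X Y : Matrix (Fin n) (Fin n) ℂ) : (X * Y - Y * X).trace = 0 := by
  rw [Matrix.trace_sub, Matrix.trace_mul_comm, sub_self]

theorem trace_assoc (A B C : Matrix (Fin n) (Fin n) ℂ) :
    ((A * B - B * A) * C).trace = (A * (B * C - C * B)).trace := by
  rw [sub_mul, mul_sub, Matrix.trace_sub, Matrix.trace_sub]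
  rw [← Matrix.mul_assoc A B C]
  rw [Matrix.mul_assoc B A C, Matrix.trace_mul_comm B (A * C), Matrix.mul_assoc A C B]

theorem exists_lie (hn : n ≠ 0)
    (Ψ : Matrix (Fin n) (Fin n) ℂ ≃ₗ[ℂ] Matrix (Fin n) (Fin n) ℂ)
    (htr : ∀ X, (Ψ X).trace = X.trace)
    (hF : ∀ X Y, FF (Ψ X) (Ψ Y) = FF X Y) (ε : ℂ) (hε : ε = 1 ∨ ε = -1)
    (hiso : ∀ X Y, X.trace = 0 → (Ψ X * Ψ Y).trace = ε * (X * Y).trace) :
    ∃ c : ℂ, c ^ 2 = ε ∧ ∀ X Y, Ψ X * Ψ Y - Ψ Y * Ψ X = c • Ψ (X * Y - Y * X) := by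
  have hεε : ε * ε = 1 := by rcases hε with rfl | rfl <;> norm_num
  have hR := RR_pres Ψ.toLinearMap hF
  have htriple : ∀ X Y Z, (Ψ X * Ψ Y - Ψ Y * Ψ X) * Ψ Z - Ψ Z * (Ψ X * Ψ Y - Ψ Y * Ψ X) =
      ε • Ψ ((X * Y - Y * X) * Z - Z * (X * Y - Y * X)) := by
    intro X Y Z
    rw [← sub_eq_zero]
    apply trace_mul_eq_zero
    intro R
    obtain ⟨W, rfl⟩ := Ψ.surjective R
    rw [sub_mul, Matrix.trace_sub, trace_assoc (Ψ X * Ψ Y - Ψ Y * Ψ X) (Ψ Z) (Ψ W),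
      smul_mul_assoc, Matrix.trace_smul,
      hiso _ _ (trace_comm_zero _ _), smul_eq_mul, ← mul_assoc, hεε, one_mul,
      trace_assoc (X * Y - Y * X) Z W]
    have := hR X Y Z W
    unfold RR at this
    exact sub_eq_zero.mpr this
  obtain ⟨s, hs⟩ := IsAlgClosed.exists_pow_nat_eq ε (n := 2) (by norm_num)
  have hsign : ∀ X Y, (Ψ X * Ψ Y - Ψ Y * Ψ X = s • Ψ (X * Y - Y * X)) ∨
      (Ψ X * Ψ Y - Ψ Y * Ψ X = -(s • Ψ (X * Y - Y * X))) := by
    intro X Y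
    set U := Ψ.symm (Ψ X * Ψ Y - Ψ Y * Ψ X) with hU
    have hΨU : Ψ U = Ψ X * Ψ Y - Ψ Y * Ψ X := by rw [hU, LinearEquiv.apply_symm_apply]
    have hUtr : U.trace = 0 := by rw [← htr, hΨU, trace_comm_zero]
    have h1 : ∀ Z, FF U Z = FF (s • (X * Y - Y * X)) Z := by
      intro Z
      rw [← hF]
      unfold FF
      rw [hΨU, htriple, smul_mul_smul_comm, Matrix.trace_smul, hiso _ _ (trace_comm_zero _ _),
        hεε, one_smul]
      rw [smul_mul_assoc, mul_smul_comm, ← smul_sub, smul_mul_smul_comm, Matrix.trace_smul,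
        smul_eq_mul]
      rw [← hs]
      ring
    have h2 : (s • (X * Y - Y * X)).trace = 0 := by
      rw [Matrix.trace_smul, trace_comm_zero, smul_zero]
    rcases scalar_of_FF_eq (fun x g _ => h1 (vecMulVec x g)) with h3 | h3
    · left
      have h4 := scalar_traceless hn h3 (by rw [Matrix.trace_sub, hUtr, h2, sub_zero])
      rw [← hΨU, sub_eq_zero.mp h4, map_smul]
    · right
      have h4 := scalar_traceless hn h3 (by rw [Matrix.trace_add, hUtr, h2, add_zero])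
      rw [← hΨU, eq_neg_of_add_eq_zero_left h4, map_neg, map_smul]
  -- global sign
  let Lf := LinearMap.fst ℂ (Matrix (Fin n) (Fin n) ℂ) (Matrix (Fin n) (Fin n) ℂ)
  let Ls := LinearMap.snd ℂ (Matrix (Fin n) (Fin n) ℂ) (Matrix (Fin n) (Fin n) ℂ)
  have hfst : LPM (fun z : Matrix (Fin n) (Fin n) ℂ × Matrix (Fin n) (Fin n) ℂ => z.1) :=
    LPM.linear Lf
  have hsnd : LPM (fun z : Matrix (Fin n) (Fin n) ℂ × Matrix (Fin n) (Fin n) ℂ => z.2) :=
    LPM.linear Ls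
  have hβ : LPM (fun z : Matrix (Fin n) (Fin n) ℂ × Matrix (Fin n) (Fin n) ℂ =>
      Ψ z.1 * Ψ z.2 - Ψ z.2 * Ψ z.1) := by
    have h1 : LPM (fun z : Matrix (Fin n) (Fin n) ℂ × Matrix (Fin n) (Fin n) ℂ => Ψ z.1) :=
      LPM.linear (Ψ.toLinearMap ∘ₗ Lf)
    have h2 : LPM (fun z : Matrix (Fin n) (Fin n) ℂ × Matrix (Fin n) (Fin n) ℂ => Ψ z.2) :=
      LPM.linear (Ψ.toLinearMap ∘ₗ Ls)
    exact (h1.mul h2).sub (h2.mul h1)
  have hγ : LPM (fun z : Matrix (Fin n) (Fin n) ℂ × Matrix (Fin n) (Fin n) ℂ =>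
      s • Ψ (z.1 * z.2 - z.2 * z.1)) := by
    intro i j
    exact ((hfst.mul hsnd).sub (hsnd.mul hfst)).functional
      (Matrix.entryLinearMap ℂ ℂ i j ∘ₗ (s • Ψ.toLinearMap))
  by_cases hall : ∀ X Y, Ψ X * Ψ Y - Ψ Y * Ψ X = s • Ψ (X * Y - Y * X)
  · exact ⟨s, hs, hall⟩
  · push Not at hall
    obtain ⟨X0, Y0, h0⟩ := hall
    refine ⟨-s, by rw [neg_sq, hs], ?_⟩
    have hne : ∃ i j, (Ψ X0 * Ψ Y0 - Ψ Y0 * Ψ X0) i j - (s • Ψ (X0 * Y0 - Y0 * X0)) i j ≠ 0 := by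
      by_contra hcon
      push Not at hcon
      apply h0
      ext i j
      exact sub_eq_zero.mp (hcon i j)
    obtain ⟨i, j, hij⟩ := hne
    intro X Y
    rw [neg_smul]
    ext k l
    have h2 := LP.mul_eq_zero ((hβ i j).sub (hγ i j)) ((hβ k l).add (hγ k l)) (by
      rintro ⟨X, Y⟩
      rcases hsign X Y with h | h
      · simp only
        rw [h]
        simp
      · simp only
        rw [h]
        simp)
    rcases h2 with h2 | h2
    · exact absurd (h2 (X0, Y0)) hij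
    · have h3 := h2 (X, Y)
      rw [Matrix.neg_apply]
      exact eq_neg_of_add_eq_zero_left h3

theorem exists_alpha (hn : n ≠ 0)
    (Ψ : Matrix (Fin n) (Fin n) ℂ ≃ₗ[ℂ] Matrix (Fin n) (Fin n) ℂ)
    (h1 : Ψ 1 = 1) (htr : ∀ X, (Ψ X).trace = X.trace)
    (hF : ∀ X Y, FF (Ψ X) (Ψ Y) = FF X Y) :
    ∃ (α : Matrix (Fin n) (Fin n) ℂ ≃ₗ[ℂ] Matrix (Fin n) (Fin n) ℂ) (c : ℂ),
      (c ^ 2 = 1 ∨ c ^ 2 = -1) ∧ α 1 = 1 ∧ (∀ X, (α X).trace = X.trace) ∧
      (∀ X Y, α X * α Y - α Y * α X = α (X * Y - Y * X)) ∧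
      (∀ X Y, (α X * α Y).trace = (X * Y).trace) ∧
      (∀ X, tl (Ψ X) = c • tl (α X)) := by
  have hn' : (n : ℂ) ≠ 0 := by exact_mod_cast hn
  obtain ⟨ε, hε, hiso⟩ := exists_eps hn Ψ h1 htr hF
  obtain ⟨c, hc, hlie⟩ := exists_lie hn Ψ htr hF ε hε hiso
  have hε0 : ε ≠ 0 := by rcases hε with rfl | rfl <;> norm_num
  have hc0 : c ≠ 0 := by
    rintro rfl
    apply hε0
    rw [← hc]
    norm_num
  let α0 : Matrix (Fin n) (Fin n) ℂ →ₗ[ℂ] Matrix (Fin n) (Fin n) ℂ :=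
    c⁻¹ • (Ψ.toLinearMap ∘ₗ tl) + ((n : ℂ)⁻¹ • Matrix.traceLinearMap (Fin n) ℂ ℂ).smulRight 1
  have hα0 : ∀ X, α0 X = c⁻¹ • Ψ (tl X) + ((n : ℂ)⁻¹ * X.trace) • (1 : Matrix (Fin n) (Fin n) ℂ) := by
    intro X
    simp [α0, LinearMap.smulRight_apply]
  have hαtr : ∀ X, (α0 X).trace = X.trace := by
    intro X
    rw [hα0, Matrix.trace_add, Matrix.trace_smul, htr, trace_tl hn, Matrix.trace_smul,
      Matrix.trace_one, Fintype.card_fin, smul_eq_mul, smul_eq_mul]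
    field_simp
    ring
  have hinj : Function.Injective α0 := by
    rw [injective_iff_map_eq_zero]
    intro X hX
    have e1 : X.trace = 0 := by rw [← hαtr, hX]; simp
    rw [hα0, e1, mul_zero, zero_smul, add_zero] at hX
    rcases smul_eq_zero.mp hX with h2 | h2
    · exact absurd h2 (inv_ne_zero hc0)
    · have h3 : tl X = 0 := by
        apply Ψ.injective
        rw [h2, map_zero]
      rw [tl_of_trace e1] at h3
      exact h3
  have hαe : ∀ X, (LinearEquiv.ofInjectiveEndo α0 hinj) X = α0 X := fun X => by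
    rw [LinearEquiv.coe_ofInjectiveEndo]
  refine ⟨LinearEquiv.ofInjectiveEndo α0 hinj, c, ?_, ?_, ?_, ?_, ?_, ?_⟩
  · rw [hc]; exact hε
  · rw [hαe, hα0, tl_one hn, Matrix.trace_one, Fintype.card_fin, inv_mul_cancel₀ hn']
    simp
  · intro X
    rw [hαe]
    exact hαtr X
  · intro X Y
    rw [hαe, hαe, hαe, hα0, hα0, hα0, trace_comm_zero, mul_zero, zero_smul, add_zero,
      tl_of_trace (trace_comm_zero X Y)]
    have e1 : ∀ (A B : Matrix (Fin n) (Fin n) ℂ) (a b : ℂ),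
        (A + a • (1 : Matrix (Fin n) (Fin n) ℂ)) * (B + b • (1 : Matrix (Fin n) (Fin n) ℂ)) -
        (B + b • (1 : Matrix (Fin n) (Fin n) ℂ)) * (A + a • (1 : Matrix (Fin n) (Fin n) ℂ)) =
        A * B - B * A := by
      intro A B a b
      simp only [add_mul, mul_add, smul_mul_assoc, mul_smul_comm, one_mul, mul_one]
      module
    rw [e1, smul_mul_smul_comm, smul_mul_smul_comm, ← smul_sub, hlie, smul_smul]
    have e2 : tl X * tl Y - tl Y * tl X = X * Y - Y * X := by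
      rw [comm_tl_left, comm_tl_right]
    rw [e2]
    congr 1
    field_simp
  · intro X Y
    rw [hαe, hαe, hα0, hα0]
    have e1 : ∀ (A B : Matrix (Fin n) (Fin n) ℂ) (a b : ℂ), A.trace = 0 → B.trace = 0 →
        ((A + a • (1 : Matrix (Fin n) (Fin n) ℂ)) * (B + b • (1 : Matrix (Fin n) (Fin n) ℂ))).trace
          = (A * B).trace + n * a * b := by
      intro A B a b hA hB
      simp only [add_mul, mul_add, smul_mul_assoc, mul_smul_comm, one_mul, mul_one,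
        Matrix.trace_add, Matrix.trace_smul, hA, hB, Matrix.trace_one, Fintype.card_fin,
        smul_eq_mul]
      ring
    have e2 : ∀ X, (c⁻¹ • Ψ (tl X)).trace = 0 := by
      intro X
      rw [Matrix.trace_smul, htr, trace_tl hn, smul_zero]
    rw [e1 _ _ _ _ (e2 X) (e2 Y)]
    conv_rhs => rw [tl_add_scalar X, tl_add_scalar Y]
    rw [e1 _ _ _ _ (trace_tl hn X) (trace_tl hn Y), smul_mul_smul_comm, Matrix.trace_smul,
      hiso _ _ (trace_tl hn X), ← hc, smul_eq_mul]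
    field_simp
  · intro X
    rw [hαe, hα0, map_add, map_smul, map_smul, tl_one hn, smul_zero, add_zero,
      tl_of_trace (T := Ψ (tl X)) (by rw [htr, trace_tl hn]), smul_smul, mul_inv_cancel₀ hc0,
      one_smul]
    conv_lhs => rw [tl_add_scalar X]
    rw [map_add, map_smul, h1, map_add, map_smul, tl_one hn, smul_zero, add_zero,
      tl_of_trace (T := Ψ (tl X)) (by rw [htr, trace_tl hn])]

end Pool.Agent.Helper324
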