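import Mathlib
import Pool.Agent.Helper324.Lie

open Matrix Polynomial Module

namespace Pool.Agent.Helper324

variable {n : ℕ}

theorem idem_trace {P : Matrix (Fin n) (Fin n) ℂ} (hP : P * P = P) :
    ∃ r : ℕ, P.trace = r := by
  have h1 : IsIdempotentElem (Matrix.toLin' P) := by
    show Matrix.toLin' P * Matrix.toLin' P = Matrix.toLin' P
    rw [Module.End.mul_eq_comp, ← Matrix.toLin'_mul, hP]
  have h2 := (LinearMap.IsIdempotentElem.isProj_range _ h1).trace
  rw [Matrix.trace_toLin'_eq] at h2
  exact ⟨_, h2⟩

theorem idem_zero {P : Matrix (Fin n) (Fin n) ℂ} (hP : P * P = P) (h0 : P.trace = 0) :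
    P = 0 := by
  have h1 : IsIdempotentElem (Matrix.toLin' P) := by
    show Matrix.toLin' P * Matrix.toLin' P = Matrix.toLin' P
    rw [Module.End.mul_eq_comp, ← Matrix.toLin'_mul, hP]
  have h2 := LinearMap.IsIdempotentElem.eq_zero_of_trace_eq_zero h1
    (by rw [Matrix.trace_toLin'_eq, h0])
  exact Matrix.toLin'.injective (by rw [h2, map_zero])

/-- the inner case -/
theorem inner_of_idem (hn : n ≠ 0)
    (α : Matrix (Fin n) (Fin n) ℂ →ₗ[ℂ] Matrix (Fin n) (Fin n) ℂ)
    (hlie : ∀ X Y, α X * α Y - α Y * α X = α (X * Y - Y * X))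
    (hiso : ∀ X Y, (α X * α Y).trace = (X * Y).trace)
    (hid : ∀ i, α (Matrix.single i i 1) * α (Matrix.single i i 1) = α (Matrix.single i i 1)) :
    ∃ A : Matrix (Fin n) (Fin n) ℂ, IsUnit A ∧ ∀ X, α X * A = A * X := by
  have hE : ∀ i j k l : Fin n, (Matrix.single i j (1 : ℂ)) * Matrix.single k l 1 =
      if j = k then Matrix.single i l 1 else 0 := by
    intro i j k l
    by_cases h : j = k
    · subst h
      simp
    · simp [h]
  have horth : ∀ i j, i ≠ j → α (Matrix.single i i 1) * α (Matrix.single j j 1) = 0 := by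
    intro i j hij
    have hc : α (Matrix.single i i 1) * α (Matrix.single j j 1) =
        α (Matrix.single j j 1) * α (Matrix.single i i 1) := by
      have := hlie (Matrix.single i i 1) (Matrix.single j j 1)
      rw [hE, hE, if_neg hij, if_neg (fun h => hij h.symm), sub_zero, map_zero] at this
      exact sub_eq_zero.mp this
    apply idem_zero
    · calc α (Matrix.single i i 1) * α (Matrix.single j j 1) *
            (α (Matrix.single i i 1) * α (Matrix.single j j 1))
          = α (Matrix.single i i 1) * (α (Matrix.single j j 1) * α (Matrix.single i i 1)) *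
            α (Matrix.single j j 1) := by noncomm_ring
        _ = (α (Matrix.single i i 1) * α (Matrix.single i i 1)) *
            (α (Matrix.single j j 1) * α (Matrix.single j j 1)) := by
              rw [← hc]; noncomm_ring
        _ = _ := by rw [hid, hid]
    · rw [hiso, hE, if_neg hij, Matrix.trace_zero]
  -- left and right absorption
  have hleft : ∀ i j, α (Matrix.single i i 1) * α (Matrix.single i j 1) =
      α (Matrix.single i j 1) := by
    intro i j
    by_cases hij : i = j
    · subst hij; exact hid i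
    have h1 := hlie (Matrix.single i i 1) (Matrix.single i j 1)
    rw [hE, hE, if_pos rfl, if_neg (fun h => hij h.symm), sub_zero] at h1
    set P := α (Matrix.single i i 1) with hP
    set X := α (Matrix.single i j 1) with hX
    have h2 : P * P = P := hid i
    have h3 : P * X * P = 0 := by
      have e : P * (P * X - X * P) = P * X := by rw [h1]
      have e2 : P * (P * X - X * P) = (P * P) * X - P * X * P := by noncomm_ring
      rw [e2, h2] at e
      exact sub_eq_self.mp e
    have h4 : X * P = 0 := by
      have e : (P * X - X * P) * P = X * P := by rw [h1]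
      have e2 : (P * X - X * P) * P = P * X * P - X * (P * P) := by noncomm_ring
      rw [e2, h2, h3, zero_sub] at e
      have e3 : (2 : ℂ) • (X * P) = 0 := by
        rw [two_smul]
        nth_rewrite 1 [← e]
        simp
      rcases smul_eq_zero.mp e3 with e4 | e4
      · norm_num at e4
      · exact e4
    rw [h4, sub_zero] at h1
    exact h1
  have hright : ∀ i j, α (Matrix.single i j 1) * α (Matrix.single j j 1) =
      α (Matrix.single i j 1) := by
    intro i j
    by_cases hij : i = j
    · subst hij; exact hid i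
    have h1 := hlie (Matrix.single i j 1) (Matrix.single j j 1)
    rw [hE, hE, if_pos rfl, if_neg (fun h => hij h.symm), sub_zero] at h1
    set P := α (Matrix.single j j 1) with hP
    set X := α (Matrix.single i j 1) with hX
    have h2 : P * P = P := hid j
    have h3 : P * X * P = 0 := by
      have e : (X * P - P * X) * P = X * P := by rw [h1]
      have e2 : (X * P - P * X) * P = X * (P * P) - P * X * P := by noncomm_ring
      rw [e2, h2] at e
      exact sub_eq_self.mp e
    have h4 : P * X = 0 := by
      have e : P * (X * P - P * X) = P * X := by rw [h1]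
      have e2 : P * (X * P - P * X) = P * X * P - (P * P) * X := by noncomm_ring
      rw [e2, h2, h3, zero_sub] at e
      have e3 : (2 : ℂ) • (P * X) = 0 := by
        rw [two_smul]
        nth_rewrite 1 [← e]
        simp
      rcases smul_eq_zero.mp e3 with e4 | e4
      · norm_num at e4
      · exact e4
    rw [h4, sub_zero] at h1
    exact h1
  have hzero : ∀ i j k l, j ≠ k → α (Matrix.single i j 1) * α (Matrix.single k l 1) = 0 := by
    intro i j k l hjk
    rw [← hright i j, ← hleft k l]
    calc α (Matrix.single i j 1) * α (Matrix.single j j 1) *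
          (α (Matrix.single k k 1) * α (Matrix.single k l 1))
        = α (Matrix.single i j 1) * (α (Matrix.single j j 1) *
          α (Matrix.single k k 1)) * α (Matrix.single k l 1) := by noncomm_ring
      _ = 0 := by rw [horth j k hjk]; simp
  have hmul : ∀ i j l, α (Matrix.single i j 1) * α (Matrix.single j l 1) =
      α (Matrix.single i l 1) := by
    intro i j l
    by_cases hij : i = j
    · subst hij; exact hleft i l
    by_cases hjl : j = l
    · subst hjl; exact hright i j
    by_cases hil : i = l
    · subst hil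
      have h1 := hlie (Matrix.single i j 1) (Matrix.single j i 1)
      rw [hE, hE, if_pos rfl, if_pos rfl, map_sub] at h1
      have h2 := congrArg (fun Z => α (Matrix.single i i 1) * Z) h1
      simp only [mul_sub] at h2
      rw [horth i j hij, hid, sub_zero, ← mul_assoc, ← mul_assoc, hleft,
        hzero i i j i hij, zero_mul, sub_zero] at h2
      exact h2
    · have h1 := hlie (Matrix.single i j 1) (Matrix.single j l 1)
      have hli : ¬ l = i := fun h => hil h.symm
      rw [hE, hE, if_pos rfl, if_neg hli, sub_zero, hzero j l i j hli, sub_zero] at h1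
      exact h1
  -- the intertwiner
  have hpos : 0 < n := Nat.pos_of_ne_zero hn
  let o : Fin n := ⟨0, hpos⟩
  have hPo : α (Matrix.single o o 1) ≠ 0 := by
    intro h0
    have h1 := hiso (Matrix.single o o 1) (Matrix.single o o 1)
    rw [h0, hE, if_pos rfl] at h1
    simp at h1
  obtain ⟨w, hw⟩ : ∃ w : Fin n → ℂ, α (Matrix.single o o 1) *ᵥ w ≠ 0 := by
    by_contra hcon
    push Not at hcon
    apply hPo
    ext i j
    have := congrFun (hcon (Pi.single j 1)) i
    simpa using this
  set v := α (Matrix.single o o 1) *ᵥ w with hv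
  have hPv : α (Matrix.single o o 1) *ᵥ v = v := by
    rw [hv, Matrix.mulVec_mulVec, hid]
  let A : Matrix (Fin n) (Fin n) ℂ := Matrix.of fun a i => (α (Matrix.single i o 1) *ᵥ v) a
  have hAcol : ∀ k, A *ᵥ (Pi.single k 1) = α (Matrix.single k o 1) *ᵥ v := by
    intro k
    funext a
    simp [A]
  have hint : ∀ X, α X * A = A * X := by
    have h : (LinearMap.mulRight ℂ A) ∘ₗ α = LinearMap.mulLeft ℂ A := by
      apply (Matrix.stdBasis ℂ (Fin n) (Fin n)).ext
      rintro ⟨i, j⟩
      rw [Matrix.stdBasis_eq_single]
      simp only [LinearMap.comp_apply, LinearMap.mulRight_apply, LinearMap.mulLeft_apply]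
      apply Matrix.toLin'.injective
      apply LinearMap.pi_ext'
      intro k
      apply LinearMap.ext_ring
      simp only [LinearMap.comp_apply, LinearMap.single_apply, Matrix.toLin'_apply]
      rw [← Matrix.mulVec_mulVec, ← Matrix.mulVec_mulVec, hAcol]
      have e1 : (Matrix.single i j (1 : ℂ)) *ᵥ (Pi.single k 1) =
          if j = k then Pi.single i 1 else 0 := by
        by_cases hjk : j = k
        · subst hjk
          rw [if_pos rfl]
          ext a
          simp [Matrix.mulVec_single, Matrix.single_apply, Pi.single_apply, eq_comm]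
        · rw [if_neg hjk]
          ext a
          simp [hjk]
      rw [e1]
      by_cases hjk : j = k
      · subst hjk
        rw [if_pos rfl, hAcol, Matrix.mulVec_mulVec, hmul]
      · rw [if_neg hjk, Matrix.mulVec_mulVec, hzero i j k o hjk]
        simp
    intro X
    have := congrArg (fun f => f X) h
    simpa using this
  refine ⟨A, ?_, hint⟩
  rw [← Matrix.mulVec_injective_iff_isUnit]
  intro y z hyz
  by_contra hne
  have h0 : A *ᵥ (y - z) = 0 := by
    rw [Matrix.mulVec_sub]
    exact sub_eq_zero.mpr hyz
  have hne' : y - z ≠ 0 := sub_ne_zero.mpr hne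
  obtain ⟨i, hi⟩ := Function.ne_iff.mp hne'
  rw [Pi.zero_apply] at hi
  have h1 : (vecMulVec (Pi.single o 1 : Fin n → ℂ) (Pi.single i ((y - z) i)⁻¹)) *ᵥ (y - z) =
      Pi.single o 1 := by
    rw [Matrix.vecMulVec_mulVec, single_dotProduct, inv_mul_cancel₀ hi]
    simp
  have h2 : (α (vecMulVec (Pi.single o 1 : Fin n → ℂ) (Pi.single i ((y - z) i)⁻¹)) * A) *ᵥ
      (y - z) = (A * vecMulVec (Pi.single o 1 : Fin n → ℂ) (Pi.single i ((y - z) i)⁻¹)) *ᵥ
      (y - z) := by rw [hint]
  rw [← Matrix.mulVec_mulVec, ← Matrix.mulVec_mulVec, h0, h1, hAcol, hPv] at h2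
  apply hw
  rw [← h2]
  simp

theorem idem_or_idem (hn2 : 2 ≤ n)
    (α : Matrix (Fin n) (Fin n) ℂ ≃ₗ[ℂ] Matrix (Fin n) (Fin n) ℂ)
    (htr : ∀ X, (α X).trace = X.trace)
    (hlie : ∀ X Y, α X * α Y - α Y * α X = α (X * Y - Y * X))
    (hiso : ∀ X Y, (α X * α Y).trace = (X * Y).trace) (i : Fin n) :
    (α (Matrix.single i i 1) * α (Matrix.single i i 1) = α (Matrix.single i i 1)) ∨
    (((2 / n : ℂ) • (1 : Matrix (Fin n) (Fin n) ℂ) - α (Matrix.single i i 1)) *
      ((2 / n : ℂ) • (1 : Matrix (Fin n) (Fin n) ℂ) - α (Matrix.single i i 1)) =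
      (2 / n : ℂ) • (1 : Matrix (Fin n) (Fin n) ℂ) - α (Matrix.single i i 1)) := by
  have hn' : (n : ℂ) ≠ 0 := by
    have : n ≠ 0 := by omega
    exact_mod_cast this
  set E : Matrix (Fin n) (Fin n) ℂ := Matrix.single i i 1 with hEdef
  set K := α E with hK
  have hEE : E * E = E := by rw [hEdef]; simp
  obtain ⟨j, hj⟩ : ∃ j : Fin n, j ≠ i := by
    have : Nontrivial (Fin n) := Fin.nontrivial_iff_two_le.mpr hn2
    exact exists_ne i
  have hEX : E * Matrix.single i j 1 - Matrix.single i j 1 * E = Matrix.single i j 1 := by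
    rw [hEdef, Matrix.single_mul_single_same, Matrix.single_mul_single_of_ne _ _ _ _ hj]
    simp
  -- a commutator which does not vanish
  obtain ⟨Y0, hY0⟩ : ∃ Y0, K * Y0 - Y0 * K ≠ 0 := by
    refine ⟨α (Matrix.single i j 1), ?_⟩
    rw [hK, hlie, hEX]
    intro h
    have h1 := α.injective (h.trans (map_zero α).symm)
    have h2 := congrFun (congrFun h1 i) j
    simp at h2
  have had : ∀ Y, K * K * K * Y - (3 : ℂ) • (K * K * Y * K) + (3 : ℂ) • (K * Y * (K * K)) -
      Y * (K * K * K) = K * Y - Y * K := by
    intro Y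
    obtain ⟨X, rfl⟩ := α.surjective Y
    have h1 : ∀ Z, K * α Z - α Z * K = α (E * Z - Z * E) := fun Z => hlie E Z
    have h2 : K * (K * (K * α X - α X * K) - (K * α X - α X * K) * K) -
        (K * (K * α X - α X * K) - (K * α X - α X * K) * K) * K = K * α X - α X * K := by
      rw [h1, h1, h1]
      congr 1
      have e : E * (E * (E * X - X * E) - (E * X - X * E) * E) -
          (E * (E * X - X * E) - (E * X - X * E) * E) * E =
          E * E * E * X - (3 : ℂ) • (E * E * X * E) + (3 : ℂ) • (E * X * (E * E)) -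
            X * (E * E * E) := by
        simp only [mul_sub, sub_mul, ← mul_assoc]
        module
      rw [e, hEE, hEE]
      module
    rw [← h2]
    simp only [mul_sub, sub_mul, ← mul_assoc]
    module
  have hKns : ¬ ∃ c : ℂ, K = c • (1 : Matrix (Fin n) (Fin n) ℂ) := by
    rintro ⟨c, hc⟩
    apply hY0
    rw [hc]
    simp
  -- quadratic relation
  obtain ⟨p, q, hpq⟩ : ∃ p q : ℂ, K * K = p • K + q • (1 : Matrix (Fin n) (Fin n) ℂ) := by
    by_contra hcon
    have hmem : K * K ∉ Submodule.span ℂ {K, (1 : Matrix (Fin n) (Fin n) ℂ)} := by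
      intro h
      rw [Submodule.mem_span_pair] at h
      obtain ⟨p, q, h⟩ := h
      exact hcon ⟨p, q, h.symm⟩
    obtain ⟨f, hf1, hf2⟩ := Submodule.exists_le_ker_of_notMem hmem
    have hfK : f K = 0 := LinearMap.mem_ker.mp (hf2 (Submodule.subset_span (by simp)))
    have hf1' : f 1 = 0 := LinearMap.mem_ker.mp (hf2 (Submodule.subset_span (by simp)))
    apply hKns
    refine ⟨f (K * K * K) / (3 * f (K * K)), ?_⟩
    have hent : ∀ (M N : Matrix (Fin n) (Fin n) ℂ) (a b c d : Fin n),
        (M * Matrix.single b c (1 : ℂ) * N) a d = M a b * N c d := by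
      intro M N a b c d
      simp [Matrix.mul_apply, Matrix.single_apply, ite_and]
    ext c d
    have h1 : ((1 : Matrix (Fin n) (Fin n) ℂ) c d) • (K * K * K) - (3 * K c d) • (K * K) +
        (3 * (K * K) c d) • K - ((K * K * K) c d) • (1 : Matrix (Fin n) (Fin n) ℂ) -
        ((1 : Matrix (Fin n) (Fin n) ℂ) c d) • K + (K c d) • (1 : Matrix (Fin n) (Fin n) ℂ)
        = 0 := by
      ext a b
      have h2 := congrFun (congrFun (had (Matrix.single b c 1)) a) d
      have e1 := hent (K * K * K) 1 a b c d
      have e2 := hent (K * K) K a b c d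
      have e3 := hent K (K * K) a b c d
      have e4 := hent 1 (K * K * K) a b c d
      have e5 := hent K 1 a b c d
      have e6 := hent 1 K a b c d
      rw [mul_one] at e1 e5
      rw [one_mul] at e4 e6
      simp only [Matrix.sub_apply, Matrix.add_apply, Matrix.smul_apply, smul_eq_mul,
        Matrix.zero_apply] at h2 ⊢
      rw [e1, e2, e3, e4, e5, e6] at h2
      linear_combination h2
    have h2 := congrArg f h1
    simp only [map_add, map_sub, map_smul, hfK, hf1', map_zero, smul_eq_mul] at h2
    rw [Matrix.smul_apply, smul_eq_mul]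
    field_simp
    linear_combination -h2
  have hdisc : p ^ 2 + 4 * q = 1 := by
    have h1 : (p ^ 2 + 4 * q) • (K * Y0 - Y0 * K) = K * Y0 - Y0 * K := by
      refine Eq.trans ?_ (had Y0)
      rw [hpq]
      simp only [add_mul, mul_add, smul_mul_assoc, mul_smul_comm, one_mul, mul_one, hpq,
        smul_add]
      module
    have h2 : (p ^ 2 + 4 * q - 1) • (K * Y0 - Y0 * K) = 0 := by
      rw [sub_smul, h1, one_smul, sub_self]
    rcases smul_eq_zero.mp h2 with h3 | h3
    · linear_combination h3
    · exact absurd h3 hY0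
  obtain ⟨P, hP⟩ : ∃ P : Matrix (Fin n) (Fin n) ℂ,
      P = K - ((p - 1) / 2) • (1 : Matrix (Fin n) (Fin n) ℂ) := ⟨_, rfl⟩
  have hPP : P * P = P := by
    rw [hP]
    simp only [mul_sub, sub_mul, smul_mul_assoc, mul_smul_comm, one_mul, mul_one, hpq, smul_sub]
    have e : q = (1 - p ^ 2) / 4 := by linear_combination hdisc / 4
    rw [e]
    module
  obtain ⟨r, hr⟩ := idem_trace hPP
  have htrK : K.trace = 1 := by rw [hK, htr, hEdef]; simp
  have htrKK : (K * K).trace = 1 := by rw [hK, hiso, hEE, hEdef]; simp
  have hKP : K = P + ((p - 1) / 2) • (1 : Matrix (Fin n) (Fin n) ℂ) := by rw [hP]; abel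
  have e1 : (r : ℂ) + n * ((p - 1) / 2) = 1 := by
    have h := htrK
    rw [hKP, Matrix.trace_add, hr, Matrix.trace_smul, Matrix.trace_one,
      Fintype.card_fin, smul_eq_mul] at h
    linear_combination h
  have e2 : (r : ℂ) + 2 * ((p - 1) / 2) * r + n * ((p - 1) / 2) ^ 2 = 1 := by
    have h := htrKK
    rw [hKP] at h
    simp only [mul_add, add_mul, smul_mul_assoc, mul_smul_comm, one_mul, mul_one, hPP,
      Matrix.trace_add, Matrix.trace_smul, hr, Matrix.trace_one, Fintype.card_fin, smul_eq_mul,
      smul_add] at h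
    linear_combination h
  have e3 : ((r : ℂ) - 1) * (n - 1 - r) = 0 := by
    have e4 : (p - 1) / 2 = (1 - r) / n := by
      field_simp
      linear_combination 2 * e1
    rw [e4] at e2
    field_simp at e2
    linear_combination e2
  rcases mul_eq_zero.mp e3 with h1 | h1
  · left
    have h2 : (n : ℂ) * ((p - 1) / 2) = 0 := by linear_combination e1 - h1
    rcases mul_eq_zero.mp h2 with h3 | h3
    · exact absurd h3 hn'
    · rw [h3, zero_smul, add_zero] at hKP
      rw [hKP, hPP]
  · right
    have h2 : (p - 1) / 2 = 2 / n - 1 := by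
      field_simp
      linear_combination 2 * e1 + 2 * h1
    have h3 : (2 / n : ℂ) • (1 : Matrix (Fin n) (Fin n) ℂ) - K = 1 - P := by
      rw [hKP, h2]
      module
    rw [h3]
    simp only [mul_sub, sub_mul, mul_one, one_mul, hPP]
    abel

theorem lieaut (hn2 : 2 ≤ n)
    (α : Matrix (Fin n) (Fin n) ℂ ≃ₗ[ℂ] Matrix (Fin n) (Fin n) ℂ)
    (htr : ∀ X, (α X).trace = X.trace)
    (hlie : ∀ X Y, α X * α Y - α Y * α X = α (X * Y - Y * X))
    (hiso : ∀ X Y, (α X * α Y).trace = (X * Y).trace) :
    ∃ A : Matrix (Fin n) (Fin n) ℂ, IsUnit A ∧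
      ((∀ X, α X * A = A * X) ∨
       (∀ X, α X * A = A * (-Xᵀ + ((2 / n : ℂ) * X.trace) • (1 : Matrix (Fin n) (Fin n) ℂ)))) := by
  have hn : n ≠ 0 := by omega
  have hn' : (n : ℂ) ≠ 0 := by exact_mod_cast hn
  have hior := idem_or_idem hn2 α htr hlie hiso
  have huni : (∀ i, α (Matrix.single i i 1) * α (Matrix.single i i 1) = α (Matrix.single i i 1)) ∨
      (∀ i, ((2 / n : ℂ) • (1 : Matrix (Fin n) (Fin n) ℂ) - α (Matrix.single i i 1)) *
      ((2 / n : ℂ) • (1 : Matrix (Fin n) (Fin n) ℂ) - α (Matrix.single i i 1)) =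
      (2 / n : ℂ) • (1 : Matrix (Fin n) (Fin n) ℂ) - α (Matrix.single i i 1)) := by
    by_cases hall : ∀ i, α (Matrix.single i i 1) * α (Matrix.single i i 1) =
        α (Matrix.single i i 1)
    · exact Or.inl hall
    · right
      push Not at hall
      obtain ⟨i, hi⟩ := hall
      have hQi := (hior i).resolve_left hi
      intro j
      by_cases hij : i = j
      · rw [← hij]; exact hQi
      rcases hior j with hj | hj
      · exfalso
        set K := α (Matrix.single j j 1) with hKdef
        set L := α (Matrix.single i i 1) with hLdef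
        set Q := (2 / n : ℂ) • (1 : Matrix (Fin n) (Fin n) ℂ) - L with hQ
        have hji : j ≠ i := fun h => hij h.symm
        have hc : K * L = L * K := by
          have := hlie (Matrix.single j j 1) (Matrix.single i i 1)
          rw [Matrix.single_mul_single_of_ne _ _ _ _ hji,
            Matrix.single_mul_single_of_ne _ _ _ _ hij, sub_zero, map_zero] at this
          exact sub_eq_zero.mp this
        have hcQ : K * Q = Q * K := by
          rw [hQ]
          simp [mul_sub, sub_mul, hc]
        have hid : (K * Q) * (K * Q) = K * Q := by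
          calc (K * Q) * (K * Q) = K * (Q * K) * Q := by noncomm_ring
            _ = (K * K) * (Q * Q) := by rw [← hcQ]; noncomm_ring
            _ = K * Q := by rw [hj, hQi]
        obtain ⟨r, hr⟩ := idem_trace hid
        have h1 : (K * Q).trace = 2 / n := by
          rw [hQ, mul_sub, Matrix.trace_sub, mul_smul_comm, mul_one, Matrix.trace_smul,
            hKdef, hLdef, hiso, htr, Matrix.single_mul_single_of_ne _ _ _ _ hji]
          simp
        rw [h1] at hr
        have h2 : (2 : ℂ) = r * n := by
          field_simp at hr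
          linear_combination hr
        have h3 : 2 = r * n := by exact_mod_cast h2
        have hn3 : n = 2 := by
          have h4 : n ∣ 2 := ⟨r, by rw [h3]; ring⟩
          exact le_antisymm (Nat.le_of_dvd (by norm_num) h4) hn2
        apply hi
        have h5 : (2 / n : ℂ) = 1 := by rw [hn3]; norm_num
        rw [hQ, h5, one_smul, mul_sub, sub_mul, sub_mul] at hQi
        simp only [mul_one, one_mul] at hQi
        have h6 : L * L - L = 0 := by
          have : 1 - L - (L - L * L) - (1 - L) = 0 := by rw [hQi, sub_self]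
          rw [← this]
          abel
        exact sub_eq_zero.mp h6
      · exact hj
  rcases huni with h | h
  · obtain ⟨A, hA, hint⟩ := inner_of_idem hn α.toLinearMap hlie hiso h
    exact ⟨A, hA, Or.inl hint⟩
  · let β : Matrix (Fin n) (Fin n) ℂ →ₗ[ℂ] Matrix (Fin n) (Fin n) ℂ :=
      - (α.toLinearMap ∘ₗ (Matrix.transposeLinearEquiv (Fin n) (Fin n) ℂ ℂ).toLinearMap) +
        ((2 / n : ℂ) • Matrix.traceLinearMap (Fin n) ℂ ℂ).smulRight 1
    have hβ : ∀ X, β X = - α Xᵀ + ((2 / n : ℂ) * X.trace) • (1 : Matrix (Fin n) (Fin n) ℂ) := by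
      intro X
      simp [β, LinearMap.smulRight_apply]
    obtain ⟨A, hA, hint⟩ := inner_of_idem hn β (by
      intro X Y
      rw [hβ, hβ, hβ, trace_comm_zero]
      have e1 : (X * Y - Y * X)ᵀ = -(Xᵀ * Yᵀ - Yᵀ * Xᵀ) := by
        rw [Matrix.transpose_sub, Matrix.transpose_mul, Matrix.transpose_mul]
        abel
      rw [e1, map_neg, ← hlie]
      simp only [mul_add, add_mul, smul_mul_assoc, mul_smul_comm, mul_one, one_mul, neg_mul,
        mul_neg, smul_neg, smul_add]
      module) (by
      intro X Y
      rw [hβ, hβ]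
      simp only [mul_add, add_mul, smul_mul_assoc, mul_smul_comm, mul_one, one_mul, neg_mul,
        mul_neg, Matrix.trace_add, Matrix.trace_neg, Matrix.trace_smul, hiso, htr,
        Matrix.trace_transpose, Matrix.trace_one, Fintype.card_fin, smul_eq_mul,
        smul_neg, smul_add]
      rw [← Matrix.transpose_mul, Matrix.trace_transpose, Matrix.trace_mul_comm]
      field_simp
      ring) (by
      intro i
      have e1 : β (Matrix.single i i 1) =
          (2 / n : ℂ) • (1 : Matrix (Fin n) (Fin n) ℂ) - α (Matrix.single i i 1) := by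
        rw [hβ, Matrix.transpose_single, Matrix.trace_single_eq_same, mul_one]
        abel
      rw [e1]
      exact h i)
    refine ⟨A, hA, Or.inr ?_⟩
    intro X
    have h1 := hint Xᵀ
    rw [hβ, Matrix.transpose_transpose, Matrix.trace_transpose, add_mul, neg_mul] at h1
    rw [mul_add, mul_neg, ← h1]
    simp only [smul_mul_assoc, one_mul, mul_smul_comm, mul_one]
    abel

end Pool.Agent.Helper324
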