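import Mathlib
import Pool.Agent.Helper324.LieAut

open Matrix Polynomial Module

namespace Pool.Agent.Helper324

variable {n : ℕ}

theorem mem_spectrum_iff_eigvec {C : Matrix (Fin n) (Fin n) ℂ} {l : ℂ} :
    l ∈ spectrum ℂ C ↔ ∃ v : Fin n → ℂ, v ≠ 0 ∧ C *ᵥ v = l • v := by
  rw [Matrix.mem_spectrum_iff_isRoot_charpoly, Polynomial.IsRoot, Matrix.eval_charpoly,
    ← Matrix.exists_mulVec_eq_zero_iff]
  constructor
  · rintro ⟨v, hv, h⟩
    refine ⟨v, hv, ?_⟩
    rw [Matrix.sub_mulVec, sub_eq_zero] at h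
    rw [← h]
    simp
  · rintro ⟨v, hv, h⟩
    refine ⟨v, hv, ?_⟩
    rw [Matrix.sub_mulVec, h]
    simp

theorem charpoly_dvd_pow {A : Matrix (Fin n) (Fin n) ℂ} {p : ℂ[X]}
    (h : ∀ l ∈ spectrum ℂ A, p.eval l = 0) : A.charpoly ∣ p ^ n := by
  have h1 : ∀ m : Multiset ℂ, (∀ a ∈ m, p.eval a = 0) →
      (m.map (fun a => X - C a)).prod ∣ p ^ (Multiset.card m) := by
    intro m
    induction m using Multiset.induction_on with
    | empty => intro _; simp
    | cons a m ih =>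
      intro hm
      rw [Multiset.map_cons, Multiset.prod_cons, Multiset.card_cons, pow_succ, mul_comm]
      apply mul_dvd_mul
      · exact ih (fun b hb => hm b (Multiset.mem_cons_of_mem hb))
      · exact Polynomial.dvd_iff_isRoot.mpr (hm a (Multiset.mem_cons_self a m))
  have h2 := h1 A.charpoly.roots (fun a ha => by
    apply h
    rw [Matrix.mem_spectrum_iff_isRoot_charpoly]
    exact (Polynomial.mem_roots (Matrix.charpoly_monic A).ne_zero).mp ha)
  rw [card_roots, ← charpoly_eq_prod] at h2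
  exact h2

theorem aeval_pow_eq_zero_iff {A : Matrix (Fin n) (Fin n) ℂ} {p : ℂ[X]} :
    (aeval A p) ^ n = 0 ↔ ∀ l ∈ spectrum ℂ A, p.eval l = 0 := by
  constructor
  · intro h l hl
    obtain ⟨v, hv, hAv⟩ := mem_spectrum_iff_eigvec.mp hl
    have h1 : ∀ q : ℂ[X], (aeval A q) *ᵥ v = q.eval l • v := by
      intro q
      induction q using Polynomial.induction_on' with
      | add q q' hq hq' =>
        rw [map_add, Matrix.add_mulVec, hq, hq', Polynomial.eval_add, add_smul]
      | monomial k a =>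
        have h2 : ∀ k : ℕ, (A ^ k) *ᵥ v = l ^ k • v := by
          intro k
          induction k with
          | zero => simp
          | succ k ih =>
            rw [pow_succ, ← Matrix.mulVec_mulVec, hAv, Matrix.mulVec_smul, ih, smul_smul,
              pow_succ, mul_comm]
        rw [Polynomial.aeval_monomial, Polynomial.eval_monomial, ← Algebra.smul_def,
          Matrix.smul_mulVec, h2, smul_smul]
    have h2 := h1 (p ^ n)
    rw [map_pow, h, Matrix.zero_mulVec, Polynomial.eval_pow] at h2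
    rcases smul_eq_zero.mp h2.symm with h3 | h3
    · exact eq_zero_of_pow_eq_zero h3
    · exact absurd h3 hv
  · intro h
    obtain ⟨q, hq⟩ := charpoly_dvd_pow h
    rw [← map_pow, hq, map_mul, Matrix.aeval_self_charpoly, zero_mul]

theorem eval_charpoly_neg {B : Matrix (Fin n) (Fin n) ℂ} {l : ℂ} :
    (-B).charpoly.eval l = 0 ↔ -l ∈ spectrum ℂ B := by
  have h1 : l ∈ spectrum ℂ (-B) ↔ -l ∈ spectrum ℂ B := by
    rw [← spectrum.neg_eq]
    simp
  rw [← h1, Matrix.mem_spectrum_iff_isRoot_charpoly]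
  rfl

theorem eval_charpoly_pos {B : Matrix (Fin n) (Fin n) ℂ} {l : ℂ} :
    B.charpoly.eval l = 0 ↔ l ∈ spectrum ℂ B := by
  rw [Matrix.mem_spectrum_iff_isRoot_charpoly]
  rfl

/-- spectral inclusion up to sign extends from a dense set -/
theorem ext_incl {V : Type*} [AddCommGroup V] [Module ℂ V]
    {A B : V → Matrix (Fin n) (Fin n) ℂ} (hA : LPM A) (hB : LPM B) {h : V → ℂ} (hh : LP h)
    (hne : ∃ x, h x ≠ 0)
    (H : ∀ x, h x ≠ 0 → ∀ l ∈ spectrum ℂ (A x), l ∈ spectrum ℂ (B x) ∨ -l ∈ spectrum ℂ (B x)) :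
    ∀ x, ∀ l ∈ spectrum ℂ (A x), l ∈ spectrum ℂ (B x) ∨ -l ∈ spectrum ℂ (B x) := by
  have key : ∀ x, (∀ l ∈ spectrum ℂ (A x), l ∈ spectrum ℂ (B x) ∨ -l ∈ spectrum ℂ (B x)) ↔
      (aeval (A x) ((B x).charpoly * (-(B x)).charpoly)) ^ n = 0 := by
    intro x
    rw [aeval_pow_eq_zero_iff]
    apply forall₂_congr
    intro l _
    rw [Polynomial.eval_mul, mul_eq_zero, eval_charpoly_neg, eval_charpoly_pos]
  have hLP : LPM (fun x => (aeval (A x) ((B x).charpoly * (-(B x)).charpoly)) ^ n) := by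
    apply LPM.pow
    apply LPM.aeval hA (2 * n + 1)
    · intro r
      have : (fun x => ((B x).charpoly * (-(B x)).charpoly).coeff r) = fun x =>
          ∑ k ∈ Finset.HasAntidiagonal.antidiagonal r, (B x).charpoly.coeff k.1 * (-(B x)).charpoly.coeff k.2 := by
        funext x
        rw [Polynomial.coeff_mul]
      rw [this]
      exact LP.sum _ (fun k _ => (hB.charpoly_coeff _).mul (hB.neg.charpoly_coeff _))
    · intro x
      calc ((B x).charpoly * (-(B x)).charpoly).natDegree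
          ≤ (B x).charpoly.natDegree + (-(B x)).charpoly.natDegree :=
            Polynomial.natDegree_mul_le
        _ < 2 * n + 1 := by
          rw [Matrix.charpoly_natDegree_eq_dim, Matrix.charpoly_natDegree_eq_dim]
          simp
          omega
  intro x
  rw [key]
  ext i j
  refine LP.identity (hLP i j) hh hne ?_ x
  intro y hy
  have h1 := (key y).mp (H y hy)
  show ((aeval (A y) ((B y).charpoly * (-(B y)).charpoly)) ^ n) i j = 0
  rw [h1]
  rfl

/-- asymmetry of the spectrum is a generic condition -/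
theorem asym_common {V : Type*} [AddCommGroup V] [Module ℂ V]
    {A B : V → Matrix (Fin n) (Fin n) ℂ} (hA : LPM A) (hB : LPM B)
    (h1 : ∃ x, ∃ l ∈ spectrum ℂ (A x), -l ∉ spectrum ℂ (A x))
    (h2 : ∃ x, ∃ l ∈ spectrum ℂ (B x), -l ∉ spectrum ℂ (B x)) :
    ∃ x, (∃ l ∈ spectrum ℂ (A x), -l ∉ spectrum ℂ (A x)) ∧
      (∃ l ∈ spectrum ℂ (B x), -l ∉ spectrum ℂ (B x)) := by
  have key : ∀ M : Matrix (Fin n) (Fin n) ℂ, (∃ l ∈ spectrum ℂ M, -l ∉ spectrum ℂ M) ↔
      ∃ i j, ((aeval M ((-M).charpoly)) ^ n) i j ≠ 0 := by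
    intro M
    have e : (aeval M ((-M).charpoly)) ^ n = 0 ↔ ∀ l ∈ spectrum ℂ M, -l ∈ spectrum ℂ M := by
      rw [aeval_pow_eq_zero_iff]
      apply forall₂_congr
      intro l _
      rw [eval_charpoly_neg]
    rw [← not_iff_not]
    push Not
    rw [← e]
    constructor
    · intro h i j
      rw [h]
      rfl
    · intro h
      ext i j
      exact h i j
  have hLP : ∀ {A : V → Matrix (Fin n) (Fin n) ℂ}, LPM A →
      LPM (fun x => (aeval (A x) ((-(A x)).charpoly)) ^ n) := by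
    intro A hA
    apply LPM.pow
    apply LPM.aeval hA (n + 1)
    · intro r
      exact hA.neg.charpoly_coeff r
    · intro x
      rw [Matrix.charpoly_natDegree_eq_dim]
      simp
  obtain ⟨x1, hx1⟩ := h1
  obtain ⟨x2, hx2⟩ := h2
  obtain ⟨i, j, hij⟩ := (key _).mp hx1
  obtain ⟨k, l, hkl⟩ := (key _).mp hx2
  obtain ⟨x, hxa, hxb⟩ := LP.domain (hLP hA i j) (hLP hB k l) ⟨x1, hij⟩ ⟨x2, hkl⟩
  exact ⟨x, (key _).mpr ⟨i, j, hxa⟩, (key _).mpr ⟨k, l, hxb⟩⟩

theorem sp_rank1_mem (T : Matrix (Fin n) (Fin n) ℂ) {x g : Fin n → ℂ} (h : g ⬝ᵥ x = 0)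
    (hx : x ≠ 0) :
    -(g ⬝ᵥ T *ᵥ x) ∈ spectrum ℂ (T * vecMulVec x g - vecMulVec x g * T) := by
  rw [mem_spectrum_iff_eigvec]
  refine ⟨x, hx, ?_⟩
  rw [Matrix.sub_mulVec, ← Matrix.mulVec_mulVec, ← Matrix.mulVec_mulVec,
    Matrix.vecMulVec_mulVec, Matrix.vecMulVec_mulVec, h]
  simp

theorem sp_rank1_sub (T : Matrix (Fin n) (Fin n) ℂ) {x g : Fin n → ℂ} (h : g ⬝ᵥ x = 0)
    {l : ℂ} (hl : l ∈ spectrum ℂ (T * vecMulVec x g - vecMulVec x g * T)) :
    l = 0 ∨ l ^ 2 = (g ⬝ᵥ T *ᵥ x) ^ 2 := by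
  obtain ⟨v, hv, hCv⟩ := mem_spectrum_iff_eigvec.mp hl
  set N := vecMulVec x g with hN
  have hNMN : ∀ M : Matrix (Fin n) (Fin n) ℂ, N * M * N = (g ⬝ᵥ M *ᵥ x) • N := by
    intro M
    rw [hN, Matrix.mul_assoc, mul_vecMulVec, vecMulVec_mul_vecMulVec, vecMulVec_smul]
  have hNN : N * N = 0 := by
    have := hNMN 1
    rw [mul_one, Matrix.one_mulVec, h, zero_smul] at this
    exact this
  set τ := g ⬝ᵥ T *ᵥ x with hτ
  set κ := g ⬝ᵥ (T * T) *ᵥ x with hκ
  have e1 : N * T * N = τ • N := hNMN T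
  have e2 : N * (T * T) * N = κ • N := hNMN (T * T)
  have hCC : (T * N - N * T) * (T * N - N * T) = τ • (T * N + N * T) - κ • N := by
    calc (T * N - N * T) * (T * N - N * T)
        = T * (N * T * N) - T * (N * N) * T - N * (T * T) * N + (N * T * N) * T := by
          noncomm_ring
      _ = τ • (T * N + N * T) - κ • N := by
          rw [e1, e2, hNN]
          simp only [mul_smul_comm, smul_mul_assoc, mul_zero, zero_mul]
          module
  have hCCC : (T * N - N * T) * ((T * N - N * T) * (T * N - N * T)) =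
      (τ ^ 2) • (T * N - N * T) := by
    rw [hCC]
    have e3 : (T * N - N * T) * (τ • (T * N + N * T) - κ • N) =
        τ • (T * (N * T * N) + T * (N * N) * T - N * (T * T) * N - (N * T * N) * T) -
        κ • (T * (N * N) - N * T * N) := by
      simp only [mul_sub, sub_mul, mul_add, mul_smul_comm, smul_sub, smul_add, ← mul_assoc]
      module
    rw [e3, e1, e2, hNN]
    simp only [mul_smul_comm, smul_mul_assoc, mul_zero, zero_mul]
    module
  have h1 : ((T * N - N * T) * ((T * N - N * T) * (T * N - N * T))) *ᵥ v = l ^ 3 • v := by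
    rw [← Matrix.mulVec_mulVec, ← Matrix.mulVec_mulVec, hCv, Matrix.mulVec_smul, hCv,
      smul_smul, Matrix.mulVec_smul, hCv, smul_smul]
    congr 1
    ring
  rw [hCCC, Matrix.smul_mulVec, hCv, smul_smul] at h1
  have h2 : (τ ^ 2 * l - l ^ 3) • v = 0 := by rw [sub_smul, h1, sub_self]
  rcases smul_eq_zero.mp h2 with h3 | h3
  · have h4 : l * (τ ^ 2 - l ^ 2) = 0 := by linear_combination h3
    rcases mul_eq_zero.mp h4 with h5 | h5
    · exact Or.inl h5
    · right
      linear_combination -h5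
  · exact absurd h3 hv

/-- comparison of commutator spectra determines a matrix up to sign and scalars -/
theorem scalar_of_incl {T T' : Matrix (Fin n) (Fin n) ℂ}
    (h1 : ∀ S, ∀ l ∈ spectrum ℂ (T * S - S * T), l ∈ spectrum ℂ (T' * S - S * T') ∨
      -l ∈ spectrum ℂ (T' * S - S * T'))
    (h2 : ∀ S, ∀ l ∈ spectrum ℂ (T' * S - S * T'), l ∈ spectrum ℂ (T * S - S * T) ∨
      -l ∈ spectrum ℂ (T * S - S * T)) :
    (∃ c : ℂ, T' - T = c • (1 : Matrix (Fin n) (Fin n) ℂ)) ∨
    (∃ c : ℂ, T' + T = c • (1 : Matrix (Fin n) (Fin n) ℂ)) := by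
  apply scalar_or_scalar
  intro x g hxg
  have key : (g ⬝ᵥ T' *ᵥ x) ^ 2 = (g ⬝ᵥ T *ᵥ x) ^ 2 := by
    by_cases hx : x = 0
    · simp [hx]
    have aux : ∀ T T' : Matrix (Fin n) (Fin n) ℂ,
        (∀ S, ∀ l ∈ spectrum ℂ (T * S - S * T), l ∈ spectrum ℂ (T' * S - S * T') ∨
          -l ∈ spectrum ℂ (T' * S - S * T')) →
        (g ⬝ᵥ T *ᵥ x) = 0 ∨ (g ⬝ᵥ T *ᵥ x) ^ 2 = (g ⬝ᵥ T' *ᵥ x) ^ 2 := by
      intro T T' h
      have e1 := sp_rank1_mem T hxg hx
      rcases h _ _ e1 with e2 | e2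
      · rcases sp_rank1_sub T' hxg e2 with e3 | e3
        · left
          exact neg_eq_zero.mp e3
        · right
          rw [neg_sq] at e3
          exact e3
      · rcases sp_rank1_sub T' hxg e2 with e3 | e3
        · left
          rw [neg_neg] at e3
          exact e3
        · right
          rw [neg_neg] at e3
          exact e3
    rcases aux T T' h1 with e1 | e1
    · rcases aux T' T h2 with e2 | e2
      · rw [e1, e2]
      · exact e2
    · exact e1.symm
  rw [Matrix.sub_mulVec, Matrix.add_mulVec, dotProduct_sub, dotProduct_add]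
  linear_combination key

end Pool.Agent.Helper324
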