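import Mathlib
import Pool.Agent.Helper324.Ext

open Matrix Polynomial Module

namespace Pool.Agent.Helper324

variable {n : ℕ}

/-- `T` satisfies a quadratic equation `(T - r)^2 = s` with scalars `r, s` -/
def Quad (T : Matrix (Fin n) (Fin n) ℂ) : Prop :=
  ∃ r s : ℂ, (T - r • (1 : Matrix (Fin n) (Fin n) ℂ)) * (T - r • (1 : Matrix (Fin n) (Fin n) ℂ)) =
    s • (1 : Matrix (Fin n) (Fin n) ℂ)

theorem det_identity (l : ℂ) {T S : Matrix (Fin n) (Fin n) ℂ} (hT : T * T = 0) :
    l ^ n * (l • (1 : Matrix (Fin n) (Fin n) ℂ) + (T * S - S * T)).det =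
    l ^ n * (l • (1 : Matrix (Fin n) (Fin n) ℂ) - (T * S - S * T)).det := by
  have h1 : (l • (1 : Matrix (Fin n) (Fin n) ℂ) - S * T) * (l • (1 : Matrix (Fin n) (Fin n) ℂ) + T * S) =
      l • (l • (1 : Matrix (Fin n) (Fin n) ℂ) + (T * S - S * T)) := by
    have : S * T * (T * S) = 0 := by
      rw [show S * T * (T * S) = S * (T * T) * S by noncomm_ring, hT]; simp
    simp only [sub_mul, mul_add, smul_mul_assoc, mul_smul_comm, mul_one, one_mul, this]
    module
  have h2 : (l • (1 : Matrix (Fin n) (Fin n) ℂ) + S * T) * (l • (1 : Matrix (Fin n) (Fin n) ℂ) - T * S) =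
      l • (l • (1 : Matrix (Fin n) (Fin n) ℂ) - (T * S - S * T)) := by
    have : S * T * (T * S) = 0 := by
      rw [show S * T * (T * S) = S * (T * T) * S by noncomm_ring, hT]; simp
    simp only [add_mul, mul_sub, smul_mul_assoc, mul_smul_comm, mul_one, one_mul, this]
    module
  have h3 : ∀ A B : Matrix (Fin n) (Fin n) ℂ,
      (l • (1 : Matrix (Fin n) (Fin n) ℂ) - A * B).det =
      (l • (1 : Matrix (Fin n) (Fin n) ℂ) - B * A).det := by
    intro A B
    have e : ∀ M : Matrix (Fin n) (Fin n) ℂ, (l • (1 : Matrix (Fin n) (Fin n) ℂ) - M).det =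
        M.charpoly.eval l := by
      intro M
      rw [Matrix.eval_charpoly]
      congr 2
      ext i j
      simp [Matrix.scalar_apply, Matrix.diagonal_apply, Matrix.one_apply]
    rw [e, e, Matrix.charpoly_mul_comm]
  have h4 := congrArg Matrix.det h1
  have h5 := congrArg Matrix.det h2
  rw [Matrix.det_mul, Matrix.det_smul, Fintype.card_fin] at h4 h5
  rw [← h4, ← h5, h3 S T]
  have h6 := h3 S (-T)
  rw [mul_neg, neg_mul, sub_neg_eq_add, sub_neg_eq_add] at h6
  rw [h6]
  ring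

theorem quad_symm {T : Matrix (Fin n) (Fin n) ℂ} (hT : Quad T) (S : Matrix (Fin n) (Fin n) ℂ)
    {l : ℂ} (hl : l ∈ spectrum ℂ (T * S - S * T)) : -l ∈ spectrum ℂ (T * S - S * T) := by
  obtain ⟨r, s, hrs⟩ := hT
  set R := T - r • (1 : Matrix (Fin n) (Fin n) ℂ) with hR
  have hC : T * S - S * T = R * S - S * R := by
    rw [hR]
    simp only [sub_mul, mul_sub, smul_mul_assoc, mul_smul_comm, mul_one, one_mul]
    abel
  rw [hC] at hl ⊢
  by_cases hl0 : l = 0
  · rw [hl0] at hl ⊢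
    simpa using hl
  by_cases hs : s = 0
  · rw [hs, zero_smul] at hrs
    have h1 := det_identity l (S := S) hrs
    have h2 : (l • (1 : Matrix (Fin n) (Fin n) ℂ) - (R * S - S * R)).det = 0 := by
      rw [Matrix.mem_spectrum_iff_isRoot_charpoly, Polynomial.IsRoot, Matrix.eval_charpoly] at hl
      rw [← hl]
      congr 1
      ext i j
      simp [Matrix.scalar_apply, Matrix.diagonal_apply, Matrix.one_apply]
    rw [h2, mul_zero] at h1
    have h3 : (l • (1 : Matrix (Fin n) (Fin n) ℂ) + (R * S - S * R)).det = 0 := by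
      rcases mul_eq_zero.mp h1 with h4 | h4
      · exact absurd h4 (pow_ne_zero _ hl0)
      · exact h4
    rw [Matrix.mem_spectrum_iff_isRoot_charpoly, Polynomial.IsRoot, Matrix.eval_charpoly]
    have h5 : (Matrix.scalar (Fin n)) (-l) - (R * S - S * R) =
        -(l • (1 : Matrix (Fin n) (Fin n) ℂ) + (R * S - S * R)) := by
      ext i j
      simp [Matrix.scalar_apply, Matrix.diagonal_apply, Matrix.one_apply]
      split_ifs <;> ring
    rw [h5, Matrix.det_neg, h3, mul_zero]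
  · obtain ⟨v, hv, hCv⟩ := mem_spectrum_iff_eigvec.mp hl
    rw [mem_spectrum_iff_eigvec]
    refine ⟨R *ᵥ v, ?_, ?_⟩
    · intro h0
      apply hv
      have h1 : (R * R) *ᵥ v = 0 := by rw [← Matrix.mulVec_mulVec, h0, Matrix.mulVec_zero]
      rw [hrs, Matrix.smul_mulVec, Matrix.one_mulVec] at h1
      rcases smul_eq_zero.mp h1 with h2 | h2
      · exact absurd h2 hs
      · exact h2
    · have h1 : (R * S - S * R) * R = -(R * (R * S - S * R)) := by
        have e1 : (R * S - S * R) * R = R * S * R - S * (R * R) := by noncomm_ring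
        have e2 : R * (R * S - S * R) = (R * R) * S - R * S * R := by noncomm_ring
        rw [e1, e2, hrs]
        simp
      rw [Matrix.mulVec_mulVec, h1, Matrix.neg_mulVec, ← Matrix.mulVec_mulVec, hCv,
        Matrix.mulVec_smul, neg_smul]

/-- a cyclic-like vector of length three -/
theorem exists_indep {T : Matrix (Fin n) (Fin n) ℂ} (hT : ¬ Quad T) :
    ∃ x : Fin n → ℂ, ∀ a b c : ℂ, a • x + b • (T *ᵥ x) + c • (T *ᵥ (T *ᵥ x)) = 0 →
      a = 0 ∧ b = 0 ∧ c = 0 := by
  have hne : n ≠ 0 := by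
    rintro rfl
    apply hT
    exact ⟨0, 0, by ext i; exact i.elim0⟩
  let s : Finset (ℂ × ℂ) := T.charpoly.roots.toFinset ×ˢ T.charpoly.roots.toFinset
  have hs : ∀ p : ℂ × ℂ, p ∈ s ↔ p.1 ∈ spectrum ℂ T ∧ p.2 ∈ spectrum ℂ T := by
    intro p
    rw [Finset.mem_product, Multiset.mem_toFinset, Multiset.mem_toFinset,
      Polynomial.mem_roots (Matrix.charpoly_monic T).ne_zero,
      Polynomial.mem_roots (Matrix.charpoly_monic T).ne_zero,
      Matrix.mem_spectrum_iff_isRoot_charpoly, Matrix.mem_spectrum_iff_isRoot_charpoly]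
  let M : ℂ × ℂ → Matrix (Fin n) (Fin n) ℂ := fun p =>
    (T - p.1 • (1 : Matrix (Fin n) (Fin n) ℂ)) * (T - p.2 • (1 : Matrix (Fin n) (Fin n) ℂ))
  have hM : ∀ p, M p ≠ 0 := by
    intro p h0
    apply hT
    refine ⟨(p.1 + p.2) / 2, ((p.1 - p.2) / 2) ^ 2, ?_⟩
    have h1 : T * T = (p.1 + p.2) • T - (p.1 * p.2) • (1 : Matrix (Fin n) (Fin n) ℂ) := by
      rw [← sub_eq_zero, ← h0]
      simp only [M, sub_mul, mul_sub, smul_mul_assoc, mul_smul_comm, mul_one, one_mul]
      module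
    simp only [sub_mul, mul_sub, smul_mul_assoc, mul_smul_comm, mul_one, one_mul, h1]
    module
  have hM2 : ∀ p, ∃ k : Fin n, ∃ x : Fin n → ℂ, (M p *ᵥ x) k ≠ 0 := by
    intro p
    by_contra hcon
    push Not at hcon
    apply hM p
    ext i j
    have := hcon i (Pi.single j 1)
    simpa using this
  choose k hk using hM2
  obtain ⟨x, hx⟩ := LP.exists_forall_ne s (f := fun p x => (M p *ᵥ x) (k p))
    (fun p _ => LP.mulVec (M p) (k p)) (fun p _ => hk p)
  have hx' : ∀ p : ℂ × ℂ, p.1 ∈ spectrum ℂ T → p.2 ∈ spectrum ℂ T → M p *ᵥ x ≠ 0 := by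
    intro p h1 h2 h0
    have h3 : (M p *ᵥ x) (k p) = 0 := by rw [h0]; rfl
    exact hx p ((hs p).mpr ⟨h1, h2⟩) h3
  have hMx : ∀ p, M p *ᵥ x = (T - p.1 • (1 : Matrix (Fin n) (Fin n) ℂ)) *ᵥ
      ((T - p.2 • (1 : Matrix (Fin n) (Fin n) ℂ)) *ᵥ x) := by
    intro p
    rw [Matrix.mulVec_mulVec]
  have hspec : ∀ (l : ℂ) (y : Fin n → ℂ), y ≠ 0 →
      (T - l • (1 : Matrix (Fin n) (Fin n) ℂ)) *ᵥ y = 0 → l ∈ spectrum ℂ T := by
    intro l y hy h0
    rw [mem_spectrum_iff_eigvec]
    refine ⟨y, hy, ?_⟩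
    rw [Matrix.sub_mulVec, Matrix.smul_mulVec, Matrix.one_mulVec] at h0
    exact sub_eq_zero.mp h0
  have hx0 : x ≠ 0 := by
    rintro rfl
    have hcard := card_roots T
    have : ∃ l, l ∈ T.charpoly.roots := Multiset.card_pos_iff_exists_mem.mp (by
      rw [hcard]; exact Nat.pos_of_ne_zero hne)
    obtain ⟨l, hl⟩ := this
    have hl' : l ∈ spectrum ℂ T := by
      rw [Matrix.mem_spectrum_iff_isRoot_charpoly]
      exact (Polynomial.mem_roots (Matrix.charpoly_monic T).ne_zero).mp hl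
    exact hx' (l, l) hl' hl' (by simp)
  -- no eigenvector
  have hlin : ∀ l : ℂ, (T - l • (1 : Matrix (Fin n) (Fin n) ℂ)) *ᵥ x ≠ 0 := by
    intro l h0
    have h1 := hspec l x hx0 h0
    apply hx' (l, l) h1 h1
    rw [hMx]
    simp only
    rw [h0, Matrix.mulVec_zero]
  have hquad : ∀ l m : ℂ, M (l, m) *ᵥ x ≠ 0 := by
    intro l m h0
    have hcomm : M (l, m) = M (m, l) := by
      simp only [M, sub_mul, mul_sub, smul_mul_assoc, mul_smul_comm, mul_one, one_mul]
      module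
    have h1 : l ∈ spectrum ℂ T := by
      apply hspec l _ (hlin m)
      rw [← h0, hMx]
    have h2 : m ∈ spectrum ℂ T := by
      apply hspec m _ (hlin l)
      rw [← h0, hcomm, hMx]
    exact hx' (l, m) h1 h2 h0
  refine ⟨x, ?_⟩
  intro a b c habc
  by_cases hc : c = 0
  · rw [hc, zero_smul, add_zero] at habc
    by_cases hb : b = 0
    · rw [hb, zero_smul, add_zero] at habc
      rcases smul_eq_zero.mp habc with h | h
      · exact ⟨h, hb, hc⟩
      · exact absurd h hx0
    · exfalso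
      apply hlin (-(a / b))
      rw [Matrix.sub_mulVec, Matrix.smul_mulVec, Matrix.one_mulVec]
      have h1 : b • (T *ᵥ x - -(a / b) • x) = 0 := by
        rw [← habc, smul_sub, smul_smul]
        have : b * -(a / b) = -a := by field_simp
        rw [this]
        module
      rcases smul_eq_zero.mp h1 with h2 | h2
      · exact absurd h2 hb
      · exact h2
  · exfalso
    -- factor X^2 + (b/c) X + a/c
    obtain ⟨d, hd⟩ := IsAlgClosed.exists_pow_nat_eq ((b / c) ^ 2 - 4 * (a / c)) (n := 2)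
      (by norm_num)
    apply hquad ((-(b / c) + d) / 2) ((-(b / c) - d) / 2)
    have h1 : M ((-(b / c) + d) / 2, (-(b / c) - d) / 2) =
        T * T + (b / c) • T + (a / c) • (1 : Matrix (Fin n) (Fin n) ℂ) := by
      have e : a / c = ((b / c) ^ 2 - d ^ 2) / 4 := by
        rw [hd]; ring
      rw [e]
      simp only [M, sub_mul, mul_sub, smul_mul_assoc, mul_smul_comm, mul_one, one_mul]
      module
    rw [h1, Matrix.add_mulVec, Matrix.add_mulVec, Matrix.smul_mulVec, Matrix.smul_mulVec,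
      Matrix.one_mulVec, ← Matrix.mulVec_mulVec]
    have h2 : c • (T *ᵥ (T *ᵥ x) + (b / c) • (T *ᵥ x) + (a / c) • x) = 0 := by
      rw [← habc, smul_add, smul_add, smul_smul, smul_smul]
      have e1 : c * (b / c) = b := by field_simp
      have e2 : c * (a / c) = a := by field_simp
      rw [e1, e2]
      module
    rcases smul_eq_zero.mp h2 with h3 | h3
    · exact absurd h3 hc
    · exact h3

theorem exists_dual {x y z : Fin n → ℂ}
    (h : x ∉ Submodule.span ℂ {y, z}) :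
    ∃ g : Fin n → ℂ, g ⬝ᵥ x = 1 ∧ g ⬝ᵥ y = 0 ∧ g ⬝ᵥ z = 0 := by
  obtain ⟨f, hf1, hf2⟩ := Submodule.exists_le_ker_of_notMem h
  have hfg : ∀ w : Fin n → ℂ, (fun i => (f x)⁻¹ * f (Pi.single i 1)) ⬝ᵥ w = (f x)⁻¹ * f w := by
    intro w
    have hw : w = ∑ i, w i • (Pi.single i 1 : Fin n → ℂ) := by
      ext j
      simp [Finset.sum_apply, Pi.single_apply]
    conv_rhs => rw [hw]
    rw [map_sum, dotProduct, Finset.mul_sum]
    refine Finset.sum_congr rfl (fun i _ => ?_)
    rw [map_smul, smul_eq_mul]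
    ring
  refine ⟨fun i => (f x)⁻¹ * f (Pi.single i 1), ?_, ?_, ?_⟩
  · rw [hfg]
    exact inv_mul_cancel₀ hf1
  · have h1 : f y = 0 := LinearMap.mem_ker.mp (hf2 (Submodule.subset_span (by simp)))
    rw [hfg, h1, mul_zero]
  · have h1 : f z = 0 := LinearMap.mem_ker.mp (hf2 (Submodule.subset_span (by simp)))
    rw [hfg, h1, mul_zero]

theorem asym_exists {T : Matrix (Fin n) (Fin n) ℂ} (hT : ¬ Quad T) :
    ∃ S, ∃ l ∈ spectrum ℂ (T * S - S * T), -l ∉ spectrum ℂ (T * S - S * T) := by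
  obtain ⟨x, hx⟩ := exists_indep hT
  set y := T *ᵥ x with hy
  set z := T *ᵥ y with hz
  have hzmem : z ∉ Submodule.span ℂ {x, y} := by
    intro h
    rw [Submodule.mem_span_pair] at h
    obtain ⟨a, b, h⟩ := h
    have := (hx a b (-1) (by rw [h]; module)).2.2
    norm_num at this
  have hxmem : x ∉ Submodule.span ℂ {y, z} := by
    intro h
    rw [Submodule.mem_span_pair] at h
    obtain ⟨a, b, h⟩ := h
    have := (hx (-1) a b (by
      have e : (-1 : ℂ) • x + a • y + b • z = (a • y + b • z) - x := by module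
      rw [e, h, sub_self])).1
    norm_num at this
  obtain ⟨f, hf1, hf2, hf3⟩ := exists_dual hzmem
  obtain ⟨g, hg1, hg2, hg3⟩ := exists_dual hxmem
  -- choose the scaling
  set b' := g ⬝ᵥ (T *ᵥ z) with hb'
  obtain ⟨s, hs0, hsb⟩ : ∃ s : ℂ, s ≠ 0 ∧ s ≠ b' := by
    by_cases h : b' = 1
    · exact ⟨2, by norm_num, by rw [h]; norm_num⟩
    · exact ⟨1, by norm_num, fun h' => h h'.symm⟩
  set b := s * (f ⬝ᵥ (T *ᵥ z)) with hb
  let R : Matrix (Fin n) (Fin n) ℂ := vecMulVec x (s • f) + vecMulVec y g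
  have hR : ∀ w, R *ᵥ w = (s * (f ⬝ᵥ w)) • x + (g ⬝ᵥ w) • y := by
    intro w
    simp only [R]
    rw [Matrix.add_mulVec, Matrix.vecMulVec_mulVec, Matrix.vecMulVec_mulVec, smul_dotProduct,
      op_smul_eq_smul, op_smul_eq_smul, smul_eq_mul]
  have hRx : R *ᵥ x = y := by rw [hR, hf2, hg1]; simp
  have hRy : R *ᵥ y = 0 := by rw [hR, hf3, hg2]; simp
  have hRz : R *ᵥ z = s • x := by rw [hR, hf1, hg3]; simp
  have hRTz : R *ᵥ (T *ᵥ z) = b • x + b' • y := by rw [hR]
  have hC : ∀ w, (T * R - R * T) *ᵥ w = T *ᵥ (R *ᵥ w) - R *ᵥ (T *ᵥ w) := by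
    intro w
    rw [Matrix.sub_mulVec, Matrix.mulVec_mulVec, Matrix.mulVec_mulVec]
  have hCx : (T * R - R * T) *ᵥ x = z := by
    rw [hC, hRx, ← hy, hRy, ← hz, sub_zero]
  have hCy : (T * R - R * T) *ᵥ y = -s • x := by
    rw [hC, hRy, ← hz, hRz, Matrix.mulVec_zero, zero_sub, neg_smul]
  have hCz : (T * R - R * T) *ᵥ z = (-b) • x + (s - b') • y := by
    rw [hC, hRz, hRTz, Matrix.mulVec_smul, ← hy]
    module
  have hroot : ∀ m : ℂ, m ≠ 0 → m ∈ spectrum ℂ (T * R - R * T) →
      m ^ 3 + b * m + s * (s - b') = 0 := by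
    intro m hm0 hm
    obtain ⟨w, hw, hCw⟩ := mem_spectrum_iff_eigvec.mp hm
    have h1 : m • w = (-(s * (f ⬝ᵥ (T *ᵥ w)))) • x + (s * (f ⬝ᵥ w) - g ⬝ᵥ (T *ᵥ w)) • y +
        (g ⬝ᵥ w) • z := by
      rw [← hCw, hC, hR, hR, Matrix.mulVec_add, Matrix.mulVec_smul, Matrix.mulVec_smul,
        ← hy, ← hz]
      module
    obtain ⟨α, β, γ, hwabc⟩ : ∃ α β γ : ℂ, w = α • x + β • y + γ • z := by
      refine ⟨m⁻¹ * (-(s * (f ⬝ᵥ (T *ᵥ w)))), m⁻¹ * (s * (f ⬝ᵥ w) - g ⬝ᵥ (T *ᵥ w)),
        m⁻¹ * (g ⬝ᵥ w), ?_⟩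
      have h2 : w = m⁻¹ • (m • w) := by rw [smul_smul, inv_mul_cancel₀ hm0, one_smul]
      conv_lhs => rw [h2, h1]
      module
    have h2 : (T * R - R * T) *ᵥ w = (-s * β - b * γ) • x + ((s - b') * γ) • y + α • z := by
      rw [hwabc, Matrix.mulVec_add, Matrix.mulVec_add, Matrix.mulVec_smul, Matrix.mulVec_smul,
        Matrix.mulVec_smul, hCx, hCy, hCz]
      module
    have h3 := hx (-s * β - b * γ - m * α) ((s - b') * γ - m * β) (α - m * γ) (by
      have e : (-s * β - b * γ - m * α) • x + ((s - b') * γ - m * β) • y + (α - m * γ) • z =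
          ((-s * β - b * γ) • x + ((s - b') * γ) • y + α • z) -
          m • (α • x + β • y + γ • z) := by module
      rw [e, ← h2, ← hwabc, hCw, sub_self])
    obtain ⟨e1, e2, e3⟩ := h3
    have h4 : γ * (m ^ 3 + b * m + s * (s - b')) = 0 := by
      linear_combination (-m) * e1 + s * e2 - m ^ 2 * e3
    rcases mul_eq_zero.mp h4 with h5 | h5
    · exfalso
      apply hw
      have h6 : α = 0 := by rw [h5] at e3; linear_combination e3
      have h7 : β = 0 := by
        rw [h5] at e2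
        have h8 : m * β = 0 := by linear_combination -e2
        rcases mul_eq_zero.mp h8 with h9 | h9
        · exact absurd h9 hm0
        · exact h9
      rw [hwabc, h5, h6, h7]
      simp
    · exact h5
  -- a root
  obtain ⟨l, hl⟩ : ∃ l : ℂ, l ^ 3 + b * l + s * (s - b') = 0 := by
    have hdeg : (X ^ 3 + C b * X + C (s * (s - b')) : ℂ[X]).degree ≠ 0 := by
      have : (X ^ 3 + C b * X + C (s * (s - b')) : ℂ[X]).degree = 3 := by
        compute_degree!
      rw [this]
      norm_num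
    obtain ⟨l, hl⟩ := IsAlgClosed.exists_root _ hdeg
    refine ⟨l, ?_⟩
    simpa [Polynomial.IsRoot] using hl
  have hl0 : l ≠ 0 := by
    rintro rfl
    have : s * (s - b') = 0 := by linear_combination hl
    rcases mul_eq_zero.mp this with h | h
    · exact hs0 h
    · exact hsb (sub_eq_zero.mp h)
  refine ⟨R, l, ?_, ?_⟩
  · rw [mem_spectrum_iff_eigvec]
    refine ⟨l • x + ((s - b') / l) • y + (1 : ℂ) • z, ?_, ?_⟩
    · intro h0
      have := (hx _ _ _ h0).2.2
      norm_num at this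
    · rw [Matrix.mulVec_add, Matrix.mulVec_add, Matrix.mulVec_smul, Matrix.mulVec_smul,
        Matrix.mulVec_smul, hCx, hCy, hCz]
      have e1 : l * ((s - b') / l) = s - b' := by field_simp
      have e2 : l * l = -b + ((s - b') / l) * (-s) := by
        field_simp
        linear_combination hl
      calc l • z + ((s - b') / l) • (-s • x) + (1 : ℂ) • ((-b) • x + (s - b') • y)
          = (-b + ((s - b') / l) * (-s)) • x + (s - b') • y + l • z := by module
        _ = (l * l) • x + (l * ((s - b') / l)) • y + l • z := by rw [e1, e2]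
        _ = l • (l • x + ((s - b') / l) • y + (1 : ℂ) • z) := by module
  · intro hneg
    have h1 := hroot (-l) (neg_ne_zero.mpr hl0) hneg
    have h2 : 2 * (s * (s - b')) = 0 := by linear_combination hl + h1
    have h3 : s * (s - b') = 0 := by linear_combination (1/2 : ℂ) * h2
    rcases mul_eq_zero.mp h3 with h | h
    · exact hs0 h
    · exact hsb (sub_eq_zero.mp h)

theorem exists_not_quad (hn : 3 ≤ n) : ∃ T : Matrix (Fin n) (Fin n) ℂ, ¬ Quad T := by
  refine ⟨Matrix.diagonal (fun i => ((i : ℕ) : ℂ)), ?_⟩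
  rintro ⟨r, s, h⟩
  have h1 : ∀ i : Fin n, (((i : ℕ) : ℂ) - r) * (((i : ℕ) : ℂ) - r) = s := by
    intro i
    have := congrFun (congrFun h i) i
    have e : (Matrix.diagonal (fun i : Fin n => ((i : ℕ) : ℂ)) -
        r • (1 : Matrix (Fin n) (Fin n) ℂ)) =
        Matrix.diagonal (fun i : Fin n => ((i : ℕ) : ℂ) - r) := by
      ext a b
      by_cases hab : a = b
      · subst hab; simp
      · simp [hab]
    rw [e, Matrix.diagonal_mul_diagonal] at this
    simpa using this
  have e0 := h1 ⟨0, by omega⟩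
  have e1 := h1 ⟨1, by omega⟩
  have e2 := h1 ⟨2, by omega⟩
  simp only [Nat.cast_zero, Nat.cast_one, Nat.cast_ofNat] at e0 e1 e2
  have h2 : (2 : ℂ) = 0 := by linear_combination e2 - 2 * e1 + e0
  norm_num at h2

end Pool.Agent.Helper324
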