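import Mathlib

/-!
# A counting lemma (union bound with independence)
-/

namespace Pool.Agent.Helper324.CE

open Finset

section
variable {α ι : Type*} [Fintype α] [DecidableEq α] [DecidableEq ι]

/-- colourings matching none of the patterns `p i` on `N i`, `i ∈ J` -/
noncomputable def badSet (J : Finset ι) (N : ι → Finset α) (p : ι → α → Bool) :
    Finset (α → Bool) := by
  classical
  exact univ.filter fun β => ∀ i ∈ J, ¬ ∀ a ∈ N i, β a = p i a

theorem mem_badSet {J : Finset ι} {N : ι → Finset α} {p : ι → α → Bool} {β : α → Bool} :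
    β ∈ badSet J N p ↔ ∀ i ∈ J, ¬ ∀ a ∈ N i, β a = p i a := by
  simp [badSet]

theorem card_badSet_le (J : Finset ι) (N : ι → Finset α) (p : ι → α → Bool) (L : ℕ)
    (hdisj : ∀ i ∈ J, ∀ j ∈ J, i ≠ j → Disjoint (N i) (N j)) (hL : ∀ i ∈ J, (N i).card ≤ L) :
    ((badSet J N p).card : ℝ) ≤ 2 ^ Fintype.card α * (1 - (1 / 2) ^ L) ^ J.card := by
  classical
  induction J using Finset.induction_on with
  | empty =>
    have h1 : (badSet ∅ N p : Finset (α → Bool)).card ≤ 2 ^ Fintype.card α := by
      refine (Finset.card_le_univ _).trans ?_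
      rw [Fintype.card_fun, Fintype.card_bool]
    simpa using (by exact_mod_cast h1 : ((badSet ∅ N p : Finset (α → Bool)).card : ℝ) ≤ _)
  | insert j J hj ih =>
    have ih' := ih (fun i hi k hk => hdisj i (mem_insert_of_mem hi) k (mem_insert_of_mem hk))
      (fun i hi => hL i (mem_insert_of_mem hi))
    -- the overriding map
    set f : (α → Bool) → (α → Bool) := fun β a => if a ∈ N j then p j a else β a with hf
    set B := badSet J N p with hB
    set Mt : Finset (α → Bool) := B.filter fun β => ∀ a ∈ N j, β a = p j a with hMt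
    have himg : B.image f ⊆ Mt := by
      intro γ hγ
      obtain ⟨β, hβ, rfl⟩ := mem_image.1 hγ
      rw [hMt, mem_filter]
      refine ⟨?_, ?_⟩
      · rw [hB, mem_badSet] at hβ ⊢
        intro i hi hall
        apply hβ i hi
        intro a ha
        have hne : i ≠ j := by rintro rfl; exact hj hi
        have hnot : a ∉ N j := by
          have := hdisj i (mem_insert_of_mem hi) j (mem_insert_self _ _) hne
          exact Finset.disjoint_left.1 this ha
        have := hall a ha
        rw [hf] at this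
        simpa [hnot] using this
      · intro a ha
        simp [hf, ha]
    have hfib : B.card ≤ 2 ^ L * (B.image f).card := by
      refine Finset.card_le_mul_card_image B (2 ^ L) ?_
      intro γ _
      have h1 : (B.filter fun β => f β = γ).card ≤
          (univ : Finset ({x // x ∈ N j} → Bool)).card := by
        refine Finset.card_le_card_of_injOn (fun β a => β a.1) (fun _ _ => mem_univ _) ?_
        intro β hβ β' hβ' h
        rw [Finset.mem_coe, mem_filter] at hβ hβ'
        funext a
        by_cases ha : a ∈ N j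
        · exact congrFun h ⟨a, ha⟩
        · have e1 := congrFun hβ.2 a
          have e2 := congrFun hβ'.2 a
          simp only [hf, ha, if_false] at e1 e2
          rw [e1, e2]
      refine h1.trans ?_
      rw [Finset.card_univ, Fintype.card_fun, Fintype.card_bool, Fintype.card_coe]
      exact Nat.pow_le_pow_right (by norm_num) (hL j (mem_insert_self _ _))
    have hMtc : B.card ≤ 2 ^ L * Mt.card :=
      hfib.trans (Nat.mul_le_mul_left _ (card_le_card himg))
    have hsplit : (badSet (insert j J) N p).card + Mt.card ≤ B.card := by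
      have hd : Disjoint (badSet (insert j J) N p) Mt := by
        rw [Finset.disjoint_left]
        intro β h1 h2
        rw [mem_badSet] at h1
        rw [hMt, mem_filter] at h2
        exact h1 j (mem_insert_self _ _) h2.2
      rw [← card_union_of_disjoint hd]
      refine card_le_card ?_
      intro β hβ
      rw [mem_union] at hβ
      rcases hβ with h1 | h1
      · rw [mem_badSet] at h1
        rw [hB, mem_badSet]
        exact fun i hi => h1 i (mem_insert_of_mem hi)
      · rw [hMt, mem_filter] at h1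
        exact h1.1
    have h3 : ((badSet (insert j J) N p).card : ℝ) + Mt.card ≤ B.card := by exact_mod_cast hsplit
    have h4 : (B.card : ℝ) ≤ 2 ^ L * Mt.card := by exact_mod_cast hMtc
    have h5 : (1 / 2 : ℝ) ^ L * B.card ≤ Mt.card := by
      have : (1 / 2 : ℝ) ^ L * 2 ^ L = 1 := by rw [← mul_pow]; norm_num
      calc (1 / 2 : ℝ) ^ L * B.card ≤ (1 / 2 : ℝ) ^ L * (2 ^ L * Mt.card) := by gcongr
        _ = Mt.card := by rw [← mul_assoc, this, one_mul]
    have h6 : (0 : ℝ) ≤ 1 - (1 / 2) ^ L := by
      have : (1 / 2 : ℝ) ^ L ≤ 1 := pow_le_one₀ (by norm_num) (by norm_num)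
      linarith
    rw [card_insert_of_notMem hj, pow_succ, ← mul_assoc]
    calc ((badSet (insert j J) N p).card : ℝ) ≤ B.card * (1 - (1 / 2) ^ L) := by nlinarith
      _ ≤ _ := by gcongr

end

theorem exists_good_colouring {α ν ι : Type*} [Fintype α] (𝒩 : Finset ν) (J : ν → Finset ι)
    (N : ν → ι → Finset α) (p : ν → ι → α → Bool) (L m : ℕ)
    (hdisj : ∀ X ∈ 𝒩, ∀ i ∈ J X, ∀ j ∈ J X, i ≠ j → Disjoint (N X i) (N X j))
    (hL : ∀ X ∈ 𝒩, ∀ i ∈ J X, (N X i).card ≤ L) (hm : ∀ X ∈ 𝒩, m ≤ (J X).card)
    (hcount : (𝒩.card : ℝ) * (1 - (1 / 2) ^ L) ^ m < 1) :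
    ∃ β : α → Bool, ∀ X ∈ 𝒩, ∃ i ∈ J X, ∀ a ∈ N X i, β a = p X i a := by
  classical
  by_contra hcon
  push Not at hcon
  have hcov : (univ : Finset (α → Bool)) ⊆ 𝒩.biUnion fun X => badSet (J X) (N X) (p X) := by
    intro β _
    obtain ⟨X, hX, h⟩ := hcon β
    rw [mem_biUnion]
    refine ⟨X, hX, mem_badSet.2 fun i hi hall => ?_⟩
    obtain ⟨a, ha, hne⟩ := h i hi
    exact hne (hall a ha)
  have h1 : (2 : ℝ) ^ Fintype.card α ≤
      ∑ X ∈ 𝒩, ((badSet (J X) (N X) (p X)).card : ℝ) := by
    have := (card_le_card hcov).trans card_biUnion_le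
    rw [card_univ, Fintype.card_fun, Fintype.card_bool] at this
    exact_mod_cast this
  have h0 : (0 : ℝ) ≤ 1 - (1 / 2) ^ L := by
    have : (1 / 2 : ℝ) ^ L ≤ 1 := pow_le_one₀ (by norm_num) (by norm_num)
    linarith
  have h0' : (1 : ℝ) - (1 / 2) ^ L ≤ 1 := by
    have : (0 : ℝ) ≤ (1 / 2) ^ L := by positivity
    linarith
  have h2 : ∑ X ∈ 𝒩, ((badSet (J X) (N X) (p X)).card : ℝ) ≤
      ∑ _X ∈ 𝒩, (2 : ℝ) ^ Fintype.card α * (1 - (1 / 2) ^ L) ^ m := by
    refine sum_le_sum fun X hX => ?_
    refine (card_badSet_le (J X) (N X) (p X) L (hdisj X hX) (hL X hX)).trans ?_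
    have := pow_le_pow_of_le_one h0 h0' (hm X hX)
    gcongr
  rw [sum_const, nsmul_eq_mul] at h2
  have h3 : (2 : ℝ) ^ Fintype.card α ≤
      2 ^ Fintype.card α * (𝒩.card * (1 - (1 / 2) ^ L) ^ m) := by
    calc _ ≤ _ := h1.trans h2
      _ = _ := by ring
  have h4 : (0 : ℝ) < 2 ^ Fintype.card α := by positivity
  nlinarith

end Pool.Agent.Helper324.CE
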