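import Mathlib

/-!
# Norms with bounded critical exponent: deterministic part, 1

Basic properties of the norm `M x = max ‖x‖ (max_{ω ∈ Ω} ‖⟪ω, x⟫‖ / c)`.
-/

open scoped InnerProductSpace NNReal
open Filter Topology

namespace Pool.Agent.Helper324.CE

variable (𝕜 : Type*) [RCLike 𝕜] {E : Type*} [NormedAddCommGroup E] [InnerProductSpace 𝕜 E]

/-- The norm `M x = max ‖x‖ (max_{ω ∈ Ω} ‖⟪ω, x⟫‖ / c)`. -/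
noncomputable def M (Ω : Finset E) (c : ℝ) (x : E) : ℝ :=
  max ‖x‖ (((Ω.sup fun ω => ‖⟪ω, x⟫_𝕜‖₊ : ℝ≥0) : ℝ) / c)

variable {𝕜} {Ω : Finset E} {c s : ℝ}

theorem norm_le_M (x : E) : ‖x‖ ≤ M 𝕜 Ω c x := le_max_left _ _

theorem M_nonneg (x : E) : 0 ≤ M 𝕜 Ω c x := (norm_nonneg x).trans (norm_le_M x)

theorem inner_le_M (hc : 0 < c) {ω : E} (hω : ω ∈ Ω) (x : E) :
    ‖⟪ω, x⟫_𝕜‖ ≤ c * M 𝕜 Ω c x := by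
  have h1 : ‖⟪ω, x⟫_𝕜‖₊ ≤ Ω.sup fun ω => ‖⟪ω, x⟫_𝕜‖₊ :=
    Finset.le_sup (f := fun ω => ‖⟪ω, x⟫_𝕜‖₊) hω
  have h2 : ‖⟪ω, x⟫_𝕜‖ ≤ ((Ω.sup fun ω => ‖⟪ω, x⟫_𝕜‖₊ : ℝ≥0) : ℝ) := by
    exact_mod_cast h1
  have h3 : ((Ω.sup fun ω => ‖⟪ω, x⟫_𝕜‖₊ : ℝ≥0) : ℝ) / c ≤ M 𝕜 Ω c x := le_max_right _ _
  rw [div_le_iff₀ hc] at h3
  linarith

theorem M_le (hc : 0 < c) {x : E} {t : ℝ} (h1 : ‖x‖ ≤ t)
    (h2 : ∀ ω ∈ Ω, ‖⟪ω, x⟫_𝕜‖ ≤ c * t) : M 𝕜 Ω c x ≤ t := by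
  have ht : 0 ≤ t := (norm_nonneg x).trans h1
  refine max_le h1 ?_
  rw [div_le_iff₀ hc]
  have h3 : (Ω.sup fun ω => ‖⟪ω, x⟫_𝕜‖₊) ≤ (⟨t * c, by positivity⟩ : ℝ≥0) := by
    refine Finset.sup_le fun ω hω => ?_
    have := h2 ω hω
    rw [mul_comm] at this
    exact_mod_cast this
  exact_mod_cast h3

theorem M_le_of_norm (hc : 0 < c) (hc1 : c ≤ 1) (hΩ : ∀ ω ∈ Ω, ‖ω‖ = 1) (x : E) :
    c * M 𝕜 Ω c x ≤ ‖x‖ := by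
  have h : M 𝕜 Ω c x ≤ ‖x‖ / c := by
    refine M_le hc ?_ ?_
    · rw [le_div_iff₀ hc]
      nlinarith [norm_nonneg x]
    · intro ω hω
      rw [mul_div_cancel₀ _ hc.ne']
      calc ‖⟪ω, x⟫_𝕜‖ ≤ ‖ω‖ * ‖x‖ := norm_inner_le_norm _ _
        _ = ‖x‖ := by rw [hΩ ω hω, one_mul]
  rw [le_div_iff₀ hc] at h
  linarith

/-- `x` lies in an open cap as soon as `M x > ‖x‖`. -/
theorem exists_cap_of_lt (hc : 0 < c) {x : E} (h : ‖x‖ < M 𝕜 Ω c x) :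
    ∃ ω ∈ Ω, c * M 𝕜 Ω c x = ‖⟪ω, x⟫_𝕜‖ := by
  by_contra hcon
  push Not at hcon
  have h1 : ∀ ω ∈ Ω, ‖⟪ω, x⟫_𝕜‖ < c * M 𝕜 Ω c x := fun ω hω =>
    lt_of_le_of_ne (inner_le_M hc hω x) (hcon ω hω).symm
  have hpos : 0 < M 𝕜 Ω c x := (norm_nonneg x).trans_lt h
  rcases (Finset.eq_empty_or_nonempty Ω) with h0 | h0
  · have : M 𝕜 Ω c x ≤ ‖x‖ := M_le hc le_rfl (by simp [h0])
    linarith
  · obtain ⟨ω0, h0, h0'⟩ := Finset.exists_max_image Ω (fun ω => ‖⟪ω, x⟫_𝕜‖) h0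
    have h2 : M 𝕜 Ω c x ≤ max ‖x‖ (‖⟪ω0, x⟫_𝕜‖ / c) := by
      refine M_le hc (le_max_left _ _) ?_
      intro ω hω
      calc ‖⟪ω, x⟫_𝕜‖ ≤ ‖⟪ω0, x⟫_𝕜‖ := h0' ω hω
        _ = c * (‖⟪ω0, x⟫_𝕜‖ / c) := by field_simp
        _ ≤ _ := by gcongr; exact le_max_right _ _
    rcases le_max_iff.1 h2 with h3 | h3
    · linarith
    · rw [le_div_iff₀ hc] at h3
      have := h1 ω0 h0
      linarith

theorem M_eq_norm (hc : 0 < c) {x : E} (h : ∀ ω ∈ Ω, ‖⟪ω, x⟫_𝕜‖ ≤ c * ‖x‖) :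
    M 𝕜 Ω c x = ‖x‖ :=
  le_antisymm (M_le hc le_rfl h) (norm_le_M x)

theorem M_smul (hc : 0 < c) (a : 𝕜) (x : E) : M 𝕜 Ω c (a • x) = ‖a‖ * M 𝕜 Ω c x := by
  by_cases ha : a = 0
  · subst ha
    simp only [zero_smul, norm_zero, zero_mul]
    refine le_antisymm (M_le hc (by simp) (by simp)) (M_nonneg _)
  have key : ∀ (b : 𝕜) (y : E), M 𝕜 Ω c (b • y) ≤ ‖b‖ * M 𝕜 Ω c y := by
    intro b y
    refine M_le hc ?_ ?_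
    · rw [norm_smul]
      exact mul_le_mul_of_nonneg_left (norm_le_M y) (norm_nonneg b)
    · intro ω hω
      rw [inner_smul_right, norm_mul]
      have := mul_le_mul_of_nonneg_left (inner_le_M hc hω (𝕜 := 𝕜) y) (norm_nonneg b)
      linarith
  refine le_antisymm (key a x) ?_
  have h := key a⁻¹ (a • x)
  rw [smul_smul, inv_mul_cancel₀ ha, one_smul, norm_inv] at h
  have ha' : 0 < ‖a‖ := norm_pos_iff.2 ha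
  calc ‖a‖ * M 𝕜 Ω c x ≤ ‖a‖ * (‖a‖⁻¹ * M 𝕜 Ω c (a • x)) := by gcongr
    _ = M 𝕜 Ω c (a • x) := by field_simp

theorem M_add_le (hc : 0 < c) (x y : E) : M 𝕜 Ω c (x + y) ≤ M 𝕜 Ω c x + M 𝕜 Ω c y := by
  refine M_le hc ?_ ?_
  · exact (norm_add_le x y).trans (add_le_add (norm_le_M x) (norm_le_M y))
  · intro ω hω
    rw [inner_add_right]
    have h1 := inner_le_M hc hω (𝕜 := 𝕜) x
    have h2 := inner_le_M hc hω (𝕜 := 𝕜) y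
    have h3 := norm_add_le ⟪ω, x⟫_𝕜 ⟪ω, y⟫_𝕜
    linarith

/-! ### Cauchy-Schwarz relative to a unit vector -/

theorem cs_rel {x a b : E} (hx : ‖x‖ = 1) :
    ‖⟪a, b⟫_𝕜 - ⟪a, x⟫_𝕜 * ⟪x, b⟫_𝕜‖ ^ 2 ≤
      (‖a‖ ^ 2 - ‖⟪x, a⟫_𝕜‖ ^ 2) * (‖b‖ ^ 2 - ‖⟪x, b⟫_𝕜‖ ^ 2) := by
  have hxx : ⟪x, x⟫_𝕜 = 1 := by
    rw [inner_self_eq_norm_sq_to_K, hx]; simp
  have hperp : ∀ y : E, ‖y - ⟪x, y⟫_𝕜 • x‖ ^ 2 = ‖y‖ ^ 2 - ‖⟪x, y⟫_𝕜‖ ^ 2 := by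
    intro y
    have h0 : ⟪y - ⟪x, y⟫_𝕜 • x, ⟪x, y⟫_𝕜 • x⟫_𝕜 = 0 := by
      rw [inner_sub_left, inner_smul_right, inner_smul_right, inner_smul_left, hxx, mul_one,
        ← inner_conj_symm y x]
      ring
    have h1 : ‖(y - ⟪x, y⟫_𝕜 • x) + ⟪x, y⟫_𝕜 • x‖ ^ 2 =
        ‖y - ⟪x, y⟫_𝕜 • x‖ ^ 2 + ‖⟪x, y⟫_𝕜 • x‖ ^ 2 := by
      have := norm_add_sq_eq_norm_sq_add_norm_sq_of_inner_eq_zero
        (y - ⟪x, y⟫_𝕜 • x) (⟪x, y⟫_𝕜 • x) h0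
      simpa [sq] using this
    rw [sub_add_cancel, norm_smul, hx, mul_one] at h1
    linarith
  have h2 : ⟪a, b⟫_𝕜 - ⟪a, x⟫_𝕜 * ⟪x, b⟫_𝕜 = ⟪a - ⟪x, a⟫_𝕜 • x, b - ⟪x, b⟫_𝕜 • x⟫_𝕜 := by
    rw [inner_sub_left, inner_sub_right, inner_sub_right, inner_smul_right, inner_smul_right,
      inner_smul_left, inner_smul_left, hxx, ← inner_conj_symm a x]
    ring
  rw [h2, ← hperp a, ← hperp b, ← mul_pow]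
  gcongr
  exact norm_inner_le_norm _ _

end Pool.Agent.Helper324.CE
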