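import Pool.Agent.Helper324.CEDet1

/-!
# Norms with bounded critical exponent: deterministic part, 2

Caps, rim inequality, first-order arguments, connectedness arguments.
-/

open scoped InnerProductSpace NNReal
open Filter Topology

namespace Pool.Agent.Helper324.CE

variable {𝕜 : Type*} [RCLike 𝕜] {E : Type*} [NormedAddCommGroup E] [InnerProductSpace 𝕜 E]

variable {Ω : Finset E} {c s : ℝ}

/-- standing assumptions on the family `Ω` -/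
structure Adm (𝕜 : Type*) [RCLike 𝕜] {E : Type*} [NormedAddCommGroup E] [InnerProductSpace 𝕜 E]
    (Ω : Finset E) (c s : ℝ) : Prop where
  hc : 0 < c
  hs : 0 < s
  hcs : c ^ 2 + s ^ 2 = 1
  unit : ∀ ω ∈ Ω, ‖ω‖ = 1
  sep : ∀ ω ∈ Ω, ∀ ω' ∈ Ω, ω ≠ ω' → ‖⟪ω, ω'⟫_𝕜‖ < 1 - 2 * s ^ 2

theorem Adm.c_le_one (h : Adm 𝕜 Ω c s) : c ≤ 1 := by
  nlinarith [h.hc, h.hs, h.hcs]

theorem Adm.c_lt_one (h : Adm 𝕜 Ω c s) : c < 1 := by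
  nlinarith [h.hc, h.hs, h.hcs]

/-- closed caps are disjoint (unit vector version) -/
theorem Adm.disj_unit (h : Adm 𝕜 Ω c s) {ω ω' : E} (hω : ω ∈ Ω) (hω' : ω' ∈ Ω) {x : E}
    (hx : ‖x‖ = 1) (h1 : c ≤ ‖⟪ω, x⟫_𝕜‖) (h2 : c ≤ ‖⟪ω', x⟫_𝕜‖) : ω = ω' := by
  by_contra hne
  have h3 := h.sep ω hω ω' hω' hne
  have h4 := cs_rel (𝕜 := 𝕜) (a := ω) (b := ω') hx
  rw [h.unit ω hω, h.unit ω' hω'] at h4
  have e1 : ‖⟪x, ω⟫_𝕜‖ = ‖⟪ω, x⟫_𝕜‖ := norm_inner_symm _ _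
  have e2 : ‖⟪x, ω'⟫_𝕜‖ = ‖⟪ω', x⟫_𝕜‖ := norm_inner_symm _ _
  rw [e1, e2] at h4
  have hc := h.hc
  have h5 : (1 ^ 2 - ‖⟪ω, x⟫_𝕜‖ ^ 2) ≤ s ^ 2 := by nlinarith [h.hcs]
  have h6 : (1 ^ 2 - ‖⟪ω', x⟫_𝕜‖ ^ 2) ≤ s ^ 2 := by nlinarith [h.hcs]
  have b1 : ‖⟪ω, x⟫_𝕜‖ ≤ 1 := by
    have := norm_inner_le_norm (𝕜 := 𝕜) ω x
    rwa [h.unit ω hω, hx, mul_one] at this
  have b2 : ‖⟪ω', x⟫_𝕜‖ ≤ 1 := by
    have := norm_inner_le_norm (𝕜 := 𝕜) ω' x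
    rwa [h.unit ω' hω', hx, mul_one] at this
  have h7 : 0 ≤ (1 ^ 2 - ‖⟪ω', x⟫_𝕜‖ ^ 2) := by nlinarith [norm_nonneg ⟪ω', x⟫_𝕜]
  have h8 : 0 ≤ (1 ^ 2 - ‖⟪ω, x⟫_𝕜‖ ^ 2) := by nlinarith [norm_nonneg ⟪ω, x⟫_𝕜]
  have h9 : ‖⟪ω, ω'⟫_𝕜 - ⟪ω, x⟫_𝕜 * ⟪x, ω'⟫_𝕜‖ ^ 2 ≤ (s ^ 2) ^ 2 := by
    refine h4.trans ?_
    calc _ ≤ s ^ 2 * s ^ 2 := by gcongr
      _ = _ := by ring
  have h10 : ‖⟪ω, ω'⟫_𝕜 - ⟪ω, x⟫_𝕜 * ⟪x, ω'⟫_𝕜‖ ≤ s ^ 2 := by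
    exact abs_le_of_sq_le_sq' h9 (by positivity) |>.2
  have h11 : ‖⟪ω, x⟫_𝕜 * ⟪x, ω'⟫_𝕜‖ ≤ ‖⟪ω, ω'⟫_𝕜‖ + s ^ 2 := by
    have : ⟪ω, x⟫_𝕜 * ⟪x, ω'⟫_𝕜 =
      ⟪ω, ω'⟫_𝕜 - (⟪ω, ω'⟫_𝕜 - ⟪ω, x⟫_𝕜 * ⟪x, ω'⟫_𝕜) := by ring
    rw [this]
    exact (norm_sub_le _ _).trans (by linarith)
  rw [norm_mul, e2] at h11
  have h12 : c * c ≤ ‖⟪ω, x⟫_𝕜‖ * ‖⟪ω', x⟫_𝕜‖ := by gcongr
  nlinarith [h.hcs]

/-- closed caps are disjoint -/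
theorem Adm.disj (h : Adm 𝕜 Ω c s) {ω ω' : E} (hω : ω ∈ Ω) (hω' : ω' ∈ Ω) {x : E}
    (hx : x ≠ 0) (h1 : c * ‖x‖ ≤ ‖⟪ω, x⟫_𝕜‖) (h2 : c * ‖x‖ ≤ ‖⟪ω', x⟫_𝕜‖) : ω = ω' := by
  have hx' : 0 < ‖x‖ := norm_pos_iff.2 hx
  have hn : ‖((‖x‖⁻¹ : ℝ) : 𝕜) • x‖ = 1 := by
    rw [norm_smul, RCLike.norm_ofReal, abs_of_pos (inv_pos.2 hx'), inv_mul_cancel₀ hx'.ne']
  refine h.disj_unit hω hω' hn ?_ ?_
  · rw [inner_smul_right, norm_mul, RCLike.norm_ofReal, abs_of_pos (inv_pos.2 hx'),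
      inv_mul_eq_div, le_div_iff₀ hx']
    exact h1
  · rw [inner_smul_right, norm_mul, RCLike.norm_ofReal, abs_of_pos (inv_pos.2 hx'),
      inv_mul_eq_div, le_div_iff₀ hx']
    exact h2

/-- existence of a phase -/
theorem exists_phase (z : 𝕜) : ∃ μ : 𝕜, ‖μ‖ = 1 ∧ z = μ * (‖z‖ : 𝕜) := by
  by_cases hz : z = 0
  · exact ⟨1, by simp, by simp [hz]⟩
  · have hz' : (‖z‖ : 𝕜) ≠ 0 := by
      exact_mod_cast (norm_pos_iff.2 hz).ne'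
    refine ⟨z / (‖z‖ : 𝕜), ?_, ?_⟩
    · rw [norm_div, RCLike.norm_ofReal, abs_of_pos (norm_pos_iff.2 hz)]
      exact div_self (norm_pos_iff.2 hz).ne'
    · field_simp

/-- The rim vector `t = c μ ω + s u`, `u ⊥ ω`, has `M t ≤ 1`. -/
theorem Adm.M_rim_le (h : Adm 𝕜 Ω c s) {ω : E} (hω : ω ∈ Ω) {u : E} (hu : ‖u‖ ≤ 1)
    (huω : ⟪ω, u⟫_𝕜 = 0) {μ : 𝕜} (hμ : ‖μ‖ = 1) :
    M 𝕜 Ω c (((c : 𝕜) * μ) • ω + (s : 𝕜) • u) ≤ 1 := by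
  have hc := h.hc
  have hs := h.hs
  have hcs := h.hcs
  have hun : ‖ω‖ = 1 := h.unit ω hω
  have hωω : ⟪ω, ω⟫_𝕜 = 1 := by
    rw [inner_self_eq_norm_sq_to_K, hun]; simp
  refine M_le hc ?_ ?_
  · have h0 : ⟪((c : 𝕜) * μ) • ω, (s : 𝕜) • u⟫_𝕜 = 0 := by
      rw [inner_smul_left, inner_smul_right, huω]; simp
    have h1 := norm_add_sq_eq_norm_sq_add_norm_sq_of_inner_eq_zero
        (((c : 𝕜) * μ) • ω) ((s : 𝕜) • u) h0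
    rw [norm_smul, norm_smul, norm_mul, RCLike.norm_ofReal, RCLike.norm_ofReal, hμ, hun,
      abs_of_pos hc, abs_of_pos hs] at h1
    have h2 : s * ‖u‖ ≤ s := by nlinarith
    have h3 : 0 ≤ s * ‖u‖ := by positivity
    nlinarith [norm_nonneg (((c : 𝕜) * μ) • ω + (s : 𝕜) • u)]
  · intro ω' hω'
    rw [inner_add_right, inner_smul_right, inner_smul_right, mul_one]
    by_cases hne : ω' = ω
    · subst hne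
      rw [huω, hωω]
      simp [hμ, abs_of_pos hc]
    · have hk := h.sep ω' hω' ω hω hne
      have h4 := cs_rel (𝕜 := 𝕜) (a := ω') (b := u) hun
      rw [huω, h.unit ω' hω', mul_zero, sub_zero, norm_zero, norm_inner_symm ω ω'] at h4
      set k := ‖⟪ω', ω⟫_𝕜‖ with hkdef
      have hk0 : 0 ≤ k := norm_nonneg _
      have h5 : ‖⟪ω', u⟫_𝕜‖ ^ 2 ≤ 1 - k ^ 2 := by
        refine h4.trans ?_
        have : 0 ≤ 1 - k ^ 2 := by nlinarith [sq_nonneg s]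
        have hu2 : ‖u‖ ^ 2 ≤ 1 := by nlinarith [norm_nonneg u]
        nlinarith
      set l := ‖⟪ω', u⟫_𝕜‖ with hldef
      have hl0 : 0 ≤ l := norm_nonneg _
      have h6 : ‖(c : 𝕜) * μ * ⟪ω', ω⟫_𝕜 + (s : 𝕜) * ⟪ω', u⟫_𝕜‖ ≤ c * k + s * l := by
        refine (norm_add_le _ _).trans ?_
        rw [norm_mul, norm_mul, norm_mul, RCLike.norm_ofReal, RCLike.norm_ofReal, hμ,
          abs_of_pos hc, abs_of_pos hs, mul_one]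
      refine h6.trans ?_
      -- `c k + s l ≤ c`, using `l² ≤ 1 - k²` and `k ≤ 1 - 2 s²`
      have h7 : (s * l) ^ 2 ≤ (c * (1 - k)) ^ 2 := by
        have h8 : (s * l) ^ 2 ≤ s ^ 2 * (1 - k ^ 2) := by
          rw [mul_pow]; gcongr
        have h9 : s ^ 2 * (1 - k ^ 2) ≤ (c * (1 - k)) ^ 2 := by
          have : (c * (1 - k)) ^ 2 - s ^ 2 * (1 - k ^ 2) = (1 - k) * (1 - 2 * s ^ 2 - k) := by
            have : c ^ 2 = 1 - s ^ 2 := by linarith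
            rw [mul_pow, this]; ring
          have h10 : 0 ≤ (1 - k) * (1 - 2 * s ^ 2 - k) := by
            apply mul_nonneg <;> nlinarith [sq_nonneg s]
          linarith
        exact h8.trans h9
      have h8 : 0 ≤ c * (1 - k) := by
        apply mul_nonneg hc.le; nlinarith [sq_nonneg s]
      have h9 := abs_le_of_sq_le_sq' h7 h8 |>.2
      linarith

/-- The rim inequality. -/
theorem Adm.rim (h : Adm 𝕜 Ω c s) {ω : E} (hω : ω ∈ Ω) {g : E}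
    (hg : ∀ x, ‖⟪g, x⟫_𝕜‖ ≤ M 𝕜 Ω c x) :
    c * ‖⟪ω, g⟫_𝕜‖ + s * ‖g - ⟪ω, g⟫_𝕜 • ω‖ ≤ 1 := by
  have hc := h.hc
  have hs := h.hs
  have hun : ‖ω‖ = 1 := h.unit ω hω
  have hωω : ⟪ω, ω⟫_𝕜 = 1 := by
    rw [inner_self_eq_norm_sq_to_K, hun]; simp
  set p := g - ⟪ω, g⟫_𝕜 • ω with hp
  have hpω : ⟪ω, p⟫_𝕜 = 0 := by
    rw [hp, inner_sub_right, inner_smul_right, hωω]; ring
  have hωp : ⟪p, ω⟫_𝕜 = 0 := by rw [← inner_conj_symm, hpω]; simp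
  have hgdec : g = ⟪ω, g⟫_𝕜 • ω + p := by rw [hp]; abel
  obtain ⟨μ, hμ, hμ'⟩ := exists_phase (⟪ω, g⟫_𝕜)
  -- unit vector in direction `p`
  obtain ⟨u, hu1, hu2, hu3⟩ : ∃ u : E, ‖u‖ ≤ 1 ∧ ⟪ω, u⟫_𝕜 = 0 ∧ ⟪p, u⟫_𝕜 = (‖p‖ : 𝕜) := by
    by_cases hp0 : p = 0
    · exact ⟨0, by simp, by simp, by simp [hp0]⟩
    · have hp0' : 0 < ‖p‖ := norm_pos_iff.2 hp0
      refine ⟨((‖p‖⁻¹ : ℝ) : 𝕜) • p, ?_, ?_, ?_⟩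
      · rw [norm_smul, RCLike.norm_ofReal, abs_of_pos (inv_pos.2 hp0'),
          inv_mul_cancel₀ hp0'.ne']
      · rw [inner_smul_right, hpω, mul_zero]
      · rw [inner_smul_right, inner_self_eq_norm_sq_to_K]
        have : (‖p‖ : 𝕜) ≠ 0 := by exact_mod_cast hp0'.ne'
        push_cast
        field_simp
  have h1 := hg (((c : 𝕜) * μ) • ω + (s : 𝕜) • u)
  have h2 := h.M_rim_le hω hu1 hu2 hμ
  have h3 : ⟪g, ((c : 𝕜) * μ) • ω + (s : 𝕜) • u⟫_𝕜 =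
      ((c * ‖⟪ω, g⟫_𝕜‖ + s * ‖p‖ : ℝ) : 𝕜) := by
    have e1 : ⟪g, ω⟫_𝕜 = (starRingEnd 𝕜) ⟪ω, g⟫_𝕜 := (inner_conj_symm _ _).symm
    have e2 : ⟪g, u⟫_𝕜 = (‖p‖ : 𝕜) := by
      conv_lhs => rw [hgdec]
      rw [inner_add_left, inner_smul_left, hu2, hu3]; simp
    rw [inner_add_right, inner_smul_right, inner_smul_right, e1, e2]
    have e3 : (starRingEnd 𝕜) ⟪ω, g⟫_𝕜 = (starRingEnd 𝕜) μ * (‖⟪ω, g⟫_𝕜‖ : 𝕜) := by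
      conv_lhs => rw [hμ']
      rw [map_mul, RCLike.conj_ofReal]
    rw [e3]
    have e4 : μ * (starRingEnd 𝕜) μ = 1 := by
      rw [RCLike.mul_conj, hμ]; simp
    push_cast
    linear_combination (c : 𝕜) * (‖⟪ω, g⟫_𝕜‖ : 𝕜) * e4
  rw [h3, RCLike.norm_ofReal] at h1
  have h4 : 0 ≤ c * ‖⟪ω, g⟫_𝕜‖ + s * ‖p‖ := by positivity
  rw [abs_of_nonneg h4] at h1
  linarith

end Pool.Agent.Helper324.CE
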