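import Pool.Agent.Helper324.CEDet2

/-!
# Norms with bounded critical exponent: deterministic part, 3

First-order arguments, connectedness arguments.
-/

open scoped InnerProductSpace NNReal
open Filter Topology

namespace Pool.Agent.Helper324.CE

variable {𝕜 : Type*} [RCLike 𝕜] {E : Type*} [NormedAddCommGroup E] [InnerProductSpace 𝕜 E]

variable {Ω : Finset E} {c s : ℝ}

/-- `x` lies outside all closed caps -/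
def Good (𝕜 : Type*) [RCLike 𝕜] {E : Type*} [NormedAddCommGroup E] [InnerProductSpace 𝕜 E]
    (Ω : Finset E) (c : ℝ) (x : E) : Prop := ∀ ω ∈ Ω, ‖⟪ω, x⟫_𝕜‖ < c * ‖x‖

theorem Good.M_eq (hc : 0 < c) {x : E} (h : Good 𝕜 Ω c x) : M 𝕜 Ω c x = ‖x‖ :=
  M_eq_norm hc fun ω hω => (h ω hω).le

/-- being good is an open condition along lines -/
theorem Good.eventually {x : E} (h : Good 𝕜 Ω c x) (d : E) :
    ∃ t : ℝ, 0 < t ∧ t ≤ 1 ∧ Good 𝕜 Ω c (x + (t : 𝕜) • d) := by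
  have h1 : ∀ᶠ t : ℝ in 𝓝 0, Good 𝕜 Ω c (x + (t : 𝕜) • d) := by
    unfold Good
    rw [Filter.eventually_all_finset]
    intro ω hω
    have hcont1 : Continuous fun t : ℝ => ‖⟪ω, x + (t : 𝕜) • d⟫_𝕜‖ := by fun_prop
    have hcont2 : Continuous fun t : ℝ => c * ‖x + (t : 𝕜) • d‖ := by fun_prop
    have := (isOpen_lt hcont1 hcont2).mem_nhds (x := (0 : ℝ)) (by simpa using h ω hω)
    exact this
  have h2 : ∀ᶠ t : ℝ in 𝓝[>] 0, Good 𝕜 Ω c (x + (t : 𝕜) • d) :=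
    h1.filter_mono nhdsWithin_le_nhds
  have h3 : ∀ᶠ t : ℝ in 𝓝[>] (0 : ℝ), t ∈ Set.Ioc (0 : ℝ) 1 :=
    Ioc_mem_nhdsGT one_pos
  obtain ⟨t, ht1, ht2⟩ := (h2.and h3).exists
  exact ⟨t, ht2.1, ht2.2, ht1⟩

/-- First-order argument at a good point. -/
theorem Good.first_order {x : E} (hx : x ≠ 0) (h : Good 𝕜 Ω c x) {g : E}
    (hg : ∀ y, Good 𝕜 Ω c y → ‖⟪g, y⟫_𝕜‖ ≤ ‖x‖ * ‖y‖) (hgx : ⟪g, x⟫_𝕜 = (‖x‖ : 𝕜) ^ 2) :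
    g = x := by
  set d := g - x with hd
  have hxx : ⟪x, x⟫_𝕜 = (‖x‖ : 𝕜) ^ 2 := inner_self_eq_norm_sq_to_K x
  have hdx : ⟪d, x⟫_𝕜 = 0 := by rw [hd, inner_sub_left, hgx, hxx, sub_self]
  have hxd : ⟪x, d⟫_𝕜 = 0 := by rw [← inner_conj_symm, hdx]; simp
  obtain ⟨t, ht0, ht1, htg⟩ := h.eventually d
  have h1 := hg _ htg
  have hgdec : g = x + d := by rw [hd]; abel
  have h2 : ⟪g, x + (t : 𝕜) • d⟫_𝕜 = ((‖x‖ ^ 2 + t * ‖d‖ ^ 2 : ℝ) : 𝕜) := by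
    have hdd : ⟪d, d⟫_𝕜 = (‖d‖ : 𝕜) ^ 2 := inner_self_eq_norm_sq_to_K d
    have hgd : ⟪g, d⟫_𝕜 = (‖d‖ : 𝕜) ^ 2 := by
      conv_lhs => rw [hgdec]
      rw [inner_add_left, hxd, hdd, zero_add]
    rw [inner_add_right, inner_smul_right, hgx, hgd]
    push_cast
    ring
  have h3 : ‖x + (t : 𝕜) • d‖ ^ 2 = ‖x‖ ^ 2 + t ^ 2 * ‖d‖ ^ 2 := by
    have h0 : ⟪x, (t : 𝕜) • d⟫_𝕜 = 0 := by rw [inner_smul_right, hxd, mul_zero]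
    have := norm_add_sq_eq_norm_sq_add_norm_sq_of_inner_eq_zero x ((t : 𝕜) • d) h0
    rw [norm_smul, RCLike.norm_ofReal, abs_of_pos ht0] at this
    nlinarith
  rw [h2, RCLike.norm_ofReal, abs_of_nonneg (by positivity)] at h1
  have hx' : 0 < ‖x‖ := norm_pos_iff.2 hx
  have h4 : (‖x‖ ^ 2 + t * ‖d‖ ^ 2) ^ 2 ≤ ‖x‖ ^ 2 * (‖x‖ ^ 2 + t ^ 2 * ‖d‖ ^ 2) := by
    rw [← h3, ← mul_pow]
    gcongr
  have h5 : 0 < ‖x‖ ^ 2 := by positivity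
  have h6 : ‖x‖ ^ 2 * ‖d‖ ^ 2 ≤ 0 := by
    have e1 : 2 * t * (‖x‖ ^ 2 * ‖d‖ ^ 2) ≤ t ^ 2 * (‖x‖ ^ 2 * ‖d‖ ^ 2) := by
      nlinarith [sq_nonneg (t * ‖d‖ ^ 2)]
    have e2 : t ^ 2 * (‖x‖ ^ 2 * ‖d‖ ^ 2) ≤ t * (‖x‖ ^ 2 * ‖d‖ ^ 2) := by
      have : t ^ 2 ≤ t := by nlinarith
      gcongr
    have e3 : t * (‖x‖ ^ 2 * ‖d‖ ^ 2) ≤ 0 := by linarith
    by_contra hcon
    push Not at hcon
    have : 0 < t * (‖x‖ ^ 2 * ‖d‖ ^ 2) := by positivity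
    linarith
  have h7 : ‖d‖ = 0 := by
    by_contra hne
    have : 0 < ‖d‖ := lt_of_le_of_ne (norm_nonneg _) (Ne.symm hne)
    have : 0 < ‖x‖ ^ 2 * ‖d‖ ^ 2 := by positivity
    linarith
  have h8 : d = 0 := norm_eq_zero.1 h7
  rw [hgdec, h8, add_zero]

/-- First-order argument at the interior of a facet. -/
theorem facet_first_order (hc : 0 < c) {v ω : E} (hω : ‖ω‖ = 1) (hv : ‖v‖ < 1)
    (hωv : ⟪ω, v⟫_𝕜 = (c : 𝕜))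
    (hall : ∀ ω' ∈ Ω, (∃ μ : 𝕜, ‖μ‖ = 1 ∧ ω = μ • ω') ∨ ‖⟪ω', v⟫_𝕜‖ < c)
    {g : E} (hg : ∀ y, ‖⟪g, y⟫_𝕜‖ ≤ M 𝕜 Ω c y) (hgv : ⟪g, v⟫_𝕜 = 1) :
    (c : 𝕜) • g = ω := by
  have hωω : ⟪ω, ω⟫_𝕜 = 1 := by
    rw [inner_self_eq_norm_sq_to_K, hω]; simp
  set w := g - ⟪ω, g⟫_𝕜 • ω with hw
  have hωw : ⟪ω, w⟫_𝕜 = 0 := by
    rw [hw, inner_sub_right, inner_smul_right, hωω]; ring
  have hwω : ⟪w, ω⟫_𝕜 = 0 := by rw [← inner_conj_symm, hωw]; simp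
  have hgdec : g = ⟪ω, g⟫_𝕜 • ω + w := by rw [hw]; abel
  -- small `t`
  have h1 : ∀ᶠ t : ℝ in 𝓝 0, ‖v + (t : 𝕜) • w‖ < 1 := by
    have hcont1 : Continuous fun t : ℝ => ‖v + (t : 𝕜) • w‖ := by fun_prop
    exact (isOpen_lt hcont1 continuous_const).mem_nhds (x := (0 : ℝ)) (by simpa using hv)
  have h2 : ∀ᶠ t : ℝ in 𝓝 0, ∀ ω' ∈ Ω, (∃ μ : 𝕜, ‖μ‖ = 1 ∧ ω = μ • ω') ∨
      ‖⟪ω', v + (t : 𝕜) • w⟫_𝕜‖ < c := by
    rw [Filter.eventually_all_finset]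
    intro ω' hω'
    rcases hall ω' hω' with h | h
    · exact Filter.Eventually.of_forall fun t => Or.inl h
    · have hcont1 : Continuous fun t : ℝ => ‖⟪ω', v + (t : 𝕜) • w⟫_𝕜‖ := by fun_prop
      have : ∀ᶠ t : ℝ in 𝓝 0, ‖⟪ω', v + (t : 𝕜) • w⟫_𝕜‖ < c :=
        (isOpen_lt hcont1 continuous_const).mem_nhds (x := (0 : ℝ)) (by simpa using h)
      exact this.mono fun t ht => Or.inr ht
  have h3 : ∀ᶠ t : ℝ in 𝓝[>] 0, (‖v + (t : 𝕜) • w‖ < 1 ∧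
      ∀ ω' ∈ Ω, (∃ μ : 𝕜, ‖μ‖ = 1 ∧ ω = μ • ω') ∨ ‖⟪ω', v + (t : 𝕜) • w⟫_𝕜‖ < c) :=
    (h1.and h2).filter_mono nhdsWithin_le_nhds
  obtain ⟨t, ⟨ht1, ht2⟩, ht0⟩ := (h3.and (self_mem_nhdsWithin)).exists
  have ht0 : 0 < t := ht0
  have hM : M 𝕜 Ω c (v + (t : 𝕜) • w) ≤ 1 := by
    refine M_le hc ht1.le ?_
    intro ω' hω'
    rcases ht2 ω' hω' with ⟨μ, hμ, hμ'⟩ | h
    · have e1 : ‖⟪ω', v + (t : 𝕜) • w⟫_𝕜‖ = ‖⟪ω, v + (t : 𝕜) • w⟫_𝕜‖ := by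
        rw [hμ', inner_smul_left, norm_mul, RCLike.norm_conj, hμ, one_mul]
      rw [e1, inner_add_right, inner_smul_right, hωw, hωv, mul_zero, add_zero,
        RCLike.norm_ofReal, abs_of_pos hc, mul_one]
    · linarith
  have h4 := (hg (v + (t : 𝕜) • w)).trans hM
  have h5 : ⟪g, v + (t : 𝕜) • w⟫_𝕜 = ((1 + t * ‖w‖ ^ 2 : ℝ) : 𝕜) := by
    have hgw : ⟪g, w⟫_𝕜 = (‖w‖ : 𝕜) ^ 2 := by
      conv_lhs => rw [hgdec]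
      rw [inner_add_left, inner_smul_left, hωw, mul_zero, zero_add, inner_self_eq_norm_sq_to_K]
    rw [inner_add_right, inner_smul_right, hgv, hgw]
    push_cast
    ring
  rw [h5, RCLike.norm_ofReal, abs_of_nonneg (by positivity)] at h4
  have h6 : ‖w‖ = 0 := by
    by_contra hne
    have h7 : 0 < ‖w‖ := lt_of_le_of_ne (norm_nonneg _) (Ne.symm hne)
    have : 0 < t * ‖w‖ ^ 2 := by positivity
    linarith
  have h7 : w = 0 := norm_eq_zero.1 h6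
  rw [h7, add_zero] at hgdec
  have h8 : (starRingEnd 𝕜) ⟪ω, g⟫_𝕜 * (c : 𝕜) = 1 := by
    have : ⟪g, v⟫_𝕜 = (starRingEnd 𝕜) ⟪ω, g⟫_𝕜 * (c : 𝕜) := by
      conv_lhs => rw [hgdec]
      rw [inner_smul_left, hωv]
    rw [← this, hgv]
  have h9 : (c : 𝕜) * ⟪ω, g⟫_𝕜 = 1 := by
    have := congrArg (starRingEnd 𝕜) h8
    rw [map_mul, RCLike.conj_conj, RCLike.conj_ofReal, map_one] at this
    rw [mul_comm]; exact this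
  rw [hgdec, smul_smul, h9, one_smul]

/-- If `M v = 1` and `‖v‖ < 1` then `v` lies in a facet. -/
theorem Adm.exists_facet (h : Adm 𝕜 Ω c s) {v : E} (hv : ‖v‖ < 1) (hM : M 𝕜 Ω c v = 1) :
    ∃ ω : E, ‖ω‖ = 1 ∧ ⟪ω, v⟫_𝕜 = (c : 𝕜) ∧ (∃ ω0 ∈ Ω, ∃ μ : 𝕜, ‖μ‖ = 1 ∧ ω = μ • ω0) ∧
      (∀ ω' ∈ Ω, (∃ μ : 𝕜, ‖μ‖ = 1 ∧ ω = μ • ω') ∨ ‖⟪ω', v⟫_𝕜‖ < c) := by
  have hc := h.hc
  obtain ⟨ω0, hω0, h0⟩ := exists_cap_of_lt (𝕜 := 𝕜) hc (hv.trans_eq hM.symm)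
  rw [hM, mul_one] at h0
  obtain ⟨μ, hμ, hμ'⟩ := exists_phase (⟪ω0, v⟫_𝕜)
  refine ⟨μ • ω0, ?_, ?_, ⟨ω0, hω0, μ, hμ, rfl⟩, ?_⟩
  · rw [norm_smul, hμ, h.unit ω0 hω0, one_mul]
  · rw [inner_smul_left, hμ', ← h0, ← mul_assoc, mul_comm _ μ, RCLike.mul_conj, hμ]
    simp
  · intro ω' hω'
    by_cases hne : ω' = ω0
    · exact Or.inl ⟨μ, hμ, by rw [hne]⟩
    · right
      by_contra hcon
      push Not at hcon
      apply hne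
      have hv0 : v ≠ 0 := by
        rintro rfl
        rw [inner_zero_right, norm_zero] at h0
        linarith
      refine h.disj hω' hω0 hv0 ?_ ?_
      · nlinarith
      · nlinarith

/-- Connectedness argument: a segment lying in the closed caps (and avoiding `0`) has both
endpoints in the same closed cap. -/
theorem Adm.path (h : Adm 𝕜 Ω c s) {x y : E} (hx : x ≠ 0) (hy : y ≠ 0)
    (hxy : ∀ t ∈ Set.Ioo (0 : ℝ) 1, (((1 - t : ℝ) : 𝕜) • x + (t : 𝕜) • y ≠ 0) ∧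
      ∃ ω ∈ Ω, c * ‖((1 - t : ℝ) : 𝕜) • x + (t : 𝕜) • y‖ ≤
        ‖⟪ω, ((1 - t : ℝ) : 𝕜) • x + (t : 𝕜) • y⟫_𝕜‖) :
    ∃ ω ∈ Ω, c * ‖x‖ ≤ ‖⟪ω, x⟫_𝕜‖ ∧ c * ‖y‖ ≤ ‖⟪ω, y⟫_𝕜‖ := by
  set z : ℝ → E := fun t => ((1 - t : ℝ) : 𝕜) • x + (t : 𝕜) • y with hz
  have hzcont : Continuous z := by rw [hz]; fun_prop
  have hz0 : z 0 = x := by simp [hz]
  have hz1 : z 1 = y := by simp [hz]
  set K : E → Set ℝ := fun ω => {t | c * ‖z t‖ ≤ ‖⟪ω, z t⟫_𝕜‖} with hK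
  have hKc : ∀ ω, IsClosed (K ω) := fun ω =>
    isClosed_le (by fun_prop) (by fun_prop)
  have hcov : Set.Icc (0 : ℝ) 1 ⊆ ⋃ ω ∈ Ω, K ω := by
    have h1 : Set.Ioo (0 : ℝ) 1 ⊆ ⋃ ω ∈ Ω, K ω := by
      intro t ht
      obtain ⟨-, ω, hω, h2⟩ := hxy t ht
      simp only [Set.mem_iUnion]
      exact ⟨ω, hω, h2⟩
    have h2 : IsClosed (⋃ ω ∈ Ω, K ω) :=
      Set.Finite.isClosed_biUnion (Finset.finite_toSet Ω) fun ω _ => hKc ω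
    have h3 := h2.closure_subset_iff.2 h1
    rwa [closure_Ioo (by norm_num)] at h3
  have hne : ∀ t ∈ Set.Icc (0 : ℝ) 1, z t ≠ 0 := by
    intro t ht
    rcases eq_or_lt_of_le ht.1 with h0 | h0
    · rw [← h0, hz0]; exact hx
    · rcases eq_or_lt_of_le ht.2 with h1 | h1
      · rw [h1, hz1]; exact hy
      · exact (hxy t ⟨h0, h1⟩).1
  obtain ⟨ω, hω, hω0⟩ : ∃ ω ∈ Ω, (0 : ℝ) ∈ K ω := by
    have := hcov (Set.left_mem_Icc.2 zero_le_one)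
    simpa only [Set.mem_iUnion, exists_prop] using this
  classical
  have hconn : IsPreconnected (Set.Icc (0 : ℝ) 1) := isPreconnected_Icc
  have hcl2 : IsClosed (⋃ ω' ∈ Ω.erase ω, K ω') :=
    Set.Finite.isClosed_biUnion (Finset.finite_toSet _) fun ω _ => hKc ω
  have hsub : Set.Icc (0 : ℝ) 1 ⊆ K ω ∪ ⋃ ω' ∈ Ω.erase ω, K ω' := by
    intro t ht
    have := hcov ht
    simp only [Set.mem_iUnion, exists_prop] at this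
    obtain ⟨ω', hω', ht'⟩ := this
    by_cases he : ω' = ω
    · left; rw [← he]; exact ht'
    · right
      simp only [Set.mem_iUnion, exists_prop]
      exact ⟨ω', Finset.mem_erase.2 ⟨he, hω'⟩, ht'⟩
  have hdisj : Set.Icc (0 : ℝ) 1 ∩ (K ω ∩ ⋃ ω' ∈ Ω.erase ω, K ω') = ∅ := by
    rw [Set.eq_empty_iff_forall_notMem]
    rintro t ⟨ht, ht1, ht2⟩
    simp only [Set.mem_iUnion, exists_prop] at ht2
    obtain ⟨ω', hω', ht'⟩ := ht2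
    rw [Finset.mem_erase] at hω'
    exact hω'.1 (h.disj hω'.2 hω (hne t ht) ht' ht1)
  rcases isPreconnected_iff_subset_of_disjoint_closed.1 hconn _ _ (hKc ω) hcl2 hsub hdisj with h1 | h1
  · refine ⟨ω, hω, ?_, ?_⟩
    · have : (0 : ℝ) ∈ K ω := hω0
      simpa only [hK, Set.mem_ofPred_eq, hz0] using this
    · have : (1 : ℝ) ∈ K ω := h1 (Set.right_mem_Icc.2 zero_le_one)
      simpa only [hK, Set.mem_ofPred_eq, hz1] using this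
  · exfalso
    have h2 := h1 (Set.left_mem_Icc.2 zero_le_one)
    have : (0 : ℝ) ∈ Set.Icc (0 : ℝ) 1 ∩ (K ω ∩ ⋃ ω' ∈ Ω.erase ω, K ω') :=
      ⟨Set.left_mem_Icc.2 zero_le_one, hω0, h2⟩
    rw [hdisj] at this
    exact this

end Pool.Agent.Helper324.CE
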