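import Pool.Agent.Helper324.CEDet3

/-!
# Norms with bounded critical exponent: deterministic part, 4

The two cases (unit chain, facet chain).
-/

open scoped InnerProductSpace NNReal
open Filter Topology

namespace Pool.Agent.Helper324.CE

variable {𝕜 : Type*} [RCLike 𝕜] {E : Type*} [NormedAddCommGroup E] [InnerProductSpace 𝕜 E]

variable {Ω : Finset E} {c s : ℝ}

/-- independence of a pair -/
def Indep (𝕜 : Type*) [RCLike 𝕜] {E : Type*} [NormedAddCommGroup E] [InnerProductSpace 𝕜 E]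
    (a b : E) : Prop := ∀ p q : 𝕜, p • a + q • b = 0 → p = 0 ∧ q = 0

theorem par_or_indep {x y : E} (hx : ‖x‖ = 1) (hy : ‖y‖ = 1) :
    (∃ μ : 𝕜, ‖μ‖ = 1 ∧ y = μ • x) ∨ Indep 𝕜 x y := by
  by_cases h : ∃ μ : 𝕜, ‖μ‖ = 1 ∧ y = μ • x
  · exact Or.inl h
  right
  intro p q hpq
  have hq : q = 0 := by
    by_contra hq
    apply h
    have hy' : y = (-(p / q)) • x := by
      have h1 : q • y = (-p) • x := by
        rw [neg_smul]; exact (neg_eq_of_add_eq_zero_right hpq).symm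
      calc y = q⁻¹ • (q • y) := by rw [smul_smul, inv_mul_cancel₀ hq, one_smul]
        _ = _ := by rw [h1, smul_smul]; congr 1; field_simp
    refine ⟨-(p / q), ?_, hy'⟩
    have := congrArg norm hy'
    rw [norm_smul, hx, hy, mul_one] at this
    exact this.symm
  subst hq
  rw [zero_smul, add_zero, smul_eq_zero] at hpq
  rcases hpq with h1 | h1
  · exact ⟨h1, rfl⟩
  · rw [h1, norm_zero] at hx
    exact absurd hx (by norm_num)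

theorem Indep.ne_zero_left {a b : E} (h : Indep 𝕜 a b) : a ≠ 0 := by
  rintro rfl
  have := h 1 0 (by simp)
  exact one_ne_zero this.1

/-- a plane contains a good vector -/
theorem Adm.exists_good (h : Adm 𝕜 Ω c s) {a b : E} (hab : Indep 𝕜 a b) {P : Submodule 𝕜 E}
    (ha : a ∈ P) (hb : b ∈ P) : ∃ z ∈ P, z ≠ 0 ∧ Good 𝕜 Ω c z := by
  by_contra hcon
  push Not at hcon
  have hbad : ∀ z ∈ P, z ≠ 0 → ∃ ω ∈ Ω, c * ‖z‖ ≤ ‖⟪ω, z⟫_𝕜‖ := by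
    intro z hz hz0
    have := hcon z hz hz0
    unfold Good at this
    push Not at this
    exact this
  have ha0 : a ≠ 0 := hab.ne_zero_left
  obtain ⟨ω0, hω0, h0⟩ := hbad a ha ha0
  have hin : ⟪ω0, a⟫_𝕜 ≠ 0 := by
    intro h1
    rw [h1, norm_zero] at h0
    have : 0 < c * ‖a‖ := mul_pos h.hc (norm_pos_iff.2 ha0)
    linarith
  set y := ⟪ω0, b⟫_𝕜 • a - ⟪ω0, a⟫_𝕜 • b with hy
  have hyP : y ∈ P := P.sub_mem (P.smul_mem _ ha) (P.smul_mem _ hb)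
  have hωy : ⟪ω0, y⟫_𝕜 = 0 := by
    rw [hy, inner_sub_right, inner_smul_right, inner_smul_right]; ring
  have hy0 : y ≠ 0 := by
    intro h1
    have h2 : ⟪ω0, b⟫_𝕜 • a + (-⟪ω0, a⟫_𝕜) • b = 0 := by
      rw [neg_smul, ← sub_eq_add_neg]; exact h1
    have := (hab _ _ h2).2
    exact hin (neg_eq_zero.1 this)
  have hseg : ∀ t ∈ Set.Ioo (0 : ℝ) 1, (((1 - t : ℝ) : 𝕜) • a + (t : 𝕜) • y ≠ 0) ∧
      ∃ ω ∈ Ω, c * ‖((1 - t : ℝ) : 𝕜) • a + (t : 𝕜) • y‖ ≤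
        ‖⟪ω, ((1 - t : ℝ) : 𝕜) • a + (t : 𝕜) • y⟫_𝕜‖ := by
    intro t ht
    have hne : ((1 - t : ℝ) : 𝕜) • a + (t : 𝕜) • y ≠ 0 := by
      intro h1
      have h2 : ⟪ω0, ((1 - t : ℝ) : 𝕜) • a + (t : 𝕜) • y⟫_𝕜 = 0 := by rw [h1, inner_zero_right]
      rw [inner_add_right, inner_smul_right, inner_smul_right, hωy, mul_zero, add_zero,
        mul_eq_zero] at h2
      rcases h2 with h2 | h2
      · have : (1 - t : ℝ) = 0 := by exact_mod_cast h2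
        linarith [ht.2]
      · exact hin h2
    exact ⟨hne, hbad _ (P.add_mem (P.smul_mem _ ha) (P.smul_mem _ hyP)) hne⟩
  obtain ⟨ω, hω, h1, h2⟩ := h.path ha0 hy0 hseg
  have h3 : ω = ω0 := h.disj hω hω0 ha0 h1 h0
  rw [h3, hωy, norm_zero] at h2
  have : 0 < c * ‖y‖ := mul_pos h.hc (norm_pos_iff.2 hy0)
  linarith

/-- if `S` fixes every good vector of a plane it fixes the plane -/
theorem Adm.fix_of_good (h : Adm 𝕜 Ω c s) {a b : E} (hab : Indep 𝕜 a b) {P : Submodule 𝕜 E}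
    (ha : a ∈ P) (hb : b ∈ P) (S : E →ₗ[𝕜] E) (hS : ∀ z ∈ P, Good 𝕜 Ω c z → S z = z) :
    ∀ z ∈ P, S z = z := by
  intro z hz
  obtain ⟨z0, hz0P, hz00, hz0⟩ := h.exists_good hab ha hb
  obtain ⟨t, ht0, -, ht⟩ := hz0.eventually z
  have h1 := hS _ (P.add_mem hz0P (P.smul_mem (t : 𝕜) hz)) ht
  rw [map_add, map_smul, hS z0 hz0P hz0, add_right_inj] at h1
  have ht' : (t : 𝕜) ≠ 0 := by exact_mod_cast ht0.ne'
  exact smul_right_injective E ht' h1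

variable [CompleteSpace E]

/-- an isometry on a plane satisfies `T* T = 1` there -/
theorem Adm.isom_plane (h : Adm 𝕜 Ω c s) {T : E →L[𝕜] E}
    (hT : ∀ x, M 𝕜 Ω c (T x) ≤ M 𝕜 Ω c x) {a b : E} (hab : Indep 𝕜 a b) {P : Submodule 𝕜 E}
    (ha : a ∈ P) (hb : b ∈ P) (hiso : ∀ x ∈ P, ‖T x‖ = ‖x‖) :
    ∀ x ∈ P, T.adjoint (T x) = x := by
  refine h.fix_of_good hab ha hb ((T.adjoint ∘L T : E →L[𝕜] E) : E →ₗ[𝕜] E) ?_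
  intro x hx hgood
  change T.adjoint (T x) = x
  by_cases hx0 : x = 0
  · rw [hx0, map_zero, map_zero]
  refine hgood.first_order hx0 ?_ ?_
  · intro y hy
    rw [ContinuousLinearMap.adjoint_inner_left]
    calc ‖⟪T x, T y⟫_𝕜‖ ≤ ‖T x‖ * ‖T y‖ := norm_inner_le_norm _ _
      _ ≤ ‖x‖ * ‖y‖ := by
        rw [hiso x hx]
        gcongr
        calc ‖T y‖ ≤ M 𝕜 Ω c (T y) := norm_le_M _
          _ ≤ M 𝕜 Ω c y := hT y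
          _ = ‖y‖ := hy.M_eq h.hc
  · rw [ContinuousLinearMap.adjoint_inner_left, inner_self_eq_norm_sq_to_K, hiso x hx]

omit [CompleteSpace E] in
/-- norm of a combination of two unit vectors -/
theorem norm_comb_sq {x y : E} (hx : ‖x‖ = 1) (hy : ‖y‖ = 1) (p q : 𝕜) :
    ‖p • x + q • y‖ ^ 2 =
      ‖p‖ ^ 2 + ‖q‖ ^ 2 + 2 * RCLike.re ((starRingEnd 𝕜) p * q * ⟪x, y⟫_𝕜) := by
  have h := norm_add_sq (𝕜 := 𝕜) (p • x) (q • y)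
  rw [h, norm_smul, norm_smul, hx, hy, mul_one, mul_one, inner_smul_left, inner_smul_right,
    ← mul_assoc]
  ring

omit [CompleteSpace E] in
/-- the set-up of the path argument: norms along the path -/
theorem path_norm {x y x' y' : E} (hx : ‖x‖ = 1) (hy : ‖y‖ = 1) (hx' : ‖x'‖ = 1) (hy' : ‖y'‖ = 1)
    {t : ℝ} :
    ‖((1 - t : ℝ) : 𝕜) • x' + (t : 𝕜) • ((starRingEnd 𝕜 (⟪x', y'⟫_𝕜 - ⟪x, y⟫_𝕜)) • y')‖ ^ 2 -
    ‖((1 - t : ℝ) : 𝕜) • x + (t : 𝕜) • ((starRingEnd 𝕜 (⟪x', y'⟫_𝕜 - ⟪x, y⟫_𝕜)) • y)‖ ^ 2 =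
      2 * ((1 - t) * t * ‖⟪x', y'⟫_𝕜 - ⟪x, y⟫_𝕜‖ ^ 2) := by
  set γ := ⟪x', y'⟫_𝕜 - ⟪x, y⟫_𝕜 with hγ
  rw [smul_smul, smul_smul, norm_comb_sq hx' hy', norm_comb_sq hx hy]
  have h1 : RCLike.re ((starRingEnd 𝕜) ((1 - t : ℝ) : 𝕜) * ((t : 𝕜) * (starRingEnd 𝕜) γ) *
      ⟪x', y'⟫_𝕜) - RCLike.re ((starRingEnd 𝕜) ((1 - t : ℝ) : 𝕜) * ((t : 𝕜) * (starRingEnd 𝕜) γ) *
      ⟪x, y⟫_𝕜) = (1 - t) * t * ‖γ‖ ^ 2 := by
    rw [← map_sub, ← mul_sub, ← hγ, RCLike.conj_ofReal]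
    have : ((1 - t : ℝ) : 𝕜) * ((t : 𝕜) * (starRingEnd 𝕜) γ) * γ =
        (((1 - t) * t * ‖γ‖ ^ 2 : ℝ) : 𝕜) := by
      have h2 := RCLike.conj_mul γ
      push_cast
      linear_combination ((1 : 𝕜) - (t : 𝕜)) * (t : 𝕜) * h2
    rw [this, RCLike.ofReal_re]
  linarith

/-- Unit chain, `γ ≠ 0`. -/
theorem Adm.unit_path (h : Adm 𝕜 Ω c s) {T : E →L[𝕜] E}
    (hT : ∀ x, M 𝕜 Ω c (T x) ≤ M 𝕜 Ω c x) {v0 v1 v2 : E} (h01 : T v0 = v1) (h12 : T v1 = v2)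
    (hv0 : ‖v0‖ = 1) (hv1 : ‖v1‖ = 1) (hv2 : ‖v2‖ = 1)
    (hM0 : M 𝕜 Ω c v0 = 1) (hM1 : M 𝕜 Ω c v1 = 1)
    (hγ : ⟪v1, v2⟫_𝕜 - ⟪v0, v1⟫_𝕜 ≠ 0) :
    ∃ ω ∈ Ω, ‖⟪ω, v0⟫_𝕜‖ = c ∧ ‖⟪ω, v1⟫_𝕜‖ = c := by
  have hc := h.hc
  set γ := ⟪v1, v2⟫_𝕜 - ⟪v0, v1⟫_𝕜 with hγdef
  have hγ' : 0 < ‖γ‖ := norm_pos_iff.2 hγ
  have hγc : 0 < ‖(starRingEnd 𝕜) γ‖ := by rwa [RCLike.norm_conj]
  have hv00 : v0 ≠ 0 := by rw [← norm_pos_iff, hv0]; exact one_pos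
  have hv10 : (starRingEnd 𝕜) γ • v1 ≠ 0 := by
    rw [← norm_pos_iff, norm_smul, hv1, mul_one]; exact hγc
  have hseg : ∀ t ∈ Set.Ioo (0 : ℝ) 1,
      (((1 - t : ℝ) : 𝕜) • v0 + (t : 𝕜) • ((starRingEnd 𝕜) γ • v1) ≠ 0) ∧
      ∃ ω ∈ Ω, c * ‖((1 - t : ℝ) : 𝕜) • v0 + (t : 𝕜) • ((starRingEnd 𝕜) γ • v1)‖ ≤
        ‖⟪ω, ((1 - t : ℝ) : 𝕜) • v0 + (t : 𝕜) • ((starRingEnd 𝕜) γ • v1)⟫_𝕜‖ := by
    intro t ht
    set x := ((1 - t : ℝ) : 𝕜) • v0 + (t : 𝕜) • ((starRingEnd 𝕜) γ • v1) with hx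
    have hTx : T x = ((1 - t : ℝ) : 𝕜) • v1 + (t : 𝕜) • ((starRingEnd 𝕜) γ • v2) := by
      rw [hx, map_add, map_smul, map_smul, map_smul, h01, h12]
    have h1 := path_norm (𝕜 := 𝕜) hv0 hv1 hv1 hv2 (t := t)
    rw [← hγdef, ← hTx, ← hx] at h1
    have h2 : 0 < 2 * ((1 - t) * t * ‖γ‖ ^ 2) := by
      have := ht.1; have h3 : 0 < 1 - t := by linarith [ht.2]
      positivity
    have h3 : ‖x‖ < ‖T x‖ := by
      have h4 : ‖x‖ ^ 2 < ‖T x‖ ^ 2 := by linarith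
      exact lt_of_pow_lt_pow_left₀ 2 (norm_nonneg _) h4
    have h4 : ‖x‖ < M 𝕜 Ω c x := h3.trans_le ((norm_le_M _).trans (hT x))
    obtain ⟨ω, hω, h5⟩ := exists_cap_of_lt (𝕜 := 𝕜) hc h4
    refine ⟨?_, ω, hω, ?_⟩
    · intro h0
      rw [h0, map_zero, norm_zero] at h3
      exact lt_irrefl _ h3
    · rw [← h5]
      exact mul_le_mul_of_nonneg_left h4.le hc.le
  obtain ⟨ω, hω, h1, h2⟩ := h.path hv00 hv10 hseg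
  refine ⟨ω, hω, le_antisymm ?_ ?_, le_antisymm ?_ ?_⟩
  · have := inner_le_M (𝕜 := 𝕜) hc hω v0
    rwa [hM0, mul_one] at this
  · rwa [hv0, mul_one] at h1
  · have := inner_le_M (𝕜 := 𝕜) hc hω v1
    rwa [hM1, mul_one] at this
  · rw [norm_smul, hv1, mul_one, inner_smul_right, norm_mul] at h2
    have h3 : ‖(starRingEnd 𝕜) γ‖ * c ≤ ‖(starRingEnd 𝕜) γ‖ * ‖⟪ω, v1⟫_𝕜‖ := by linarith
    exact le_of_mul_le_mul_left h3 hγc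

/-- Unit chain, `γ = 0`. -/
theorem Adm.unit_isom (h : Adm 𝕜 Ω c s) {T : E →L[𝕜] E}
    (hT : ∀ x, M 𝕜 Ω c (T x) ≤ M 𝕜 Ω c x) {v0 v1 v2 : E} (h01 : T v0 = v1) (h12 : T v1 = v2)
    (hv0 : ‖v0‖ = 1) (hv1 : ‖v1‖ = 1) (hv2 : ‖v2‖ = 1)
    (hγ : ⟪v1, v2⟫_𝕜 - ⟪v0, v1⟫_𝕜 = 0) (hind : Indep 𝕜 v0 v1) :
    ∀ x ∈ Submodule.span 𝕜 {v0, v1}, T.adjoint (T x) = x := by
  have m0 : v0 ∈ Submodule.span 𝕜 {v0, v1} := Submodule.subset_span (by simp)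
  have m1 : v1 ∈ Submodule.span 𝕜 {v0, v1} := Submodule.subset_span (by simp)
  refine h.isom_plane hT hind m0 m1 ?_
  intro x hx
  obtain ⟨p, q, rfl⟩ := Submodule.mem_span_pair.1 hx
  have h1 : ‖T (p • v0 + q • v1)‖ ^ 2 = ‖p • v0 + q • v1‖ ^ 2 := by
    rw [map_add, map_smul, map_smul, h01, h12, norm_comb_sq hv1 hv2, norm_comb_sq hv0 hv1,
      sub_eq_zero.1 hγ]
  exact (pow_left_inj₀ (norm_nonneg _) (norm_nonneg _) two_ne_zero).1 h1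

/-- Unit chain on the rim of one cap. -/
theorem Adm.unit_rim (h : Adm 𝕜 Ω c s) {T : E →L[𝕜] E}
    (hT : ∀ x, M 𝕜 Ω c (T x) ≤ M 𝕜 Ω c x) {v0 v1 v2 : E} (h01 : T v0 = v1) (h12 : T v1 = v2)
    (hv0 : ‖v0‖ = 1) (hv1 : ‖v1‖ = 1) (hM0 : M 𝕜 Ω c v0 = 1) (hM1 : M 𝕜 Ω c v1 = 1)
    (hind : Indep 𝕜 v0 v1) {ω : E} (hω : ω ∈ Ω) (hω0 : ‖⟪ω, v0⟫_𝕜‖ = c)
    (hω1 : ‖⟪ω, v1⟫_𝕜‖ = c) (hω2 : ‖⟪ω, v2⟫_𝕜‖ = c) :
    ∃ μ : 𝕜, ‖μ‖ = 1 ∧ T.adjoint ω = μ • ω := by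
  have hc := h.hc
  have hcK : (c : 𝕜) ≠ 0 := by exact_mod_cast hc.ne'
  set g : E := ((c⁻¹ : ℝ) : 𝕜) • T.adjoint ω with hg
  have hgin : ∀ y, ⟪g, y⟫_𝕜 = ((c⁻¹ : ℝ) : 𝕜) * ⟪ω, T y⟫_𝕜 := by
    intro y
    rw [hg, inner_smul_left, RCLike.conj_ofReal, ContinuousLinearMap.adjoint_inner_left]
  have hgM : ∀ y, ‖⟪g, y⟫_𝕜‖ ≤ M 𝕜 Ω c y := by
    intro y
    rw [hgin, norm_mul, RCLike.norm_ofReal, abs_of_pos (inv_pos.2 hc), inv_mul_eq_div,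
      div_le_iff₀ hc, mul_comm]
    exact (inner_le_M hc hω _).trans (mul_le_mul_of_nonneg_left (hT y) hc.le)
  have hcg : (c : 𝕜) • g = T.adjoint ω := by
    rw [hg, smul_smul]
    push_cast
    rw [mul_inv_cancel₀ hcK, one_smul]
  have hphase : ∀ v : E, ‖⟪ω, T v⟫_𝕜‖ = c → ∃ μ : 𝕜, ‖μ‖ = 1 ∧ ⟪g, μ • v⟫_𝕜 = 1 := by
    intro v hv
    obtain ⟨μ, hμ, hμ'⟩ := exists_phase (⟪ω, T v⟫_𝕜)
    rw [hv] at hμ'
    refine ⟨(starRingEnd 𝕜) μ, by rw [RCLike.norm_conj, hμ], ?_⟩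
    have e4 : (starRingEnd 𝕜) μ * μ = 1 := by
      rw [RCLike.conj_mul, hμ]; simp
    rw [inner_smul_right, hgin, hμ']
    push_cast
    field_simp
    exact e4
  obtain ⟨μ0, hμ0, hg0⟩ := hphase v0 (by rw [h01, hω1])
  obtain ⟨μ1, hμ1, hg1⟩ := hphase v1 (by rw [h12, hω2])
  set w0 := μ0 • v0 with hw0
  set w1 := μ1 • v1 with hw1
  have hw0n : ‖w0‖ = 1 := by rw [hw0, norm_smul, hμ0, hv0, one_mul]
  have hw1n : ‖w1‖ = 1 := by rw [hw1, norm_smul, hμ1, hv1, one_mul]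
  have hne : w0 - w1 ≠ 0 := by
    intro h0
    have h1 : μ0 • v0 + (-μ1) • v1 = 0 := by rw [neg_smul, ← sub_eq_add_neg]; exact h0
    have := (hind _ _ h1).1
    rw [this, norm_zero] at hμ0
    exact absurd hμ0 (by norm_num)
  set m : E := ((1/2 : ℝ) : 𝕜) • (w0 + w1) with hm
  have hmn : ‖m‖ < 1 := by
    have h1 := parallelogram_law_with_norm 𝕜 w0 w1
    have h2 : 0 < ‖w0 - w1‖ := norm_pos_iff.2 hne
    have h3 : ‖m‖ = 1/2 * ‖w0 + w1‖ := by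
      rw [hm, norm_smul, RCLike.norm_ofReal, abs_of_pos (by norm_num)]
    rw [hw0n, hw1n] at h1
    rw [h3]
    nlinarith [norm_nonneg (w0 + w1)]
  have hgm : ⟪g, m⟫_𝕜 = 1 := by
    rw [hm, inner_smul_right, inner_add_right, hg0, hg1]
    push_cast
    norm_num
  have hMw0 : M 𝕜 Ω c w0 = 1 := by rw [hw0, M_smul hc, hμ0, hM0, one_mul]
  have hMw1 : M 𝕜 Ω c w1 = 1 := by rw [hw1, M_smul hc, hμ1, hM1, one_mul]
  have hMm : M 𝕜 Ω c m = 1 := by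
    apply le_antisymm
    · rw [hm, M_smul hc, RCLike.norm_ofReal, abs_of_pos (by norm_num)]
      have := M_add_le (𝕜 := 𝕜) (Ω := Ω) hc w0 w1
      rw [hMw0, hMw1] at this
      linarith
    · have := hgM m
      rwa [hgm, norm_one] at this
  obtain ⟨ω', hω'n, hω'm, ⟨ω0, hω0m, μ, hμ, hμω⟩, hall⟩ := h.exists_facet hmn hMm
  have h1 := facet_first_order (𝕜 := 𝕜) hc hω'n hmn hω'm hall hgM hgm
  rw [hcg] at h1
  have h2 : ω0 = ω := by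
    by_contra hne'
    have e0 : ‖⟪ω0, m⟫_𝕜‖ = c := by
      have : ‖⟪ω', m⟫_𝕜‖ = ‖⟪ω0, m⟫_𝕜‖ := by
        rw [hμω, inner_smul_left, norm_mul, RCLike.norm_conj, hμ, one_mul]
      rw [← this, hω'm, RCLike.norm_ofReal, abs_of_pos hc]
    have e1 : ‖⟪ω0, w0⟫_𝕜‖ < c := by
      by_contra hcon
      push Not at hcon
      apply hne'
      refine h.disj_unit hω0m hω hw0n hcon ?_
      rw [hw0, inner_smul_right, norm_mul, hμ0, hω0, one_mul]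
    have e2 : ‖⟪ω0, w1⟫_𝕜‖ ≤ c := by
      have := inner_le_M (𝕜 := 𝕜) hc hω0m w1
      rwa [hMw1, mul_one] at this
    have e3 : ‖⟪ω0, m⟫_𝕜‖ ≤ 1/2 * (‖⟪ω0, w0⟫_𝕜‖ + ‖⟪ω0, w1⟫_𝕜‖) := by
      rw [hm, inner_smul_right, norm_mul, RCLike.norm_ofReal, abs_of_pos (by norm_num),
        inner_add_right]
      gcongr
      exact norm_add_le _ _
    rw [e0] at e3
    linarith
  refine ⟨μ, hμ, ?_⟩
  rw [h1, hμω, h2]

/-- Facet chain: the adjoint moves the facets. -/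
theorem Adm.facet_adjoint (h : Adm 𝕜 Ω c s) {T : E →L[𝕜] E}
    (hT : ∀ x, M 𝕜 Ω c (T x) ≤ M 𝕜 Ω c x) {v0 v1 ω0 ω1 : E} (h01 : T v0 = v1)
    (hv0 : ‖v0‖ < 1) (hω0 : ‖ω0‖ = 1) (hω0v : ⟪ω0, v0⟫_𝕜 = (c : 𝕜))
    (hω0all : ∀ ω' ∈ Ω, (∃ μ : 𝕜, ‖μ‖ = 1 ∧ ω0 = μ • ω') ∨ ‖⟪ω', v0⟫_𝕜‖ < c)
    (hω1 : ∃ ω' ∈ Ω, ∃ μ : 𝕜, ‖μ‖ = 1 ∧ ω1 = μ • ω') (hω1v : ⟪ω1, v1⟫_𝕜 = (c : 𝕜)) :
    T.adjoint ω1 = ω0 := by
  have hc := h.hc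
  have hcK : (c : 𝕜) ≠ 0 := by exact_mod_cast hc.ne'
  set g : E := ((c⁻¹ : ℝ) : 𝕜) • T.adjoint ω1 with hg
  have hgin : ∀ y, ⟪g, y⟫_𝕜 = ((c⁻¹ : ℝ) : 𝕜) * ⟪ω1, T y⟫_𝕜 := by
    intro y
    rw [hg, inner_smul_left, RCLike.conj_ofReal, ContinuousLinearMap.adjoint_inner_left]
  obtain ⟨ω', hω', μ, hμ, hμω⟩ := hω1
  have hgM : ∀ y, ‖⟪g, y⟫_𝕜‖ ≤ M 𝕜 Ω c y := by
    intro y
    rw [hgin, norm_mul, RCLike.norm_ofReal, abs_of_pos (inv_pos.2 hc), inv_mul_eq_div,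
      div_le_iff₀ hc, mul_comm, hμω, inner_smul_left, norm_mul, RCLike.norm_conj, hμ, one_mul]
    exact (inner_le_M hc hω' _).trans (mul_le_mul_of_nonneg_left (hT y) hc.le)
  have hcg : (c : 𝕜) • g = T.adjoint ω1 := by
    rw [hg, smul_smul]
    push_cast
    rw [mul_inv_cancel₀ hcK, one_smul]
  have hgv : ⟪g, v0⟫_𝕜 = 1 := by
    rw [hgin, h01, hω1v]
    push_cast
    exact inv_mul_cancel₀ hcK
  have := facet_first_order (𝕜 := 𝕜) hc hω0 hv0 hω0v hω0all hgM hgv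
  rw [← hcg, this]

/-- Dual chain of facets. -/
theorem Adm.facet_chain (h : Adm 𝕜 Ω c s) {T : E →L[𝕜] E}
    (hT : ∀ x, M 𝕜 Ω c (T x) ≤ M 𝕜 Ω c x) {ω0 ω1 ω2 : E}
    (h10 : T.adjoint ω1 = ω0) (h21 : T.adjoint ω2 = ω1)
    (hω0 : ‖ω0‖ = 1) (hω1 : ‖ω1‖ = 1) (hω2 : ‖ω2‖ = 1)
    (hm0 : ∃ ω' ∈ Ω, ∃ μ : 𝕜, ‖μ‖ = 1 ∧ ω0 = μ • ω')
    (hm1 : ∃ ω' ∈ Ω, ∃ μ : 𝕜, ‖μ‖ = 1 ∧ ω1 = μ • ω')
    (hind : Indep 𝕜 ω0 ω1) :
    ∀ x ∈ Submodule.span 𝕜 {ω0, ω1}, T.adjoint (T x) = x := by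
  have hc := h.hc
  obtain ⟨ω0', hω0', μ0, hμ0, hμω0⟩ := hm0
  obtain ⟨ω1', hω1', μ1, hμ1, hμω1⟩ := hm1
  have key : ∀ x y : E, T.adjoint y = x → ‖y‖ < ‖x‖ → ‖x‖ < M 𝕜 Ω c x := by
    intro x y hxy hlt
    refine lt_of_le_of_ne (norm_le_M x) ?_
    intro heq
    have h1 : ‖x‖ ^ 2 ≤ ‖y‖ * ‖x‖ := by
      have h2 : ⟪x, x⟫_𝕜 = ⟪y, T x⟫_𝕜 := by
        nth_rewrite 1 [← hxy]
        rw [ContinuousLinearMap.adjoint_inner_left]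
      have h3 : ‖⟪x, x⟫_𝕜‖ = ‖x‖ ^ 2 := by
        rw [inner_self_eq_norm_sq_to_K, norm_pow, RCLike.norm_ofReal, abs_norm]
      rw [← h3, h2]
      calc ‖⟪y, T x⟫_𝕜‖ ≤ ‖y‖ * ‖T x‖ := norm_inner_le_norm _ _
        _ ≤ ‖y‖ * ‖x‖ := by
          gcongr
          calc ‖T x‖ ≤ M 𝕜 Ω c (T x) := norm_le_M _
            _ ≤ M 𝕜 Ω c x := hT x
            _ = ‖x‖ := heq.symm
    nlinarith [norm_nonneg y]
  have hγ : ⟪ω0, ω1⟫_𝕜 - ⟪ω1, ω2⟫_𝕜 = 0 := by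
    by_contra hγ
    set γ := ⟪ω0, ω1⟫_𝕜 - ⟪ω1, ω2⟫_𝕜 with hγdef
    have hγ' : 0 < ‖γ‖ := norm_pos_iff.2 hγ
    have hγc : 0 < ‖(starRingEnd 𝕜) γ‖ := by rwa [RCLike.norm_conj]
    have hv00 : ω0 ≠ 0 := by rw [← norm_pos_iff, hω0]; exact one_pos
    have hv10 : (starRingEnd 𝕜) γ • ω1 ≠ 0 := by
      rw [← norm_pos_iff, norm_smul, hω1, mul_one]; exact hγc
    have hseg : ∀ t ∈ Set.Ioo (0 : ℝ) 1,
        (((1 - t : ℝ) : 𝕜) • ω0 + (t : 𝕜) • ((starRingEnd 𝕜) γ • ω1) ≠ 0) ∧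
        ∃ ω ∈ Ω, c * ‖((1 - t : ℝ) : 𝕜) • ω0 + (t : 𝕜) • ((starRingEnd 𝕜) γ • ω1)‖ ≤
          ‖⟪ω, ((1 - t : ℝ) : 𝕜) • ω0 + (t : 𝕜) • ((starRingEnd 𝕜) γ • ω1)⟫_𝕜‖ := by
      intro t ht
      set x := ((1 - t : ℝ) : 𝕜) • ω0 + (t : 𝕜) • ((starRingEnd 𝕜) γ • ω1) with hx
      set y := ((1 - t : ℝ) : 𝕜) • ω1 + (t : 𝕜) • ((starRingEnd 𝕜) γ • ω2) with hy
      have hTy : T.adjoint y = x := by
        rw [hy, map_add, map_smul, map_smul, map_smul, h10, h21]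
      have h1 := path_norm (𝕜 := 𝕜) hω1 hω2 hω0 hω1 (t := t)
      rw [← hγdef, ← hx, ← hy] at h1
      have h2 : 0 < 2 * ((1 - t) * t * ‖γ‖ ^ 2) := by
        have := ht.1; have h3 : 0 < 1 - t := by linarith [ht.2]
        positivity
      have h3 : ‖y‖ < ‖x‖ := by
        have h4 : ‖y‖ ^ 2 < ‖x‖ ^ 2 := by linarith
        exact lt_of_pow_lt_pow_left₀ 2 (norm_nonneg _) h4
      have h4 := key x y hTy h3
      obtain ⟨ω, hω, h5⟩ := exists_cap_of_lt (𝕜 := 𝕜) hc h4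
      refine ⟨?_, ω, hω, ?_⟩
      · intro h0
        rw [h0, norm_zero] at h3
        exact absurd h3 (not_lt.2 (norm_nonneg _))
      · rw [← h5]
        exact mul_le_mul_of_nonneg_left h4.le hc.le
    obtain ⟨ω, hω, h1, h2⟩ := h.path hv00 hv10 hseg
    rw [hω0, mul_one] at h1
    rw [norm_smul, hω1, mul_one, inner_smul_right, norm_mul] at h2
    have h2' : c ≤ ‖⟪ω, ω1⟫_𝕜‖ := by
      have h3 : ‖(starRingEnd 𝕜) γ‖ * c ≤ ‖(starRingEnd 𝕜) γ‖ * ‖⟪ω, ω1⟫_𝕜‖ := by linarith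
      exact le_of_mul_le_mul_left h3 hγc
    have e0 : ω = ω0' := by
      refine h.disj_unit hω hω0' hω0 h1 ?_
      rw [hμω0, inner_smul_right, norm_mul, hμ0, one_mul, inner_self_eq_norm_sq_to_K,
        h.unit _ hω0']
      simpa using h.c_le_one
    have e1 : ω = ω1' := by
      refine h.disj_unit hω hω1' hω1 h2' ?_
      rw [hμω1, inner_smul_right, norm_mul, hμ1, one_mul, inner_self_eq_norm_sq_to_K,
        h.unit _ hω1']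
      simpa using h.c_le_one
    have e2 : μ1 • ω0 + (-μ0) • ω1 = 0 := by
      rw [hμω0, hμω1, ← e0, ← e1, smul_smul, smul_smul, neg_mul, neg_smul, mul_comm μ1 μ0,
        add_neg_cancel]
    have := (hind _ _ e2).1
    rw [this, norm_zero] at hμ1
    exact absurd hμ1 (by norm_num)
  have m0 : ω0 ∈ Submodule.span 𝕜 {ω0, ω1} := Submodule.subset_span (by simp)
  have m1 : ω1 ∈ Submodule.span 𝕜 {ω0, ω1} := Submodule.subset_span (by simp)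
  refine h.fix_of_good hind m0 m1 ((T.adjoint ∘L T : E →L[𝕜] E) : E →ₗ[𝕜] E) ?_
  intro x hx hgood
  change T.adjoint (T x) = x
  obtain ⟨p, q, hpq⟩ := Submodule.mem_span_pair.1 hx
  set y := p • ω1 + q • ω2 with hy
  have hTy : T.adjoint y = x := by
    rw [hy, map_add, map_smul, map_smul, h10, h21, hpq]
  have hxy : ‖y‖ = ‖x‖ := by
    have h1 : ‖y‖ ^ 2 = ‖x‖ ^ 2 := by
      rw [hy, ← hpq, norm_comb_sq hω1 hω2, norm_comb_sq hω0 hω1, sub_eq_zero.1 hγ]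
    exact (pow_left_inj₀ (norm_nonneg _) (norm_nonneg _) two_ne_zero).1 h1
  have hTx : T x = y := by
    have h2 : ⟪y, T x⟫_𝕜 = (‖x‖ : 𝕜) ^ 2 := by
      rw [← ContinuousLinearMap.adjoint_inner_left, hTy, inner_self_eq_norm_sq_to_K]
    have h3 : ‖T x‖ ≤ ‖x‖ := by
      calc ‖T x‖ ≤ M 𝕜 Ω c (T x) := norm_le_M _
        _ ≤ M 𝕜 Ω c x := hT x
        _ = ‖x‖ := hgood.M_eq hc
    have h4 := norm_sub_sq (𝕜 := 𝕜) y (T x)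
    rw [h2, hxy] at h4
    have h5 : RCLike.re ((‖x‖ : 𝕜) ^ 2) = ‖x‖ ^ 2 := by
      have : ((‖x‖ : 𝕜) ^ 2) = ((‖x‖ ^ 2 : ℝ) : 𝕜) := by push_cast; rfl
      rw [this, RCLike.ofReal_re]
    rw [h5] at h4
    have h6 : ‖y - T x‖ ^ 2 ≤ 0 := by nlinarith [norm_nonneg (T x), norm_nonneg x]
    have h7 : ‖y - T x‖ = 0 := by nlinarith [norm_nonneg (y - T x)]
    exact (sub_eq_zero.1 (norm_eq_zero.1 h7)).symm
  rw [hTx, hTy]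

end Pool.Agent.Helper324.CE
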