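import Pool.Agent.Helper324.CEDet4

/-!
# Norms with bounded critical exponent: deterministic part, 5

The key lemma on isometric planes, and the assembly of the deterministic part.
-/

open scoped InnerProductSpace NNReal
open Filter Topology

namespace Pool.Agent.Helper324.CE

variable {𝕜 : Type*} [RCLike 𝕜] {E : Type*} [NormedAddCommGroup E] [InnerProductSpace 𝕜 E]

variable {Ω : Finset E} {c s : ℝ}

/-- The trichotomy for a monochromatic chain of length four. -/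
theorem Adm.trichotomy [CompleteSpace E] (h : Adm 𝕜 Ω c s) {T : E →L[𝕜] E}
    (hT : ∀ x, M 𝕜 Ω c (T x) ≤ M 𝕜 Ω c x) {v0 v1 v2 v3 : E}
    (h01 : T v0 = v1) (h12 : T v1 = v2) (h23 : T v2 = v3)
    (hM0 : M 𝕜 Ω c v0 = 1) (hM1 : M 𝕜 Ω c v1 = 1) (hM2 : M 𝕜 Ω c v2 = 1)
    (hv : (‖v0‖ = 1 ∧ ‖v1‖ = 1 ∧ ‖v2‖ = 1 ∧ ‖v3‖ = 1) ∨ (‖v0‖ < 1 ∧ ‖v1‖ < 1 ∧ ‖v2‖ < 1)) :
    (∃ v : E, ‖v‖ = 1 ∧ ∃ μ : 𝕜, ‖μ‖ = 1 ∧ T v = μ • v) ∨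
    (∃ v : E, ‖v‖ = 1 ∧ ∃ μ : 𝕜, ‖μ‖ = 1 ∧ T.adjoint v = μ • v) ∨
    (∃ a b : E, Indep 𝕜 a b ∧ ∀ x ∈ Submodule.span 𝕜 {a, b}, T.adjoint (T x) = x) := by
  rcases hv with ⟨hv0, hv1, hv2, hv3⟩ | ⟨hv0, hv1, hv2⟩
  · rcases par_or_indep (𝕜 := 𝕜) hv0 hv1 with ⟨μ, hμ, h1⟩ | h1
    · exact Or.inl ⟨v0, hv0, μ, hμ, by rw [h01, h1]⟩
    rcases par_or_indep (𝕜 := 𝕜) hv1 hv2 with ⟨μ, hμ, h2⟩ | h2
    · exact Or.inl ⟨v1, hv1, μ, hμ, by rw [h12, h2]⟩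
    by_cases hγ0 : ⟪v1, v2⟫_𝕜 - ⟪v0, v1⟫_𝕜 = 0
    · exact Or.inr (Or.inr ⟨v0, v1, h1, h.unit_isom hT h01 h12 hv0 hv1 hv2 hγ0 h1⟩)
    by_cases hγ1 : ⟪v2, v3⟫_𝕜 - ⟪v1, v2⟫_𝕜 = 0
    · exact Or.inr (Or.inr ⟨v1, v2, h2, h.unit_isom hT h12 h23 hv1 hv2 hv3 hγ1 h2⟩)
    obtain ⟨ω, hω, e0, e1⟩ := h.unit_path hT h01 h12 hv0 hv1 hv2 hM0 hM1 hγ0
    obtain ⟨ω', hω', e1', e2⟩ := h.unit_path hT h12 h23 hv1 hv2 hv3 hM1 hM2 hγ1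
    have he : ω' = ω := h.disj_unit hω' hω hv1 e1'.ge e1.ge
    rw [he] at e2
    obtain ⟨μ, hμ, h3⟩ := h.unit_rim hT h01 h12 hv0 hv1 hM0 hM1 h1 hω e0 e1 e2
    exact Or.inr (Or.inl ⟨ω, h.unit ω hω, μ, hμ, h3⟩)
  · obtain ⟨ω0, n0, i0, m0, a0⟩ := h.exists_facet hv0 hM0
    obtain ⟨ω1, n1, i1, m1, a1⟩ := h.exists_facet hv1 hM1
    obtain ⟨ω2, n2, i2, m2, a2⟩ := h.exists_facet hv2 hM2
    have e1 := h.facet_adjoint hT h01 hv0 n0 i0 a0 m1 i1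
    have e2 := h.facet_adjoint hT h12 hv1 n1 i1 a1 m2 i2
    rcases par_or_indep (𝕜 := 𝕜) n1 n0 with ⟨μ, hμ, h1⟩ | h1
    · exact Or.inr (Or.inl ⟨ω1, n1, μ, hμ, by rw [e1, h1]⟩)
    · have h1' : Indep 𝕜 ω0 ω1 := fun p q hpq => by
        have := h1 q p (by rw [add_comm]; exact hpq)
        exact ⟨this.2, this.1⟩
      exact Or.inr (Or.inr ⟨ω0, ω1, h1', h.facet_chain hT e1 e2 n0 n1 n2 m0 m1 h1'⟩)

/-! ### Orthonormal pairs -/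

/-- the projection onto the span of an orthonormal pair -/
noncomputable def pr (a : Fin 2 → E) (v : E) : E := ∑ i, ⟪a i, v⟫_𝕜 • a i

/-- `∑ ‖⟪a i, v⟫‖²` -/
noncomputable def en (𝕜 : Type*) [RCLike 𝕜] {E : Type*} [NormedAddCommGroup E]
    [InnerProductSpace 𝕜 E] (a : Fin 2 → E) (v : E) : ℝ := ∑ i, ‖⟪a i, v⟫_𝕜‖ ^ 2

theorem comb_norm_sq {a : Fin 2 → E} (ha : Orthonormal 𝕜 a) (z : Fin 2 → 𝕜) :
    ‖∑ i, z i • a i‖ ^ 2 = ∑ i, ‖z i‖ ^ 2 := by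
  rw [Fin.sum_univ_two, Fin.sum_univ_two, norm_comb_sq (ha.1 0) (ha.1 1),
    ha.2 (show (0 : Fin 2) ≠ 1 by decide)]
  simp

theorem inner_comb {a : Fin 2 → E} (ha : Orthonormal 𝕜 a) (z : Fin 2 → 𝕜) (j : Fin 2) :
    ⟪a j, ∑ i, z i • a i⟫_𝕜 = z j := by
  exact ha.inner_right_fintype z j

theorem pyth {a : Fin 2 → E} (z : Fin 2 → 𝕜) {w : E} (hw : ∀ i, ⟪a i, w⟫_𝕜 = 0) :
    ‖(∑ i, z i • a i) + w‖ ^ 2 = ‖∑ i, z i • a i‖ ^ 2 + ‖w‖ ^ 2 := by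
  have h0 : ⟪∑ i, z i • a i, w⟫_𝕜 = 0 := by
    rw [sum_inner]
    refine Finset.sum_eq_zero fun i _ => ?_
    rw [inner_smul_left, hw i, mul_zero]
  have := norm_add_sq_eq_norm_sq_add_norm_sq_of_inner_eq_zero _ w h0
  simpa [sq] using this

theorem inner_sub_comb {a : Fin 2 → E} (ha : Orthonormal 𝕜 a) (v : E) (j : Fin 2) :
    ⟪a j, v - ∑ i, ⟪a i, v⟫_𝕜 • a i⟫_𝕜 = 0 := by
  rw [inner_sub_right, inner_comb ha, sub_self]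

theorem norm_sub_comb_sq {a : Fin 2 → E} (ha : Orthonormal 𝕜 a) (v : E) :
    ‖v - ∑ i, ⟪a i, v⟫_𝕜 • a i‖ ^ 2 = ‖v‖ ^ 2 - en 𝕜 a v := by
  have h := pyth (a := a) (fun i => ⟪a i, v⟫_𝕜) (inner_sub_comb ha v)
  rw [add_sub_cancel, comb_norm_sq ha] at h
  unfold en
  linarith

/-- The property of `Ω` excluding isometric planes. -/
def GP (𝕜 : Type*) [RCLike 𝕜] {E : Type*} [NormedAddCommGroup E] [InnerProductSpace 𝕜 E]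
    (Ω : Finset E) (s : ℝ) : Prop :=
  ∀ a a' : Fin 2 → E, Orthonormal 𝕜 a → Orthonormal 𝕜 a' →
    (∃ i, a' i ∉ Submodule.span 𝕜 (Set.range a)) →
    ∃ ω ∈ Ω, 1 - s ^ 2 / 4 ≤ en 𝕜 a' ω ∧ en 𝕜 a ω ≤ en 𝕜 a' ω ∧
      ∀ ω' ∈ Ω, ∀ μ : 𝕜, ‖μ‖ = 1 → ‖μ • ω' - ∑ i, ⟪a' i, ω⟫_𝕜 • a i‖ ≤ 3 / 4 * s → ω' = ω

/-- real arithmetic used in the key lemma -/
theorem key_arith {c s S t α p D : ℝ} (_hc : 0 < c) (hs : 0 < s) (hcs : c ^ 2 + s ^ 2 = 1)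
    (_hS0 : 0 ≤ S) (hS : S ^ 2 ≤ s ^ 2 / 4) (_ht0 : 0 ≤ t) (htS : t ≤ S) (_hp : 0 ≤ p) (_hD : 0 ≤ D)
    (h1 : 1 - S ^ 2 + t ^ 2 ≤ α) (hα : α ≤ 1) (hrim : c * α + s * p ≤ c)
    (h2 : 1 - S ^ 2 + t ^ 2 = α ^ 2 + p ^ 2) (h3 : D ^ 2 = (1 - α) ^ 2 + p ^ 2) :
    D ≤ s / 4 ∧ D ≤ 4 / 7 * (S - t) := by
  set β := 1 - α with hβ
  have hβ0 : 0 ≤ β := by rw [hβ]; linarith
  have hβ1 : β ≤ S ^ 2 - t ^ 2 := by rw [hβ]; linarith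
  have hsp : s * p ≤ c * β := by rw [hβ]; linarith
  have hsp2 : s ^ 2 * p ^ 2 ≤ c ^ 2 * β ^ 2 := by
    rw [← mul_pow, ← mul_pow]
    gcongr
  have hs2 : 0 < s ^ 2 := by positivity
  have hD2 : s ^ 2 * D ^ 2 ≤ β ^ 2 := by
    rw [h3]
    nlinarith
  have hsD : s * D ≤ β := by
    have : (s * D) ^ 2 ≤ β ^ 2 := by rw [mul_pow]; exact hD2
    exact (abs_le_of_sq_le_sq' this hβ0).2
  have hβs : β ≤ s ^ 2 / 4 := by nlinarith [sq_nonneg t]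
  refine ⟨?_, ?_⟩
  · have : s * D ≤ s * (s / 4) := by nlinarith
    exact le_of_mul_le_mul_left this hs
  · -- S² - t² = 2β - β² - p²  ≥ (7/4) β
    have e1 : S ^ 2 - t ^ 2 = 2 * β - β ^ 2 - p ^ 2 := by
      have : α = 1 - β := by rw [hβ]; ring
      rw [this] at h2
      linarith
    have e2 : s ^ 2 * (β ^ 2 + p ^ 2) ≤ β ^ 2 := by nlinarith
    have e3 : s ^ 2 * (β ^ 2 + p ^ 2) ≤ s ^ 2 * (β / 4) := by
      have : β ^ 2 ≤ β * (s ^ 2 / 4) := by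
        rw [sq]; gcongr
      nlinarith
    have e4 : β ^ 2 + p ^ 2 ≤ β / 4 := le_of_mul_le_mul_left e3 hs2
    have e5 : 7 / 4 * β ≤ S ^ 2 - t ^ 2 := by rw [e1]; linarith
    have e6 : S ≤ s / 2 := by
      have : S ^ 2 ≤ (s / 2) ^ 2 := by nlinarith
      exact (abs_le_of_sq_le_sq' this (by positivity)).2
    have e7 : S ^ 2 - t ^ 2 ≤ s * (S - t) := by
      have : S ^ 2 - t ^ 2 = (S + t) * (S - t) := by ring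
      rw [this]
      have h4 : 0 ≤ S - t := by linarith
      gcongr
      linarith
    have e8 : s * D ≤ s * (4 / 7 * (S - t)) := by nlinarith
    exact le_of_mul_le_mul_left e8 hs

/-- The key lemma. -/
theorem Adm.key [CompleteSpace E] (h : Adm 𝕜 Ω c s) {T : E →L[𝕜] E}
    (hT : ∀ x, M 𝕜 Ω c (T x) ≤ M 𝕜 Ω c x) {a a' : Fin 2 → E} (ha : Orthonormal 𝕜 a)
    (ha' : Orthonormal 𝕜 a') (hTa : ∀ i, T (a i) = a' i) (hTa' : ∀ i, T.adjoint (a' i) = a i)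
    {ω : E} (hω : ω ∈ Ω) (h1 : 1 - s ^ 2 / 4 ≤ en 𝕜 a' ω) (h2 : en 𝕜 a ω ≤ en 𝕜 a' ω)
    (h3 : ∀ ω' ∈ Ω, ∀ μ : 𝕜, ‖μ‖ = 1 → ‖μ • ω' - ∑ i, ⟪a' i, ω⟫_𝕜 • a i‖ ≤ 3 / 4 * s → ω' = ω) :
    ∃ μ : 𝕜, ‖μ‖ = 1 ∧ T.adjoint ω = μ • ω := by
  have hc := h.hc
  have hs := h.hs
  have hcs := h.hcs
  have hcK : (c : 𝕜) ≠ 0 := by exact_mod_cast hc.ne'
  set z : Fin 2 → 𝕜 := fun i => ⟪a' i, ω⟫_𝕜 with hz
  set x : E := ∑ i, z i • a i with hx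
  set y : E := ∑ i, z i • a' i with hy
  set e : E := ω - y with he
  have hea' : ∀ i, ⟪a' i, e⟫_𝕜 = 0 := fun i => inner_sub_comb ha' ω i
  set f : E := T.adjoint e with hf
  have hfa : ∀ i, ⟪a i, f⟫_𝕜 = 0 := by
    intro i
    rw [hf, ContinuousLinearMap.adjoint_inner_right, hTa, hea']
  have hTy : T.adjoint y = x := by
    rw [hy, hx, map_sum]
    exact Finset.sum_congr rfl fun i _ => by rw [map_smul, hTa']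
  have hh : T.adjoint ω = x + f := by
    rw [hf, he, map_sub, hTy]; abel
  set H := T.adjoint ω with hH
  -- norms
  have hωn : ‖ω‖ = 1 := h.unit ω hω
  have hen : en 𝕜 a' ω = ∑ i, ‖z i‖ ^ 2 := rfl
  set P := en 𝕜 a' ω with hP
  have hxn : ‖x‖ ^ 2 = P := by rw [hx, comb_norm_sq ha, ← hen]
  have hen2 : ‖e‖ ^ 2 = 1 - P := by
    rw [he, hy, hz, norm_sub_comb_sq ha', hωn, one_pow]
  have hHn : ‖H‖ ^ 2 = P + ‖f‖ ^ 2 := by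
    rw [hh, hx, pyth (a := a) z hfa, ← hx, hxn]
  -- the functional `g`
  set g : E := ((c⁻¹ : ℝ) : 𝕜) • H with hg
  have hgin : ∀ y, ⟪g, y⟫_𝕜 = ((c⁻¹ : ℝ) : 𝕜) * ⟪ω, T y⟫_𝕜 := by
    intro y
    rw [hg, inner_smul_left, RCLike.conj_ofReal, hH, ContinuousLinearMap.adjoint_inner_left]
  have hgM : ∀ y, ‖⟪g, y⟫_𝕜‖ ≤ M 𝕜 Ω c y := by
    intro y
    rw [hgin, norm_mul, RCLike.norm_ofReal, abs_of_pos (inv_pos.2 hc), inv_mul_eq_div,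
      div_le_iff₀ hc, mul_comm]
    exact (inner_le_M hc hω _).trans (mul_le_mul_of_nonneg_left (hT y) hc.le)
  have hgn : ‖g‖ = ‖H‖ / c := by
    rw [hg, norm_smul, RCLike.norm_ofReal, abs_of_pos (inv_pos.2 hc), inv_mul_eq_div]
  have hgg : ‖g‖ ^ 2 ≤ M 𝕜 Ω c g := by
    have := hgM g
    rwa [inner_self_eq_norm_sq_to_K, norm_pow, RCLike.norm_ofReal, abs_norm] at this
  have hH1 : ‖H‖ ≤ 1 := by
    have h4 := M_le_of_norm (𝕜 := 𝕜) hc h.c_le_one h.unit g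
    have h5 : c * ‖g‖ ^ 2 ≤ ‖g‖ := (mul_le_mul_of_nonneg_left hgg hc.le).trans h4
    have h6 : c * ‖g‖ = ‖H‖ := by rw [hgn]; field_simp
    by_contra hcon
    push Not at hcon
    have h7 : 0 < ‖g‖ := by rw [hgn]; positivity
    nlinarith
  have hH2 : ‖H‖ ^ 2 ≤ 1 := by nlinarith [norm_nonneg H]
  have hfe : ‖f‖ ≤ ‖e‖ := by
    have : ‖f‖ ^ 2 ≤ ‖e‖ ^ 2 := by linarith
    exact (abs_le_of_sq_le_sq' this (norm_nonneg e)).2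
  have hHc : c ^ 2 < ‖H‖ ^ 2 := by nlinarith [sq_nonneg ‖f‖]
  have hHc' : c < ‖H‖ := lt_of_pow_lt_pow_left₀ 2 (norm_nonneg _) hHc
  have hg1 : 1 < ‖g‖ := by rw [hgn, lt_div_iff₀ hc]; linarith
  have hgM' : ‖g‖ < M 𝕜 Ω c g := by nlinarith
  obtain ⟨ω', hω', h4⟩ := exists_cap_of_lt (𝕜 := 𝕜) hc hgM'
  have hω'n : ‖ω'‖ = 1 := h.unit ω' hω'
  have hω'g : ⟪ω', g⟫_𝕜 = ((c⁻¹ : ℝ) : 𝕜) * ⟪ω', H⟫_𝕜 := by rw [hg, inner_smul_right]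
  set α := ‖⟪ω', H⟫_𝕜‖ with hα
  have hω'gn : ‖⟪ω', g⟫_𝕜‖ = α / c := by
    rw [hω'g, norm_mul, RCLike.norm_ofReal, abs_of_pos (inv_pos.2 hc), inv_mul_eq_div]
  have hαH : ‖H‖ ^ 2 ≤ α := by
    have h5 : c * ‖g‖ ^ 2 ≤ α / c := by
      rw [← hω'gn, ← h4]; exact mul_le_mul_of_nonneg_left hgg hc.le
    rw [hgn, div_pow, le_div_iff₀ hc] at h5
    have h6 : c * (‖H‖ ^ 2 / c ^ 2) * c = ‖H‖ ^ 2 := by field_simp
    linarith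
  have hα1 : α ≤ 1 := by
    have := norm_inner_le_norm (𝕜 := 𝕜) ω' H
    rw [hω'n, one_mul] at this
    linarith
  set w : E := H - ⟪ω', H⟫_𝕜 • ω' with hw
  have hrim : c * α + s * ‖w‖ ≤ c := by
    have h5 := h.rim hω' hgM
    rw [hω'gn] at h5
    have h6 : g - ⟪ω', g⟫_𝕜 • ω' = ((c⁻¹ : ℝ) : 𝕜) • w := by
      rw [hω'g, hg, hw, smul_sub, smul_smul]
    rw [h6, norm_smul, RCLike.norm_ofReal, abs_of_pos (inv_pos.2 hc)] at h5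
    have h7 : c * (c * (α / c) + s * (c⁻¹ * ‖w‖)) = c * α + s * ‖w‖ := by field_simp
    have h8 := mul_le_mul_of_nonneg_left h5 hc.le
    rw [h7] at h8
    linarith
  obtain ⟨μ, hμ, hμ'⟩ := exists_phase (⟪ω', H⟫_𝕜)
  have hω'ω' : ⟪ω', ω'⟫_𝕜 = 1 := by
    rw [inner_self_eq_norm_sq_to_K, hω'n]; simp
  have hω'w : ⟪ω', w⟫_𝕜 = 0 := by
    rw [hw, inner_sub_right, inner_smul_right, hω'ω']; ring
  have hHdec : ‖H‖ ^ 2 = α ^ 2 + ‖w‖ ^ 2 := by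
    have h5 : H = ⟪ω', H⟫_𝕜 • ω' + w := by rw [hw]; abel
    have h0 : ⟪⟪ω', H⟫_𝕜 • ω', w⟫_𝕜 = 0 := by rw [inner_smul_left, hω'w, mul_zero]
    have h6 := norm_add_sq_eq_norm_sq_add_norm_sq_of_inner_eq_zero _ _ h0
    rw [← h5, norm_smul, hω'n, mul_one] at h6
    simpa [sq] using h6
  set d : E := H - μ • ω' with hd
  have hddec : ‖d‖ ^ 2 = (1 - α) ^ 2 + ‖w‖ ^ 2 := by
    have h5 : d = (((α - 1 : ℝ) : 𝕜) * μ) • ω' + w := by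
      have : ⟪ω', H⟫_𝕜 • ω' - μ • ω' = (((α - 1 : ℝ) : 𝕜) * μ) • ω' := by
        rw [← sub_smul]
        congr 1
        conv_lhs => rw [hμ']
        push_cast
        ring
      rw [hd, hw, ← this]; abel
    have h0 : ⟪(((α - 1 : ℝ) : 𝕜) * μ) • ω', w⟫_𝕜 = 0 := by rw [inner_smul_left, hω'w, mul_zero]
    have h6 := norm_add_sq_eq_norm_sq_add_norm_sq_of_inner_eq_zero _ _ h0
    rw [← h5, norm_smul, hω'n, mul_one, norm_mul, hμ, mul_one, RCLike.norm_ofReal] at h6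
    have h7 : |α - 1| * |α - 1| = (1 - α) ^ 2 := by rw [abs_mul_abs_self]; ring
    rw [h7] at h6
    simpa [sq] using h6
  have hSeq : 1 - ‖e‖ ^ 2 + ‖f‖ ^ 2 = ‖H‖ ^ 2 := by rw [hHn, hen2]; ring
  obtain ⟨hd1, hd2⟩ := key_arith hc hs hcs (norm_nonneg e) (by rw [hen2]; linarith)
    (norm_nonneg f) hfe (norm_nonneg w) (norm_nonneg d) (hSeq.trans_le hαH) hα1 hrim
    (hSeq.trans hHdec) hddec
  -- `ω' = ω`
  have heq : ω' = ω := by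
    refine h3 ω' hω' μ hμ ?_
    have h5 : μ • ω' - x = f - d := by rw [hd, hh]; abel
    have hes : ‖e‖ ≤ s / 2 := by
      have : ‖e‖ ^ 2 ≤ (s / 2) ^ 2 := by rw [hen2]; nlinarith
      exact (abs_le_of_sq_le_sq' this (by positivity)).2
    change ‖μ • ω' - x‖ ≤ 3 / 4 * s
    rw [h5]
    calc ‖f - d‖ ≤ ‖f‖ + ‖d‖ := norm_sub_le _ _
      _ ≤ s / 2 + s / 4 := by linarith
      _ = 3 / 4 * s := by ring
  -- the component orthogonal to `P`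
  have hlow : ‖e‖ - ‖f‖ ≤ ‖d‖ := by
    set q : E := ω - ∑ i, ⟪a i, ω⟫_𝕜 • a i with hq
    have hqa : ∀ i, ⟪a i, q⟫_𝕜 = 0 := fun i => inner_sub_comb ha ω i
    have hqn : ‖q‖ ^ 2 = 1 - en 𝕜 a ω := by
      rw [hq, norm_sub_comb_sq ha, hωn, one_pow]
    have hqe : ‖e‖ ≤ ‖q‖ := by
      have : ‖e‖ ^ 2 ≤ ‖q‖ ^ 2 := by rw [hqn, hen2]; linarith
      exact (abs_le_of_sq_le_sq' this (norm_nonneg q)).2
    have hdd : d = (∑ i, (z i - μ * ⟪a i, ω⟫_𝕜) • a i) + (f - μ • q) := by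
      rw [hd, heq, hh, hq, hx, smul_sub, Finset.smul_sum]
      simp only [sub_smul, Finset.sum_sub_distrib, smul_smul]
      abel
    have horth : ∀ i, ⟪a i, f - μ • q⟫_𝕜 = 0 := by
      intro i
      rw [inner_sub_right, inner_smul_right, hfa, hqa]; ring
    have h6 := pyth (a := a) (fun i => z i - μ * ⟪a i, ω⟫_𝕜) horth
    have h7 : ‖f - μ • q‖ ≤ ‖d‖ := by
      have : ‖f - μ • q‖ ^ 2 ≤ ‖d‖ ^ 2 := by
        rw [hdd, h6]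
        nlinarith [sq_nonneg ‖∑ i, (z i - μ * ⟪a i, ω⟫_𝕜) • a i‖]
      exact (abs_le_of_sq_le_sq' this (norm_nonneg d)).2
    have h8 : ‖μ • q‖ - ‖f‖ ≤ ‖f - μ • q‖ := by
      rw [norm_sub_rev]; exact norm_sub_norm_le _ _
    rw [norm_smul, hμ, one_mul] at h8
    linarith
  have hd0 : ‖d‖ = 0 := by
    have := norm_nonneg d
    linarith
  refine ⟨μ, hμ, ?_⟩
  have := norm_eq_zero.1 hd0
  rw [hd, heq] at this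
  exact sub_eq_zero.1 this

end Pool.Agent.Helper324.CE
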