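import Pool.Agent.Helper324.CEDet5

/-!
# Norms with bounded critical exponent: deterministic part, 6

Assembly of the deterministic part.
-/

open scoped InnerProductSpace NNReal
open Filter Topology

namespace Pool.Agent.Helper324.CE

variable {𝕜 : Type*} [RCLike 𝕜] {E : Type*} [NormedAddCommGroup E] [InnerProductSpace 𝕜 E]

variable {Ω : Finset E} {c s : ℝ}

theorem exists_orthonormal_pair {a b : E} (hab : Indep 𝕜 a b) :
    ∃ u : Fin 2 → E, Orthonormal 𝕜 u ∧ ∀ i, u i ∈ Submodule.span 𝕜 {a, b} := by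
  have ha0 : a ≠ 0 := hab.ne_zero_left
  have ha : 0 < ‖a‖ := norm_pos_iff.2 ha0
  have ma : a ∈ Submodule.span 𝕜 {a, b} := Submodule.subset_span (by simp)
  have mb : b ∈ Submodule.span 𝕜 {a, b} := Submodule.subset_span (by simp)
  set e : E := ((‖a‖⁻¹ : ℝ) : 𝕜) • a with he
  have hen : ‖e‖ = 1 := by
    rw [he, norm_smul, RCLike.norm_ofReal, abs_of_pos (inv_pos.2 ha), inv_mul_cancel₀ ha.ne']
  have hee : ⟪e, e⟫_𝕜 = 1 := by
    rw [inner_self_eq_norm_sq_to_K, hen]; simp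
  set f : E := b - ⟪e, b⟫_𝕜 • e with hf
  have hf0 : f ≠ 0 := by
    intro h0
    have h1 : (-(⟪e, b⟫_𝕜 * ((‖a‖⁻¹ : ℝ) : 𝕜))) • a + (1 : 𝕜) • b = 0 := by
      rw [hf, he, smul_smul] at h0
      rw [neg_smul, one_smul, neg_add_eq_sub]
      exact h0
    exact one_ne_zero (hab _ _ h1).2
  have hfp : 0 < ‖f‖ := norm_pos_iff.2 hf0
  have hef : ⟪e, f⟫_𝕜 = 0 := by
    rw [hf, inner_sub_right, inner_smul_right, hee]; ring
  set g : E := ((‖f‖⁻¹ : ℝ) : 𝕜) • f with hg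
  have hgn : ‖g‖ = 1 := by
    rw [hg, norm_smul, RCLike.norm_ofReal, abs_of_pos (inv_pos.2 hfp), inv_mul_cancel₀ hfp.ne']
  have heg : ⟪e, g⟫_𝕜 = 0 := by rw [hg, inner_smul_right, hef, mul_zero]
  have hge : ⟪g, e⟫_𝕜 = 0 := by rw [← inner_conj_symm, heg]; simp
  refine ⟨![e, g], ⟨?_, ?_⟩, ?_⟩
  · intro i
    fin_cases i
    · simpa using hen
    · simpa using hgn
  · intro i j hij
    fin_cases i <;> fin_cases j
    · exact absurd rfl hij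
    · simpa using heg
    · simpa using hge
    · exact absurd rfl hij
  · have hem : e ∈ Submodule.span 𝕜 {a, b} := Submodule.smul_mem _ _ ma
    intro i
    fin_cases i
    · exact hem
    · exact Submodule.smul_mem _ _ (Submodule.sub_mem _ mb (Submodule.smul_mem _ _ hem))

theorem one_le_pow_of_eigen {T : E →L[𝕜] E} {v : E} (hv : ‖v‖ = 1) {μ : 𝕜} (hμ : ‖μ‖ = 1)
    (h : T v = μ • v) (k : ℕ) : 1 ≤ ‖T ^ k‖ := by
  have h1 : (T ^ k) v = μ ^ k • v := by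
    induction k with
    | zero => simp
    | succ k ih =>
      rw [pow_succ, ContinuousLinearMap.mul_apply, h, map_smul, ih, smul_smul, pow_succ, mul_comm]
  have h2 := (T ^ k).le_opNorm v
  rw [h1, norm_smul, norm_pow, hμ, one_pow, hv, mul_one] at h2
  linarith

theorem one_le_pow_of_adjoint_eigen [CompleteSpace E] {T : E →L[𝕜] E} {v : E} (hv : ‖v‖ = 1)
    {μ : 𝕜} (hμ : ‖μ‖ = 1) (h : T.adjoint v = μ • v) (k : ℕ) : 1 ≤ ‖T ^ k‖ := by
  have h1 := one_le_pow_of_eigen hv hμ h k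
  have h2 : (T.adjoint) ^ k = (T ^ k).adjoint := by
    rw [← ContinuousLinearMap.star_eq_adjoint, ← ContinuousLinearMap.star_eq_adjoint, star_pow]
  rw [h2, LinearIsometryEquiv.norm_map] at h1
  exact h1

theorem one_le_pow_of_invariant {T : E →L[𝕜] E} {P : Submodule 𝕜 E} (hP : ∀ x ∈ P, T x ∈ P)
    (hiso : ∀ x ∈ P, ‖T x‖ = ‖x‖) {v : E} (hv : ‖v‖ = 1) (hvP : v ∈ P) (k : ℕ) :
    1 ≤ ‖T ^ k‖ := by
  have h1 : (T ^ k) v ∈ P ∧ ‖(T ^ k) v‖ = 1 := by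
    induction k with
    | zero => exact ⟨by simpa using hvP, by simpa using hv⟩
    | succ k ih =>
      rw [pow_succ', ContinuousLinearMap.mul_apply]
      exact ⟨hP _ ih.1, by rw [hiso _ ih.1, ih.2]⟩
  have h2 := (T ^ k).le_opNorm v
  rw [h1.2, hv, mul_one] at h2
  exact h2

theorem Adm.plane [CompleteSpace E] (h : Adm 𝕜 Ω c s) (hG : GP 𝕜 Ω s) {T : E →L[𝕜] E}
    (hT : ∀ x, M 𝕜 Ω c (T x) ≤ M 𝕜 Ω c x) {a b : E} (hab : Indep 𝕜 a b)
    (hTT : ∀ x ∈ Submodule.span 𝕜 {a, b}, T.adjoint (T x) = x) (k : ℕ) : 1 ≤ ‖T ^ k‖ := by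
  obtain ⟨u, hu, hum⟩ := exists_orthonormal_pair hab
  set u' : Fin 2 → E := fun i => T (u i) with hu'def
  have hin : ∀ i j, ⟪u' i, u' j⟫_𝕜 = ⟪u i, u j⟫_𝕜 := by
    intro i j
    rw [hu'def]
    change ⟪T (u i), T (u j)⟫_𝕜 = _
    rw [← ContinuousLinearMap.adjoint_inner_left, hTT _ (hum i)]
  have hu' : Orthonormal 𝕜 u' := by
    rw [orthonormal_iff_ite] at hu ⊢
    intro i j
    rw [hin, hu]
  by_cases hinv : ∃ i, u' i ∉ Submodule.span 𝕜 (Set.range u)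
  · obtain ⟨ω, hω, h1, h2, h3⟩ := hG u u' hu hu' hinv
    obtain ⟨μ, hμ, h4⟩ := h.key hT hu hu' (fun i => rfl) (fun i => hTT _ (hum i)) hω h1 h2 h3
    exact one_le_pow_of_adjoint_eigen (h.unit ω hω) hμ h4 k
  · push Not at hinv
    have hsub : Submodule.span 𝕜 (Set.range u) ≤ Submodule.span 𝕜 {a, b} := by
      rw [Submodule.span_le]
      rintro _ ⟨i, rfl⟩
      exact hum i
    refine one_le_pow_of_invariant (P := Submodule.span 𝕜 (Set.range u)) ?_ ?_ (hu.1 0)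
      (Submodule.subset_span ⟨0, rfl⟩) k
    · intro x hx
      induction hx using Submodule.span_induction with
      | mem x hx => obtain ⟨i, rfl⟩ := hx; exact hinv i
      | zero => rw [map_zero]; exact Submodule.zero_mem _
      | add x y _ _ hx hy => rw [map_add]; exact Submodule.add_mem _ hx hy
      | smul r x _ hx => rw [map_smul]; exact Submodule.smul_mem _ _ hx
    · intro x hx
      have h1 : ⟪T x, T x⟫_𝕜 = ⟪x, x⟫_𝕜 := by
        rw [← ContinuousLinearMap.adjoint_inner_left, hTT _ (hsub hx)]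
      rw [inner_self_eq_norm_sq_to_K, inner_self_eq_norm_sq_to_K] at h1
      have h2 : ‖T x‖ ^ 2 = ‖x‖ ^ 2 := by exact_mod_cast h1
      exact (pow_left_inj₀ (norm_nonneg _) (norm_nonneg _) two_ne_zero).1 h2

/-- The deterministic part: a monochromatic chain of length four forces `‖T ^ k‖ ≥ 1`. -/
theorem Adm.chain [CompleteSpace E] (h : Adm 𝕜 Ω c s) (hG : GP 𝕜 Ω s) {T : E →L[𝕜] E}
    (hT : ∀ x, M 𝕜 Ω c (T x) ≤ M 𝕜 Ω c x) {v0 v1 v2 v3 : E}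
    (h01 : T v0 = v1) (h12 : T v1 = v2) (h23 : T v2 = v3)
    (hM0 : M 𝕜 Ω c v0 = 1) (hM1 : M 𝕜 Ω c v1 = 1) (hM2 : M 𝕜 Ω c v2 = 1)
    (hv : (‖v0‖ = 1 ∧ ‖v1‖ = 1 ∧ ‖v2‖ = 1 ∧ ‖v3‖ = 1) ∨ (‖v0‖ < 1 ∧ ‖v1‖ < 1 ∧ ‖v2‖ < 1))
    (k : ℕ) : 1 ≤ ‖T ^ k‖ := by
  rcases h.trichotomy hT h01 h12 h23 hM0 hM1 hM2 hv with ⟨v, hv, μ, hμ, h1⟩ |
    ⟨v, hv, μ, hμ, h1⟩ | ⟨a, b, hab, h1⟩
  · exact one_le_pow_of_eigen hv hμ h1 k
  · exact one_le_pow_of_adjoint_eigen hv hμ h1 k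
  · exact h.plane hG hT hab h1 k

end Pool.Agent.Helper324.CE
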