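import Pool.Agent.Helper324.CEPack

/-!
# Nets and projective closeness
-/

open MeasureTheory Metric Module

namespace Pool.Agent.Helper324.CE

theorem exists_maximal_sep {F : Type*} (T : Set F) (R : F → F → Prop)
    (hsymm : ∀ x y, R x y → R y x) (hrefl : ∀ x ∈ T, R x x) (N : ℕ)
    (hb : ∀ S : Finset F, ↑S ⊆ T → (∀ x ∈ S, ∀ y ∈ S, x ≠ y → ¬ R x y) → S.card ≤ N) :
    ∃ S : Finset F, ↑S ⊆ T ∧ (∀ x ∈ S, ∀ y ∈ S, x ≠ y → ¬ R x y) ∧ ∀ x ∈ T, ∃ y ∈ S, R x y := by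
  classical
  set A : Set ℕ := {k | ∃ S : Finset F, ↑S ⊆ T ∧ (∀ x ∈ S, ∀ y ∈ S, x ≠ y → ¬ R x y) ∧
    S.card = k} with hA
  have hne : A.Nonempty := ⟨0, ∅, by simp, by simp, by simp⟩
  have hbdd : BddAbove A := ⟨N, by
    rintro k ⟨S, h1, h2, rfl⟩
    exact hb S h1 h2⟩
  obtain ⟨S, h1, h2, h3⟩ := Nat.sSup_mem hne hbdd
  refine ⟨S, h1, h2, ?_⟩
  intro x hx
  by_contra hcon
  push Not at hcon
  have hxS : x ∉ S := fun h => hcon x h (hrefl x hx)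
  have h4 : (insert x S).card ∈ A := by
    refine ⟨insert x S, ?_, ?_, rfl⟩
    · intro y hy
      rw [Finset.coe_insert] at hy
      rcases hy with rfl | hy
      · exact hx
      · exact h1 hy
    · intro y hy z hz hyz
      rw [Finset.mem_insert] at hy hz
      rcases hy with rfl | hy <;> rcases hz with rfl | hz
      · exact absurd rfl hyz
      · exact hcon z hz
      · exact fun h => hcon y hy (hsymm _ _ h)
      · exact h2 y hy z hz hyz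
  have h5 := le_csSup hbdd h4
  rw [Finset.card_insert_of_notMem hxS, h3] at h5
  omega

theorem exists_net {F : Type*} [NormedAddCommGroup F] [NormedSpace ℝ F]
    [FiniteDimensional ℝ F] (T : Set F) {δ r : ℝ} (hδ : 0 < δ) (hr : 0 ≤ r)
    (hT : ∀ x ∈ T, ‖x‖ ≤ r) :
    ∃ S : Finset F, ↑S ⊆ T ∧ (∀ x ∈ T, ∃ y ∈ S, ‖x - y‖ < δ) ∧
      (S.card : ℝ) ≤ (1 + 2 * r / δ) ^ finrank ℝ F := by
  have hbound : ∀ S : Finset F, ↑S ⊆ T → (∀ x ∈ S, ∀ y ∈ S, x ≠ y → ¬ ‖x - y‖ < δ) →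
      (S.card : ℝ) ≤ (1 + 2 * r / δ) ^ finrank ℝ F := by
    intro S h1 h2
    refine card_le_of_sep hδ hr 0 S (fun x hx => ?_) fun x hx y hy hxy => ?_
    · rw [sub_zero]; exact hT x (h1 hx)
    · exact not_lt.1 (h2 x hx y hy hxy)
  obtain ⟨S, h1, h2, h3⟩ := exists_maximal_sep T (fun x y => ‖x - y‖ < δ)
    (fun x y h => by rw [norm_sub_rev]; exact h) (fun x _ => by simpa using hδ)
    ⌊(1 + 2 * r / δ) ^ finrank ℝ F⌋₊ (fun S h1 h2 => Nat.le_floor (hbound S h1 h2))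
  exact ⟨S, h1, h3, hbound S h1 h2⟩

/-! ### projective closeness -/

variable {𝕜 : Type*} [RCLike 𝕜] {E : Type*} [NormedAddCommGroup E] [InnerProductSpace 𝕜 E]

/-- projective closeness -/
def Cl (𝕜 : Type*) [RCLike 𝕜] {E : Type*} [NormedAddCommGroup E] [InnerProductSpace 𝕜 E]
    (δ : ℝ) (x y : E) : Prop := ∃ μ : 𝕜, ‖μ‖ = 1 ∧ ‖x - μ • y‖ ≤ δ

theorem Cl.symm {δ : ℝ} {x y : E} (h : Cl 𝕜 δ x y) : Cl 𝕜 δ y x := by
  obtain ⟨μ, hμ, h⟩ := h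
  have hμ0 : μ ≠ 0 := by rintro rfl; simp at hμ
  refine ⟨μ⁻¹, by rw [norm_inv, hμ, inv_one], ?_⟩
  have : y - μ⁻¹ • x = -(μ⁻¹ • (x - μ • y)) := by
    rw [smul_sub, smul_smul, inv_mul_cancel₀ hμ0, one_smul]; abel
  rw [this, norm_neg, norm_smul, norm_inv, hμ, inv_one, one_mul]
  exact h

theorem Cl.trans {δ ε : ℝ} {x y z : E} (h1 : Cl 𝕜 δ x y) (h2 : Cl 𝕜 ε y z) :
    Cl 𝕜 (δ + ε) x z := by
  obtain ⟨μ, hμ, h1⟩ := h1
  obtain ⟨ν, hν, h2⟩ := h2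
  refine ⟨μ * ν, by rw [norm_mul, hμ, hν, one_mul], ?_⟩
  have : x - (μ * ν) • z = (x - μ • y) + μ • (y - ν • z) := by
    rw [smul_sub, smul_smul]; abel
  rw [this]
  refine (norm_add_le _ _).trans ?_
  rw [norm_smul, hμ, one_mul]
  exact add_le_add h1 h2

theorem Cl.mono {δ ε : ℝ} (h : δ ≤ ε) {x y : E} (h1 : Cl 𝕜 δ x y) : Cl 𝕜 ε x y := by
  obtain ⟨μ, hμ, h1⟩ := h1
  exact ⟨μ, hμ, h1.trans h⟩

theorem Cl.of_norm {δ : ℝ} {x y : E} (h : ‖x - y‖ ≤ δ) : Cl 𝕜 δ x y :=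
  ⟨1, norm_one, by rwa [one_smul]⟩

theorem Cl.refl {δ : ℝ} (hδ : 0 ≤ δ) (x : E) : Cl 𝕜 δ x x := Cl.of_norm (by simpa using hδ)

theorem Cl.smul_right {δ : ℝ} {x y : E} {μ : 𝕜} (hμ : ‖μ‖ = 1) (h : Cl 𝕜 δ x y) :
    Cl 𝕜 δ x (μ • y) := by
  obtain ⟨ν, hν, h⟩ := h
  have hμ0 : μ ≠ 0 := by rintro rfl; simp at hμ
  refine ⟨ν * μ⁻¹, by rw [norm_mul, norm_inv, hμ, hν]; simp, ?_⟩
  rwa [smul_smul, mul_assoc, inv_mul_cancel₀ hμ0, mul_one]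

/-- not close unit vectors have small inner product -/
theorem inner_lt_of_not_cl {δ : ℝ} (hδ : 0 ≤ δ) {x y : E} (hx : ‖x‖ = 1) (hy : ‖y‖ = 1)
    (h : ¬ Cl 𝕜 δ x y) : ‖inner 𝕜 x y‖ < 1 - δ ^ 2 / 2 := by
  by_contra hcon
  push Not at hcon
  apply h
  -- choose the phase of `⟪y, x⟫`
  obtain ⟨μ, hμ, hμ'⟩ : ∃ μ : 𝕜, ‖μ‖ = 1 ∧ inner 𝕜 y x = μ * (‖inner 𝕜 y x‖ : 𝕜) := by
    by_cases hz : inner 𝕜 y x = 0
    · exact ⟨1, by simp, by simp [hz]⟩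
    · have hz' : (‖inner 𝕜 y x‖ : 𝕜) ≠ 0 := by
        exact_mod_cast (norm_pos_iff.2 hz).ne'
      refine ⟨inner 𝕜 y x / (‖inner 𝕜 y x‖ : 𝕜), ?_, ?_⟩
      · rw [norm_div, RCLike.norm_ofReal, abs_of_pos (norm_pos_iff.2 hz)]
        exact div_self (norm_pos_iff.2 hz).ne'
      · field_simp
  refine ⟨μ, hμ, ?_⟩
  have h1 := norm_sub_sq (𝕜 := 𝕜) x (μ • y)
  have h2 : inner 𝕜 x (μ • y) = ((‖inner 𝕜 x y‖ : ℝ) : 𝕜) := by
    have h3 : inner 𝕜 x y = (starRingEnd 𝕜) μ * (‖inner 𝕜 x y‖ : 𝕜) := by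
      rw [← inner_conj_symm, hμ', map_mul, RCLike.conj_ofReal, norm_inner_symm y x]
      rw [norm_mul, RCLike.norm_conj, hμ, one_mul, RCLike.norm_ofReal, abs_norm]
    rw [inner_smul_right, h3, norm_mul, RCLike.norm_conj, hμ, one_mul, RCLike.norm_ofReal,
      abs_norm, ← mul_assoc, RCLike.mul_conj, hμ]
    simp
  rw [h2, RCLike.ofReal_re, norm_smul, hμ, hx, hy] at h1
  have h4 : ‖x - μ • y‖ ^ 2 ≤ δ ^ 2 := by rw [h1]; linarith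
  exact (abs_le_of_sq_le_sq' h4 hδ).2

variable [NormedSpace ℝ E] [FiniteDimensional ℝ E]

/-- The set of candidates: a maximal projectively `δ`-separated set of unit vectors. -/
theorem exists_candidates (𝕜 : Type*) [RCLike 𝕜] (E : Type*) [NormedAddCommGroup E]
    [InnerProductSpace 𝕜 E] [NormedSpace ℝ E] [FiniteDimensional ℝ E] {δ : ℝ} (hδ : 0 < δ) :
    ∃ I : Finset E, (∀ a ∈ I, ‖a‖ = 1) ∧ (∀ a ∈ I, ∀ b ∈ I, a ≠ b → ¬ Cl 𝕜 δ a b) ∧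
      ∀ x : E, ‖x‖ = 1 → ∃ a ∈ I, Cl 𝕜 δ x a := by
  have hbound : ∀ S : Finset E, ↑S ⊆ {x : E | ‖x‖ = 1} →
      (∀ x ∈ S, ∀ y ∈ S, x ≠ y → ¬ Cl 𝕜 δ x y) →
      (S.card : ℝ) ≤ (1 + 2 * 1 / δ) ^ finrank ℝ E := by
    intro S h1 h2
    refine card_le_of_sep hδ zero_le_one 0 S (fun x hx => ?_) fun x hx y hy hxy => ?_
    · rw [sub_zero]; exact (h1 hx).le
    · by_contra hcon
      push Not at hcon
      exact h2 x hx y hy hxy (Cl.of_norm hcon.le)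
  obtain ⟨S, h1, h2, h3⟩ := exists_maximal_sep {x : E | ‖x‖ = 1} (Cl 𝕜 δ)
    (fun x y h => h.symm) (fun x _ => Cl.refl hδ.le x)
    ⌊(1 + 2 * 1 / δ) ^ finrank ℝ E⌋₊ (fun S h1 h2 => Nat.le_floor (hbound S h1 h2))
  exact ⟨S, fun a ha => h1 ha, h2, fun x hx => h3 x hx⟩

/-- Local count of candidates. -/
theorem local_count {δ r : ℝ} (hδ : 0 < δ) (hr : 0 ≤ r) (I : Finset E)
    (hI : ∀ a ∈ I, ∀ b ∈ I, a ≠ b → ¬ Cl 𝕜 δ a b) (x : E) (J : Finset E) (hJI : J ⊆ I)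
    (hJ : ∀ a ∈ J, Cl 𝕜 r a x) : (J.card : ℝ) ≤ (1 + 2 * r / δ) ^ finrank ℝ E := by
  classical
  have hch : ∀ a : E, ∃ μ : 𝕜, ‖μ‖ = 1 ∧ (a ∈ J → ‖μ • a - x‖ ≤ r) := by
    intro a
    by_cases ha : a ∈ J
    · obtain ⟨μ, hμ, h⟩ := (hJ a ha).symm
      exact ⟨μ, hμ, fun _ => by rw [norm_sub_rev]; exact h⟩
    · exact ⟨1, norm_one, fun h => absurd h ha⟩
  choose μ hμ hμ' using hch
  have hsep : ∀ a ∈ J, ∀ b ∈ J, a ≠ b → δ < ‖μ a • a - μ b • b‖ := by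
    intro a ha b hb hab
    by_contra hcon
    push Not at hcon
    apply hI a (hJI ha) b (hJI hb) hab
    have hμ0 : μ a ≠ 0 := by intro h; have := hμ a; rw [h] at this; simp at this
    refine ⟨(μ a)⁻¹ * μ b, by rw [norm_mul, norm_inv, hμ, hμ]; simp, ?_⟩
    have : a - ((μ a)⁻¹ * μ b) • b = (μ a)⁻¹ • (μ a • a - μ b • b) := by
      rw [smul_sub, smul_smul, smul_smul, inv_mul_cancel₀ hμ0, one_smul]
    rw [this, norm_smul, norm_inv, hμ, inv_one, one_mul]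
    exact hcon
  have hinj : Set.InjOn (fun a => μ a • a) (J : Set E) := by
    intro a ha b hb hab
    by_contra hne
    have := hsep a ha b hb hne
    simp only at hab
    rw [hab, sub_self, norm_zero] at this
    linarith
  have hcard : (J.image fun a => μ a • a).card = J.card := Finset.card_image_of_injOn hinj
  rw [← hcard]
  refine card_le_of_sep hδ hr x _ ?_ ?_
  · intro y hy
    obtain ⟨a, ha, rfl⟩ := Finset.mem_image.1 hy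
    exact hμ' a ha
  · intro y hy z hz hyz
    obtain ⟨a, ha, rfl⟩ := Finset.mem_image.1 hy
    obtain ⟨b, hb, rfl⟩ := Finset.mem_image.1 hz
    refine (hsep a ha b hb ?_).le
    rintro rfl
    exact hyz rfl

end Pool.Agent.Helper324.CE
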