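import Pool.Agent.Helper324.CEDet6
import Pool.Agent.Helper324.CENet

/-!
# Norms with bounded critical exponent: sharper deterministic part

Every chain `v₀, …, v₄` of `M`-unit vectors forces `‖T ^ k‖ ≥ 1`.
-/

open scoped InnerProductSpace NNReal
open Filter Topology

namespace Pool.Agent.Helper324.CE

variable {𝕜 : Type*} [RCLike 𝕜] {E : Type*} [NormedAddCommGroup E] [InnerProductSpace 𝕜 E]

variable {Ω : Finset E} {c s : ℝ}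

/-- If an interior point of a facet is mapped to a Euclidean unit vector, `T` has rank one. -/
theorem Adm.facet_to_unit (h : Adm 𝕜 Ω c s) {T : E →L[𝕜] E}
    (hT : ∀ x, M 𝕜 Ω c (T x) ≤ M 𝕜 Ω c x) {v w : E} (hTv : T v = w) (hv : ‖v‖ < 1)
    (hMv : M 𝕜 Ω c v = 1) (hw : ‖w‖ = 1) :
    ∃ ω : E, ‖ω‖ = 1 ∧ ⟪ω, v⟫_𝕜 = (c : 𝕜) ∧ ∀ x, T x = ⟪ω, x⟫_𝕜 • T ω := by
  have hc := h.hc
  obtain ⟨ω, hω, hωv, -, hall⟩ := h.exists_facet hv hMv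
  have hωω : ⟪ω, ω⟫_𝕜 = 1 := by
    rw [inner_self_eq_norm_sq_to_K, hω]; simp
  -- small perturbations within the facet stay in the unit ball
  have hev : ∀ m : E, ⟪ω, m⟫_𝕜 = 0 → ∀ᶠ t : ℝ in 𝓝 0, M 𝕜 Ω c (v + (t : 𝕜) • m) ≤ 1 := by
    intro m hm
    have h1 : ∀ᶠ t : ℝ in 𝓝 0, ‖v + (t : 𝕜) • m‖ < 1 := by
      have hcont1 : Continuous fun t : ℝ => ‖v + (t : 𝕜) • m‖ := by fun_prop
      exact (isOpen_lt hcont1 continuous_const).mem_nhds (x := (0 : ℝ)) (by simpa using hv)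
    have h2 : ∀ᶠ t : ℝ in 𝓝 0, ∀ ω' ∈ Ω, (∃ μ : 𝕜, ‖μ‖ = 1 ∧ ω = μ • ω') ∨
        ‖⟪ω', v + (t : 𝕜) • m⟫_𝕜‖ < c := by
      rw [Filter.eventually_all_finset]
      intro ω' hω'
      rcases hall ω' hω' with h | h
      · exact Filter.Eventually.of_forall fun t => Or.inl h
      · have hcont1 : Continuous fun t : ℝ => ‖⟪ω', v + (t : 𝕜) • m⟫_𝕜‖ := by fun_prop
        have : ∀ᶠ t : ℝ in 𝓝 0, ‖⟪ω', v + (t : 𝕜) • m⟫_𝕜‖ < c :=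
          (isOpen_lt hcont1 continuous_const).mem_nhds (x := (0 : ℝ)) (by simpa using h)
        exact this.mono fun t ht => Or.inr ht
    filter_upwards [h1, h2] with t ht1 ht2
    refine M_le hc ht1.le ?_
    intro ω' hω'
    rcases ht2 ω' hω' with ⟨μ, hμ, hμ'⟩ | h
    · have e1 : ‖⟪ω', v + (t : 𝕜) • m⟫_𝕜‖ = ‖⟪ω, v + (t : 𝕜) • m⟫_𝕜‖ := by
        rw [hμ', inner_smul_left, norm_mul, RCLike.norm_conj, hμ, one_mul]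
      rw [e1, inner_add_right, inner_smul_right, hm, hωv, mul_zero, add_zero,
        RCLike.norm_ofReal, abs_of_pos hc, mul_one]
    · linarith
  have hker : ∀ m : E, ⟪ω, m⟫_𝕜 = 0 → T m = 0 := by
    intro m hm
    have hm' : ⟪ω, -m⟫_𝕜 = 0 := by rw [inner_neg_right, hm, neg_zero]
    have h3 : ∀ᶠ t : ℝ in 𝓝[>] 0, (M 𝕜 Ω c (v + (t : 𝕜) • m) ≤ 1 ∧
        M 𝕜 Ω c (v + (t : 𝕜) • (-m)) ≤ 1) :=
      ((hev m hm).and (hev (-m) hm')).filter_mono nhdsWithin_le_nhds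
    obtain ⟨t, ⟨ht1, ht2⟩, ht0⟩ := (h3.and (self_mem_nhdsWithin)).exists
    have ht0 : 0 < t := ht0
    have e1 : ‖w + (t : 𝕜) • T m‖ ≤ 1 := by
      have : T (v + (t : 𝕜) • m) = w + (t : 𝕜) • T m := by rw [map_add, map_smul, hTv]
      rw [← this]
      exact (norm_le_M _).trans ((hT _).trans ht1)
    have e2 : ‖w - (t : 𝕜) • T m‖ ≤ 1 := by
      have : T (v + (t : 𝕜) • (-m)) = w - (t : 𝕜) • T m := by
        rw [map_add, map_smul, hTv, map_neg, smul_neg, sub_eq_add_neg]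
      rw [← this]
      exact (norm_le_M _).trans ((hT _).trans ht2)
    have e3 := parallelogram_law_with_norm 𝕜 w ((t : 𝕜) • T m)
    rw [hw, norm_smul, RCLike.norm_ofReal, abs_of_pos ht0] at e3
    have e4 : ‖w + (t : 𝕜) • T m‖ * ‖w + (t : 𝕜) • T m‖ ≤ 1 := by
      nlinarith [norm_nonneg (w + (t : 𝕜) • T m)]
    have e5 : ‖w - (t : 𝕜) • T m‖ * ‖w - (t : 𝕜) • T m‖ ≤ 1 := by
      nlinarith [norm_nonneg (w - (t : 𝕜) • T m)]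
    have e6 : (t * ‖T m‖) * (t * ‖T m‖) ≤ 0 := by nlinarith
    have e7 : t * ‖T m‖ = 0 := by nlinarith [mul_nonneg ht0.le (norm_nonneg (T m))]
    rcases mul_eq_zero.1 e7 with h8 | h8
    · linarith
    · exact norm_eq_zero.1 h8
  refine ⟨ω, hω, hωv, fun x => ?_⟩
  have h1 : ⟪ω, x - ⟪ω, x⟫_𝕜 • ω⟫_𝕜 = 0 := by
    rw [inner_sub_right, inner_smul_right, hωω]; ring
  have h2 := hker _ h1
  rw [map_sub, map_smul] at h2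
  exact sub_eq_zero.1 h2

theorem M_pos_of_one {v : E} (hv : M 𝕜 Ω c v = 1) (hc : 0 < c) : v ≠ 0 := by
  rintro rfl
  have := M_smul (𝕜 := 𝕜) (Ω := Ω) hc 0 (0 : E)
  rw [zero_smul, norm_zero, zero_mul, hv] at this
  exact one_ne_zero this

/-- A transition facet → unit at the start of a chain. -/
theorem Adm.no_FU_start (h : Adm 𝕜 Ω c s) {T : E →L[𝕜] E}
    (hT : ∀ x, M 𝕜 Ω c (T x) ≤ M 𝕜 Ω c x) {v0 v1 v2 : E} (h01 : T v0 = v1) (h12 : T v1 = v2)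
    (hM0 : M 𝕜 Ω c v0 = 1) (hM1 : M 𝕜 Ω c v1 = 1) (hM2 : M 𝕜 Ω c v2 = 1)
    (hv0 : ‖v0‖ < 1) (hv1 : ‖v1‖ = 1) (k : ℕ) : 1 ≤ ‖T ^ k‖ := by
  have hc := h.hc
  have hcK : (c : 𝕜) ≠ 0 := by exact_mod_cast hc.ne'
  obtain ⟨ω, hω, hωv, hx⟩ := h.facet_to_unit hT h01 hv0 hM0 hv1
  have e0 : v1 = (c : 𝕜) • T ω := by rw [← h01, hx v0, hωv]
  have e1 : v2 = (⟪ω, v1⟫_𝕜 / (c : 𝕜)) • v1 := by
    have h1 : T v1 = ⟪ω, v1⟫_𝕜 • T ω := hx v1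
    have h2 : v2 = ⟪ω, v1⟫_𝕜 • T ω := by rw [← h12]; exact h1
    have h3 : T ω = (c : 𝕜)⁻¹ • v1 := by rw [e0, smul_smul, inv_mul_cancel₀ hcK, one_smul]
    rw [h2, h3, smul_smul, div_eq_mul_inv]
  set μ : 𝕜 := ⟪ω, v1⟫_𝕜 / (c : 𝕜) with hμdef
  have hμ : ‖μ‖ = 1 := by
    have := M_smul (𝕜 := 𝕜) (Ω := Ω) hc μ v1
    rw [← e1, hM2, hM1, mul_one] at this
    exact this.symm
  exact one_le_pow_of_eigen hv1 hμ (by rw [h12]; exact e1) k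

/-- A transition facet → unit later in a chain is impossible. -/
theorem Adm.no_FU (h : Adm 𝕜 Ω c s) {T : E →L[𝕜] E}
    (hT : ∀ x, M 𝕜 Ω c (T x) ≤ M 𝕜 Ω c x) {v0 v1 v2 : E} (h01 : T v0 = v1) (h12 : T v1 = v2)
    (hM1 : M 𝕜 Ω c v1 = 1) (hM2 : M 𝕜 Ω c v2 = 1)
    (hv1 : ‖v1‖ < 1) (hv2 : ‖v2‖ = 1) : False := by
  have hc := h.hc
  have hcK : (c : 𝕜) ≠ 0 := by exact_mod_cast hc.ne'
  obtain ⟨ω, hω, hωv, hx⟩ := h.facet_to_unit hT h12 hv1 hM1 hv2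
  have e0 : v2 = (c : 𝕜) • T ω := by rw [← h12, hx v1, hωv]
  have h3 : T ω = (c : 𝕜)⁻¹ • v2 := by rw [e0, smul_smul, inv_mul_cancel₀ hcK, one_smul]
  have e1 : v1 = (⟪ω, v0⟫_𝕜 * (c : 𝕜)⁻¹) • v2 := by
    have h2 : v1 = ⟪ω, v0⟫_𝕜 • T ω := by rw [← h01]; exact hx v0
    rw [h2, h3, smul_smul]
  set μ : 𝕜 := ⟪ω, v0⟫_𝕜 * (c : 𝕜)⁻¹ with hμdef
  have hμ : ‖μ‖ = 1 := by
    have := M_smul (𝕜 := 𝕜) (Ω := Ω) hc μ v2
    rw [← e1, hM2, hM1, mul_one] at this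
    exact this.symm
  have : ‖v1‖ = 1 := by rw [e1, norm_smul, hμ, hv2, one_mul]
  linarith

/-- vectors in a closed facet are projectively close to its centre -/
theorem Adm.close (h : Adm 𝕜 Ω c s) (hs1 : s ≤ 1 / 100) {ω v : E} (hω : ω ∈ Ω) (hv : ‖v‖ ≤ 1)
    (hωv : ‖⟪ω, v⟫_𝕜‖ = c) : Cl 𝕜 (101 / 100 * s) v ω := by
  have hc := h.hc
  have hs := h.hs
  have hcs := h.hcs
  obtain ⟨μ, hμ, hμ'⟩ := exists_phase (⟪ω, v⟫_𝕜)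
  rw [hωv] at hμ'
  refine ⟨μ, hμ, ?_⟩
  have h1 := norm_sub_sq (𝕜 := 𝕜) v (μ • ω)
  have h2 : ⟪v, μ • ω⟫_𝕜 = (c : 𝕜) := by
    have e4 : μ * (starRingEnd 𝕜) μ = 1 := by
      rw [RCLike.mul_conj, hμ]; simp
    rw [inner_smul_right, ← inner_conj_symm, hμ', map_mul, RCLike.conj_ofReal, ← mul_assoc, e4,
      one_mul]
  rw [h2, RCLike.ofReal_re, norm_smul, hμ, h.unit ω hω] at h1
  have hc1 : 49 / 50 ≤ c := by
    by_contra hcon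
    push Not at hcon
    nlinarith
  have h3 : 1 - c ≤ 51 / 100 * s ^ 2 := by
    have : (1 - c) * (1 + c) = s ^ 2 := by nlinarith
    have h4 : (1 - c) * (99 / 50) ≤ s ^ 2 := by
      rw [← this]
      have : 0 ≤ 1 - c := by linarith [h.c_le_one]
      nlinarith
    nlinarith
  have h4 : ‖v - μ • ω‖ ^ 2 ≤ (101 / 100 * s) ^ 2 := by
    have hv2 : ‖v‖ ^ 2 ≤ 1 := by nlinarith [norm_nonneg v]
    rw [h1]
    nlinarith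
  exact (abs_le_of_sq_le_sq' h4 (by positivity)).2

variable [CompleteSpace E]

/-- Two unit vectors with the same norming functional `T* ω`. -/
theorem Adm.unit_rim' (h : Adm 𝕜 Ω c s) {T : E →L[𝕜] E}
    (hT : ∀ x, M 𝕜 Ω c (T x) ≤ M 𝕜 Ω c x) {v0 v1 : E}
    (hv0 : ‖v0‖ = 1) (hv1 : ‖v1‖ = 1) (hM0 : M 𝕜 Ω c v0 = 1) (hM1 : M 𝕜 Ω c v1 = 1)
    (hind : Indep 𝕜 v0 v1) {ω : E} (hω : ω ∈ Ω) (hω0 : ‖⟪ω, v0⟫_𝕜‖ = c)
    (hω1 : ‖⟪ω, T v0⟫_𝕜‖ = c) (hω2 : ‖⟪ω, T v1⟫_𝕜‖ = c) :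
    ∃ μ : 𝕜, ‖μ‖ = 1 ∧ T.adjoint ω = μ • ω := by
  have hc := h.hc
  have hcK : (c : 𝕜) ≠ 0 := by exact_mod_cast hc.ne'
  set g : E := ((c⁻¹ : ℝ) : 𝕜) • T.adjoint ω with hg
  have hgin : ∀ y, ⟪g, y⟫_𝕜 = ((c⁻¹ : ℝ) : 𝕜) * ⟪ω, T y⟫_𝕜 := by
    intro y
    rw [hg, inner_smul_left, RCLike.conj_ofReal, ContinuousLinearMap.adjoint_inner_left]
  have hgM : ∀ y, ‖⟪g, y⟫_𝕜‖ ≤ M 𝕜 Ω c y := by
    intro y
    rw [hgin, norm_mul, RCLike.norm_ofReal, abs_of_pos (inv_pos.2 hc), inv_mul_eq_div,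
      div_le_iff₀ hc, mul_comm]
    exact (inner_le_M hc hω _).trans (mul_le_mul_of_nonneg_left (hT y) hc.le)
  have hcg : (c : 𝕜) • g = T.adjoint ω := by
    rw [hg, smul_smul]
    push_cast
    rw [mul_inv_cancel₀ hcK, one_smul]
  have hphase : ∀ v : E, ‖⟪ω, T v⟫_𝕜‖ = c → ∃ μ : 𝕜, ‖μ‖ = 1 ∧ ⟪g, μ • v⟫_𝕜 = 1 := by
    intro v hv
    obtain ⟨μ, hμ, hμ'⟩ := exists_phase (⟪ω, T v⟫_𝕜)
    rw [hv] at hμ'
    refine ⟨(starRingEnd 𝕜) μ, by rw [RCLike.norm_conj, hμ], ?_⟩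
    have e4 : (starRingEnd 𝕜) μ * μ = 1 := by
      rw [RCLike.conj_mul, hμ]; simp
    rw [inner_smul_right, hgin, hμ']
    push_cast
    field_simp
    exact e4
  obtain ⟨μ0, hμ0, hg0⟩ := hphase v0 hω1
  obtain ⟨μ1, hμ1, hg1⟩ := hphase v1 hω2
  set w0 := μ0 • v0 with hw0
  set w1 := μ1 • v1 with hw1
  have hw0n : ‖w0‖ = 1 := by rw [hw0, norm_smul, hμ0, hv0, one_mul]
  have hw1n : ‖w1‖ = 1 := by rw [hw1, norm_smul, hμ1, hv1, one_mul]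
  have hne : w0 - w1 ≠ 0 := by
    intro h0
    have h1 : μ0 • v0 + (-μ1) • v1 = 0 := by rw [neg_smul, ← sub_eq_add_neg]; exact h0
    have := (hind _ _ h1).1
    rw [this, norm_zero] at hμ0
    exact absurd hμ0 (by norm_num)
  set m : E := ((1/2 : ℝ) : 𝕜) • (w0 + w1) with hm
  have hmn : ‖m‖ < 1 := by
    have h1 := parallelogram_law_with_norm 𝕜 w0 w1
    have h2 : 0 < ‖w0 - w1‖ := norm_pos_iff.2 hne
    have h3 : ‖m‖ = 1/2 * ‖w0 + w1‖ := by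
      rw [hm, norm_smul, RCLike.norm_ofReal, abs_of_pos (by norm_num)]
    rw [hw0n, hw1n] at h1
    rw [h3]
    nlinarith [norm_nonneg (w0 + w1)]
  have hgm : ⟪g, m⟫_𝕜 = 1 := by
    rw [hm, inner_smul_right, inner_add_right, hg0, hg1]
    push_cast
    norm_num
  have hMw0 : M 𝕜 Ω c w0 = 1 := by rw [hw0, M_smul hc, hμ0, hM0, one_mul]
  have hMw1 : M 𝕜 Ω c w1 = 1 := by rw [hw1, M_smul hc, hμ1, hM1, one_mul]
  have hMm : M 𝕜 Ω c m = 1 := by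
    apply le_antisymm
    · rw [hm, M_smul hc, RCLike.norm_ofReal, abs_of_pos (by norm_num)]
      have := M_add_le (𝕜 := 𝕜) (Ω := Ω) hc w0 w1
      rw [hMw0, hMw1] at this
      linarith
    · have := hgM m
      rwa [hgm, norm_one] at this
  obtain ⟨ω', hω'n, hω'm, ⟨ω0, hω0m, μ, hμ, hμω⟩, hall⟩ := h.exists_facet hmn hMm
  have h1 := facet_first_order (𝕜 := 𝕜) hc hω'n hmn hω'm hall hgM hgm
  rw [hcg] at h1
  have h2 : ω0 = ω := by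
    by_contra hne'
    have e0 : ‖⟪ω0, m⟫_𝕜‖ = c := by
      have : ‖⟪ω', m⟫_𝕜‖ = ‖⟪ω0, m⟫_𝕜‖ := by
        rw [hμω, inner_smul_left, norm_mul, RCLike.norm_conj, hμ, one_mul]
      rw [← this, hω'm, RCLike.norm_ofReal, abs_of_pos hc]
    have e1 : ‖⟪ω0, w0⟫_𝕜‖ < c := by
      by_contra hcon
      push Not at hcon
      apply hne'
      refine h.disj_unit hω0m hω hw0n hcon ?_
      rw [hw0, inner_smul_right, norm_mul, hμ0, hω0, one_mul]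
    have e2 : ‖⟪ω0, w1⟫_𝕜‖ ≤ c := by
      have := inner_le_M (𝕜 := 𝕜) hc hω0m w1
      rwa [hMw1, mul_one] at this
    have e3 : ‖⟪ω0, m⟫_𝕜‖ ≤ 1/2 * (‖⟪ω0, w0⟫_𝕜‖ + ‖⟪ω0, w1⟫_𝕜‖) := by
      rw [hm, inner_smul_right, norm_mul, RCLike.norm_ofReal, abs_of_pos (by norm_num),
        inner_add_right]
      gcongr
      exact norm_add_le _ _
    rw [e0] at e3
    linarith
  refine ⟨μ, hμ, ?_⟩
  rw [h1, hμω, h2]

omit [CompleteSpace E] in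
theorem one_le_pow_of_sq {T : E →L[𝕜] E} {d : ℕ} (hd : 0 < d)
    (h : ∀ k, 1 ≤ ‖(T ^ d) ^ k‖) (k : ℕ) : 1 ≤ ‖T ^ k‖ := by
  have h1 := h k
  rw [← pow_mul, mul_comm, pow_mul] at h1
  have h2 : ‖(T ^ k) ^ d‖ ≤ ‖T ^ k‖ ^ d := norm_pow_le' _ hd
  by_contra hcon
  push Not at hcon
  have h3 : ‖T ^ k‖ ^ d < 1 := pow_lt_one₀ (norm_nonneg _) hcon hd.ne'
  linarith

/-- The chain unit, unit, unit, facet. -/
theorem Adm.UUUF (h : Adm 𝕜 Ω c s) (hG : GP 𝕜 Ω s) (hs1 : s ≤ 1 / 100)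
    (hsep : ∀ ω ∈ Ω, ∀ ω' ∈ Ω, Cl 𝕜 (8 * s) ω ω' → ω = ω') {T : E →L[𝕜] E}
    (hT : ∀ x, M 𝕜 Ω c (T x) ≤ M 𝕜 Ω c x) {v0 v1 v2 v3 : E}
    (h01 : T v0 = v1) (h12 : T v1 = v2) (h23 : T v2 = v3)
    (hM0 : M 𝕜 Ω c v0 = 1) (hM1 : M 𝕜 Ω c v1 = 1) (hM2 : M 𝕜 Ω c v2 = 1)
    (hM3 : M 𝕜 Ω c v3 = 1) (hv0 : ‖v0‖ = 1) (hv1 : ‖v1‖ = 1) (hv2 : ‖v2‖ = 1)
    (hv3 : ‖v3‖ < 1) (k : ℕ) : 1 ≤ ‖T ^ k‖ := by
  have hc := h.hc
  have hs := h.hs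
  rcases par_or_indep (𝕜 := 𝕜) hv0 hv1 with ⟨μ, hμ, h1⟩ | h1
  · exact one_le_pow_of_eigen hv0 hμ (by rw [h01, h1]) k
  by_cases hγ0 : ⟪v1, v2⟫_𝕜 - ⟪v0, v1⟫_𝕜 = 0
  · exact h.plane hG hT h1 (h.unit_isom hT h01 h12 hv0 hv1 hv2 hγ0 h1) k
  obtain ⟨ω, hω, e0, e1⟩ := h.unit_path hT h01 h12 hv0 hv1 hv2 hM0 hM1 hγ0
  obtain ⟨ω3, n3, i3, ⟨ω', hω', μ', hμ', hμω'⟩, a3⟩ := h.exists_facet hv3 hM3
  have e3 : ‖⟪ω', v3⟫_𝕜‖ = c := by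
    have : ‖⟪ω3, v3⟫_𝕜‖ = ‖⟪ω', v3⟫_𝕜‖ := by
      rw [hμω', inner_smul_left, norm_mul, RCLike.norm_conj, hμ', one_mul]
    rw [← this, i3, RCLike.norm_ofReal, abs_of_pos hc]
  -- closeness
  have hc1 : 49 / 50 ≤ c := by
    by_contra hcon
    push Not at hcon
    nlinarith [h.hcs]
  have hTn : ∀ x, ‖T x‖ ≤ 101 / 100 * ‖x‖ := by
    intro x
    have h4 : c * ‖T x‖ ≤ ‖x‖ :=
      (mul_le_mul_of_nonneg_left ((norm_le_M (𝕜 := 𝕜) (Ω := Ω) (c := c) (T x)).trans (hT x))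
        hc.le).trans (M_le_of_norm hc h.c_le_one h.unit x)
    have hc2 : 100 / 101 ≤ c := by
      by_contra hcon
      push Not at hcon
      nlinarith [h.hcs]
    have h5 : 100 / 101 * ‖T x‖ ≤ c * ‖T x‖ := mul_le_mul_of_nonneg_right hc2 (norm_nonneg _)
    linarith
  have hcl : ∀ (δ : ℝ) (x y : E), Cl 𝕜 δ x y → Cl 𝕜 (101 / 100 * δ) (T x) (T y) := by
    rintro δ x y ⟨μ, hμ, h4⟩
    refine ⟨μ, hμ, ?_⟩
    have : T x - μ • T y = T (x - μ • y) := by rw [map_sub, map_smul]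
    rw [this]
    exact (hTn _).trans (by linarith)
  have c0 := h.close hs1 hω hv0.le e0
  have c1 := h.close hs1 hω hv1.le e1
  have c3 := h.close hs1 hω' hv3.le e3
  have c10 := c1.trans c0.symm
  have c21 := hcl _ _ _ c10
  rw [h01, h12] at c21
  have c32 := hcl _ _ _ c21
  rw [h12, h23] at c32
  have hfin := c3.symm.trans (c32.trans (c21.trans c1))
  have heq : ω' = ω := hsep ω' hω' ω hω (hfin.mono (by linarith))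
  rw [heq] at e3
  rcases par_or_indep (𝕜 := 𝕜) hv0 hv2 with ⟨μ, hμ, h2⟩ | h2
  · refine one_le_pow_of_sq (d := 2) two_pos ?_ k
    refine one_le_pow_of_eigen hv0 hμ ?_
    rw [pow_two]
    change T (T v0) = μ • v0
    rw [h01, h12, h2]
  · obtain ⟨μ, hμ, h3⟩ := h.unit_rim' hT hv0 hv2 hM0 hM2 h2 hω e0 (by rw [h01]; exact e1)
      (by rw [h23]; exact e3)
    exact one_le_pow_of_adjoint_eigen (h.unit ω hω) hμ h3 k

omit [CompleteSpace E] in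
theorem M_pow_le' {T : E →L[𝕜] E} (hT : ∀ x, M 𝕜 Ω c (T x) ≤ M 𝕜 Ω c x) (k : ℕ) (x : E) :
    M 𝕜 Ω c ((T ^ k) x) ≤ M 𝕜 Ω c x := by
  induction k with
  | zero => simp
  | succ k ih =>
    have : (T ^ (k + 1)) x = T ((T ^ k) x) := by rw [pow_succ']; rfl
    rw [this]
    exact (hT _).trans ih

/-- The main estimate with exponent `4`. -/
theorem Adm.main4 (h : Adm 𝕜 Ω c s) (hG : GP 𝕜 Ω s) (hs1 : s ≤ 1 / 100)
    (hsep : ∀ ω ∈ Ω, ∀ ω' ∈ Ω, Cl 𝕜 (8 * s) ω ω' → ω = ω') {T : E →L[𝕜] E}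
    (hT : ∀ x, M 𝕜 Ω c (T x) ≤ M 𝕜 Ω c x) {v : E} (hv : M 𝕜 Ω c v = 1)
    (hv4 : M 𝕜 Ω c ((T ^ 4) v) = 1) (k : ℕ) : 1 ≤ ‖T ^ k‖ := by
  have hM : ∀ i, i ≤ 4 → M 𝕜 Ω c ((T ^ i) v) = 1 := by
    intro i hi
    refine le_antisymm ((M_pow_le' hT i v).trans_eq hv) ?_
    have h1 : (T ^ 4) v = (T ^ (4 - i)) ((T ^ i) v) := by
      have : 4 = (4 - i) + i := by omega
      conv_lhs => rw [this, pow_add]
      rfl
    rw [← hv4, h1]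
    exact M_pow_le' hT _ _
  set v0 := v with hv0
  set v1 := T v with hv1
  set v2 := T v1 with hv2
  set v3 := T v2 with hv3
  set v4 := T v3 with hv4'
  have hM0 : M 𝕜 Ω c v0 = 1 := hv
  have hM1 : M 𝕜 Ω c v1 = 1 := by have := hM 1 (by norm_num); rwa [pow_one] at this
  have hM2 : M 𝕜 Ω c v2 = 1 := hM 2 (by norm_num)
  have hM3 : M 𝕜 Ω c v3 = 1 := hM 3 (by norm_num)
  have hM4 : M 𝕜 Ω c v4 = 1 := hM 4 (by norm_num)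
  have hle : ∀ w : E, M 𝕜 Ω c w = 1 → ‖w‖ ≤ 1 := fun w hw => (norm_le_M w).trans_eq hw
  by_cases c3 : ‖v3‖ = 1
  · -- `v₃` is a unit vector, hence so are `v₂, v₁, v₀`
    have c2 : ‖v2‖ = 1 := by
      by_contra hne
      exact h.no_FU hT (v0 := v1) rfl rfl hM2 hM3 (lt_of_le_of_ne (hle _ hM2) hne) c3
    have c1 : ‖v1‖ = 1 := by
      by_contra hne
      exact h.no_FU hT (v0 := v0) rfl rfl hM1 hM2 (lt_of_le_of_ne (hle _ hM1) hne) c2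
    by_cases c0 : ‖v0‖ = 1
    · exact h.chain hG hT (v0 := v0) rfl rfl rfl hM0 hM1 hM2 (Or.inl ⟨c0, c1, c2, c3⟩) k
    · exact h.no_FU_start hT (v0 := v0) rfl rfl hM0 hM1 hM2
        (lt_of_le_of_ne (hle _ hM0) c0) c1 k
  · have c3' : ‖v3‖ < 1 := lt_of_le_of_ne (hle _ hM3) c3
    have c4' : ‖v4‖ < 1 := by
      refine lt_of_le_of_ne (hle _ hM4) fun hne => ?_
      exact h.no_FU hT (v0 := v2) rfl rfl hM3 hM4 c3' hne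
    by_cases c2 : ‖v2‖ = 1
    · have c1 : ‖v1‖ = 1 := by
        by_contra hne
        exact h.no_FU hT (v0 := v0) rfl rfl hM1 hM2 (lt_of_le_of_ne (hle _ hM1) hne) c2
      by_cases c0 : ‖v0‖ = 1
      · exact h.UUUF hG hs1 hsep hT (v0 := v0) rfl rfl rfl hM0 hM1 hM2 hM3 c0 c1 c2 c3' k
      · exact h.no_FU_start hT (v0 := v0) rfl rfl hM0 hM1 hM2
          (lt_of_le_of_ne (hle _ hM0) c0) c1 k
    · have c2' : ‖v2‖ < 1 := lt_of_le_of_ne (hle _ hM2) c2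
      exact h.chain hG hT (v0 := v2) rfl rfl rfl hM2 hM3 hM4 (Or.inr ⟨c2', c3', c4'⟩) k

end Pool.Agent.Helper324.CE
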