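import Mathlib

/-!
# The van der Waerden number `W(3,4) ≤ 18`

Every colouring of `{0, …, 17}` by `false`, `true` contains three terms in arithmetic progression
of colour `false` or four terms in arithmetic progression of colour `true`.
-/

namespace Pool.Agent.Helper324.CE

/-- Does the reversed list `l` have a forbidden progression starting at its head with step
at most `k`? -/
def badStep (l : List Bool) : ℕ → Bool
  | 0 => false
  | d + 1 =>
    ((l[0]? == some false) && (l[d + 1]? == some false) && (l[2 * (d + 1)]? == some false)) ||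
    ((l[0]? == some true) && (l[d + 1]? == some true) && (l[2 * (d + 1)]? == some true) &&
      (l[3 * (d + 1)]? == some true)) || badStep l d

/-- backtracking search -/
def chk : ℕ → List Bool → Bool
  | 0, l => badStep l 8
  | k + 1, l => badStep l 8 || (chk k (true :: l) && chk k (false :: l))

/-- reversed prefix -/
def pre (f : ℕ → Bool) : ℕ → List Bool
  | 0 => []
  | m + 1 => f m :: pre f m

theorem pre_get (f : ℕ → Bool) (m d : ℕ) (c : Bool) (h : (pre f m)[d]? = some c) :
    d + 1 ≤ m ∧ f (m - 1 - d) = c := by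
  induction m generalizing d with
  | zero => simp [pre] at h
  | succ m ih =>
    cases d with
    | zero =>
      simp only [pre, List.getElem?_cons_zero, Option.some.injEq] at h
      exact ⟨by omega, by simpa using h⟩
    | succ d =>
      simp only [pre, List.getElem?_cons_succ] at h
      obtain ⟨h1, h2⟩ := ih d h
      refine ⟨by omega, ?_⟩
      have : m + 1 - 1 - (d + 1) = m - 1 - d := by omega
      rw [this]; exact h2

/-- existence of a forbidden progression below `m` -/
def HasAP (f : ℕ → Bool) (m : ℕ) : Prop :=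
  (∃ a d, 0 < d ∧ a + 2 * d < m ∧ f a = false ∧ f (a + d) = false ∧ f (a + 2 * d) = false) ∨
  (∃ a d, 0 < d ∧ a + 3 * d < m ∧ f a = true ∧ f (a + d) = true ∧ f (a + 2 * d) = true ∧
    f (a + 3 * d) = true)

theorem hasAP_of_badStep (f : ℕ → Bool) (m k : ℕ) (h : badStep (pre f m) k = true) :
    HasAP f m := by
  induction k with
  | zero => simp [badStep] at h
  | succ d ih =>
    simp only [badStep, Bool.or_eq_true, Bool.and_eq_true, beq_iff_eq] at h
    rcases h with (⟨⟨h1, h2⟩, h3⟩ | ⟨⟨⟨h1, h2⟩, h3⟩, h4⟩) | h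
    · obtain ⟨a1, b1⟩ := pre_get f m _ _ h1
      obtain ⟨a2, b2⟩ := pre_get f m _ _ h2
      obtain ⟨a3, b3⟩ := pre_get f m _ _ h3
      left
      refine ⟨m - 1 - 2 * (d + 1), d + 1, by omega, by omega, b3, ?_, ?_⟩
      · have : m - 1 - 2 * (d + 1) + (d + 1) = m - 1 - (d + 1) := by omega
        rw [this]; exact b2
      · have : m - 1 - 2 * (d + 1) + 2 * (d + 1) = m - 1 - 0 := by omega
        rw [this]; exact b1
    · obtain ⟨a1, b1⟩ := pre_get f m _ _ h1
      obtain ⟨a2, b2⟩ := pre_get f m _ _ h2
      obtain ⟨a3, b3⟩ := pre_get f m _ _ h3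
      obtain ⟨a4, b4⟩ := pre_get f m _ _ h4
      right
      refine ⟨m - 1 - 3 * (d + 1), d + 1, by omega, by omega, b4, ?_, ?_, ?_⟩
      · have : m - 1 - 3 * (d + 1) + (d + 1) = m - 1 - 2 * (d + 1) := by omega
        rw [this]; exact b3
      · have : m - 1 - 3 * (d + 1) + 2 * (d + 1) = m - 1 - (d + 1) := by omega
        rw [this]; exact b2
      · have : m - 1 - 3 * (d + 1) + 3 * (d + 1) = m - 1 - 0 := by omega
        rw [this]; exact b1
    · exact ih h

theorem HasAP.mono {f : ℕ → Bool} {m m' : ℕ} (h : m ≤ m') (H : HasAP f m) : HasAP f m' := by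
  rcases H with ⟨a, d, h1, h2, h3⟩ | ⟨a, d, h1, h2, h3⟩
  · exact Or.inl ⟨a, d, h1, by omega, h3⟩
  · exact Or.inr ⟨a, d, h1, by omega, h3⟩

theorem hasAP_of_chk (f : ℕ → Bool) (k m : ℕ) (h : chk k (pre f m) = true) :
    HasAP f (m + k) := by
  induction k generalizing m with
  | zero => exact hasAP_of_badStep f m 8 h
  | succ k ih =>
    simp only [chk, Bool.or_eq_true, Bool.and_eq_true] at h
    rcases h with h | ⟨h1, h2⟩
    · exact (hasAP_of_badStep f m 8 h).mono (by omega)
    · have h3 : chk k (pre f (m + 1)) = true := by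
        cases hfm : f m with
        | true => simp only [pre, hfm]; exact h1
        | false => simp only [pre, hfm]; exact h2
      have := ih (m + 1) h3
      have e : m + 1 + k = m + (k + 1) := by omega
      rwa [e] at this

theorem chk_eq : chk 18 [] = true := by decide +kernel

theorem vdw34 (f : ℕ → Bool) :
    (∃ a d, 0 < d ∧ a + 2 * d ≤ 17 ∧ f a = false ∧ f (a + d) = false ∧ f (a + 2 * d) = false) ∨
    (∃ a d, 0 < d ∧ a + 3 * d ≤ 17 ∧ f a = true ∧ f (a + d) = true ∧ f (a + 2 * d) = true ∧
      f (a + 3 * d) = true) := by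
  have h := hasAP_of_chk f 18 0 chk_eq
  rcases h with ⟨a, d, h1, h2, h3⟩ | ⟨a, d, h1, h2, h3⟩
  · exact Or.inl ⟨a, d, h1, by omega, h3⟩
  · exact Or.inr ⟨a, d, h1, by omega, h3⟩

end Pool.Agent.Helper324.CE
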