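import Pool.Agent.Helper324.CERand
import Pool.Agent.Helper324.CEVdw

/-!
# Final assembly, 1: the statement on Euclidean space
-/

open scoped InnerProductSpace

namespace Pool.Agent.Helper324.CE

section
variable {𝕜 : Type*} [RCLike 𝕜] {E : Type*} [NormedAddCommGroup E] [InnerProductSpace 𝕜 E]

variable {Ω : Finset E} {c s : ℝ}

theorem M_pow_le {T : E →L[𝕜] E} (hT : ∀ x, M 𝕜 Ω c (T x) ≤ M 𝕜 Ω c x) (k : ℕ) (x : E) :
    M 𝕜 Ω c ((T ^ k) x) ≤ M 𝕜 Ω c x := by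
  induction k with
  | zero => simp
  | succ k ih =>
    have : (T ^ (k + 1)) x = T ((T ^ k) x) := by rw [pow_succ']; rfl
    rw [this]
    exact (hT _).trans ih

theorem pow_pow_apply (T : E →L[𝕜] E) (a d : ℕ) (v : E) :
    (T ^ d) ((T ^ a) v) = (T ^ (a + d)) v := by
  rw [add_comm, pow_add]; rfl

/-- The main estimate. -/
theorem Adm.main [CompleteSpace E] (h : Adm 𝕜 Ω c s) (hG : GP 𝕜 Ω s) {T : E →L[𝕜] E}
    (hT : ∀ x, M 𝕜 Ω c (T x) ≤ M 𝕜 Ω c x) {v : E} (hv : M 𝕜 Ω c v = 1)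
    (hv17 : M 𝕜 Ω c ((T ^ 17) v) = 1) (k : ℕ) : 1 ≤ ‖T ^ k‖ := by
  classical
  have hM : ∀ i, i ≤ 17 → M 𝕜 Ω c ((T ^ i) v) = 1 := by
    intro i hi
    refine le_antisymm ((M_pow_le hT i v).trans_eq hv) ?_
    have h1 : (T ^ 17) v = (T ^ (17 - i)) ((T ^ i) v) := by
      rw [pow_pow_apply]; congr 2; omega
    rw [← hv17, h1]
    exact M_pow_le hT _ _
  have key : ∀ a d : ℕ, 0 < d → a + 2 * d ≤ 17 →
      ((‖(T ^ a) v‖ = 1 ∧ ‖(T ^ (a + d)) v‖ = 1 ∧ ‖(T ^ (a + 2 * d)) v‖ = 1 ∧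
        ‖(T ^ (a + 3 * d)) v‖ = 1) ∨
      (‖(T ^ a) v‖ < 1 ∧ ‖(T ^ (a + d)) v‖ < 1 ∧ ‖(T ^ (a + 2 * d)) v‖ < 1)) →
      1 ≤ ‖T ^ k‖ := by
    intro a d hd had hcol
    have hTd : ∀ x, M 𝕜 Ω c ((T ^ d) x) ≤ M 𝕜 Ω c x := M_pow_le hT d
    have h1 := h.chain hG hTd (v0 := (T ^ a) v) (v1 := (T ^ (a + d)) v)
      (v2 := (T ^ (a + 2 * d)) v) (v3 := (T ^ (a + 3 * d)) v)
      (by rw [pow_pow_apply]) (by rw [pow_pow_apply]; congr 2; ring)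
      (by rw [pow_pow_apply]; congr 2; ring) (hM _ (by omega)) (hM _ (by omega))
      (hM _ (by omega)) hcol k
    rw [← pow_mul, mul_comm, pow_mul] at h1
    have h2 : ‖(T ^ k) ^ d‖ ≤ ‖T ^ k‖ ^ d := norm_pow_le' _ hd
    by_contra hcon
    push Not at hcon
    have h3 : ‖T ^ k‖ ^ d < 1 := pow_lt_one₀ (norm_nonneg _) hcon hd.ne'
    linarith
  have hle : ∀ i, i ≤ 17 → ‖(T ^ i) v‖ ≤ 1 := fun i hi =>
    (norm_le_M (𝕜 := 𝕜) (Ω := Ω) (c := c) _).trans_eq (hM i hi)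
  rcases vdw34 (fun i => decide (‖(T ^ i) v‖ = 1)) with ⟨a, d, hd, had, h1, h2, h3⟩ |
    ⟨a, d, hd, had, h1, h2, h3, h4⟩
  · refine key a d hd had (Or.inr ⟨?_, ?_, ?_⟩)
    · exact lt_of_le_of_ne (hle _ (by omega)) (of_decide_eq_false h1)
    · exact lt_of_le_of_ne (hle _ (by omega)) (of_decide_eq_false h2)
    · exact lt_of_le_of_ne (hle _ (by omega)) (of_decide_eq_false h3)
  · exact key a d hd (by omega) (Or.inl ⟨of_decide_eq_true h1, of_decide_eq_true h2,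
      of_decide_eq_true h3, of_decide_eq_true h4⟩)

end

/-- For every `n` there is a norm `M` on `𝕜ⁿ` with the required property. -/
theorem main_euclid (𝕜 : Type*) [RCLike 𝕜] (n : ℕ) :
    ∃ (Ω : Finset (EuclideanSpace 𝕜 (Fin n))) (c : ℝ), 0 < c ∧
      ∀ T : EuclideanSpace 𝕜 (Fin n) →L[𝕜] EuclideanSpace 𝕜 (Fin n),
        (∀ x, M 𝕜 Ω c (T x) ≤ M 𝕜 Ω c x) → ∀ v, M 𝕜 Ω c v = 1 → M 𝕜 Ω c ((T ^ 17) v) = 1 →
        ∀ k, 1 ≤ ‖T ^ k‖ := by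
  have : FiniteDimensional ℝ (EuclideanSpace 𝕜 (Fin n)) := inferInstance
  obtain ⟨Ω, c, s, h, hG⟩ := exists_Omega 𝕜 (EuclideanSpace 𝕜 (Fin n))
  exact ⟨Ω, c, h.hc, fun T hT v hv hv17 k => h.main hG hT hv hv17 k⟩

end Pool.Agent.Helper324.CE
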