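import Pool.Agent.Helper324.CEFin1

/-!
# Final assembly, 2: packaging as normed spaces; spectral radius
-/

open scoped InnerProductSpace ENNReal NNReal TensorProduct
open Filter Topology

namespace Pool.Agent.Helper324.CE

/-- powers bounded below and above: the spectral radius is `1` -/
theorem spectralRadius_eq_one {A : Type*} [NormedRing A] [NormedAlgebra ℂ A] [CompleteSpace A]
    (a : A) {δ D : ℝ} (hδ : 0 < δ) (h1 : ∀ k : ℕ, δ ≤ ‖a ^ k‖) (h2 : ∀ k : ℕ, ‖a ^ k‖ ≤ D) :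
    spectralRadius ℂ a = 1 := by
  have hD : 0 < D := hδ.trans_le ((h1 0).trans (h2 0))
  have hlim : ∀ x : ℝ, 0 < x → Tendsto (fun n : ℕ => x ^ (1 / n : ℝ)) atTop (𝓝 1) := by
    intro x hx
    have h3 : Tendsto (fun n : ℕ => x ^ (1 / n : ℝ)) atTop (𝓝 (x ^ (0 : ℝ))) :=
      tendsto_const_nhds.rpow tendsto_one_div_atTop_nhds_zero_nat (Or.inl hx.ne')
    rwa [Real.rpow_zero] at h3
  have h3 : Tendsto (fun n : ℕ => ‖a ^ n‖ ^ (1 / n : ℝ)) atTop (𝓝 1) := by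
    refine tendsto_of_tendsto_of_tendsto_of_le_of_le (hlim δ hδ) (hlim D hD) ?_ ?_
    · intro n
      exact Real.rpow_le_rpow hδ.le (h1 n) (by positivity)
    · intro n
      exact Real.rpow_le_rpow (norm_nonneg _) (h2 n) (by positivity)
  have h4 := spectrum.pow_norm_pow_one_div_tendsto_nhds_spectralRadius a
  have h5 : Tendsto (fun n : ℕ => ENNReal.ofReal (‖a ^ n‖ ^ (1 / n : ℝ))) atTop
      (𝓝 (ENNReal.ofReal 1)) := (ENNReal.continuous_ofReal.tendsto 1).comp h3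
  rw [ENNReal.ofReal_one] at h5
  exact tendsto_nhds_unique h4 h5

/-- The space `𝕜ⁿ` without a norm. -/
def Vn (𝕜 : Type*) (n : ℕ) : Type _ := Fin n → 𝕜

instance (𝕜 : Type*) [RCLike 𝕜] (n : ℕ) : AddCommGroup (Vn 𝕜 n) :=
  inferInstanceAs (AddCommGroup (Fin n → 𝕜))

instance (𝕜 : Type*) [RCLike 𝕜] (n : ℕ) : Module 𝕜 (Vn 𝕜 n) :=
  inferInstanceAs (Module 𝕜 (Fin n → 𝕜))

/-- the identification with Euclidean space -/
noncomputable def Vn.equiv (𝕜 : Type*) [RCLike 𝕜] (n : ℕ) :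
    Vn 𝕜 n ≃ₗ[𝕜] EuclideanSpace 𝕜 (Fin n) :=
  (WithLp.linearEquiv 2 𝕜 (Fin n → 𝕜)).symm

theorem exists_normed (𝕜 : Type) [RCLike 𝕜] (n : ℕ) (Ω : Finset (EuclideanSpace 𝕜 (Fin n)))
    (c : ℝ) (hc : 0 < c) :
    ∃ (E : Type) (_ : NormedAddCommGroup E) (_ : NormedSpace 𝕜 E)
      (e : E ≃ₗ[𝕜] EuclideanSpace 𝕜 (Fin n)), ∀ x, ‖x‖ = M 𝕜 Ω c (e x) := by
  let _ : Norm (Vn 𝕜 n) := ⟨fun x => M 𝕜 Ω c (Vn.equiv 𝕜 n x)⟩
  have core : NormedSpace.Core 𝕜 (Vn 𝕜 n) :=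
    { norm_nonneg := fun x => M_nonneg _
      norm_smul := fun a x => by
        change M 𝕜 Ω c (Vn.equiv 𝕜 n (a • x)) = ‖a‖ * M 𝕜 Ω c (Vn.equiv 𝕜 n x)
        rw [map_smul, M_smul hc]
      norm_triangle := fun x y => by
        change M 𝕜 Ω c (Vn.equiv 𝕜 n (x + y)) ≤
          M 𝕜 Ω c (Vn.equiv 𝕜 n x) + M 𝕜 Ω c (Vn.equiv 𝕜 n y)
        rw [map_add]
        exact M_add_le hc _ _
      norm_eq_zero_iff := fun x => by
        change M 𝕜 Ω c (Vn.equiv 𝕜 n x) = 0 ↔ x = 0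
        constructor
        · intro h
          have h1 := norm_le_M (𝕜 := 𝕜) (Ω := Ω) (c := c) (Vn.equiv 𝕜 n x)
          rw [h] at h1
          have h2 := norm_le_zero_iff.1 h1
          exact (LinearEquiv.map_eq_zero_iff _).1 h2
        · rintro rfl
          rw [map_zero]
          have := M_smul (𝕜 := 𝕜) (Ω := Ω) hc 0 (0 : EuclideanSpace 𝕜 (Fin n))
          rwa [zero_smul, norm_zero, zero_mul] at this }
  let i1 : NormedAddCommGroup (Vn 𝕜 n) := NormedAddCommGroup.ofCore core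
  let i2 : NormedSpace 𝕜 (Vn 𝕜 n) := NormedSpace.ofCore core
  exact ⟨Vn 𝕜 n, i1, i2, Vn.equiv 𝕜 n, fun x => rfl⟩

section

variable {𝕜 : Type*} [RCLike 𝕜] {E : Type*} [NormedAddCommGroup E] [NormedSpace 𝕜 E]

/-- an operator of norm one on a finite-dimensional space attains its norm -/
theorem exists_norm_attained [FiniteDimensional 𝕜 E] (S : E →L[𝕜] E) (hS : ‖S‖ = 1) :
    ∃ x, ‖x‖ = 1 ∧ ‖S x‖ = 1 := by
  have : ProperSpace E := FiniteDimensional.proper_rclike 𝕜 E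
  have hcomp : IsCompact (Metric.closedBall (0 : E) 1) := isCompact_closedBall _ _
  obtain ⟨x0, hx0, hmax⟩ := hcomp.exists_isMaxOn ⟨0, by simp⟩
    (continuous_norm.comp S.continuous).continuousOn
  have hx0' : ‖x0‖ ≤ 1 := by simpa using hx0
  have hmax' : ∀ y : E, ‖y‖ ≤ 1 → ‖S y‖ ≤ ‖S x0‖ := fun y hy => hmax (by simpa using hy)
  have h1 : ‖S‖ ≤ ‖S x0‖ := by
    refine S.opNorm_le_bound (norm_nonneg _) fun y => ?_
    by_cases hy : y = 0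
    · simp [hy]
    have hy' : 0 < ‖y‖ := norm_pos_iff.2 hy
    have h2 := hmax' (((‖y‖⁻¹ : ℝ) : 𝕜) • y) (by
      rw [norm_smul, RCLike.norm_ofReal, abs_of_pos (inv_pos.2 hy'), inv_mul_cancel₀ hy'.ne'])
    rw [map_smul, norm_smul, RCLike.norm_ofReal, abs_of_pos (inv_pos.2 hy'), inv_mul_eq_div,
      div_le_iff₀ hy'] at h2
    exact h2
  have h2 : ‖S x0‖ ≤ ‖S‖ * ‖x0‖ := S.le_opNorm x0
  rw [hS] at h1 h2
  refine ⟨x0, le_antisymm hx0' (by linarith), le_antisymm (by linarith) h1⟩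

/-- transfer of the Euclidean statement to the normed space -/
theorem transfer {H : Type*} [NormedAddCommGroup H] [InnerProductSpace 𝕜 H]
    [FiniteDimensional 𝕜 H] {Ω : Finset H} {c : ℝ}
    (hmain : ∀ T : H →L[𝕜] H, (∀ x, M 𝕜 Ω c (T x) ≤ M 𝕜 Ω c x) → ∀ v, M 𝕜 Ω c v = 1 →
      M 𝕜 Ω c ((T ^ 17) v) = 1 → ∀ k, 1 ≤ ‖T ^ k‖)
    (e : E ≃ₗ[𝕜] H) (he : ∀ x, ‖x‖ = M 𝕜 Ω c (e x)) (T : E →L[𝕜] E) (hT : ‖T‖ ≤ 1)
    (hT17 : ‖T ^ 17‖ = 1) : ∃ δ : ℝ, 0 < δ ∧ ∀ k : ℕ, δ ≤ ‖T ^ k‖ := by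
  have hfd : FiniteDimensional 𝕜 E := e.symm.finiteDimensional
  obtain ⟨x, hx, hx17⟩ := exists_norm_attained (T ^ 17) hT17
  let eL : E ≃L[𝕜] H := e.toContinuousLinearEquiv
  let T' : H →L[𝕜] H := (eL : E →L[𝕜] H) ∘L T ∘L (eL.symm : H →L[𝕜] E)
  have hpow : ∀ k : ℕ, T' ^ k = (eL : E →L[𝕜] H) ∘L (T ^ k) ∘L (eL.symm : H →L[𝕜] E) := by
    intro k
    induction k with
    | zero =>
      ext y
      change y = eL (eL.symm y)
      rw [ContinuousLinearEquiv.apply_symm_apply]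
    | succ k ih =>
      rw [pow_succ', pow_succ', ih]
      ext y
      change eL (T (eL.symm (eL ((T ^ k) (eL.symm y))))) = eL (T ((T ^ k) (eL.symm y)))
      rw [ContinuousLinearEquiv.symm_apply_apply]
  have hM : ∀ y, M 𝕜 Ω c (T' y) ≤ M 𝕜 Ω c y := by
    intro y
    have h1 : M 𝕜 Ω c (T' y) = ‖T (e.symm y)‖ := (he (T (e.symm y))).symm
    have h2 : M 𝕜 Ω c y = ‖e.symm y‖ := by rw [he, LinearEquiv.apply_symm_apply]
    rw [h1, h2]
    calc ‖T (e.symm y)‖ ≤ ‖T‖ * ‖e.symm y‖ := T.le_opNorm _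
      _ ≤ 1 * ‖e.symm y‖ := by gcongr
      _ = _ := one_mul _
  have hv : M 𝕜 Ω c (e x) = 1 := by rw [← he]; exact hx
  have hv17 : M 𝕜 Ω c ((T' ^ 17) (e x)) = 1 := by
    rw [hpow]
    have h1 : ((eL : E →L[𝕜] H) ∘L (T ^ 17) ∘L (eL.symm : H →L[𝕜] E)) (e x) = e ((T ^ 17) x) := by
      change e ((T ^ 17) (e.symm (e x))) = e ((T ^ 17) x)
      rw [LinearEquiv.symm_apply_apply]
    rw [h1, ← he]
    exact hx17
  have h1 := hmain T' hM (e x) hv hv17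
  set A := ‖(eL : E →L[𝕜] H)‖ * ‖(eL.symm : H →L[𝕜] E)‖ with hA
  have h2 : ∀ k, 1 ≤ A * ‖T ^ k‖ := by
    intro k
    refine (h1 k).trans ?_
    rw [hpow]
    calc ‖(eL : E →L[𝕜] H) ∘L (T ^ k) ∘L (eL.symm : H →L[𝕜] E)‖
        ≤ ‖(eL : E →L[𝕜] H)‖ * (‖T ^ k‖ * ‖(eL.symm : H →L[𝕜] E)‖) :=
          (ContinuousLinearMap.opNorm_comp_le _ _).trans (by
            gcongr; exact ContinuousLinearMap.opNorm_comp_le _ _)
      _ = A * ‖T ^ k‖ := by rw [hA]; ring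
  have hA0 : 0 < A := by
    by_contra hcon
    push Not at hcon
    have h3 := h2 0
    have : A * ‖T ^ 0‖ ≤ 0 := mul_nonpos_of_nonpos_of_nonneg hcon (norm_nonneg _)
    linarith
  refine ⟨A⁻¹, inv_pos.2 hA0, fun k => ?_⟩
  rw [inv_le_iff_one_le_mul₀ hA0, mul_comm]
  exact h2 k

theorem norm_pow_le_one' {T : E →L[𝕜] E} (hT : ‖T‖ ≤ 1) (k : ℕ) : ‖T ^ k‖ ≤ 1 := by
  rcases Nat.eq_zero_or_pos k with rfl | hk
  · rw [pow_zero]
    exact ContinuousLinearMap.norm_id_le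
  · exact (norm_pow_le' T hk).trans (pow_le_one₀ (norm_nonneg _) hT)

end

/-- Complex case. -/
theorem complex_case (n : ℕ) : ∃ (E : Type) (_ : NormedAddCommGroup E) (_ : NormedSpace ℂ E),
    FiniteDimensional ℂ E ∧ Module.finrank ℂ E = n ∧
      ∀ T : E →L[ℂ] E, ‖T‖ ≤ 1 → ‖T ^ 17‖ = 1 → spectralRadius ℂ T = 1 := by
  obtain ⟨Ω, c, hc, hmain⟩ := main_euclid ℂ n
  obtain ⟨E, i1, i2, e, he⟩ := exists_normed ℂ n Ω c hc
  have hfd : FiniteDimensional ℂ E := e.symm.finiteDimensional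
  have : CompleteSpace E := FiniteDimensional.complete ℂ E
  refine ⟨E, i1, i2, hfd, ?_, ?_⟩
  · rw [e.finrank_eq, finrank_euclideanSpace_fin]
  · intro T hT hT17
    obtain ⟨δ, hδ, h1⟩ := transfer hmain e he T hT hT17
    exact spectralRadius_eq_one T hδ h1 (norm_pow_le_one' hT)

end Pool.Agent.Helper324.CE
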