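import Pool.Agent.Helper324.CEFin2

/-!
# Final assembly, 3: the real case
-/

open scoped InnerProductSpace ENNReal NNReal TensorProduct
open Filter Topology

namespace Pool.Agent.Helper324.CE

attribute [local instance] Matrix.linftyOpNormedRing Matrix.linftyOpNormedAlgebra
  Matrix.linftyOpNormedAddCommGroup Matrix.linftyOpNormedSpace

section

variable {E : Type*} [NormedAddCommGroup E] [NormedSpace ℝ E] [FiniteDimensional ℝ E]

/-- complex matrix of a real operator -/
noncomputable def cmat {ι : Type*} [Fintype ι] [DecidableEq ι] (b : Module.Basis ι ℝ E) :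
    (E →L[ℝ] E) →ₗ[ℝ] Matrix ι ι ℂ where
  toFun S := (LinearMap.toMatrix b b (S : E →ₗ[ℝ] E)).map (algebraMap ℝ ℂ)
  map_add' S S' := by
    ext i j
    simp
  map_smul' r S := by
    ext i j
    simp

omit [FiniteDimensional ℝ E] in
theorem cmat_inj {ι : Type*} [Fintype ι] [DecidableEq ι] (b : Module.Basis ι ℝ E) :
    Function.Injective (cmat b) := by
  intro S S' h
  have h1 : LinearMap.toMatrix b b (S : E →ₗ[ℝ] E) = LinearMap.toMatrix b b (S' : E →ₗ[ℝ] E) := by
    ext i j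
    have := congrFun (congrFun h i) j
    exact Complex.ofReal_injective this
  have h2 := (LinearMap.toMatrix b b).injective h1
  exact ContinuousLinearMap.coe_injective h2

omit [FiniteDimensional ℝ E] in
theorem cmat_pow {ι : Type*} [Fintype ι] [DecidableEq ι] (b : Module.Basis ι ℝ E)
    (S : E →L[ℝ] E) (k : ℕ) : cmat b (S ^ k) = (cmat b S) ^ k := by
  have hmul : ∀ A B : E →L[ℝ] E, cmat b (A * B) = cmat b A * cmat b B := by
    intro A B
    change (LinearMap.toMatrix b b ((A : E →ₗ[ℝ] E) * (B : E →ₗ[ℝ] E))).map (algebraMap ℝ ℂ) =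
      (LinearMap.toMatrix b b (A : E →ₗ[ℝ] E)).map (algebraMap ℝ ℂ) *
      (LinearMap.toMatrix b b (B : E →ₗ[ℝ] E)).map (algebraMap ℝ ℂ)
    rw [LinearMap.toMatrix_mul, Matrix.map_mul]
  induction k with
  | zero =>
    change (LinearMap.toMatrix b b (LinearMap.id : E →ₗ[ℝ] E)).map (algebraMap ℝ ℂ) = 1
    rw [LinearMap.toMatrix_id]
    ext i j
    by_cases hij : i = j
    · subst hij; simp
    · simp [hij]
  | succ k ih => rw [pow_succ, pow_succ, hmul, ih]

omit [FiniteDimensional ℝ E] in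
theorem spectralRadius_baseChange {ι : Type*} [Fintype ι] [DecidableEq ι]
    (b : Module.Basis ι ℝ E) (S : E →L[ℝ] E) :
    spectralRadius ℂ (LinearMap.baseChange ℂ (S : E →ₗ[ℝ] E)) = spectralRadius ℂ (cmat b S) := by
  have h1 : cmat b S =
      LinearMap.toMatrixAlgEquiv (Algebra.TensorProduct.basis ℂ b)
        (LinearMap.baseChange ℂ (S : E →ₗ[ℝ] E)) := by
    change (LinearMap.toMatrix b b (S : E →ₗ[ℝ] E)).map (algebraMap ℝ ℂ) = _
    rw [← LinearMap.toMatrix_baseChange]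
    rfl
  unfold spectralRadius
  rw [h1, AlgEquiv.spectrum_eq]

theorem real_radius (T : E →L[ℝ] E) (hT : ‖T‖ ≤ 1) {δ : ℝ} (hδ : 0 < δ)
    (h : ∀ k : ℕ, δ ≤ ‖T ^ k‖) :
    spectralRadius ℂ (LinearMap.baseChange ℂ (T : E →ₗ[ℝ] E)) = 1 := by
  classical
  let b := Module.finBasis ℝ E
  rw [spectralRadius_baseChange b]
  have hinj := cmat_inj b
  have hcont : Continuous (cmat b) := (cmat b).continuous_of_finiteDimensional
  obtain ⟨K, hK0, hK⟩ := (cmat b).injective_iff_antilipschitz.mp hinj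
  have h1 : ∀ S : E →L[ℝ] E, ‖S‖ ≤ K * ‖cmat b S‖ := by
    intro S
    have := hK.le_mul_dist S 0
    rwa [map_zero, dist_zero_right, dist_zero_right] at this
  have hK0' : (0 : ℝ) < K := by exact_mod_cast hK0
  -- upper bound by compactness
  obtain ⟨D, hD⟩ : ∃ D : ℝ, ∀ k : ℕ, ‖cmat b (T ^ k)‖ ≤ D := by
    have hfd : FiniteDimensional ℝ (E →L[ℝ] E) := inferInstance
    have hprop : ProperSpace (E →L[ℝ] E) := FiniteDimensional.proper ℝ _
    have hcomp : IsCompact (Metric.closedBall (0 : E →L[ℝ] E) 1) := isCompact_closedBall _ _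
    obtain ⟨S0, -, hmax⟩ := hcomp.exists_isMaxOn ⟨0, by simp⟩
      (continuous_norm.comp hcont).continuousOn
    exact ⟨‖cmat b S0‖, fun k => hmax (by simpa using norm_pow_le_one' hT k)⟩
  refine spectralRadius_eq_one (cmat b T) (δ := δ / K) (D := D) (by positivity) ?_ ?_
  · intro k
    rw [← cmat_pow, div_le_iff₀ hK0', mul_comm]
    exact (h k).trans (h1 _)
  · intro k
    rw [← cmat_pow]
    exact hD k

end

/-- Real case. -/
theorem real_case (n : ℕ) : ∃ (E : Type) (_ : NormedAddCommGroup E) (_ : NormedSpace ℝ E),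
    FiniteDimensional ℝ E ∧ Module.finrank ℝ E = n ∧
      ∀ T : E →L[ℝ] E, ‖T‖ ≤ 1 → ‖T ^ 17‖ = 1 →
        spectralRadius ℂ (LinearMap.baseChange ℂ (T : E →ₗ[ℝ] E)) = 1 := by
  obtain ⟨Ω, c, hc, hmain⟩ := main_euclid ℝ n
  obtain ⟨E, i1, i2, e, he⟩ := exists_normed ℝ n Ω c hc
  have hfd : FiniteDimensional ℝ E := e.symm.finiteDimensional
  refine ⟨E, i1, i2, hfd, ?_, ?_⟩
  · rw [e.finrank_eq, finrank_euclideanSpace_fin]
  · intro T hT hT17
    obtain ⟨δ, hδ, h1⟩ := transfer hmain e he T hT hT17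
    exact real_radius T hT hδ h1

end Pool.Agent.Helper324.CE
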