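import Pool.Agent.Helper324.CERand
import Pool.Agent.Helper324.CEDet7

/-!
# The random construction, with larger separation of the caps
-/

open scoped InnerProductSpace
open Module Filter Topology

namespace Pool.Agent.Helper324.CE

/-- choice of the size parameter -/
theorem exists_size8 (m L : ℕ) : ∃ n : ℕ, 1 ≤ n ∧
    (1 + 150000 * (n : ℝ)) ^ m * (1 - (1 / 2) ^ L) ^ n < 1 := by
  have hq0 : (0 : ℝ) ≤ 1 - (1 / 2) ^ L := by
    have : (1 / 2 : ℝ) ^ L ≤ 1 := pow_le_one₀ (by norm_num) (by norm_num)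
    linarith
  have hq1 : (1 : ℝ) - (1 / 2) ^ L < 1 := by
    have : (0 : ℝ) < (1 / 2) ^ L := by positivity
    linarith
  have h1 : Tendsto (fun n : ℕ => (n : ℝ) ^ m * (1 - (1 / 2 : ℝ) ^ L) ^ n) atTop (𝓝 0) :=
    tendsto_pow_const_mul_const_pow_of_abs_lt_one m (by rw [abs_of_nonneg hq0]; exact hq1)
  have h2 : ∀ᶠ n : ℕ in atTop, (n : ℝ) ^ m * (1 - (1 / 2 : ℝ) ^ L) ^ n < 1 / 150001 ^ m :=
    h1.eventually (gt_mem_nhds (by positivity))
  obtain ⟨n, hn, hn1⟩ := (h2.and (eventually_ge_atTop 1)).exists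
  refine ⟨n, hn1, ?_⟩
  have hn1' : (1 : ℝ) ≤ n := by exact_mod_cast hn1
  have h3 : (1 + 150000 * (n : ℝ)) ^ m ≤ 150001 ^ m * (n : ℝ) ^ m := by
    rw [← mul_pow]
    gcongr
    linarith
  calc (1 + 150000 * (n : ℝ)) ^ m * (1 - (1 / 2 : ℝ) ^ L) ^ n
      ≤ 150001 ^ m * (n : ℝ) ^ m * (1 - (1 / 2 : ℝ) ^ L) ^ n := by gcongr
    _ = 150001 ^ m * ((n : ℝ) ^ m * (1 - (1 / 2 : ℝ) ^ L) ^ n) := by ring
    _ < 150001 ^ m * (1 / 150001 ^ m) := by gcongr
    _ = 1 := by field_simp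

variable {𝕜 : Type*} [RCLike 𝕜] {E : Type*} [NormedAddCommGroup E] [InnerProductSpace 𝕜 E]

variable [NormedSpace ℝ E] [FiniteDimensional ℝ E]

theorem exists_Omega8 (𝕜 : Type*) [RCLike 𝕜] (E : Type*) [NormedAddCommGroup E]
    [InnerProductSpace 𝕜 E] [NormedSpace ℝ E] [FiniteDimensional ℝ E] :
    ∃ (Ω : Finset E) (c s : ℝ), Adm 𝕜 Ω c s ∧ GP 𝕜 Ω s ∧ s ≤ 1 / 100 ∧
      ∀ ω ∈ Ω, ∀ ω' ∈ Ω, Cl 𝕜 (8 * s) ω ω' → ω = ω' := by
  classical
  let F := (Fin 2 → E) × (Fin 2 → E) × (Fin 2 → E)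
  set m1 := finrank ℝ F with hm1
  set L1 : ℕ := 1801 ^ finrank ℝ E with hL1
  obtain ⟨K0, hK0, hcount⟩ := exists_size8 m1 (2 * L1)
  set K : ℕ := 3 * K0 with hK
  have hK0' : (1 : ℝ) ≤ K0 := by exact_mod_cast hK0
  have hKr : (K : ℝ) = 3 * K0 := by rw [hK]; push_cast; ring
  set s : ℝ := 1 / (250 * K) with hs
  have hKpos : (0 : ℝ) < K := by rw [hKr]; linarith
  have hs0 : 0 < s := by positivity
  have hs1 : s ≤ 1 / 100 := by
    rw [hs]
    rw [div_le_div_iff₀ (by positivity) (by norm_num)]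
    rw [hKr]; linarith
  have hsK : 1 / (5 * (K : ℝ)) = 50 * s := by rw [hs]; field_simp; norm_num
  -- the set of triples and its net
  set T : Set F := {X | ∃ h, Trip 𝕜 X.1 X.2.1 X.2.2 h} with hT
  have hTn : ∀ X ∈ T, ‖X‖ ≤ 1 := by
    rintro X ⟨h, H⟩
    rw [Prod.norm_def, Prod.norm_def]
    refine max_le ?_ (max_le ?_ ?_)
    · exact (pi_norm_le_iff_of_nonneg zero_le_one).2 fun i => (H.ha.1 i).le
    · exact (pi_norm_le_iff_of_nonneg zero_le_one).2 fun i => (H.ha'.1 i).le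
    · exact (pi_norm_le_iff_of_nonneg zero_le_one).2 fun i => H.V_le i
  have hδ : 0 < s / 100 := by positivity
  obtain ⟨𝒩, h𝒩T, h𝒩cov, h𝒩card⟩ := exists_net T hδ zero_le_one hTn
  -- candidates
  obtain ⟨I, hI1, hI2, hI3⟩ := exists_candidates 𝕜 E hδ
  -- targets
  have htgt : ∀ X : F, ∀ i : Fin K, ∃ a : E, X ∈ T →
      a ∈ I ∧ Cl 𝕜 (s / 100) (tauh 𝕜 (tt K i) s X.2.1 X.2.2) a := by
    intro X i
    by_cases hX : X ∈ T
    · obtain ⟨h, H⟩ := hX
      obtain ⟨a, ha, h2⟩ := hI3 _ (H.tauh_norm (tt_nonneg K i) (tt_le K i) hs0 hs1)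
      exact ⟨a, fun _ => ⟨ha, h2⟩⟩
    · exact ⟨0, fun h => absurd h hX⟩
  choose tgt htgt' using htgt
  -- independent index sets
  have hJ : ∀ X : F, ∃ J : Finset (Fin K), X ∈ T →
      (∀ i ∈ J, ∀ j ∈ J, i ≠ j → ¬ Cl 𝕜 (19 * s) (comb 𝕜 (tt K i) X.2.1) (comb 𝕜 (tt K j) X.1)) ∧
      Fintype.card (Fin K) ≤ 3 * J.card := by
    intro X
    by_cases hX : X ∈ T
    · obtain ⟨h, H⟩ := hX
      obtain ⟨J, hJ1, hJ2⟩ := exists_indep
        (fun i j => Cl 𝕜 (19 * s) (comb 𝕜 (tt K i) X.2.1) (comb 𝕜 (tt K j) X.1))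
        (by
          intro i j j' h1 h2
          by_contra hne
          have h3 := comb_sep (tt_nonneg K j) (tt_le K j) (tt_nonneg K j') (tt_le K j') H.ha
            (h1.symm.trans h2)
          have h4 := tt_sep K j j' hne
          rw [hsK] at h4
          linarith)
        (by
          intro i i' j h1 h2
          by_contra hne
          have h3 := comb_sep (tt_nonneg K i) (tt_le K i) (tt_nonneg K i') (tt_le K i') H.ha'
            (h1.trans h2.symm)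
          have h4 := tt_sep K i i' hne
          rw [hsK] at h4
          linarith)
      exact ⟨J, fun _ => ⟨hJ1, hJ2⟩⟩
    · exact ⟨∅, fun h => absurd h hX⟩
  choose J hJ' using hJ
  -- neighbourhoods
  let N : F → Fin K → Finset {a // a ∈ I} := fun X i => Finset.univ.filter fun a =>
    Cl 𝕜 (9 * s) (a : E) (tauh 𝕜 (tt K i) s X.2.1 X.2.2) ∨
      Cl 𝕜 (9 * s) (a : E) (comb 𝕜 (tt K i) X.1)
  let p : F → Fin K → {a // a ∈ I} → Bool := fun X i a => decide ((a : E) = tgt X i)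
  have hloc : ∀ x : E, (I.filter fun a => Cl 𝕜 (9 * s) a x).card ≤ L1 := by
    intro x
    have h1 := local_count (𝕜 := 𝕜) hδ (by positivity : (0 : ℝ) ≤ 9 * s) I hI2 x
      (I.filter fun a => Cl 𝕜 (9 * s) a x) (Finset.filter_subset _ _)
      (fun a ha => (Finset.mem_filter.1 ha).2)
    have h2 : (1 + 2 * (9 * s) / (s / 100)) = 1801 := by
      field_simp; norm_num
    rw [h2] at h1
    exact_mod_cast h1
  have hNL : ∀ X ∈ 𝒩, ∀ i ∈ J X, (N X i).card ≤ 2 * L1 := by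
    intro X _ i _
    have h1 : (N X i).card ≤ ((I.filter fun a => Cl 𝕜 (9 * s) a (tauh 𝕜 (tt K i) s X.2.1 X.2.2)) ∪
        (I.filter fun a => Cl 𝕜 (9 * s) a (comb 𝕜 (tt K i) X.1))).card := by
      refine Finset.card_le_card_of_injOn (fun a => (a : E)) ?_ ?_
      · intro a ha
        rw [Finset.mem_coe, Finset.mem_filter] at ha
        rw [Finset.mem_coe, Finset.mem_union, Finset.mem_filter, Finset.mem_filter]
        rcases ha.2 with h | h
        · exact Or.inl ⟨a.2, h⟩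
        · exact Or.inr ⟨a.2, h⟩
      · intro a _ b _ hab
        exact Subtype.ext hab
    refine h1.trans ((Finset.card_union_le _ _).trans ?_)
    have := hloc (tauh 𝕜 (tt K i) s X.2.1 X.2.2)
    have := hloc (comb 𝕜 (tt K i) X.1)
    omega
  have hdisj : ∀ X ∈ 𝒩, ∀ i ∈ J X, ∀ j ∈ J X, i ≠ j → Disjoint (N X i) (N X j) := by
    intro X hX i hi j hj hij
    have hXT : X ∈ T := h𝒩T hX
    obtain ⟨hJ1, -⟩ := hJ' X hXT
    obtain ⟨h, H⟩ := hXT
    have hti : ∀ k : Fin K, Cl 𝕜 (s / 2) (tauh 𝕜 (tt K k) s X.2.1 X.2.2)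
        (comb 𝕜 (tt K k) X.2.1) := fun k =>
      Cl.of_norm (H.tauh_sub (tt_nonneg K k) (tt_le K k) hs0 hs1)
    rw [Finset.disjoint_left]
    intro a h1 h2
    rw [Finset.mem_filter] at h1 h2
    have h4 := tt_sep K i j hij
    rw [hsK] at h4
    rcases h1.2 with h1 | h1 <;> rcases h2.2 with h2 | h2
    · have h3 := ((hti i).symm.trans h1.symm).trans (h2.trans (hti j))
      have h5 := comb_sep (tt_nonneg K i) (tt_le K i) (tt_nonneg K j) (tt_le K j) H.ha' h3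
      linarith
    · have h3 := ((hti i).symm.trans h1.symm).trans h2
      exact hJ1 i hi j hj hij (h3.mono (by linarith))
    · have h3 := ((hti j).symm.trans h2.symm).trans h1
      exact hJ1 j hj i hi hij.symm (h3.mono (by linarith))
    · have h3 := h1.symm.trans h2
      have h5 := comb_sep (tt_nonneg K i) (tt_le K i) (tt_nonneg K j) (tt_le K j) H.ha h3
      linarith
  have hJm : ∀ X ∈ 𝒩, K0 ≤ (J X).card := by
    intro X hX
    obtain ⟨-, h1⟩ := hJ' X (h𝒩T hX)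
    rw [Fintype.card_fin] at h1
    omega
  have hcount' : (𝒩.card : ℝ) * (1 - (1 / 2) ^ (2 * L1)) ^ K0 < 1 := by
    have h1 : (1 + 2 * 1 / (s / 100)) = 1 + 150000 * (K0 : ℝ) := by
      rw [hs, hKr]
      have : (K0 : ℝ) ≠ 0 := by positivity
      field_simp
      norm_num
      ring
    rw [h1] at h𝒩card
    have hq0 : (0 : ℝ) ≤ 1 - (1 / 2) ^ (2 * L1) := by
      have : (1 / 2 : ℝ) ^ (2 * L1) ≤ 1 := pow_le_one₀ (by norm_num) (by norm_num)
      linarith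
    calc (𝒩.card : ℝ) * (1 - (1 / 2) ^ (2 * L1)) ^ K0
        ≤ (1 + 150000 * (K0 : ℝ)) ^ m1 * (1 - (1 / 2) ^ (2 * L1)) ^ K0 := by gcongr
      _ < 1 := hcount
  obtain ⟨β, hβ⟩ := exists_good_colouring 𝒩 J N p (2 * L1) K0 hdisj hNL hJm hcount'
  -- the set `Ω`
  set βe : E → Bool := fun a => if h : a ∈ I then β ⟨a, h⟩ else false with hβe
  have hβeI : ∀ a (ha : a ∈ I), βe a = β ⟨a, ha⟩ := fun a ha => by simp [hβe, ha]
  set Ω : Finset E := I.filter fun a => βe a = true ∧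
    ∀ a' ∈ I, a' ≠ a → Cl 𝕜 (8 * s) a' a → βe a' = false with hΩ
  have hΩI : ∀ a ∈ Ω, a ∈ I := fun a ha => (Finset.mem_filter.1 ha).1
  have hc0 : 0 < 1 - s ^ 2 := by nlinarith
  have hAdm : Adm 𝕜 Ω (Real.sqrt (1 - s ^ 2)) s := by
    refine ⟨Real.sqrt_pos.2 hc0, hs0, ?_, fun ω hω => hI1 ω (hΩI ω hω), ?_⟩
    · rw [Real.sq_sqrt hc0.le]; ring
    · intro ω hω ω' hω' hne
      have h1 : ¬ Cl 𝕜 (8 * s) ω ω' := by
        intro hcl
        have h2 := (Finset.mem_filter.1 hω').2.2 ω (hΩI ω hω) hne hcl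
        have h3 := (Finset.mem_filter.1 hω).2.1
        rw [h2] at h3
        exact absurd h3 (by decide)
      have h2 := inner_lt_of_not_cl (by positivity) (hI1 ω (hΩI ω hω)) (hI1 ω' (hΩI ω' hω')) h1
      nlinarith [sq_nonneg s]
  -- verification for triples
  have hmain : ∀ a a' V : Fin 2 → E, ∀ h : ℝ, Trip 𝕜 a a' V h →
      ∃ ω ∈ Ω, 1 - s ^ 2 / 4 ≤ en 𝕜 a' ω ∧ en 𝕜 a ω ≤ en 𝕜 a' ω ∧
      ∀ ω' ∈ Ω, ∀ μ : 𝕜, ‖μ‖ = 1 → ‖μ • ω' - ∑ i, ⟪a' i, ω⟫_𝕜 • a i‖ ≤ 3 / 4 * s →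
        ω' = ω := by
    intro a a' V h H
    obtain ⟨Y, hY, hXY⟩ := h𝒩cov (a, a', V) ⟨h, H⟩
    have hYT : Y ∈ T := h𝒩T hY
    obtain ⟨i, hi, hpat⟩ := hβ Y hY
    obtain ⟨htI, htcl⟩ := htgt' Y i hYT
    obtain ⟨h', H'⟩ := hYT
    have d1 : ‖a - Y.1‖ ≤ s / 100 := by
      have := norm_fst_le ((a, a', V) - Y)
      exact this.trans hXY.le
    have d23 : ‖((a', V) : (Fin 2 → E) × (Fin 2 → E)) - Y.2‖ ≤ s / 100 := by
      have := norm_snd_le ((a, a', V) - Y)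
      exact this.trans hXY.le
    have d2 : ‖a' - Y.2.1‖ ≤ s / 100 :=
      (norm_fst_le (((a', V) : (Fin 2 → E) × (Fin 2 → E)) - Y.2)).trans d23
    have d3 : ‖V - Y.2.2‖ ≤ s / 100 :=
      (norm_snd_le (((a', V) : (Fin 2 → E) × (Fin 2 → E)) - Y.2)).trans d23
    set ω := tgt Y i with hω
    have hωn : ‖ω‖ = 1 := hI1 ω htI
    obtain ⟨v1, v2, v3⟩ := verify H H' (tt_nonneg K i) (tt_le K i) hs0 hs1
      (fun j => (norm_le_pi_norm (a - Y.1) j).trans d1)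
      (fun j => (norm_le_pi_norm (a' - Y.2.1) j).trans d2)
      (fun j => (norm_le_pi_norm (V - Y.2.2) j).trans d3) hωn htcl.symm
    have hpat' : ∀ b (hb : b ∈ I), (Cl 𝕜 (9 * s) b (tauh 𝕜 (tt K i) s Y.2.1 Y.2.2) ∨
        Cl 𝕜 (9 * s) b (comb 𝕜 (tt K i) Y.1)) → βe b = decide (b = ω) := by
      intro b hb hbcl
      rw [hβeI b hb]
      exact hpat ⟨b, hb⟩ (Finset.mem_filter.2 ⟨Finset.mem_univ _, hbcl⟩)
    have hωΩ : ω ∈ Ω := by
      rw [hΩ, Finset.mem_filter]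
      refine ⟨htI, ?_, ?_⟩
      · rw [hpat' ω htI (Or.inl (htcl.symm.mono (by linarith)))]
        simp
      · intro b hb hbne hbcl
        rw [hpat' b hb (Or.inl ((hbcl.trans htcl.symm).mono (by linarith)))]
        simpa using hbne
    refine ⟨ω, hωΩ, v1, v2, ?_⟩
    intro ω' hω' μ hμ hle
    have h1 := (v3 ω' μ hμ hle).mono (by linarith : 3 * s ≤ 9 * s)
    have h2 := hpat' ω' (hΩI ω' hω') (Or.inr h1)
    have h3 := (Finset.mem_filter.1 hω').2.1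
    rw [h3] at h2
    simpa using h2.symm
  refine ⟨Ω, Real.sqrt (1 - s ^ 2), s, hAdm, ?_, hs1, ?_⟩
  swap
  · intro ω hω ω' hω' hcl
    by_contra hne
    have h2 := (Finset.mem_filter.1 hω').2.2 ω (hΩI ω hω) hne hcl
    have h3 := (Finset.mem_filter.1 hω).2.1
    rw [h2] at h3
    exact absurd h3 (by decide)
  intro a a' ha ha' hne
  rcases exists_trip ha ha' hne with ⟨V, h, H⟩ | ⟨V, h, H⟩
  · exact hmain a a' V h H
  · obtain ⟨ω, hω, h1, h2, h3⟩ := hmain _ _ V h H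
    have e1 : ∀ (b : Fin 2 → E) (x : E), en 𝕜 ![b 1, b 0] x = en 𝕜 b x := by
      intro b x
      unfold en
      simp only [Fin.sum_univ_two, Matrix.cons_val_zero, Matrix.cons_val_one]
      rw [add_comm]
    rw [e1] at h1 h2
    rw [e1] at h2
    refine ⟨ω, hω, h1, h2, ?_⟩
    intro ω' hω' μ hμ hle
    refine h3 ω' hω' μ hμ ?_
    simp only [Fin.sum_univ_two, Matrix.cons_val_zero, Matrix.cons_val_one] at hle ⊢
    rwa [add_comm (⟪a' 1, ω⟫_𝕜 • a 1)]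

end Pool.Agent.Helper324.CE
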