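import Pool.Agent.Helper324.CEFin3
import Pool.Agent.Helper324.CERand8

/-!
# Final assembly, 4: critical exponent at most four
-/

open scoped InnerProductSpace ENNReal NNReal TensorProduct
open Filter Topology

namespace Pool.Agent.Helper324.CE

/-- For every `n` there is a norm `M` on `𝕜ⁿ` with the required property (exponent `4`). -/
theorem main_euclid4 (𝕜 : Type*) [RCLike 𝕜] (n : ℕ) :
    ∃ (Ω : Finset (EuclideanSpace 𝕜 (Fin n))) (c : ℝ), 0 < c ∧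
      ∀ T : EuclideanSpace 𝕜 (Fin n) →L[𝕜] EuclideanSpace 𝕜 (Fin n),
        (∀ x, M 𝕜 Ω c (T x) ≤ M 𝕜 Ω c x) → ∀ v, M 𝕜 Ω c v = 1 → M 𝕜 Ω c ((T ^ 4) v) = 1 →
        ∀ k, 1 ≤ ‖T ^ k‖ := by
  have : FiniteDimensional ℝ (EuclideanSpace 𝕜 (Fin n)) := inferInstance
  obtain ⟨Ω, c, s, h, hG, hs1, hsep⟩ := exists_Omega8 𝕜 (EuclideanSpace 𝕜 (Fin n))
  exact ⟨Ω, c, h.hc, fun T hT v hv hv4 k => h.main4 hG hs1 hsep hT hv hv4 k⟩

section

variable {𝕜 : Type*} [RCLike 𝕜] {E : Type*} [NormedAddCommGroup E] [NormedSpace 𝕜 E]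

/-- transfer of the Euclidean statement to the normed space -/
theorem transferq {H : Type*} [NormedAddCommGroup H] [InnerProductSpace 𝕜 H]
    [FiniteDimensional 𝕜 H] {Ω : Finset H} {c : ℝ} (q : ℕ)
    (hmain : ∀ T : H →L[𝕜] H, (∀ x, M 𝕜 Ω c (T x) ≤ M 𝕜 Ω c x) → ∀ v, M 𝕜 Ω c v = 1 →
      M 𝕜 Ω c ((T ^ q) v) = 1 → ∀ k, 1 ≤ ‖T ^ k‖)
    (e : E ≃ₗ[𝕜] H) (he : ∀ x, ‖x‖ = M 𝕜 Ω c (e x)) (T : E →L[𝕜] E) (hT : ‖T‖ ≤ 1)
    (hT17 : ‖T ^ q‖ = 1) : ∃ δ : ℝ, 0 < δ ∧ ∀ k : ℕ, δ ≤ ‖T ^ k‖ := by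
  have hfd : FiniteDimensional 𝕜 E := e.symm.finiteDimensional
  obtain ⟨x, hx, hx17⟩ := exists_norm_attained (T ^ q) hT17
  let eL : E ≃L[𝕜] H := e.toContinuousLinearEquiv
  let T' : H →L[𝕜] H := (eL : E →L[𝕜] H) ∘L T ∘L (eL.symm : H →L[𝕜] E)
  have hpow : ∀ k : ℕ, T' ^ k = (eL : E →L[𝕜] H) ∘L (T ^ k) ∘L (eL.symm : H →L[𝕜] E) := by
    intro k
    induction k with
    | zero =>
      ext y
      change y = eL (eL.symm y)
      rw [ContinuousLinearEquiv.apply_symm_apply]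
    | succ k ih =>
      rw [pow_succ', pow_succ', ih]
      ext y
      change eL (T (eL.symm (eL ((T ^ k) (eL.symm y))))) = eL (T ((T ^ k) (eL.symm y)))
      rw [ContinuousLinearEquiv.symm_apply_apply]
  have hM : ∀ y, M 𝕜 Ω c (T' y) ≤ M 𝕜 Ω c y := by
    intro y
    have h1 : M 𝕜 Ω c (T' y) = ‖T (e.symm y)‖ := (he (T (e.symm y))).symm
    have h2 : M 𝕜 Ω c y = ‖e.symm y‖ := by rw [he, LinearEquiv.apply_symm_apply]
    rw [h1, h2]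
    calc ‖T (e.symm y)‖ ≤ ‖T‖ * ‖e.symm y‖ := T.le_opNorm _
      _ ≤ 1 * ‖e.symm y‖ := by gcongr
      _ = _ := one_mul _
  have hv : M 𝕜 Ω c (e x) = 1 := by rw [← he]; exact hx
  have hv17 : M 𝕜 Ω c ((T' ^ q) (e x)) = 1 := by
    rw [hpow]
    have h1 : ((eL : E →L[𝕜] H) ∘L (T ^ q) ∘L (eL.symm : H →L[𝕜] E)) (e x) = e ((T ^ q) x) := by
      change e ((T ^ q) (e.symm (e x))) = e ((T ^ q) x)
      rw [LinearEquiv.symm_apply_apply]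
    rw [h1, ← he]
    exact hx17
  have h1 := hmain T' hM (e x) hv hv17
  set A := ‖(eL : E →L[𝕜] H)‖ * ‖(eL.symm : H →L[𝕜] E)‖ with hA
  have h2 : ∀ k, 1 ≤ A * ‖T ^ k‖ := by
    intro k
    refine (h1 k).trans ?_
    rw [hpow]
    calc ‖(eL : E →L[𝕜] H) ∘L (T ^ k) ∘L (eL.symm : H →L[𝕜] E)‖
        ≤ ‖(eL : E →L[𝕜] H)‖ * (‖T ^ k‖ * ‖(eL.symm : H →L[𝕜] E)‖) :=
          (ContinuousLinearMap.opNorm_comp_le _ _).trans (by
            gcongr; exact ContinuousLinearMap.opNorm_comp_le _ _)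
      _ = A * ‖T ^ k‖ := by rw [hA]; ring
  have hA0 : 0 < A := by
    by_contra hcon
    push Not at hcon
    have h3 := h2 0
    have : A * ‖T ^ 0‖ ≤ 0 := mul_nonpos_of_nonpos_of_nonneg hcon (norm_nonneg _)
    linarith
  refine ⟨A⁻¹, inv_pos.2 hA0, fun k => ?_⟩
  rw [inv_le_iff_one_le_mul₀ hA0, mul_comm]
  exact h2 k

end

/-- Complex case. -/
theorem complex_case4 (n : ℕ) : ∃ (E : Type) (_ : NormedAddCommGroup E) (_ : NormedSpace ℂ E),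
    FiniteDimensional ℂ E ∧ Module.finrank ℂ E = n ∧
      ∀ T : E →L[ℂ] E, ‖T‖ ≤ 1 → ‖T ^ 4‖ = 1 → spectralRadius ℂ T = 1 := by
  obtain ⟨Ω, c, hc, hmain⟩ := main_euclid4 ℂ n
  obtain ⟨E, i1, i2, e, he⟩ := exists_normed ℂ n Ω c hc
  have hfd : FiniteDimensional ℂ E := e.symm.finiteDimensional
  have : CompleteSpace E := FiniteDimensional.complete ℂ E
  refine ⟨E, i1, i2, hfd, ?_, ?_⟩
  · rw [e.finrank_eq, finrank_euclideanSpace_fin]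
  · intro T hT hT4
    obtain ⟨δ, hδ, h1⟩ := transferq 4 hmain e he T hT hT4
    exact spectralRadius_eq_one T hδ h1 (norm_pow_le_one' hT)

/-- Real case. -/
theorem real_case4 (n : ℕ) : ∃ (E : Type) (_ : NormedAddCommGroup E) (_ : NormedSpace ℝ E),
    FiniteDimensional ℝ E ∧ Module.finrank ℝ E = n ∧
      ∀ T : E →L[ℝ] E, ‖T‖ ≤ 1 → ‖T ^ 4‖ = 1 →
        spectralRadius ℂ (LinearMap.baseChange ℂ (T : E →ₗ[ℝ] E)) = 1 := by
  obtain ⟨Ω, c, hc, hmain⟩ := main_euclid4 ℝ n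
  obtain ⟨E, i1, i2, e, he⟩ := exists_normed ℝ n Ω c hc
  have hfd : FiniteDimensional ℝ E := e.symm.finiteDimensional
  refine ⟨E, i1, i2, hfd, ?_, ?_⟩
  · rw [e.finrank_eq, finrank_euclideanSpace_fin]
  · intro T hT hT4
    obtain ⟨δ, hδ, h1⟩ := transferq 4 hmain e he T hT hT4
    exact real_radius T hT hδ h1

end Pool.Agent.Helper324.CE
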