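import Pool.Agent.Helper324.CEDet6
import Pool.Agent.Helper324.CENet

/-!
# Geometry of the random construction, 1
-/

open scoped InnerProductSpace

namespace Pool.Agent.Helper324.CE

/-- normalising factor -/
noncomputable def rho (t : ℝ) : ℝ := (Real.sqrt (1 + t ^ 2))⁻¹

theorem rho_pos (t : ℝ) : 0 < rho t := by
  unfold rho
  have : 0 < Real.sqrt (1 + t ^ 2) := Real.sqrt_pos.2 (by positivity)
  positivity

theorem rho_sq (t : ℝ) : rho t ^ 2 * (1 + t ^ 2) = 1 := by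
  unfold rho
  rw [inv_pow, Real.sq_sqrt (by positivity)]
  field_simp

theorem rho_le_one (t : ℝ) : rho t ≤ 1 := by
  have h1 := rho_sq t
  have h2 := rho_pos t
  by_contra h
  push Not at h
  nlinarith [sq_nonneg t, mul_pos h2 h2, sq_nonneg (rho t * t)]

theorem rho_ge {t : ℝ} (h0 : 0 ≤ t) (h1 : t ≤ 1 / 5) : 49 / 50 ≤ rho t := by
  have h2 := rho_sq t
  have h3 := rho_pos t
  by_contra h
  push Not at h
  have h4 : rho t ^ 2 < (49 / 50) ^ 2 := by gcongr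
  have h5 : t ^ 2 ≤ (1 / 5) ^ 2 := by gcongr
  nlinarith [sq_nonneg (rho t)]

variable {𝕜 : Type*} [RCLike 𝕜] {E : Type*} [NormedAddCommGroup E] [InnerProductSpace 𝕜 E]

/-- the vector `A z`, `z = (1, t) / √(1 + t²)` -/
noncomputable def comb (𝕜 : Type*) [RCLike 𝕜] {E : Type*} [NormedAddCommGroup E]
    [InnerProductSpace 𝕜 E] (t : ℝ) (x : Fin 2 → E) : E :=
  ((rho t : ℝ) : 𝕜) • (x 0 + (t : 𝕜) • x 1)

theorem comb_sub (t : ℝ) (x y : Fin 2 → E) :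
    comb 𝕜 t x - comb 𝕜 t y = comb 𝕜 t (fun i => x i - y i) := by
  unfold comb
  rw [← smul_sub]
  congr 1
  simp only [smul_sub]
  abel

theorem comb_norm_le {t : ℝ} (h0 : 0 ≤ t) (h1 : t ≤ 1 / 5) {x : Fin 2 → E} {δ : ℝ}
    (hx : ∀ i, ‖x i‖ ≤ δ) : ‖comb 𝕜 t x‖ ≤ 6 / 5 * δ := by
  unfold comb
  have hδ : 0 ≤ δ := (norm_nonneg _).trans (hx 0)
  rw [norm_smul, RCLike.norm_ofReal, abs_of_pos (rho_pos t)]
  have h2 : ‖x 0 + (t : 𝕜) • x 1‖ ≤ 6 / 5 * δ := by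
    refine (norm_add_le _ _).trans ?_
    rw [norm_smul, RCLike.norm_ofReal, abs_of_nonneg h0]
    have := hx 0
    have h3 : t * ‖x 1‖ ≤ 1 / 5 * δ := mul_le_mul h1 (hx 1) (norm_nonneg _) (by norm_num)
    linarith
  calc rho t * ‖x 0 + (t : 𝕜) • x 1‖ ≤ 1 * (6 / 5 * δ) :=
        mul_le_mul (rho_le_one t) h2 (norm_nonneg _) zero_le_one
    _ = _ := one_mul _

theorem comb_norm {t : ℝ} {x : Fin 2 → E} (hx : Orthonormal 𝕜 x) : ‖comb 𝕜 t x‖ = 1 := by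
  unfold comb
  rw [norm_smul, RCLike.norm_ofReal, abs_of_pos (rho_pos t)]
  have h1 : ‖x 0 + (t : 𝕜) • x 1‖ ^ 2 = 1 + t ^ 2 := by
    have := comb_norm_sq hx ![1, (t : 𝕜)]
    rw [Fin.sum_univ_two, Fin.sum_univ_two] at this
    simpa using this
  have h2 : (rho t * ‖x 0 + (t : 𝕜) • x 1‖) ^ 2 = 1 := by
    rw [mul_pow, h1, rho_sq]
  have h3 : 0 ≤ rho t * ‖x 0 + (t : 𝕜) • x 1‖ := mul_nonneg (rho_pos t).le (norm_nonneg _)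
  nlinarith

theorem comb_eq_sum (t : ℝ) (x : Fin 2 → E) :
    comb 𝕜 t x = ∑ i, (![((rho t : ℝ) : 𝕜), ((rho t : ℝ) : 𝕜) * (t : 𝕜)] i) • x i := by
  unfold comb
  rw [Fin.sum_univ_two, smul_add, smul_smul]
  rfl

theorem inner_comb_zero {t : ℝ} {x : Fin 2 → E} (hx : Orthonormal 𝕜 x) :
    ⟪x 0, comb 𝕜 t x⟫_𝕜 = ((rho t : ℝ) : 𝕜) := by
  rw [comb_eq_sum, inner_comb hx]; rfl

theorem inner_comb_one {t : ℝ} {x : Fin 2 → E} (hx : Orthonormal 𝕜 x) :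
    ⟪x 1, comb 𝕜 t x⟫_𝕜 = ((rho t : ℝ) : 𝕜) * (t : 𝕜) := by
  rw [comb_eq_sum, inner_comb hx]; rfl

/-- projective separation of the vectors `A z_t` -/
theorem comb_sep {t t' : ℝ} (h0 : 0 ≤ t) (h1 : t ≤ 1 / 5) (h0' : 0 ≤ t') (h1' : t' ≤ 1 / 5)
    {x : Fin 2 → E} (hx : Orthonormal 𝕜 x) {δ : ℝ} (h : Cl 𝕜 δ (comb 𝕜 t x) (comb 𝕜 t' x)) :
    |t - t'| ≤ 5 / 4 * δ := by
  obtain ⟨μ, hμ, h⟩ := h
  have hδ : 0 ≤ δ := (norm_nonneg _).trans h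
  set w := comb 𝕜 t x - μ • comb 𝕜 t' x with hw
  have e0 : ‖((rho t : ℝ) : 𝕜) - μ * ((rho t' : ℝ) : 𝕜)‖ ≤ δ := by
    have h2 : ⟪x 0, w⟫_𝕜 = ((rho t : ℝ) : 𝕜) - μ * ((rho t' : ℝ) : 𝕜) := by
      rw [hw, inner_sub_right, inner_smul_right, inner_comb_zero hx, inner_comb_zero hx]
    rw [← h2]
    refine (norm_inner_le_norm _ _).trans ?_
    rw [hx.1 0, one_mul]; exact h
  have e1 : ‖((rho t : ℝ) : 𝕜) * (t : 𝕜) - μ * (((rho t' : ℝ) : 𝕜) * (t' : 𝕜))‖ ≤ δ := by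
    have h2 : ⟪x 1, w⟫_𝕜 = ((rho t : ℝ) : 𝕜) * (t : 𝕜) - μ * (((rho t' : ℝ) : 𝕜) * (t' : 𝕜)) := by
      rw [hw, inner_sub_right, inner_smul_right, inner_comb_one hx, inner_comb_one hx]
    rw [← h2]
    refine (norm_inner_le_norm _ _).trans ?_
    rw [hx.1 1, one_mul]; exact h
  have e2 : ((rho t * (t' - t) : ℝ) : 𝕜) =
      (t' : 𝕜) * (((rho t : ℝ) : 𝕜) - μ * ((rho t' : ℝ) : 𝕜)) -
      (((rho t : ℝ) : 𝕜) * (t : 𝕜) - μ * (((rho t' : ℝ) : 𝕜) * (t' : 𝕜))) := by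
    push_cast; ring
  have e3 : ‖((rho t * (t' - t) : ℝ) : 𝕜)‖ ≤ 6 / 5 * δ := by
    rw [e2]
    refine (norm_sub_le _ _).trans ?_
    rw [norm_mul, RCLike.norm_ofReal, abs_of_nonneg h0']
    have : t' * ‖((rho t : ℝ) : 𝕜) - μ * ((rho t' : ℝ) : 𝕜)‖ ≤ 1 / 5 * δ :=
      mul_le_mul h1' e0 (norm_nonneg _) (by norm_num)
    linarith
  rw [RCLike.norm_ofReal, abs_mul, abs_of_pos (rho_pos t), abs_sub_comm] at e3
  have e4 := rho_ge h0 h1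
  have e5 := abs_nonneg (t - t')
  nlinarith

/-- the set of triples (blow-up of pairs of planes) -/
structure Trip (𝕜 : Type*) [RCLike 𝕜] {E : Type*} [NormedAddCommGroup E]
    [InnerProductSpace 𝕜 E] (a a' V : Fin 2 → E) (h : ℝ) : Prop where
  ha : Orthonormal 𝕜 a
  ha' : Orthonormal 𝕜 a'
  hpos : 0 < h
  hV : ∀ i, (h : 𝕜) • V i = a' i - ∑ j, ⟪a j, a' i⟫_𝕜 • a j
  hn : ‖V 0‖ ^ 2 + ‖V 1‖ ^ 2 = 1
  hle : ‖V 1‖ ≤ ‖V 0‖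

theorem Trip.V_ge {a a' V : Fin 2 → E} {h : ℝ} (H : Trip 𝕜 a a' V h) {t : ℝ} (h0 : 0 ≤ t)
    (h1 : t ≤ 1 / 5) : 1 / 2 ≤ ‖comb 𝕜 t V‖ := by
  have e1 := H.hn
  have e2 := H.hle
  have e3 : 7 / 10 ≤ ‖V 0‖ := by
    by_contra hcon
    push Not at hcon
    nlinarith [norm_nonneg (V 0), norm_nonneg (V 1)]
  unfold comb
  rw [norm_smul, RCLike.norm_ofReal, abs_of_pos (rho_pos t)]
  have e4 : ‖V 0‖ - t * ‖V 1‖ ≤ ‖V 0 + (t : 𝕜) • V 1‖ := by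
    have h2 := norm_sub_norm_le (V 0) (-((t : 𝕜) • V 1))
    rw [norm_neg, sub_neg_eq_add, norm_smul, RCLike.norm_ofReal, abs_of_nonneg h0] at h2
    exact h2
  have e5 : t * ‖V 1‖ ≤ 1 / 5 * ‖V 0‖ := mul_le_mul h1 e2 (norm_nonneg _) (by norm_num)
  have e6 : 14 / 25 ≤ ‖V 0 + (t : 𝕜) • V 1‖ := by linarith
  have e7 := rho_ge h0 h1
  calc (1 / 2 : ℝ) ≤ 49 / 50 * (14 / 25) := by norm_num
    _ ≤ _ := by gcongr

theorem Trip.V_le {a a' V : Fin 2 → E} {h : ℝ} (H : Trip 𝕜 a a' V h) (i : Fin 2) :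
    ‖V i‖ ≤ 1 := by
  have e1 := H.hn
  fin_cases i
  · simp only [Fin.zero_eta, Fin.isValue]
    nlinarith [sq_nonneg ‖V 1‖, norm_nonneg (V 0)]
  · simp only [Fin.mk_one, Fin.isValue]
    nlinarith [sq_nonneg ‖V 0‖, norm_nonneg (V 1)]

/-- the unit vector in direction `V z` -/
noncomputable def vv (𝕜 : Type*) [RCLike 𝕜] {E : Type*} [NormedAddCommGroup E]
    [InnerProductSpace 𝕜 E] (t : ℝ) (V : Fin 2 → E) : E :=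
  ((‖comb 𝕜 t V‖⁻¹ : ℝ) : 𝕜) • comb 𝕜 t V

/-- the target `A' z + (s/4) v` -/
noncomputable def tau (𝕜 : Type*) [RCLike 𝕜] {E : Type*} [NormedAddCommGroup E]
    [InnerProductSpace 𝕜 E] (t s : ℝ) (a' V : Fin 2 → E) : E :=
  comb 𝕜 t a' + ((s / 4 : ℝ) : 𝕜) • vv 𝕜 t V

/-- the normalised target -/
noncomputable def tauh (𝕜 : Type*) [RCLike 𝕜] {E : Type*} [NormedAddCommGroup E]
    [InnerProductSpace 𝕜 E] (t s : ℝ) (a' V : Fin 2 → E) : E :=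
  ((‖tau 𝕜 t s a' V‖⁻¹ : ℝ) : 𝕜) • tau 𝕜 t s a' V

theorem Trip.vv_norm {a a' V : Fin 2 → E} {h : ℝ} (H : Trip 𝕜 a a' V h) {t : ℝ} (h0 : 0 ≤ t)
    (h1 : t ≤ 1 / 5) : ‖vv 𝕜 t V‖ = 1 := by
  unfold vv
  have := H.V_ge h0 h1
  have h2 : 0 < ‖comb 𝕜 t V‖ := by linarith
  rw [norm_smul, RCLike.norm_ofReal, abs_of_pos (inv_pos.2 h2), inv_mul_cancel₀ h2.ne']

theorem Trip.tau_sub {a a' V : Fin 2 → E} {h : ℝ} (H : Trip 𝕜 a a' V h) {t s : ℝ} (h0 : 0 ≤ t)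
    (h1 : t ≤ 1 / 5) (hs : 0 < s) : ‖tau 𝕜 t s a' V - comb 𝕜 t a'‖ = s / 4 := by
  unfold tau
  rw [add_sub_cancel_left, norm_smul, RCLike.norm_ofReal, abs_of_pos (by positivity),
    H.vv_norm h0 h1, mul_one]

theorem Trip.tau_norm {a a' V : Fin 2 → E} {h : ℝ} (H : Trip 𝕜 a a' V h) {t s : ℝ} (h0 : 0 ≤ t)
    (h1 : t ≤ 1 / 5) (hs : 0 < s) :
    1 - s / 4 ≤ ‖tau 𝕜 t s a' V‖ ∧ ‖tau 𝕜 t s a' V‖ ≤ 1 + s / 4 := by
  have e1 := H.tau_sub h0 h1 hs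
  have e2 : ‖comb 𝕜 t a'‖ = 1 := comb_norm H.ha'
  have e3 := abs_norm_sub_norm_le (tau 𝕜 t s a' V) (comb 𝕜 t a')
  rw [e1, e2, abs_le] at e3
  constructor <;> linarith [e3.1, e3.2]

theorem Trip.tauh_norm {a a' V : Fin 2 → E} {h : ℝ} (H : Trip 𝕜 a a' V h) {t s : ℝ} (h0 : 0 ≤ t)
    (h1 : t ≤ 1 / 5) (hs : 0 < s) (hs1 : s ≤ 1 / 100) : ‖tauh 𝕜 t s a' V‖ = 1 := by
  unfold tauh
  have := (H.tau_norm h0 h1 hs).1
  have h2 : 0 < ‖tau 𝕜 t s a' V‖ := by linarith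
  rw [norm_smul, RCLike.norm_ofReal, abs_of_pos (inv_pos.2 h2), inv_mul_cancel₀ h2.ne']

theorem Trip.tauh_sub {a a' V : Fin 2 → E} {h : ℝ} (H : Trip 𝕜 a a' V h) {t s : ℝ} (h0 : 0 ≤ t)
    (h1 : t ≤ 1 / 5) (hs : 0 < s) (hs1 : s ≤ 1 / 100) :
    ‖tauh 𝕜 t s a' V - comb 𝕜 t a'‖ ≤ s / 2 := by
  have e1 := H.tau_norm h0 h1 hs
  have h2 : 0 < ‖tau 𝕜 t s a' V‖ := by linarith [e1.1]
  have e2 : ‖tauh 𝕜 t s a' V - tau 𝕜 t s a' V‖ ≤ s / 4 := by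
    unfold tauh
    set τ := tau 𝕜 t s a' V with hτ
    have : ((‖τ‖⁻¹ : ℝ) : 𝕜) • τ - τ = (((‖τ‖⁻¹ - 1 : ℝ) : ℝ) : 𝕜) • τ := by
      push_cast
      rw [sub_smul, one_smul]
    rw [this, norm_smul, RCLike.norm_ofReal]
    have h3 : |‖τ‖⁻¹ - 1| * ‖τ‖ = |1 - ‖τ‖| := by
      nth_rewrite 2 [← abs_of_pos h2]
      rw [← abs_mul, sub_mul, inv_mul_cancel₀ h2.ne', one_mul]
    rw [h3, abs_le]
    constructor <;> linarith [e1.1, e1.2]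
  have e3 := H.tau_sub h0 h1 hs
  calc ‖tauh 𝕜 t s a' V - comb 𝕜 t a'‖ =
      ‖(tauh 𝕜 t s a' V - tau 𝕜 t s a' V) + (tau 𝕜 t s a' V - comb 𝕜 t a')‖ := by
        rw [sub_add_sub_cancel]
    _ ≤ s / 4 + s / 4 := (norm_add_le _ _).trans (add_le_add e2 e3.le)
    _ = s / 2 := by ring

end Pool.Agent.Helper324.CE
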