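import Pool.Agent.Helper324.CEGeom1

/-!
# Geometry of the random construction, 2
-/

open scoped InnerProductSpace

namespace Pool.Agent.Helper324.CE

variable {𝕜 : Type*} [RCLike 𝕜] {E : Type*} [NormedAddCommGroup E] [InnerProductSpace 𝕜 E]

/-- the projection onto the span of an orthonormal pair -/
noncomputable def Pj (𝕜 : Type*) [RCLike 𝕜] {E : Type*} [NormedAddCommGroup E]
    [InnerProductSpace 𝕜 E] (a : Fin 2 → E) (x : E) : E := ∑ i, ⟪a i, x⟫_𝕜 • a i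

theorem Pj_add (a : Fin 2 → E) (x y : E) : Pj 𝕜 a (x + y) = Pj 𝕜 a x + Pj 𝕜 a y := by
  unfold Pj
  rw [← Finset.sum_add_distrib]
  exact Finset.sum_congr rfl fun i _ => by rw [inner_add_right, add_smul]

theorem Pj_smul (a : Fin 2 → E) (r : 𝕜) (x : E) : Pj 𝕜 a (r • x) = r • Pj 𝕜 a x := by
  unfold Pj
  rw [Finset.smul_sum]
  exact Finset.sum_congr rfl fun i _ => by rw [inner_smul_right, mul_smul]

theorem Pj_sub (a : Fin 2 → E) (x y : E) : Pj 𝕜 a (x - y) = Pj 𝕜 a x - Pj 𝕜 a y := by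
  unfold Pj
  rw [← Finset.sum_sub_distrib]
  exact Finset.sum_congr rfl fun i _ => by rw [inner_sub_right, sub_smul]

theorem inner_Pj {a : Fin 2 → E} (ha : Orthonormal 𝕜 a) (x : E) (j : Fin 2) :
    ⟪a j, Pj 𝕜 a x⟫_𝕜 = ⟪a j, x⟫_𝕜 := inner_comb ha _ j

theorem inner_sub_Pj {a : Fin 2 → E} (ha : Orthonormal 𝕜 a) (x : E) (j : Fin 2) :
    ⟪a j, x - Pj 𝕜 a x⟫_𝕜 = 0 := inner_sub_comb ha x j

theorem norm_Pj_sq {a : Fin 2 → E} (ha : Orthonormal 𝕜 a) (x : E) :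
    ‖Pj 𝕜 a x‖ ^ 2 = en 𝕜 a x := comb_norm_sq ha _

theorem norm_sub_Pj_sq {a : Fin 2 → E} (ha : Orthonormal 𝕜 a) (x : E) :
    ‖x - Pj 𝕜 a x‖ ^ 2 = ‖x‖ ^ 2 - en 𝕜 a x := norm_sub_comb_sq ha x

theorem en_nonneg (a : Fin 2 → E) (x : E) : 0 ≤ en 𝕜 a x :=
  Finset.sum_nonneg fun _ _ => by positivity

theorem en_le {a : Fin 2 → E} (ha : Orthonormal 𝕜 a) (x : E) : en 𝕜 a x ≤ ‖x‖ ^ 2 := by
  have := norm_sub_Pj_sq ha x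
  have h2 := sq_nonneg ‖x - Pj 𝕜 a x‖
  linarith

theorem norm_Pj_le {a : Fin 2 → E} (ha : Orthonormal 𝕜 a) (x : E) : ‖Pj 𝕜 a x‖ ≤ ‖x‖ := by
  have h : ‖Pj 𝕜 a x‖ ^ 2 ≤ ‖x‖ ^ 2 := by rw [norm_Pj_sq ha]; exact en_le ha x
  exact (abs_le_of_sq_le_sq' h (norm_nonneg x)).2

theorem norm_sub_Pj_le {a : Fin 2 → E} (ha : Orthonormal 𝕜 a) (x : E) :
    ‖x - Pj 𝕜 a x‖ ≤ ‖x‖ := by
  have h : ‖x - Pj 𝕜 a x‖ ^ 2 ≤ ‖x‖ ^ 2 := by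
    rw [norm_sub_Pj_sq ha]; have := en_nonneg (𝕜 := 𝕜) a x; linarith
  exact (abs_le_of_sq_le_sq' h (norm_nonneg x)).2

/-- best approximation -/
theorem best_approx {a : Fin 2 → E} (ha : Orthonormal 𝕜 a) (w : E) (z : Fin 2 → 𝕜) :
    ‖w - Pj 𝕜 a w‖ ≤ ‖w - ∑ i, z i • a i‖ := by
  have h1 : w - ∑ i, z i • a i = (∑ i, (⟪a i, w⟫_𝕜 - z i) • a i) + (w - Pj 𝕜 a w) := by
    unfold Pj
    simp only [sub_smul, Finset.sum_sub_distrib]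
    abel
  have h2 := pyth (a := a) (fun i => ⟪a i, w⟫_𝕜 - z i) (inner_sub_Pj ha w)
  rw [← h1] at h2
  have h3 : ‖w - Pj 𝕜 a w‖ ^ 2 ≤ ‖w - ∑ i, z i • a i‖ ^ 2 := by
    rw [h2]
    nlinarith [sq_nonneg ‖∑ i, (⟪a i, w⟫_𝕜 - z i) • a i‖]
  exact (abs_le_of_sq_le_sq' h3 (norm_nonneg _)).2

theorem en_add (a : Fin 2 → E) (x y : E) :
    en 𝕜 a (x + y) = en 𝕜 a x + en 𝕜 a y + 2 * RCLike.re ⟪Pj 𝕜 a x, y⟫_𝕜 := by
  unfold en Pj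
  rw [sum_inner, map_sum, Finset.mul_sum, ← Finset.sum_add_distrib, ← Finset.sum_add_distrib]
  refine Finset.sum_congr rfl fun i _ => ?_
  rw [inner_add_right, inner_smul_left]
  have h := norm_add_sq (𝕜 := 𝕜) ⟪a i, x⟫_𝕜 ⟪a i, y⟫_𝕜
  rw [h, RCLike.inner_apply', mul_comm ((starRingEnd 𝕜) ⟪a i, x⟫_𝕜)]
  ring

theorem en_smul (a : Fin 2 → E) (r : 𝕜) (x : E) : en 𝕜 a (r • x) = ‖r‖ ^ 2 * en 𝕜 a x := by
  unfold en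
  rw [Finset.mul_sum]
  exact Finset.sum_congr rfl fun i _ => by rw [inner_smul_right, norm_mul, mul_pow]

/-- the difference of the two projections -/
noncomputable def Dd (𝕜 : Type*) [RCLike 𝕜] {E : Type*} [NormedAddCommGroup E]
    [InnerProductSpace 𝕜 E] (a a' : Fin 2 → E) (x : E) : E := Pj 𝕜 a' x - Pj 𝕜 a x

theorem q_add (a a' : Fin 2 → E) (x y : E) :
    en 𝕜 a' (x + y) - en 𝕜 a (x + y) = (en 𝕜 a' x - en 𝕜 a x) + (en 𝕜 a' y - en 𝕜 a y) +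
      2 * RCLike.re ⟪Dd 𝕜 a a' x, y⟫_𝕜 := by
  rw [en_add, en_add]
  unfold Dd
  rw [inner_sub_left, map_sub]
  ring

theorem q_self (a a' : Fin 2 → E) (x : E) :
    en 𝕜 a' x - en 𝕜 a x = RCLike.re ⟪Dd 𝕜 a a' x, x⟫_𝕜 := by
  have h1 := q_add (𝕜 := 𝕜) a a' x x
  have h2 : x + x = (2 : 𝕜) • x := by rw [two_smul]
  rw [h2, en_smul, en_smul] at h1
  have h3 : ‖(2 : 𝕜)‖ = 2 := by simp
  rw [h3] at h1
  linarith

theorem Trip.V_perp {a a' V : Fin 2 → E} {h : ℝ} (H : Trip 𝕜 a a' V h) (j i : Fin 2) :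
    ⟪a j, V i⟫_𝕜 = 0 := by
  have h1 : ⟪a j, (h : 𝕜) • V i⟫_𝕜 = 0 := by
    rw [H.hV i]; exact inner_sub_comb H.ha (a' i) j
  rw [inner_smul_right, mul_eq_zero] at h1
  rcases h1 with h1 | h1
  · have h2 := H.hpos
    have h3 : h = 0 := by exact_mod_cast h1
    linarith
  · exact h1

theorem Trip.hsq {a a' V : Fin 2 → E} {h : ℝ} (H : Trip 𝕜 a a' V h) :
    h ^ 2 = 2 - (en 𝕜 a (a' 0) + en 𝕜 a (a' 1)) := by
  have e : ∀ i, h ^ 2 * ‖V i‖ ^ 2 = 1 - en 𝕜 a (a' i) := by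
    intro i
    have h1 := norm_sub_Pj_sq H.ha (a' i)
    have h2 : a' i - Pj 𝕜 a (a' i) = (h : 𝕜) • V i := (H.hV i).symm
    rw [h2, norm_smul, RCLike.norm_ofReal, abs_of_pos H.hpos, mul_pow, H.ha'.1 i, one_pow] at h1
    exact h1
  have h0 := e 0
  have h1 := e 1
  have h2 := H.hn
  have h3 : h ^ 2 * (‖V 0‖ ^ 2 + ‖V 1‖ ^ 2) = h ^ 2 := by rw [h2, mul_one]
  linarith

theorem en_symm (a a' : Fin 2 → E) :
    en 𝕜 a (a' 0) + en 𝕜 a (a' 1) = en 𝕜 a' (a 0) + en 𝕜 a' (a 1) := by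
  unfold en
  simp only [Fin.sum_univ_two]
  rw [norm_inner_symm (a 0) (a' 0), norm_inner_symm (a 1) (a' 0), norm_inner_symm (a 0) (a' 1),
    norm_inner_symm (a 1) (a' 1)]
  ring

theorem Trip.bound1 {a a' V : Fin 2 → E} {h : ℝ} (H : Trip 𝕜 a a' V h) {y : E}
    (hy : ∀ j, ⟪a j, y⟫_𝕜 = 0) : ‖Pj 𝕜 a' y‖ ≤ h * ‖y‖ := by
  have hh := H.hpos
  have e : ∀ i, ‖⟪a' i, y⟫_𝕜‖ ^ 2 ≤ (h * ‖y‖) ^ 2 * ‖V i‖ ^ 2 := by
    intro i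
    have h1 : a' i = (h : 𝕜) • V i + ∑ j, ⟪a j, a' i⟫_𝕜 • a j := by rw [H.hV i]; abel
    have h2 : ⟪a' i, y⟫_𝕜 = (h : 𝕜) * ⟪V i, y⟫_𝕜 := by
      rw [h1, inner_add_left, inner_smul_left, sum_inner]
      have h3 : ∑ j, ⟪⟪a j, a' i⟫_𝕜 • a j, y⟫_𝕜 = 0 :=
        Finset.sum_eq_zero fun j _ => by rw [inner_smul_left, hy j, mul_zero]
      rw [h3, add_zero, RCLike.conj_ofReal]
    rw [h2, norm_mul, RCLike.norm_ofReal, abs_of_pos hh, ← mul_pow]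
    have h4 := norm_inner_le_norm (𝕜 := 𝕜) (V i) y
    have h5 : h * ‖⟪V i, y⟫_𝕜‖ ≤ h * ‖y‖ * ‖V i‖ := by nlinarith
    gcongr
  have h2 : ‖Pj 𝕜 a' y‖ ^ 2 ≤ (h * ‖y‖) ^ 2 := by
    rw [norm_Pj_sq H.ha']
    unfold en
    rw [Fin.sum_univ_two]
    calc _ ≤ (h * ‖y‖) ^ 2 * ‖V 0‖ ^ 2 + (h * ‖y‖) ^ 2 * ‖V 1‖ ^ 2 := add_le_add (e 0) (e 1)
      _ = (h * ‖y‖) ^ 2 * (‖V 0‖ ^ 2 + ‖V 1‖ ^ 2) := by ring
      _ = _ := by rw [H.hn, mul_one]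
  exact (abs_le_of_sq_le_sq' h2 (by positivity)).2

theorem Trip.bound2 {a a' V : Fin 2 → E} {h : ℝ} (H : Trip 𝕜 a a' V h) (x : E) :
    ‖Pj 𝕜 a x - Pj 𝕜 a' (Pj 𝕜 a x)‖ ≤ h * ‖x‖ := by
  have hh := H.hpos
  set w : Fin 2 → E := fun i => a i - Pj 𝕜 a' (a i) with hw
  have hwn : ‖w 0‖ ^ 2 + ‖w 1‖ ^ 2 = h ^ 2 := by
    rw [hw]
    simp only
    rw [norm_sub_Pj_sq H.ha', norm_sub_Pj_sq H.ha', H.hsq, en_symm, H.ha.1 0, H.ha.1 1]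
    ring
  have h1 : Pj 𝕜 a x - Pj 𝕜 a' (Pj 𝕜 a x) = ⟪a 0, x⟫_𝕜 • w 0 + ⟪a 1, x⟫_𝕜 • w 1 := by
    have h2 : Pj 𝕜 a x = ⟪a 0, x⟫_𝕜 • a 0 + ⟪a 1, x⟫_𝕜 • a 1 := by
      unfold Pj; rw [Fin.sum_univ_two]
    rw [h2, Pj_add, Pj_smul, Pj_smul, hw]
    simp only [smul_sub]
    abel
  have h3 : ‖⟪a 0, x⟫_𝕜‖ ^ 2 + ‖⟪a 1, x⟫_𝕜‖ ^ 2 ≤ ‖x‖ ^ 2 := by
    have := en_le H.ha x
    unfold en at this
    rwa [Fin.sum_univ_two] at this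
  rw [h1]
  refine (norm_add_le _ _).trans ?_
  rw [norm_smul, norm_smul]
  set p := ‖⟪a 0, x⟫_𝕜‖
  set q := ‖⟪a 1, x⟫_𝕜‖
  have h4 : (p * ‖w 0‖ + q * ‖w 1‖) ^ 2 ≤ (h * ‖x‖) ^ 2 := by
    have h5 : (p * ‖w 0‖ + q * ‖w 1‖) ^ 2 ≤ (p ^ 2 + q ^ 2) * (‖w 0‖ ^ 2 + ‖w 1‖ ^ 2) := by
      nlinarith [sq_nonneg (p * ‖w 1‖ - q * ‖w 0‖)]
    rw [hwn] at h5
    calc _ ≤ (p ^ 2 + q ^ 2) * h ^ 2 := h5
      _ ≤ ‖x‖ ^ 2 * h ^ 2 := by gcongr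
      _ = _ := by ring
  exact (abs_le_of_sq_le_sq' h4 (by positivity)).2

theorem Trip.D_bound {a a' V : Fin 2 → E} {h : ℝ} (H : Trip 𝕜 a a' V h) (x : E) :
    ‖Dd 𝕜 a a' x‖ ≤ 2 * h * ‖x‖ := by
  have h1 : Dd 𝕜 a a' x = Pj 𝕜 a' (x - Pj 𝕜 a x) - (Pj 𝕜 a x - Pj 𝕜 a' (Pj 𝕜 a x)) := by
    unfold Dd
    rw [Pj_sub]; abel
  rw [h1]
  refine (norm_sub_le _ _).trans ?_
  have e1 := H.bound1 (inner_sub_Pj H.ha x)
  have e2 := H.bound2 x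
  have e3 := norm_sub_Pj_le H.ha x
  have e4 : h * ‖x - Pj 𝕜 a x‖ ≤ h * ‖x‖ := mul_le_mul_of_nonneg_left e3 H.hpos.le
  linarith

/-- lower bound for the quadratic form at the target -/
theorem Trip.q_tau {a a' V : Fin 2 → E} {h : ℝ} (H : Trip 𝕜 a a' V h) {t s : ℝ} (h0 : 0 ≤ t)
    (h1 : t ≤ 1 / 5) (hs : 0 < s) :
    s / 4 * h ≤ en 𝕜 a' (tau 𝕜 t s a' V) - en 𝕜 a (tau 𝕜 t s a' V) := by
  have hh := H.hpos
  set τ := tau 𝕜 t s a' V with hτ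
  have hg := H.V_ge h0 h1
  set g := ‖comb 𝕜 t V‖ with hgdef
  have hvn := H.vv_norm h0 h1
  set v := vv 𝕜 t V with hv
  have e1 := norm_sub_Pj_sq H.ha' τ
  have e2 := norm_sub_Pj_sq H.ha τ
  have e3 : ‖τ - Pj 𝕜 a' τ‖ ≤ s / 4 := by
    have := best_approx H.ha' τ (![((rho t : ℝ) : 𝕜), ((rho t : ℝ) : 𝕜) * (t : 𝕜)])
    rw [← comb_eq_sum, H.tau_sub h0 h1 hs] at this
    exact this
  have hg0 : 0 < g := by linarith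
  have hgK : (g : 𝕜) ≠ 0 := by exact_mod_cast hg0.ne'
  have hcv : comb 𝕜 t V = (g : 𝕜) • v := by
    rw [hv]; unfold vv
    rw [← hgdef, smul_smul]
    push_cast
    rw [mul_inv_cancel₀ hgK, one_smul]
  have hc : comb 𝕜 t a' - Pj 𝕜 a (comb 𝕜 t a') = ((h * g : ℝ) : 𝕜) • v := by
    have h2 : comb 𝕜 t a' - Pj 𝕜 a (comb 𝕜 t a') =
        comb 𝕜 t (fun i => a' i - Pj 𝕜 a (a' i)) := by
      unfold comb
      rw [Pj_smul, Pj_add, Pj_smul]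
      simp only [smul_sub, smul_add]
      abel
    have h3 : (fun i => a' i - Pj 𝕜 a (a' i)) = fun i => (h : 𝕜) • V i := by
      funext i; exact (H.hV i).symm
    have h4 : comb 𝕜 t (fun i => (h : 𝕜) • V i) = (h : 𝕜) • comb 𝕜 t V := by
      unfold comb
      simp only [smul_add, smul_smul]
      congr 1
      · congr 1; ring
      · congr 1; ring
    rw [h2, h3, h4, hcv, smul_smul]
    push_cast
    rfl
  have hPv : Pj 𝕜 a v = 0 := by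
    unfold Pj
    refine Finset.sum_eq_zero fun j _ => ?_
    have : ⟪a j, v⟫_𝕜 = 0 := by
      rw [hv]; unfold vv comb
      rw [inner_smul_right, inner_smul_right, inner_add_right, inner_smul_right, H.V_perp,
        H.V_perp]
      ring
    rw [this, zero_smul]
  have e4 : τ - Pj 𝕜 a τ = ((h * g + s / 4 : ℝ) : 𝕜) • v := by
    rw [hτ]; unfold tau
    rw [Pj_add, Pj_smul, ← hv, hPv, smul_zero, add_zero]
    have h5 : comb 𝕜 t a' + ((s / 4 : ℝ) : 𝕜) • v - Pj 𝕜 a (comb 𝕜 t a') =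
        (comb 𝕜 t a' - Pj 𝕜 a (comb 𝕜 t a')) + ((s / 4 : ℝ) : 𝕜) • v := by abel
    rw [h5, hc, ← add_smul]
    push_cast
    rfl
  have e5 : ‖τ - Pj 𝕜 a τ‖ = h * g + s / 4 := by
    rw [e4, norm_smul, RCLike.norm_ofReal, abs_of_pos (by positivity), hvn, mul_one]
  rw [e5] at e2
  have e6 : ‖τ - Pj 𝕜 a' τ‖ ^ 2 ≤ (s / 4) ^ 2 := by gcongr
  have e7 : 0 ≤ h * g := by positivity
  have e8 : h * (1 / 2) ≤ h * g := mul_le_mul_of_nonneg_left hg hh.le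
  nlinarith [mul_nonneg hs.le e7, mul_nonneg hs.le (sub_nonneg.2 e8)]

end Pool.Agent.Helper324.CE
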