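import Pool.Agent.Helper324.CEGeom2

/-!
# Geometry of the random construction, 3: verification near a net point
-/

open scoped InnerProductSpace

namespace Pool.Agent.Helper324.CE

variable {𝕜 : Type*} [RCLike 𝕜] {E : Type*} [NormedAddCommGroup E] [InnerProductSpace 𝕜 E]

theorem unit_diff {x y : E} (hx : 1 / 2 ≤ ‖x‖) (hy : 1 / 2 ≤ ‖y‖) :
    ‖((‖x‖⁻¹ : ℝ) : 𝕜) • x - ((‖y‖⁻¹ : ℝ) : 𝕜) • y‖ ≤ 4 * ‖x - y‖ := by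
  have hx0 : 0 < ‖x‖ := by linarith
  have hy0 : 0 < ‖y‖ := by linarith
  have h1 : ((‖x‖⁻¹ : ℝ) : 𝕜) • x - ((‖y‖⁻¹ : ℝ) : 𝕜) • y =
      ((‖x‖⁻¹ : ℝ) : 𝕜) • (x - y) + ((‖x‖⁻¹ - ‖y‖⁻¹ : ℝ) : 𝕜) • y := by
    push_cast
    rw [sub_smul, smul_sub]; abel
  rw [h1]
  refine (norm_add_le _ _).trans ?_
  rw [norm_smul, norm_smul, RCLike.norm_ofReal, RCLike.norm_ofReal, abs_of_pos (inv_pos.2 hx0)]
  have h2 : |‖x‖⁻¹ - ‖y‖⁻¹| * ‖y‖ = ‖x‖⁻¹ * |‖y‖ - ‖x‖| := by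
    have : ‖x‖⁻¹ - ‖y‖⁻¹ = ‖x‖⁻¹ * (‖y‖ - ‖x‖) * ‖y‖⁻¹ := by field_simp
    rw [this, abs_mul, abs_mul, abs_of_pos (inv_pos.2 hx0), abs_of_pos (inv_pos.2 hy0)]
    field_simp
  rw [h2]
  have h3 : |‖y‖ - ‖x‖| ≤ ‖x - y‖ := by
    rw [abs_sub_comm]; exact abs_norm_sub_norm_le x y
  have h4 : ‖x‖⁻¹ ≤ 2 := by
    rw [inv_le_comm₀ hx0 (by norm_num)]; linarith
  have h5 : 0 ≤ ‖x‖⁻¹ := inv_nonneg.2 hx0.le
  calc ‖x‖⁻¹ * ‖x - y‖ + ‖x‖⁻¹ * |‖y‖ - ‖x‖| ≤ ‖x‖⁻¹ * ‖x - y‖ + ‖x‖⁻¹ * ‖x - y‖ := by gcongr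
    _ = ‖x‖⁻¹ * (2 * ‖x - y‖) := by ring
    _ ≤ 2 * (2 * ‖x - y‖) := by gcongr
    _ = _ := by ring

theorem verify {a a' V a₀ a₀' V₀ : Fin 2 → E} {h h₀ t s : ℝ} (H : Trip 𝕜 a a' V h)
    (H₀ : Trip 𝕜 a₀ a₀' V₀ h₀) (h0 : 0 ≤ t) (h1 : t ≤ 1 / 5) (hs : 0 < s) (hs1 : s ≤ 1 / 100)
    (da : ∀ i, ‖a i - a₀ i‖ ≤ s / 100) (da' : ∀ i, ‖a' i - a₀' i‖ ≤ s / 100)
    (dV : ∀ i, ‖V i - V₀ i‖ ≤ s / 100) {ω : E} (hω : ‖ω‖ = 1)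
    (hcl : Cl 𝕜 (s / 100) ω (tauh 𝕜 t s a₀' V₀)) :
    1 - s ^ 2 / 4 ≤ en 𝕜 a' ω ∧ en 𝕜 a ω ≤ en 𝕜 a' ω ∧
      ∀ ω' : E, ∀ μ : 𝕜, ‖μ‖ = 1 → ‖μ • ω' - ∑ i, ⟪a' i, ω⟫_𝕜 • a i‖ ≤ 3 / 4 * s →
        Cl 𝕜 (3 * s) ω' (comb 𝕜 t a₀) := by
  have hh := H.hpos
  -- the scaling factor
  set τ₀ := tau 𝕜 t s a₀' V₀ with hτ₀
  have hτ₀n := H₀.tau_norm h0 h1 hs
  rw [← hτ₀] at hτ₀n
  have hτ₀p : 0 < ‖τ₀‖ := by linarith [hτ₀n.1]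
  set κ := ‖τ₀‖⁻¹ with hκ
  have hκ0 : 0 < κ := inv_pos.2 hτ₀p
  have hκτ : κ * ‖τ₀‖ = 1 := inv_mul_cancel₀ hτ₀p.ne'
  have hκ1 : κ ≤ 400 / 399 := by
    have : κ * (399 / 400) ≤ 1 := by
      calc κ * (399 / 400) ≤ κ * ‖τ₀‖ := by
            apply mul_le_mul_of_nonneg_left _ hκ0.le; linarith [hτ₀n.1]
        _ = 1 := hκτ
    linarith
  have hκ2 : |κ - 1| ≤ 13 / 50 * s := by
    have e1 : κ - 1 = κ * (1 - ‖τ₀‖) := by rw [mul_sub, hκτ, mul_one]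
    rw [e1, abs_mul, abs_of_pos hκ0]
    have e2 : |1 - ‖τ₀‖| ≤ s / 4 := by rw [abs_le]; constructor <;> linarith [hτ₀n.1, hτ₀n.2]
    calc κ * |1 - ‖τ₀‖| ≤ 400 / 399 * (s / 4) := by gcongr
      _ ≤ 13 / 50 * s := by linarith
  have hκ3 : 997 / 1000 ≤ κ := by
    rw [abs_le] at hκ2; linarith [hκ2.1]
  have hκsq : 99 / 100 ≤ κ ^ 2 := by nlinarith
  -- the actual target
  set τ := tau 𝕜 t s a' V with hτ
  have hτn := H.tau_norm h0 h1 hs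
  rw [← hτ] at hτn
  have hττ : ‖τ₀ - τ‖ ≤ 61 / 5000 * s := by
    have e1 : τ₀ - τ = (comb 𝕜 t a₀' - comb 𝕜 t a') +
        ((s / 4 : ℝ) : 𝕜) • (vv 𝕜 t V₀ - vv 𝕜 t V) := by
      rw [hτ₀, hτ]; unfold tau
      rw [smul_sub]; abel
    have e2 : ‖comb 𝕜 t a₀' - comb 𝕜 t a'‖ ≤ 6 / 5 * (s / 100) := by
      rw [comb_sub]
      exact comb_norm_le h0 h1 fun i => by rw [norm_sub_rev]; exact da' i
    have e3 : ‖vv 𝕜 t V₀ - vv 𝕜 t V‖ ≤ 4 * (6 / 5 * (s / 100)) := by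
      unfold vv
      refine (unit_diff (H₀.V_ge h0 h1) (H.V_ge h0 h1)).trans ?_
      gcongr
      rw [comb_sub]
      exact comb_norm_le h0 h1 fun i => by rw [norm_sub_rev]; exact dV i
    rw [e1]
    refine (norm_add_le _ _).trans ?_
    rw [norm_smul, RCLike.norm_ofReal, abs_of_pos (by positivity)]
    have e4 : s / 4 * ‖vv 𝕜 t V₀ - vv 𝕜 t V‖ ≤ (1 / 100) / 4 * (4 * (6 / 5 * (s / 100))) := by
      gcongr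
    linarith
  obtain ⟨μ, hμ, hμω⟩ := hcl
  have hτh : tauh 𝕜 t s a₀' V₀ = (κ : 𝕜) • τ₀ := rfl
  set ν : 𝕜 := μ * (κ : 𝕜) with hν
  have hνn : ‖ν‖ = κ := by
    rw [hν, norm_mul, hμ, one_mul, RCLike.norm_ofReal, abs_of_pos hκ0]
  set r : E := ω - ν • τ with hr
  have hrn : ‖r‖ ≤ s / 40 := by
    have e1 : r = (ω - μ • tauh 𝕜 t s a₀' V₀) + ν • (τ₀ - τ) := by
      rw [hr, hτh, smul_sub, hν, smul_smul]; abel
    rw [e1]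
    refine (norm_add_le _ _).trans ?_
    rw [norm_smul, hνn]
    have e2 : κ * ‖τ₀ - τ‖ ≤ 400 / 399 * (61 / 5000 * s) := by gcongr
    linarith
  have hωdec : ω = ν • τ + r := by rw [hr]; abel
  set c := comb 𝕜 t a' with hc
  set u : E := ω - ν • c with hu
  have hun : ‖u‖ ≤ 7 / 25 * s := by
    have e1 : u = ν • (τ - c) + r := by rw [hu, hr, smul_sub]; abel
    rw [e1]
    refine (norm_add_le _ _).trans ?_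
    rw [norm_smul, hνn, hτ, hc, H.tau_sub h0 h1 hs]
    have e2 : κ * (s / 4) ≤ 400 / 399 * (s / 4) := by gcongr
    linarith
  refine ⟨?_, ?_, ?_⟩
  · -- (1)
    have e1 := norm_sub_Pj_sq H.ha' ω
    rw [hω] at e1
    have e2 := best_approx H.ha' ω
      (fun i => ν * (![((rho t : ℝ) : 𝕜), ((rho t : ℝ) : 𝕜) * (t : 𝕜)] i))
    have e3 : ∑ i, (ν * (![((rho t : ℝ) : 𝕜), ((rho t : ℝ) : 𝕜) * (t : 𝕜)] i)) • a' i =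
        ν • c := by
      rw [hc, comb_eq_sum, Finset.smul_sum]
      exact Finset.sum_congr rfl fun i _ => by rw [smul_smul]
    rw [e3, ← hu] at e2
    have e4 : ‖ω - Pj 𝕜 a' ω‖ ^ 2 ≤ (s / 2) ^ 2 := by
      have : ‖ω - Pj 𝕜 a' ω‖ ≤ s / 2 := by linarith
      gcongr
    nlinarith
  · -- (2)
    have e1 := q_add (𝕜 := 𝕜) a a' (ν • τ) r
    rw [← hωdec, en_smul, en_smul, hνn] at e1
    have e2 := H.q_tau h0 h1 hs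
    rw [← hτ] at e2
    have e3 : -(2 * h * ‖r‖ ^ 2) ≤ en 𝕜 a' r - en 𝕜 a r := by
      rw [q_self]
      have e4 : |RCLike.re ⟪Dd 𝕜 a a' r, r⟫_𝕜| ≤ 2 * h * ‖r‖ * ‖r‖ := by
        refine (RCLike.abs_re_le_norm _).trans ((norm_inner_le_norm _ _).trans ?_)
        have := H.D_bound r
        gcongr
      have := (abs_le.1 e4).1
      nlinarith
    have e5 : -(2 * h * (κ * ‖τ‖) * ‖r‖) ≤ RCLike.re ⟪Dd 𝕜 a a' (ν • τ), r⟫_𝕜 := by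
      have e4 : |RCLike.re ⟪Dd 𝕜 a a' (ν • τ), r⟫_𝕜| ≤ 2 * h * (κ * ‖τ‖) * ‖r‖ := by
        refine (RCLike.abs_re_le_norm _).trans ((norm_inner_le_norm _ _).trans ?_)
        have := H.D_bound (ν • τ)
        rw [norm_smul, hνn] at this
        gcongr
      exact (abs_le.1 e4).1
    have e6 : κ * ‖τ‖ ≤ 101 / 100 := by
      have : κ * ‖τ‖ ≤ 400 / 399 * (1 + s / 4) := mul_le_mul hκ1 hτn.2 (norm_nonneg _) (by norm_num)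
      linarith
    have e7 : 2 * h * (κ * ‖τ‖) * ‖r‖ ≤ 2 * h * (101 / 100) * (s / 40) := by gcongr
    have e8 : 2 * h * ‖r‖ ^ 2 ≤ 2 * h * (s / 40 * (1 / 100)) := by
      have e9 : ‖r‖ ^ 2 ≤ s / 40 * (1 / 100) := by
        rw [sq]
        refine mul_le_mul hrn ?_ (norm_nonneg _) (by positivity)
        linarith
      gcongr
    have e9 : κ ^ 2 * (s / 4 * h) ≤ κ ^ 2 * (en 𝕜 a' τ - en 𝕜 a τ) := by gcongr
    have e10 : 99 / 100 * (s / 4 * h) ≤ κ ^ 2 * (s / 4 * h) := by gcongr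
    have e11 : 0 < s * h := by positivity
    nlinarith
  · -- (3)
    intro ω' μ' hμ' hx
    set x : E := ∑ i, ⟪a' i, ω⟫_𝕜 • a i with hxdef
    have e1 : x = ν • comb 𝕜 t a + ∑ i, ⟪a' i, u⟫_𝕜 • a i := by
      have e2 : ω = ν • c + u := by rw [hu]; abel
      have e3 : ∀ i, ⟪a' i, ω⟫_𝕜 =
          ν * (![((rho t : ℝ) : 𝕜), ((rho t : ℝ) : 𝕜) * (t : 𝕜)] i) + ⟪a' i, u⟫_𝕜 := by
        intro i
        conv_lhs => rw [e2]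
        rw [inner_add_right, inner_smul_right, hc, comb_eq_sum, inner_comb H.ha']
      rw [hxdef, comb_eq_sum, Finset.smul_sum, ← Finset.sum_add_distrib]
      exact Finset.sum_congr rfl fun i _ => by rw [e3 i, add_smul, smul_smul]
    have e2 : ‖∑ i, ⟪a' i, u⟫_𝕜 • a i‖ ≤ 7 / 25 * s := by
      have e3 : ‖∑ i, ⟪a' i, u⟫_𝕜 • a i‖ ^ 2 ≤ ‖u‖ ^ 2 := by
        rw [comb_norm_sq H.ha]; exact en_le H.ha' u
      exact (abs_le_of_sq_le_sq' e3 (norm_nonneg _)).2.trans hun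
    have e3 : ‖comb 𝕜 t a - comb 𝕜 t a₀‖ ≤ 6 / 5 * (s / 100) := by
      rw [comb_sub]
      exact comb_norm_le h0 h1 da
    have e4 : ‖ν • comb 𝕜 t a - μ • comb 𝕜 t a‖ ≤ 13 / 50 * s := by
      rw [← sub_smul, norm_smul, comb_norm H.ha, mul_one, hν]
      have : μ * (κ : 𝕜) - μ = μ * ((κ - 1 : ℝ) : 𝕜) := by push_cast; ring
      rw [this, norm_mul, hμ, one_mul, RCLike.norm_ofReal]
      exact hκ2
    have e5 : ‖μ' • ω' - μ • comb 𝕜 t a₀‖ ≤ 3 * s := by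
      have e6 : μ' • ω' - μ • comb 𝕜 t a₀ = (μ' • ω' - x) + (∑ i, ⟪a' i, u⟫_𝕜 • a i) +
          (ν • comb 𝕜 t a - μ • comb 𝕜 t a) + μ • (comb 𝕜 t a - comb 𝕜 t a₀) := by
        rw [e1, smul_sub]; abel
      rw [e6]
      refine (norm_add_le _ _).trans ?_
      rw [norm_smul, hμ, one_mul]
      have e7 := norm_add_le ((μ' • ω' - x) + (∑ i, ⟪a' i, u⟫_𝕜 • a i))
        (ν • comb 𝕜 t a - μ • comb 𝕜 t a)
      have e8 := norm_add_le (μ' • ω' - x) (∑ i, ⟪a' i, u⟫_𝕜 • a i)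
      linarith
    have hμ'0 : μ' ≠ 0 := by rintro rfl; simp at hμ'
    refine ⟨μ'⁻¹ * μ, by rw [norm_mul, norm_inv, hμ', hμ]; simp, ?_⟩
    have e6 : ω' - (μ'⁻¹ * μ) • comb 𝕜 t a₀ = μ'⁻¹ • (μ' • ω' - μ • comb 𝕜 t a₀) := by
      rw [smul_sub, smul_smul, smul_smul, inv_mul_cancel₀ hμ'0, one_smul]
    rw [e6, norm_smul, norm_inv, hμ', inv_one, one_mul]
    exact e5

end Pool.Agent.Helper324.CE
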