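import Mathlib

/-!
# Independent sets for a partial injection relation
-/

namespace Pool.Agent.Helper324.CE

open Finset

theorem exists_indep {ι : Type*} [Fintype ι] (D : ι → ι → Prop)
    (h1 : ∀ i j j', D i j → D i j' → j = j') (h2 : ∀ i i' j, D i j → D i' j → i = i') :
    ∃ J : Finset ι, (∀ i ∈ J, ∀ j ∈ J, i ≠ j → ¬ D i j) ∧ Fintype.card ι ≤ 3 * J.card := by
  classical
  obtain ⟨J, hJ, hmax⟩ := Finset.exists_max_image
    ((univ : Finset (Finset ι)).filter fun J => ∀ i ∈ J, ∀ j ∈ J, i ≠ j → ¬ D i j) Finset.card
    ⟨∅, by simp⟩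
  rw [mem_filter] at hJ
  refine ⟨J, hJ.2, ?_⟩
  have hcov : (univ : Finset ι) ⊆ J ∪ (J.biUnion fun j => univ.filter fun i => D i j) ∪
      (J.biUnion fun j => univ.filter fun i => D j i) := by
    intro i _
    by_contra hi
    simp only [mem_union, mem_biUnion, mem_filter, mem_univ, true_and, not_or, not_exists,
      not_and] at hi
    obtain ⟨⟨hiJ, hi1⟩, hi2⟩ := hi
    have h3 := hmax (insert i J) (by
      rw [mem_filter]
      refine ⟨mem_univ _, ?_⟩
      intro a ha b hb hab
      rw [mem_insert] at ha hb
      rcases ha with rfl | ha <;> rcases hb with rfl | hb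
      · exact absurd rfl hab
      · exact hi1 b hb
      · exact hi2 a ha
      · exact hJ.2 a ha b hb hab)
    rw [card_insert_of_notMem hiJ] at h3
    omega
  have hb1 : (J.biUnion fun j => univ.filter fun i => D i j).card ≤ J.card * 1 :=
    card_biUnion_le_card_mul _ _ _ fun j _ => by
      rw [card_le_one]
      intro a ha b hb
      rw [mem_filter] at ha hb
      exact h2 a b j ha.2 hb.2
  have hb2 : (J.biUnion fun j => univ.filter fun i => D j i).card ≤ J.card * 1 :=
    card_biUnion_le_card_mul _ _ _ fun j _ => by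
      rw [card_le_one]
      intro a ha b hb
      rw [mem_filter] at ha hb
      exact h1 j a b ha.2 hb.2
  calc Fintype.card ι = (univ : Finset ι).card := rfl
    _ ≤ _ := card_le_card hcov
    _ ≤ _ := card_union_le _ _
    _ ≤ (J.card + (J.biUnion fun j => univ.filter fun i => D i j).card) +
        (J.biUnion fun j => univ.filter fun i => D j i).card := by
        gcongr; exact card_union_le _ _
    _ ≤ 3 * J.card := by omega

end Pool.Agent.Helper324.CE
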