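import Mathlib

/-!
# A nilpotent operator of norm one
-/

open scoped ENNReal NNReal

namespace Pool.Agent.Helper324.CE

theorem exists_nilpotent {𝕜 : Type*} [RCLike 𝕜] {E : Type*} [NormedAddCommGroup E]
    [NormedSpace 𝕜 E] [FiniteDimensional 𝕜 E] (hn : 2 ≤ Module.finrank 𝕜 E) :
    ∃ T : E →L[𝕜] E, ‖T‖ = 1 ∧ T * T = 0 := by
  have hnt : Nontrivial E := Module.nontrivial_of_finrank_pos (R := 𝕜) (by omega)
  obtain ⟨x0, hx0⟩ := exists_ne (0 : E)
  have hx0' : 0 < ‖x0‖ := norm_pos_iff.2 hx0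
  set x : E := ((‖x0‖⁻¹ : ℝ) : 𝕜) • x0 with hx
  have hx1 : ‖x‖ = 1 := by
    rw [hx, norm_smul, RCLike.norm_ofReal, abs_of_pos (inv_pos.2 hx0'), inv_mul_cancel₀ hx0'.ne']
  have hlt : Submodule.span 𝕜 {x} < ⊤ := by
    rw [lt_top_iff_ne_top]
    intro htop
    have hxne : x ≠ 0 := by rw [← norm_pos_iff, hx1]; exact one_pos
    have h1 : Module.finrank 𝕜 (Submodule.span 𝕜 {x}) = 1 := finrank_span_singleton hxne
    rw [htop, finrank_top] at h1
    omega
  obtain ⟨f, hf0, hf⟩ := Submodule.exists_le_ker_of_lt_top _ hlt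
  set F : E →L[𝕜] 𝕜 := LinearMap.toContinuousLinearMap f with hF
  have hF0 : F ≠ 0 := by
    intro h
    apply hf0
    ext y
    have := congrArg (fun G : E →L[𝕜] 𝕜 => G y) h
    simpa [hF] using this
  have hFn : 0 < ‖F‖ := norm_pos_iff.2 hF0
  set G : E →L[𝕜] 𝕜 := ((‖F‖⁻¹ : ℝ) : 𝕜) • F with hG
  have hGn : ‖G‖ = 1 := by
    rw [hG, norm_smul, RCLike.norm_ofReal, abs_of_pos (inv_pos.2 hFn), inv_mul_cancel₀ hFn.ne']
  have hGx : G x = 0 := by
    have h1 : f x = 0 := hf (Submodule.mem_span_singleton_self x)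
    change ((‖F‖⁻¹ : ℝ) : 𝕜) • F x = 0
    have h2 : F x = f x := rfl
    rw [h2, h1, smul_zero]
  refine ⟨G.smulRight x, ?_, ?_⟩
  · rw [ContinuousLinearMap.norm_smulRight_apply, hGn, hx1, one_mul]
  · ext y
    change G (G y • x) • x = 0
    rw [map_smul, hGx, smul_zero, zero_smul]

theorem spectralRadius_of_sq_zero {A : Type*} [Ring A] [Algebra ℂ A] {a : A} (ha : a * a = 0) :
    spectralRadius ℂ a = 0 := by
  unfold spectralRadius
  rw [← le_zero_iff]
  refine iSup₂_le fun z hz => ?_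
  have hz0 : z = 0 := by
    by_contra hz0
    apply spectrum.mem_iff.1 hz
    have hcomm : Commute (algebraMap ℂ A z - a) (algebraMap ℂ A z + a) := by
      have hza : Commute (algebraMap ℂ A z) a := Algebra.commutes z a
      exact (Commute.sub_left ((Commute.refl _).add_right hza)
        (hza.symm.add_right (Commute.refl a)))
    have hprod : (algebraMap ℂ A z - a) * (algebraMap ℂ A z + a) = algebraMap ℂ A (z * z) := by
      have hza : algebraMap ℂ A z * a = a * algebraMap ℂ A z := Algebra.commutes z a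
      rw [sub_mul, mul_add, mul_add, ha, add_zero, hza, map_mul]
      abel
    have hunit : IsUnit ((algebraMap ℂ A z - a) * (algebraMap ℂ A z + a)) := by
      rw [hprod]
      exact (IsUnit.mk0 (z * z) (mul_ne_zero hz0 hz0)).map (algebraMap ℂ A)
    exact (hcomm.isUnit_mul_iff.1 hunit).1
  rw [hz0]
  simp

end Pool.Agent.Helper324.CE
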