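import Mathlib

/-!
# A packing lemma
-/

open MeasureTheory Metric Module ENNReal

namespace Pool.Agent.Helper324.CE

/-- packing bound: a `δ`-separated set in a ball of radius `r` has at most
`(1 + 2 r / δ) ^ dim` elements. -/
theorem card_le_of_sep {F : Type*} [NormedAddCommGroup F] [NormedSpace ℝ F]
    [FiniteDimensional ℝ F] {δ r : ℝ} (hδ : 0 < δ) (hr : 0 ≤ r) (p : F) (S : Finset F)
    (hS : ∀ x ∈ S, ‖x - p‖ ≤ r) (hsep : ∀ x ∈ S, ∀ y ∈ S, x ≠ y → δ ≤ ‖x - y‖) :
    (S.card : ℝ) ≤ (1 + 2 * r / δ) ^ finrank ℝ F := by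
  borelize F
  let μ : Measure F := Measure.addHaar
  set ε : ℝ := δ / 2 with hε
  set ρ : ℝ := r + δ / 2 with hρ
  have hε0 : 0 < ε := by positivity
  have ρpos : 0 < ρ := by positivity
  set A := ⋃ x ∈ S, ball (x : F) ε with hA
  have D : Set.Pairwise (S : Set F) (Function.onFun Disjoint fun x => ball (x : F) ε) := by
    rintro x hx y hy hxy
    apply ball_disjoint_ball
    rw [dist_eq_norm]
    have := hsep x hx y hy hxy
    linarith
  have A_subset : A ⊆ ball p ρ := by
    refine Set.iUnion₂_subset fun x hx => ?_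
    apply ball_subset_ball'
    rw [dist_eq_norm]
    have := hS x hx
    linarith
  have I : (S.card : ℝ≥0∞) * ENNReal.ofReal (ε ^ finrank ℝ F) * μ (ball 0 1) ≤
      ENNReal.ofReal (ρ ^ finrank ℝ F) * μ (ball 0 1) := by
    calc (S.card : ℝ≥0∞) * ENNReal.ofReal (ε ^ finrank ℝ F) * μ (ball 0 1) = μ A := by
          rw [hA, measure_biUnion_finset D fun c _ => measurableSet_ball]
          simp only [μ.addHaar_ball_of_pos _ hε0]
          simp only [Finset.sum_const, nsmul_eq_mul, mul_assoc]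
      _ ≤ μ (ball p ρ) := measure_mono A_subset
      _ = ENNReal.ofReal (ρ ^ finrank ℝ F) * μ (ball 0 1) := by
          simp only [μ.addHaar_ball_of_pos _ ρpos]
  have J : (S.card : ℝ≥0∞) * ENNReal.ofReal (ε ^ finrank ℝ F) ≤
      ENNReal.ofReal (ρ ^ finrank ℝ F) :=
    (ENNReal.mul_le_mul_iff_left (measure_ball_pos _ _ zero_lt_one).ne'
      measure_ball_lt_top.ne).1 I
  have K : (S.card : ℝ) * ε ^ finrank ℝ F ≤ ρ ^ finrank ℝ F := by
    have h1 := ENNReal.toReal_le_of_le_ofReal (pow_nonneg ρpos.le _) J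
    rwa [ENNReal.toReal_mul, ENNReal.toReal_natCast, ENNReal.toReal_ofReal (by positivity)] at h1
  have h1 : (S.card : ℝ) ≤ (ρ / ε) ^ finrank ℝ F := by
    rw [div_pow, le_div_iff₀ (by positivity)]
    exact K
  have h2 : ρ / ε = 1 + 2 * r / δ := by
    rw [hρ, hε]; field_simp; ring
  rwa [h2] at h1

end Pool.Agent.Helper324.CE
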