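import Pool.Agent.Helper324.CEGeom3
import Pool.Agent.Helper324.CECount
import Pool.Agent.Helper324.CEIndep

/-!
# The random construction
-/

open scoped InnerProductSpace
open Module Filter Topology

namespace Pool.Agent.Helper324.CE

/-- choice of the size parameter -/
theorem exists_size (m L : ℕ) : ∃ n : ℕ, 1 ≤ n ∧
    (1 + 60000 * (n : ℝ)) ^ m * (1 - (1 / 2) ^ L) ^ n < 1 := by
  have hq0 : (0 : ℝ) ≤ 1 - (1 / 2) ^ L := by
    have : (1 / 2 : ℝ) ^ L ≤ 1 := pow_le_one₀ (by norm_num) (by norm_num)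
    linarith
  have hq1 : (1 : ℝ) - (1 / 2) ^ L < 1 := by
    have : (0 : ℝ) < (1 / 2) ^ L := by positivity
    linarith
  have h1 : Tendsto (fun n : ℕ => (n : ℝ) ^ m * (1 - (1 / 2 : ℝ) ^ L) ^ n) atTop (𝓝 0) :=
    tendsto_pow_const_mul_const_pow_of_abs_lt_one m (by rw [abs_of_nonneg hq0]; exact hq1)
  have h2 : ∀ᶠ n : ℕ in atTop, (n : ℝ) ^ m * (1 - (1 / 2 : ℝ) ^ L) ^ n < 1 / 60001 ^ m :=
    h1.eventually (gt_mem_nhds (by positivity))
  obtain ⟨n, hn, hn1⟩ := (h2.and (eventually_ge_atTop 1)).exists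
  refine ⟨n, hn1, ?_⟩
  have hn1' : (1 : ℝ) ≤ n := by exact_mod_cast hn1
  have h3 : (1 + 60000 * (n : ℝ)) ^ m ≤ 60001 ^ m * (n : ℝ) ^ m := by
    rw [← mul_pow]
    gcongr
    linarith
  calc (1 + 60000 * (n : ℝ)) ^ m * (1 - (1 / 2 : ℝ) ^ L) ^ n
      ≤ 60001 ^ m * (n : ℝ) ^ m * (1 - (1 / 2 : ℝ) ^ L) ^ n := by gcongr
    _ = 60001 ^ m * ((n : ℝ) ^ m * (1 - (1 / 2 : ℝ) ^ L) ^ n) := by ring
    _ < 60001 ^ m * (1 / 60001 ^ m) := by gcongr
    _ = 1 := by field_simp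

variable {𝕜 : Type*} [RCLike 𝕜] {E : Type*} [NormedAddCommGroup E] [InnerProductSpace 𝕜 E]

/-- every pair of distinct planes gives a triple (up to swapping the two coordinates) -/
theorem exists_trip {a a' : Fin 2 → E} (ha : Orthonormal 𝕜 a) (ha' : Orthonormal 𝕜 a')
    (hne : ∃ i, a' i ∉ Submodule.span 𝕜 (Set.range a)) :
    (∃ V h, Trip 𝕜 a a' V h) ∨ (∃ V h, Trip 𝕜 ![a 1, a 0] ![a' 1, a' 0] V h) := by
  set W : Fin 2 → E := fun i => a' i - ∑ j, ⟪a j, a' i⟫_𝕜 • a j with hW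
  have hpos : 0 < ‖W 0‖ ^ 2 + ‖W 1‖ ^ 2 := by
    obtain ⟨i, hi⟩ := hne
    have hWi : W i ≠ 0 := by
      intro h0
      apply hi
      have : a' i = ∑ j, ⟪a j, a' i⟫_𝕜 • a j := sub_eq_zero.1 h0
      rw [this]
      exact Submodule.sum_mem _ fun j _ =>
        Submodule.smul_mem _ _ (Submodule.subset_span ⟨j, rfl⟩)
    have h1 : 0 < ‖W i‖ ^ 2 := by have := norm_pos_iff.2 hWi; positivity
    fin_cases i
    · simp only [Fin.zero_eta, Fin.isValue] at h1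
      positivity
    · simp only [Fin.mk_one, Fin.isValue] at h1
      positivity
  set h : ℝ := Real.sqrt (‖W 0‖ ^ 2 + ‖W 1‖ ^ 2) with hh
  have hh0 : 0 < h := Real.sqrt_pos.2 hpos
  have hh2 : h ^ 2 = ‖W 0‖ ^ 2 + ‖W 1‖ ^ 2 := Real.sq_sqrt hpos.le
  have hhK : (h : 𝕜) ≠ 0 := by exact_mod_cast hh0.ne'
  set V : Fin 2 → E := fun i => ((h⁻¹ : ℝ) : 𝕜) • W i with hV
  have hVW : ∀ i, (h : 𝕜) • V i = W i := by
    intro i
    rw [hV]
    simp only [smul_smul]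
    push_cast
    rw [mul_inv_cancel₀ hhK, one_smul]
  have hVn : ∀ i, ‖V i‖ = h⁻¹ * ‖W i‖ := by
    intro i
    rw [hV]
    simp only
    rw [norm_smul, RCLike.norm_ofReal, abs_of_pos (inv_pos.2 hh0)]
  have hsum : ‖V 0‖ ^ 2 + ‖V 1‖ ^ 2 = 1 := by
    rw [hVn, hVn, mul_pow, mul_pow, ← mul_add, ← hh2, ← mul_pow, inv_mul_cancel₀ hh0.ne',
      one_pow]
  rcases le_total ‖V 1‖ ‖V 0‖ with hle | hle
  · exact Or.inl ⟨V, h, ha, ha', hh0, hVW, hsum, hle⟩
  · right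
    refine ⟨![V 1, V 0], h, ?_, ?_, hh0, ?_, ?_, ?_⟩
    · have hinj : Function.Injective (![1, 0] : Fin 2 → Fin 2) := by decide
      have := ha.comp _ hinj
      convert this using 1
      funext i; fin_cases i <;> rfl
    · have hinj : Function.Injective (![1, 0] : Fin 2 → Fin 2) := by decide
      have := ha'.comp _ hinj
      convert this using 1
      funext i; fin_cases i <;> rfl
    · intro i
      have e0 := hVW 0
      have e1 := hVW 1
      rw [hW] at e0 e1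
      simp only [Fin.sum_univ_two] at e0 e1
      fin_cases i
      · simp only [Fin.zero_eta, Fin.isValue, Matrix.cons_val_zero, Fin.sum_univ_two,
          Matrix.cons_val_one]
        rw [e1, add_comm]
      · simp only [Fin.mk_one, Fin.isValue, Matrix.cons_val_zero, Fin.sum_univ_two,
          Matrix.cons_val_one]
        rw [e0, add_comm]
    · simp only [Matrix.cons_val_zero, Matrix.cons_val_one]
      rw [add_comm]; exact hsum
    · simpa using hle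

/-- index parameter -/
noncomputable def tt (K : ℕ) (i : Fin K) : ℝ := (i : ℕ) / (5 * K)

theorem tt_nonneg (K : ℕ) (i : Fin K) : 0 ≤ tt K i := by unfold tt; positivity

theorem tt_le (K : ℕ) (i : Fin K) : tt K i ≤ 1 / 5 := by
  unfold tt
  have hK : 0 < K := i.pos
  have hK' : (0 : ℝ) < K := by exact_mod_cast hK
  have hi : ((i : ℕ) : ℝ) ≤ K := by exact_mod_cast i.isLt.le
  rw [div_le_div_iff₀ (by positivity) (by norm_num)]
  linarith

theorem tt_sep (K : ℕ) (i j : Fin K) (hij : i ≠ j) : 1 / (5 * (K : ℝ)) ≤ |tt K i - tt K j| := by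
  unfold tt
  have hK : 0 < K := i.pos
  have hK' : (0 : ℝ) < K := by exact_mod_cast hK
  rw [← sub_div, abs_div, abs_of_pos (by positivity : (0 : ℝ) < 5 * K)]
  gcongr
  have h1 : (i : ℕ) ≠ (j : ℕ) := fun h => hij (Fin.ext h)
  have h2 : ((i : ℕ) : ℤ) - ((j : ℕ) : ℤ) ≠ 0 := by omega
  have h3 : 1 ≤ |((i : ℕ) : ℤ) - ((j : ℕ) : ℤ)| := Int.one_le_abs h2
  exact_mod_cast h3

variable [NormedSpace ℝ E] [FiniteDimensional ℝ E]

theorem exists_Omega (𝕜 : Type*) [RCLike 𝕜] (E : Type*) [NormedAddCommGroup E]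
    [InnerProductSpace 𝕜 E] [NormedSpace ℝ E] [FiniteDimensional ℝ E] :
    ∃ (Ω : Finset E) (c s : ℝ), Adm 𝕜 Ω c s ∧ GP 𝕜 Ω s := by
  classical
  let F := (Fin 2 → E) × (Fin 2 → E) × (Fin 2 → E)
  set m1 := finrank ℝ F with hm1
  set L1 : ℕ := 601 ^ finrank ℝ E with hL1
  obtain ⟨K0, hK0, hcount⟩ := exists_size m1 (2 * L1)
  set K : ℕ := 3 * K0 with hK
  have hK0' : (1 : ℝ) ≤ K0 := by exact_mod_cast hK0
  have hKr : (K : ℝ) = 3 * K0 := by rw [hK]; push_cast; ring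
  set s : ℝ := 1 / (100 * K) with hs
  have hKpos : (0 : ℝ) < K := by rw [hKr]; linarith
  have hs0 : 0 < s := by positivity
  have hs1 : s ≤ 1 / 100 := by
    rw [hs]
    rw [div_le_div_iff₀ (by positivity) (by norm_num)]
    rw [hKr]; linarith
  have hsK : 1 / (5 * (K : ℝ)) = 20 * s := by rw [hs]; field_simp; norm_num
  -- the set of triples and its net
  set T : Set F := {X | ∃ h, Trip 𝕜 X.1 X.2.1 X.2.2 h} with hT
  have hTn : ∀ X ∈ T, ‖X‖ ≤ 1 := by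
    rintro X ⟨h, H⟩
    rw [Prod.norm_def, Prod.norm_def]
    refine max_le ?_ (max_le ?_ ?_)
    · exact (pi_norm_le_iff_of_nonneg zero_le_one).2 fun i => (H.ha.1 i).le
    · exact (pi_norm_le_iff_of_nonneg zero_le_one).2 fun i => (H.ha'.1 i).le
    · exact (pi_norm_le_iff_of_nonneg zero_le_one).2 fun i => H.V_le i
  have hδ : 0 < s / 100 := by positivity
  obtain ⟨𝒩, h𝒩T, h𝒩cov, h𝒩card⟩ := exists_net T hδ zero_le_one hTn
  -- candidates
  obtain ⟨I, hI1, hI2, hI3⟩ := exists_candidates 𝕜 E hδ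
  -- targets
  have htgt : ∀ X : F, ∀ i : Fin K, ∃ a : E, X ∈ T →
      a ∈ I ∧ Cl 𝕜 (s / 100) (tauh 𝕜 (tt K i) s X.2.1 X.2.2) a := by
    intro X i
    by_cases hX : X ∈ T
    · obtain ⟨h, H⟩ := hX
      obtain ⟨a, ha, h2⟩ := hI3 _ (H.tauh_norm (tt_nonneg K i) (tt_le K i) hs0 hs1)
      exact ⟨a, fun _ => ⟨ha, h2⟩⟩
    · exact ⟨0, fun h => absurd h hX⟩
  choose tgt htgt' using htgt
  -- independent index sets
  have hJ : ∀ X : F, ∃ J : Finset (Fin K), X ∈ T →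
      (∀ i ∈ J, ∀ j ∈ J, i ≠ j → ¬ Cl 𝕜 (7 * s) (comb 𝕜 (tt K i) X.2.1) (comb 𝕜 (tt K j) X.1)) ∧
      Fintype.card (Fin K) ≤ 3 * J.card := by
    intro X
    by_cases hX : X ∈ T
    · obtain ⟨h, H⟩ := hX
      obtain ⟨J, hJ1, hJ2⟩ := exists_indep
        (fun i j => Cl 𝕜 (7 * s) (comb 𝕜 (tt K i) X.2.1) (comb 𝕜 (tt K j) X.1))
        (by
          intro i j j' h1 h2
          by_contra hne
          have h3 := comb_sep (tt_nonneg K j) (tt_le K j) (tt_nonneg K j') (tt_le K j') H.ha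
            (h1.symm.trans h2)
          have h4 := tt_sep K j j' hne
          rw [hsK] at h4
          linarith)
        (by
          intro i i' j h1 h2
          by_contra hne
          have h3 := comb_sep (tt_nonneg K i) (tt_le K i) (tt_nonneg K i') (tt_le K i') H.ha'
            (h1.trans h2.symm)
          have h4 := tt_sep K i i' hne
          rw [hsK] at h4
          linarith)
      exact ⟨J, fun _ => ⟨hJ1, hJ2⟩⟩
    · exact ⟨∅, fun h => absurd h hX⟩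
  choose J hJ' using hJ
  -- neighbourhoods
  let N : F → Fin K → Finset {a // a ∈ I} := fun X i => Finset.univ.filter fun a =>
    Cl 𝕜 (3 * s) (a : E) (tauh 𝕜 (tt K i) s X.2.1 X.2.2) ∨
      Cl 𝕜 (3 * s) (a : E) (comb 𝕜 (tt K i) X.1)
  let p : F → Fin K → {a // a ∈ I} → Bool := fun X i a => decide ((a : E) = tgt X i)
  have hloc : ∀ x : E, (I.filter fun a => Cl 𝕜 (3 * s) a x).card ≤ L1 := by
    intro x
    have h1 := local_count (𝕜 := 𝕜) hδ (by positivity : (0 : ℝ) ≤ 3 * s) I hI2 x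
      (I.filter fun a => Cl 𝕜 (3 * s) a x) (Finset.filter_subset _ _)
      (fun a ha => (Finset.mem_filter.1 ha).2)
    have h2 : (1 + 2 * (3 * s) / (s / 100)) = 601 := by
      field_simp; norm_num
    rw [h2] at h1
    exact_mod_cast h1
  have hNL : ∀ X ∈ 𝒩, ∀ i ∈ J X, (N X i).card ≤ 2 * L1 := by
    intro X _ i _
    have h1 : (N X i).card ≤ ((I.filter fun a => Cl 𝕜 (3 * s) a (tauh 𝕜 (tt K i) s X.2.1 X.2.2)) ∪
        (I.filter fun a => Cl 𝕜 (3 * s) a (comb 𝕜 (tt K i) X.1))).card := by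
      refine Finset.card_le_card_of_injOn (fun a => (a : E)) ?_ ?_
      · intro a ha
        rw [Finset.mem_coe, Finset.mem_filter] at ha
        rw [Finset.mem_coe, Finset.mem_union, Finset.mem_filter, Finset.mem_filter]
        rcases ha.2 with h | h
        · exact Or.inl ⟨a.2, h⟩
        · exact Or.inr ⟨a.2, h⟩
      · intro a _ b _ hab
        exact Subtype.ext hab
    refine h1.trans ((Finset.card_union_le _ _).trans ?_)
    have := hloc (tauh 𝕜 (tt K i) s X.2.1 X.2.2)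
    have := hloc (comb 𝕜 (tt K i) X.1)
    omega
  have hdisj : ∀ X ∈ 𝒩, ∀ i ∈ J X, ∀ j ∈ J X, i ≠ j → Disjoint (N X i) (N X j) := by
    intro X hX i hi j hj hij
    have hXT : X ∈ T := h𝒩T hX
    obtain ⟨hJ1, -⟩ := hJ' X hXT
    obtain ⟨h, H⟩ := hXT
    have hti : ∀ k : Fin K, Cl 𝕜 (s / 2) (tauh 𝕜 (tt K k) s X.2.1 X.2.2)
        (comb 𝕜 (tt K k) X.2.1) := fun k =>
      Cl.of_norm (H.tauh_sub (tt_nonneg K k) (tt_le K k) hs0 hs1)
    rw [Finset.disjoint_left]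
    intro a h1 h2
    rw [Finset.mem_filter] at h1 h2
    have h4 := tt_sep K i j hij
    rw [hsK] at h4
    rcases h1.2 with h1 | h1 <;> rcases h2.2 with h2 | h2
    · have h3 := ((hti i).symm.trans h1.symm).trans (h2.trans (hti j))
      have h5 := comb_sep (tt_nonneg K i) (tt_le K i) (tt_nonneg K j) (tt_le K j) H.ha' h3
      linarith
    · have h3 := ((hti i).symm.trans h1.symm).trans h2
      exact hJ1 i hi j hj hij (h3.mono (by linarith))
    · have h3 := ((hti j).symm.trans h2.symm).trans h1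
      exact hJ1 j hj i hi hij.symm (h3.mono (by linarith))
    · have h3 := h1.symm.trans h2
      have h5 := comb_sep (tt_nonneg K i) (tt_le K i) (tt_nonneg K j) (tt_le K j) H.ha h3
      linarith
  have hJm : ∀ X ∈ 𝒩, K0 ≤ (J X).card := by
    intro X hX
    obtain ⟨-, h1⟩ := hJ' X (h𝒩T hX)
    rw [Fintype.card_fin] at h1
    omega
  have hcount' : (𝒩.card : ℝ) * (1 - (1 / 2) ^ (2 * L1)) ^ K0 < 1 := by
    have h1 : (1 + 2 * 1 / (s / 100)) = 1 + 60000 * (K0 : ℝ) := by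
      rw [hs, hKr]
      have : (K0 : ℝ) ≠ 0 := by positivity
      field_simp
      norm_num
      ring
    rw [h1] at h𝒩card
    have hq0 : (0 : ℝ) ≤ 1 - (1 / 2) ^ (2 * L1) := by
      have : (1 / 2 : ℝ) ^ (2 * L1) ≤ 1 := pow_le_one₀ (by norm_num) (by norm_num)
      linarith
    calc (𝒩.card : ℝ) * (1 - (1 / 2) ^ (2 * L1)) ^ K0
        ≤ (1 + 60000 * (K0 : ℝ)) ^ m1 * (1 - (1 / 2) ^ (2 * L1)) ^ K0 := by gcongr
      _ < 1 := hcount
  obtain ⟨β, hβ⟩ := exists_good_colouring 𝒩 J N p (2 * L1) K0 hdisj hNL hJm hcount'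
  -- the set `Ω`
  set βe : E → Bool := fun a => if h : a ∈ I then β ⟨a, h⟩ else false with hβe
  have hβeI : ∀ a (ha : a ∈ I), βe a = β ⟨a, ha⟩ := fun a ha => by simp [hβe, ha]
  set Ω : Finset E := I.filter fun a => βe a = true ∧
    ∀ a' ∈ I, a' ≠ a → Cl 𝕜 (2 * s) a' a → βe a' = false with hΩ
  have hΩI : ∀ a ∈ Ω, a ∈ I := fun a ha => (Finset.mem_filter.1 ha).1
  have hc0 : 0 < 1 - s ^ 2 := by nlinarith
  have hAdm : Adm 𝕜 Ω (Real.sqrt (1 - s ^ 2)) s := by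
    refine ⟨Real.sqrt_pos.2 hc0, hs0, ?_, fun ω hω => hI1 ω (hΩI ω hω), ?_⟩
    · rw [Real.sq_sqrt hc0.le]; ring
    · intro ω hω ω' hω' hne
      have h1 : ¬ Cl 𝕜 (2 * s) ω ω' := by
        intro hcl
        have h2 := (Finset.mem_filter.1 hω').2.2 ω (hΩI ω hω) hne hcl
        have h3 := (Finset.mem_filter.1 hω).2.1
        rw [h2] at h3
        exact absurd h3 (by decide)
      have h2 := inner_lt_of_not_cl (by positivity) (hI1 ω (hΩI ω hω)) (hI1 ω' (hΩI ω' hω')) h1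
      have h3 : 1 - (2 * s) ^ 2 / 2 = 1 - 2 * s ^ 2 := by ring
      rwa [h3] at h2
  -- verification for triples
  have hmain : ∀ a a' V : Fin 2 → E, ∀ h : ℝ, Trip 𝕜 a a' V h →
      ∃ ω ∈ Ω, 1 - s ^ 2 / 4 ≤ en 𝕜 a' ω ∧ en 𝕜 a ω ≤ en 𝕜 a' ω ∧
      ∀ ω' ∈ Ω, ∀ μ : 𝕜, ‖μ‖ = 1 → ‖μ • ω' - ∑ i, ⟪a' i, ω⟫_𝕜 • a i‖ ≤ 3 / 4 * s →
        ω' = ω := by
    intro a a' V h H
    obtain ⟨Y, hY, hXY⟩ := h𝒩cov (a, a', V) ⟨h, H⟩
    have hYT : Y ∈ T := h𝒩T hY
    obtain ⟨i, hi, hpat⟩ := hβ Y hY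
    obtain ⟨htI, htcl⟩ := htgt' Y i hYT
    obtain ⟨h', H'⟩ := hYT
    have d1 : ‖a - Y.1‖ ≤ s / 100 := by
      have := norm_fst_le ((a, a', V) - Y)
      exact this.trans hXY.le
    have d23 : ‖((a', V) : (Fin 2 → E) × (Fin 2 → E)) - Y.2‖ ≤ s / 100 := by
      have := norm_snd_le ((a, a', V) - Y)
      exact this.trans hXY.le
    have d2 : ‖a' - Y.2.1‖ ≤ s / 100 :=
      (norm_fst_le (((a', V) : (Fin 2 → E) × (Fin 2 → E)) - Y.2)).trans d23
    have d3 : ‖V - Y.2.2‖ ≤ s / 100 :=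
      (norm_snd_le (((a', V) : (Fin 2 → E) × (Fin 2 → E)) - Y.2)).trans d23
    set ω := tgt Y i with hω
    have hωn : ‖ω‖ = 1 := hI1 ω htI
    obtain ⟨v1, v2, v3⟩ := verify H H' (tt_nonneg K i) (tt_le K i) hs0 hs1
      (fun j => (norm_le_pi_norm (a - Y.1) j).trans d1)
      (fun j => (norm_le_pi_norm (a' - Y.2.1) j).trans d2)
      (fun j => (norm_le_pi_norm (V - Y.2.2) j).trans d3) hωn htcl.symm
    have hpat' : ∀ b (hb : b ∈ I), (Cl 𝕜 (3 * s) b (tauh 𝕜 (tt K i) s Y.2.1 Y.2.2) ∨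
        Cl 𝕜 (3 * s) b (comb 𝕜 (tt K i) Y.1)) → βe b = decide (b = ω) := by
      intro b hb hbcl
      rw [hβeI b hb]
      exact hpat ⟨b, hb⟩ (Finset.mem_filter.2 ⟨Finset.mem_univ _, hbcl⟩)
    have hωΩ : ω ∈ Ω := by
      rw [hΩ, Finset.mem_filter]
      refine ⟨htI, ?_, ?_⟩
      · rw [hpat' ω htI (Or.inl (htcl.symm.mono (by linarith)))]
        simp
      · intro b hb hbne hbcl
        rw [hpat' b hb (Or.inl ((hbcl.trans htcl.symm).mono (by linarith)))]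
        simpa using hbne
    refine ⟨ω, hωΩ, v1, v2, ?_⟩
    intro ω' hω' μ hμ hle
    have h1 := v3 ω' μ hμ hle
    have h2 := hpat' ω' (hΩI ω' hω') (Or.inr h1)
    have h3 := (Finset.mem_filter.1 hω').2.1
    rw [h3] at h2
    simpa using h2.symm
  refine ⟨Ω, Real.sqrt (1 - s ^ 2), s, hAdm, ?_⟩
  intro a a' ha ha' hne
  rcases exists_trip ha ha' hne with ⟨V, h, H⟩ | ⟨V, h, H⟩
  · exact hmain a a' V h H
  · obtain ⟨ω, hω, h1, h2, h3⟩ := hmain _ _ V h H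
    have e1 : ∀ (b : Fin 2 → E) (x : E), en 𝕜 ![b 1, b 0] x = en 𝕜 b x := by
      intro b x
      unfold en
      simp only [Fin.sum_univ_two, Matrix.cons_val_zero, Matrix.cons_val_one]
      rw [add_comm]
    rw [e1] at h1 h2
    rw [e1] at h2
    refine ⟨ω, hω, h1, h2, ?_⟩
    intro ω' hω' μ hμ hle
    refine h3 ω' hω' μ hμ ?_
    simp only [Fin.sum_univ_two, Matrix.cons_val_zero, Matrix.cons_val_one] at hle ⊢
    rwa [add_comm (⟪a' 1, ω⟫_𝕜 • a 1)]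

end Pool.Agent.Helper324.CE
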