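import Mathlib
import Pool.Agent.Helper324.Asym

open Matrix Polynomial Module

namespace Pool.Agent.Helper324

variable {n : ℕ}

/-- the described maps -/
def Form (φ : Matrix (Fin n) (Fin n) ℂ → Matrix (Fin n) (Fin n) ℂ) : Prop :=
  ∃ (A : (Matrix (Fin n) (Fin n) ℂ)ˣ) (ξ η : Matrix (Fin n) (Fin n) ℂ → ℂ),
    (∀ T, ξ T = 1 ∨ ξ T = -1) ∧ (∀ T S, ¬ Quad T → ¬ Quad S → ξ T = ξ S) ∧
    ((∀ T, φ T = ξ T • ((A : Matrix (Fin n) (Fin n) ℂ) * T * (A⁻¹ : (Matrix (Fin n) (Fin n) ℂ)ˣ))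
        + η T • (1 : Matrix (Fin n) (Fin n) ℂ)) ∨
     (∀ T, φ T = (Complex.I * ξ T) •
        ((A : Matrix (Fin n) (Fin n) ℂ) * Tᵀ * (A⁻¹ : (Matrix (Fin n) (Fin n) ℂ)ˣ))
        + η T • (1 : Matrix (Fin n) (Fin n) ℂ)))

theorem comm_affine (A B : Matrix (Fin n) (Fin n) ℂ) (a b x y : ℂ) :
    (a • A + x • (1 : Matrix (Fin n) (Fin n) ℂ)) * (b • B + y • (1 : Matrix (Fin n) (Fin n) ℂ)) -
    (b • B + y • (1 : Matrix (Fin n) (Fin n) ℂ)) * (a • A + x • (1 : Matrix (Fin n) (Fin n) ℂ)) =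
    (a * b) • (A * B - B * A) := by
  simp only [add_mul, mul_add, smul_mul_assoc, mul_smul_comm, mul_one, one_mul]
  module

theorem comm_conj (A : (Matrix (Fin n) (Fin n) ℂ)ˣ) (T S : Matrix (Fin n) (Fin n) ℂ) :
    ((A : Matrix (Fin n) (Fin n) ℂ) * T * (A⁻¹ : (Matrix (Fin n) (Fin n) ℂ)ˣ)) *
      ((A : Matrix (Fin n) (Fin n) ℂ) * S * (A⁻¹ : (Matrix (Fin n) (Fin n) ℂ)ˣ)) -
    ((A : Matrix (Fin n) (Fin n) ℂ) * S * (A⁻¹ : (Matrix (Fin n) (Fin n) ℂ)ˣ)) *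
      ((A : Matrix (Fin n) (Fin n) ℂ) * T * (A⁻¹ : (Matrix (Fin n) (Fin n) ℂ)ˣ)) =
    (A : Matrix (Fin n) (Fin n) ℂ) * (T * S - S * T) * (A⁻¹ : (Matrix (Fin n) (Fin n) ℂ)ˣ) := by
  have h : ∀ T S : Matrix (Fin n) (Fin n) ℂ,
      ((A : Matrix (Fin n) (Fin n) ℂ) * T * (A⁻¹ : (Matrix (Fin n) (Fin n) ℂ)ˣ)) *
      ((A : Matrix (Fin n) (Fin n) ℂ) * S * (A⁻¹ : (Matrix (Fin n) (Fin n) ℂ)ˣ)) =
      (A : Matrix (Fin n) (Fin n) ℂ) * (T * S) * (A⁻¹ : (Matrix (Fin n) (Fin n) ℂ)ˣ) := by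
    intro T S
    calc _ = (A : Matrix (Fin n) (Fin n) ℂ) * T *
        (((A⁻¹ : (Matrix (Fin n) (Fin n) ℂ)ˣ) : Matrix (Fin n) (Fin n) ℂ) * A) * S *
        (A⁻¹ : (Matrix (Fin n) (Fin n) ℂ)ˣ) := by noncomm_ring
      _ = _ := by rw [Units.inv_mul]; noncomm_ring
  rw [h, h, mul_sub, sub_mul]

theorem spectrum_transpose (A : Matrix (Fin n) (Fin n) ℂ) : spectrum ℂ Aᵀ = spectrum ℂ A := by
  ext l
  rw [Matrix.mem_spectrum_iff_isRoot_charpoly, Matrix.mem_spectrum_iff_isRoot_charpoly,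
    Matrix.charpoly_transpose]

theorem spectrum_neg_of_quad {T S : Matrix (Fin n) (Fin n) ℂ} (h : Quad T ∨ Quad S) :
    spectrum ℂ (-(T * S - S * T)) = spectrum ℂ (T * S - S * T) := by
  have key : ∀ l ∈ spectrum ℂ (T * S - S * T), -l ∈ spectrum ℂ (T * S - S * T) := by
    intro l hl
    rcases h with h | h
    · exact quad_symm h S hl
    · have e : T * S - S * T = -(S * T - T * S) := by abel
      rw [e, ← spectrum.neg_eq] at hl ⊢
      rw [Set.mem_neg] at hl ⊢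
      exact quad_symm h T hl
  ext l
  rw [← spectrum.neg_eq, Set.mem_neg]
  constructor
  · intro hl
    have := key _ hl
    rwa [neg_neg] at this
  · intro hl
    exact key _ hl

theorem pres_of_form {φ : Matrix (Fin n) (Fin n) ℂ → Matrix (Fin n) (Fin n) ℂ} (h : Form φ) :
    Pres φ := by
  obtain ⟨A, ξ, η, h1, h2, h3⟩ := h
  intro T S
  have hs : spectrum ℂ ((ξ T * ξ S) • (T * S - S * T)) = spectrum ℂ (T * S - S * T) := by
    by_cases hTS : ξ T * ξ S = 1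
    · rw [hTS, one_smul]
    · have hm : ξ T * ξ S = -1 := by
        rcases h1 T with e1 | e1 <;> rcases h1 S with e2 | e2 <;> simp [e1, e2] at hTS ⊢
      rw [hm, neg_smul, one_smul]
      apply spectrum_neg_of_quad
      by_contra hcon
      push Not at hcon
      have e3 := h2 T S hcon.1 hcon.2
      apply hTS
      rw [e3]
      rcases h1 S with e2 | e2 <;> rw [e2] <;> norm_num
  rcases h3 with h3 | h3
  · rw [h3 T, h3 S, comm_affine, comm_conj, ← smul_mul_assoc, ← mul_smul_comm,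
      spectrum.units_conjugate, hs]
  · rw [h3 T, h3 S, comm_affine, comm_conj, ← smul_mul_assoc, ← mul_smul_comm,
      spectrum.units_conjugate]
    have e1 : (Complex.I * ξ T * (Complex.I * ξ S)) • (Tᵀ * Sᵀ - Sᵀ * Tᵀ) =
        ((ξ T * ξ S) • (T * S - S * T))ᵀ := by
      rw [Matrix.transpose_smul, Matrix.transpose_sub, Matrix.transpose_mul,
        Matrix.transpose_mul]
      have e2 : Complex.I * ξ T * (Complex.I * ξ S) = - (ξ T * ξ S) := by
        linear_combination (ξ T * ξ S) * Complex.I_mul_I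
      rw [e2]
      module
    rw [e1, spectrum_transpose, hs]

theorem form_conj {φ : Matrix (Fin n) (Fin n) ℂ → Matrix (Fin n) (Fin n) ℂ} (h : Form φ)
    (A : (Matrix (Fin n) (Fin n) ℂ)ˣ) :
    Form (fun T => (A : Matrix (Fin n) (Fin n) ℂ) * φ T * (A⁻¹ : (Matrix (Fin n) (Fin n) ℂ)ˣ)) := by
  obtain ⟨B, ξ, η, h1, h2, h3⟩ := h
  refine ⟨A * B, ξ, η, h1, h2, ?_⟩
  rcases h3 with h3 | h3
  · left
    intro T
    simp only [h3 T, mul_add, add_mul, mul_smul_comm, smul_mul_assoc, mul_one, Units.mul_inv,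
      _root_.mul_inv_rev, Units.val_mul, mul_assoc]
  · right
    intro T
    simp only [h3 T, mul_add, add_mul, mul_smul_comm, smul_mul_assoc, mul_one, Units.mul_inv,
      _root_.mul_inv_rev, Units.val_mul, mul_assoc]

theorem form_trans {φ : Matrix (Fin n) (Fin n) ℂ → Matrix (Fin n) (Fin n) ℂ} (h : Form φ)
    (A : (Matrix (Fin n) (Fin n) ℂ)ˣ) :
    Form (fun T => (-Complex.I) • ((A : Matrix (Fin n) (Fin n) ℂ) * (φ T)ᵀ *
      (A⁻¹ : (Matrix (Fin n) (Fin n) ℂ)ˣ))) := by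
  obtain ⟨B, ξ, η, h1, h2, h3⟩ := h
  let D : (Matrix (Fin n) (Fin n) ℂ)ˣ :=
    { val := (A : Matrix (Fin n) (Fin n) ℂ) *
        (((B⁻¹ : (Matrix (Fin n) (Fin n) ℂ)ˣ) : Matrix (Fin n) (Fin n) ℂ))ᵀ
      inv := (B : Matrix (Fin n) (Fin n) ℂ)ᵀ * ((A⁻¹ : (Matrix (Fin n) (Fin n) ℂ)ˣ))
      val_inv := by
        calc _ = (A : Matrix (Fin n) (Fin n) ℂ) *
            ((((B⁻¹ : (Matrix (Fin n) (Fin n) ℂ)ˣ) : Matrix (Fin n) (Fin n) ℂ))ᵀ *
            (B : Matrix (Fin n) (Fin n) ℂ)ᵀ) * (A⁻¹ : (Matrix (Fin n) (Fin n) ℂ)ˣ) := by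
              noncomm_ring
          _ = 1 := by
            rw [← Matrix.transpose_mul, Units.mul_inv, Matrix.transpose_one, mul_one,
              Units.mul_inv]
      inv_val := by
        calc _ = (B : Matrix (Fin n) (Fin n) ℂ)ᵀ *
            ((((A⁻¹ : (Matrix (Fin n) (Fin n) ℂ)ˣ) : Matrix (Fin n) (Fin n) ℂ)) * A) *
            (((B⁻¹ : (Matrix (Fin n) (Fin n) ℂ)ˣ) : Matrix (Fin n) (Fin n) ℂ))ᵀ := by
              noncomm_ring
          _ = 1 := by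
            rw [Units.inv_mul, mul_one, ← Matrix.transpose_mul, Units.inv_mul,
              Matrix.transpose_one] }
  have hD : (D : Matrix (Fin n) (Fin n) ℂ) = (A : Matrix (Fin n) (Fin n) ℂ) *
        (((B⁻¹ : (Matrix (Fin n) (Fin n) ℂ)ˣ) : Matrix (Fin n) (Fin n) ℂ))ᵀ := rfl
  have hD' : ((D⁻¹ : (Matrix (Fin n) (Fin n) ℂ)ˣ) : Matrix (Fin n) (Fin n) ℂ) =
      (B : Matrix (Fin n) (Fin n) ℂ)ᵀ * ((A⁻¹ : (Matrix (Fin n) (Fin n) ℂ)ˣ)) := rfl
  rcases h3 with h3 | h3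
  · refine ⟨D, fun T => - ξ T, fun T => -Complex.I * η T, ?_, ?_, Or.inr ?_⟩
    · intro T
      rcases h1 T with e | e <;> simp [e]
    · intro T S hT hS
      simp [h2 T S hT hS]
    · intro T
      simp only [h3 T, hD, hD', Matrix.transpose_add, Matrix.transpose_smul,
        Matrix.transpose_mul, Matrix.transpose_one, mul_add, add_mul, mul_smul_comm,
        smul_mul_assoc, mul_one, Units.mul_inv, mul_assoc, smul_add, smul_smul]
      congr 2
      ring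
  · refine ⟨D, ξ, fun T => -Complex.I * η T, h1, h2, Or.inl ?_⟩
    intro T
    simp only [h3 T, hD, hD', Matrix.transpose_add, Matrix.transpose_smul,
      Matrix.transpose_mul, Matrix.transpose_one, mul_add, add_mul, mul_smul_comm,
      smul_mul_assoc, mul_one, Units.mul_inv, mul_assoc, smul_add, smul_smul,
      Matrix.transpose_transpose]
    congr 2
    linear_combination (-ξ T) * Complex.I_mul_I

theorem quad_two (T : Matrix (Fin 2) (Fin 2) ℂ) : Quad T := by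
  refine ⟨T.trace / 2, (T.trace / 2) ^ 2 - T.det, ?_⟩
  ext i j
  fin_cases i <;> fin_cases j <;>
    simp [Matrix.mul_apply, Fin.sum_univ_two, Matrix.trace, Matrix.det_fin_two,
      Matrix.one_apply] <;> ring

theorem quad_one (T : Matrix (Fin 1) (Fin 1) ℂ) : Quad T := by
  refine ⟨T 0 0, 0, ?_⟩
  ext i j
  fin_cases i
  fin_cases j
  simp [Matrix.mul_apply]

theorem quad_zero (T : Matrix (Fin 0) (Fin 0) ℂ) : Quad T :=
  ⟨0, 0, by ext i; exact i.elim0⟩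

end Pool.Agent.Helper324
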